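import Mathlib

/-!
# KEY: short stays are controlled by the drift measure
-/

namespace Key67

open MeasureTheory Set Filter Topology

noncomputable section

/-- `ψ_δ(t) = min(1, (V(t+δ) - V(t)) / m(t))`, zero where `m(t) = 0`. -/
def psi (V : StieltjesFunction ℝ) (m : ℝ → ℝ) (δ t : ℝ) : ℝ :=
  if m t = 0 then 0 else min 1 ((V (t + δ) - V t) / m t)

variable {V : StieltjesFunction ℝ} {m : ℝ → ℝ}

theorem psi_nonneg (hm0 : ∀ t, 0 ≤ m t) {δ : ℝ} (hδ : 0 ≤ δ) (t : ℝ) : 0 ≤ psi V m δ t := by
  unfold psi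
  split_ifs with h
  · exact le_rfl
  · exact le_min zero_le_one (div_nonneg (sub_nonneg.2 (V.mono (by linarith))) (hm0 t))

theorem psi_le_one (δ t : ℝ) : psi V m δ t ≤ 1 := by
  unfold psi
  split_ifs with h
  · exact zero_le_one
  · exact min_le_left _ _

theorem psi_measurable (hm : Measurable m) (δ : ℝ) : Measurable (psi V m δ) := by
  have hV : Measurable (V : ℝ → ℝ) := V.mono.measurable
  refine Measurable.ite (hm (measurableSet_singleton 0)) measurable_const ?_
  exact measurable_const.min (((hV.comp (measurable_id.add_const δ)).sub hV).div hm)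

theorem psi_integrable (hm : Measurable m) (hm0 : ∀ t, 0 ≤ m t) {δ : ℝ} (hδ : 0 ≤ δ) (a b : ℝ) :
    IntegrableOn (psi V m δ) (Ioc a b) V.measure := by
  have hfin : V.measure (Ioc a b) < ⊤ := by
    rw [V.measure_Ioc]
    exact ENNReal.ofReal_lt_top
  refine Measure.integrableOn_of_bounded (M := 1) hfin.ne
    (psi_measurable hm δ).aestronglyMeasurable (Eventually.of_forall fun t => ?_)
  rw [Real.norm_eq_abs, abs_of_nonneg (psi_nonneg hm0 hδ t)]
  exact psi_le_one δ t

/-- The part of `(s, t]` where `V(t) - V(r) ≤ c` has mass at least `min (V t - V s) c`. -/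
theorem mass_ge {s t c : ℝ} (hst : s ≤ t) (hc : 0 ≤ c) :
    ENNReal.ofReal (min (V t - V s) c) ≤ V.measure (Ioc s t ∩ {r | V t - V r ≤ c}) := by
  by_cases h : V t - V s ≤ c
  · have : Ioc s t ∩ {r | V t - V r ≤ c} = Ioc s t := by
      ext r
      constructor
      · exact fun h => h.1
      · intro hr
        refine ⟨hr, ?_⟩
        have := V.mono hr.1.le
        simp only [mem_ofPred_eq]
        linarith
    rw [this, V.measure_Ioc, min_eq_left h]
  · push Not at h
    rw [min_eq_right h.le]
    -- the set of the points where V is large enough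
    have hne : ({r | s ≤ r ∧ V t - V r ≤ c} : Set ℝ).Nonempty := ⟨t, hst, by simpa using hc⟩
    have hbdd : BddBelow {r | s ≤ r ∧ V t - V r ≤ c} := ⟨s, fun r hr => hr.1⟩
    set τ := sInf {r | s ≤ r ∧ V t - V r ≤ c} with hτ
    have hsτ : s ≤ τ := le_csInf hne fun r hr => hr.1
    have hτt : τ ≤ t := csInf_le hbdd ⟨hst, by simpa using hc⟩
    -- right continuity
    have hVτ : V t - V τ ≤ c := by
      by_contra hlt
      push Not at hlt
      have hcont := V.right_continuous τ
      have : ∀ᶠ r in 𝓝[≥] τ, V r < V t - c :=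
        hcont.eventually_lt (tendsto_const_nhds) (by linarith)
      obtain ⟨u, hu, hsub⟩ := (mem_nhdsGE_iff_exists_Ico_subset' (lt_add_one τ)).1 this
      obtain ⟨r, hr, hru⟩ := exists_lt_of_csInf_lt hne (show τ < u from hu)
      have hτr : τ ≤ r := csInf_le hbdd hr
      have := hsub ⟨hτr, hru⟩
      simp only [mem_ofPred_eq] at this
      linarith [hr.2]
    have hsτ' : s < τ := by
      rcases hsτ.lt_or_eq with h1 | h1
      · exact h1
      · rw [← h1] at hVτ
        linarith
    have hsub : Icc τ t ⊆ Ioc s t ∩ {r | V t - V r ≤ c} := by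
      intro r hr
      refine ⟨⟨hsτ'.trans_le hr.1, hr.2⟩, ?_⟩
      have := V.mono hr.1
      simp only [mem_ofPred_eq]
      linarith
    refine le_trans ?_ (measure_mono hsub)
    rw [V.measure_Icc]
    apply ENNReal.ofReal_le_ofReal
    have : Function.leftLim V τ ≤ V t - c := by
      have hleft : ∀ r, s ≤ r → r < τ → V r ≤ V t - c := by
        intro r hr1 hr2
        by_contra hcon
        push Not at hcon
        have : τ ≤ r := csInf_le hbdd ⟨hr1, by linarith⟩
        linarith
      have hlim := V.mono.tendsto_leftLim τ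
      refine le_of_tendsto hlim ?_
      have h2 : Ioo s τ ∈ 𝓝[<] τ := Ioo_mem_nhdsLT hsτ'
      filter_upwards [h2] with r hr
      exact hleft r hr.1.le hr.2
    linarith

/-- One step of the partition. -/
theorem step (hm : Measurable m) (hm0 : ∀ t, 0 ≤ m t)
    (hmV : ∀ s t, s ≤ t → |m t - m s| ≤ V t - V s) {δ s t : ℝ} (hst : s ≤ t) (hδ : t - s ≤ δ) :
    min (V t - V s) (m t / 2) * (if m t = 0 then 0 else min 1 ((V (t + δ) - V t) / m t)) ≤
      3 / 2 * ∫ r in Ioc s t, psi V m (2 * δ) r ∂V.measure := by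
  have hδ0 : 0 ≤ δ := by linarith
  have hint := psi_integrable (V := V) hm hm0 (δ := 2 * δ) (by linarith) s t
  by_cases hmt : m t = 0
  · rw [if_pos hmt, mul_zero]
    have : 0 ≤ ∫ r in Ioc s t, psi V m (2 * δ) r ∂V.measure :=
      integral_nonneg fun r => psi_nonneg hm0 (by linarith) r
    linarith
  rw [if_neg hmt]
  have hmt0 : 0 < m t := lt_of_le_of_ne (hm0 t) (Ne.symm hmt)
  set W := V (t + δ) - V t with hW
  have hW0 : 0 ≤ W := sub_nonneg.2 (V.mono (by linarith))
  set a := min 1 (W / m t) with ha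
  have ha0 : 0 ≤ a := le_min zero_le_one (div_nonneg hW0 hmt0.le)
  set E := Ioc s t ∩ {r | V t - V r ≤ m t / 2} with hE
  have hVm : Measurable (V : ℝ → ℝ) := V.mono.measurable
  have hEm : MeasurableSet E :=
    measurableSet_Ioc.inter (measurableSet_le (measurable_const.sub hVm) measurable_const)
  have hfin : V.measure E < ⊤ := by
    refine (measure_mono inter_subset_left).trans_lt ?_
    rw [V.measure_Ioc]
    exact ENNReal.ofReal_lt_top
  -- lower bound of psi on E
  have hlow : ∀ r ∈ E, 2 / 3 * a ≤ psi V m (2 * δ) r := by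
    rintro r ⟨hr, hrV⟩
    simp only [mem_ofPred_eq] at hrV
    have h1 := abs_le.1 (hmV r t hr.2)
    have hmr1 : m t / 2 ≤ m r := by linarith
    have hmr2 : m r ≤ 3 / 2 * m t := by linarith
    have hmr0 : 0 < m r := by linarith
    unfold psi
    rw [if_neg hmr0.ne']
    have h2 : W ≤ V (r + 2 * δ) - V r := by
      have h3 : V (t + δ) ≤ V (r + 2 * δ) := V.mono (by linarith [hr.1])
      have h4 : V r ≤ V t := V.mono hr.2
      linarith
    refine le_min ?_ ?_
    · have : a ≤ 1 := min_le_left _ _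
      linarith
    · have h5 : a ≤ W / m t := min_le_right _ _
      have h6 : 2 / 3 * (W / m t) ≤ (V (r + 2 * δ) - V r) / m r := by
        rw [div_eq_mul_inv, div_eq_mul_inv]
        have h7 : 2 / 3 * (m t)⁻¹ ≤ (m r)⁻¹ := by
          have : (3 / 2 * m t)⁻¹ ≤ (m r)⁻¹ := inv_anti₀ hmr0 hmr2
          rw [mul_inv] at this
          linarith [show ((3:ℝ) / 2)⁻¹ = 2 / 3 by norm_num, this,
            show (((3:ℝ) / 2)⁻¹ * (m t)⁻¹) = 2 / 3 * (m t)⁻¹ by norm_num]
        have h8 : 0 ≤ (m r)⁻¹ := inv_nonneg.2 hmr0.le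
        calc 2 / 3 * (W * (m t)⁻¹) = W * (2 / 3 * (m t)⁻¹) := by ring
          _ ≤ W * (m r)⁻¹ := mul_le_mul_of_nonneg_left h7 hW0
          _ ≤ _ := mul_le_mul_of_nonneg_right h2 h8
      linarith
  have hmass := mass_ge (V := V) hst (show 0 ≤ m t / 2 by linarith)
  have hmass' : min (V t - V s) (m t / 2) ≤ V.measure.real E := by
    have h0 : 0 ≤ min (V t - V s) (m t / 2) :=
      le_min (sub_nonneg.2 (V.mono hst)) (by linarith)
    rw [Measure.real, ← ENNReal.toReal_ofReal h0]
    exact ENNReal.toReal_mono hfin.ne hmass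
  have hI : 2 / 3 * a * V.measure.real E ≤ ∫ r in Ioc s t, psi V m (2 * δ) r ∂V.measure := by
    calc 2 / 3 * a * V.measure.real E = ∫ r in E, (2 / 3 * a) ∂V.measure := by
          rw [setIntegral_const, smul_eq_mul, mul_comm]
      _ ≤ ∫ r in E, psi V m (2 * δ) r ∂V.measure := by
          refine setIntegral_mono_on (integrableOn_const hfin.ne) (hint.mono_set inter_subset_left)
            hEm hlow
      _ ≤ _ := by
          refine setIntegral_mono_set hint ?_ inter_subset_left.eventuallyLE
          exact Eventually.of_forall fun r => psi_nonneg hm0 (by linarith) r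
  have h9 : min (V t - V s) (m t / 2) * a ≤ V.measure.real E * a :=
    mul_le_mul_of_nonneg_right hmass' ha0
  nlinarith [h9, hI]

/-- KEY: the sum over a partition. -/
theorem key (hm : Measurable m) (hm0 : ∀ t, 0 ≤ m t)
    (hmV : ∀ s t, s ≤ t → |m t - m s| ≤ V t - V s) {δ : ℝ} (t : ℕ → ℝ) (N : ℕ)
    (ht : ∀ k < N, t k ≤ t (k + 1)) (hδ : ∀ k < N, t (k + 1) - t k ≤ δ) (hδ0 : 0 ≤ δ) :
    ∑ k ∈ Finset.range N, min (V (t (k + 1)) - V (t k)) (m (t (k + 1)) / 2) *
      (if m (t (k + 1)) = 0 then 0 else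
        min 1 ((V (t (k + 1) + δ) - V (t (k + 1))) / m (t (k + 1)))) ≤
      3 / 2 * ∫ r in Ioc (t 0) (t N), psi V m (2 * δ) r ∂V.measure := by
  induction N with
  | zero =>
    have : 0 ≤ ∫ r in Ioc (t 0) (t 0), psi V m (2 * δ) r ∂V.measure :=
      integral_nonneg fun r => psi_nonneg hm0 (by linarith) r
    simpa using this
  | succ N ih =>
    rw [Finset.sum_range_succ]
    have h0N : t 0 ≤ t N := by
      have : ∀ j ≤ N, t 0 ≤ t j := by
        intro j hj
        induction j with
        | zero => exact le_rfl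
        | succ j ihj => exact (ihj (by omega)).trans (ht j (by omega))
      exact this N le_rfl
    have hN := ht N (by omega)
    have h1 := ih (fun k hk => ht k (by omega)) (fun k hk => hδ k (by omega))
    have h2 := step (V := V) hm hm0 hmV hN (hδ N (by omega))
    have h3 : ∫ r in Ioc (t 0) (t (N + 1)), psi V m (2 * δ) r ∂V.measure =
        (∫ r in Ioc (t 0) (t N), psi V m (2 * δ) r ∂V.measure) +
          ∫ r in Ioc (t N) (t (N + 1)), psi V m (2 * δ) r ∂V.measure := by
      rw [← Ioc_union_Ioc_eq_Ioc h0N hN]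
      exact setIntegral_union (Ioc_disjoint_Ioc_of_le le_rfl) measurableSet_Ioc
        (psi_integrable hm hm0 (by linarith) _ _) (psi_integrable hm hm0 (by linarith) _ _)
    rw [h3]
    linarith

/-- The integral tends to zero. -/
theorem psi_tendsto (hm : Measurable m) (hm0 : ∀ t, 0 ≤ m t) (a b : ℝ) :
    Tendsto (fun δ : ℝ => ∫ r in Ioc a b, psi V m δ r ∂V.measure) (𝓝[>] 0) (𝓝 0) := by
  have hfin : V.measure (Ioc a b) ≠ ⊤ := by
    rw [V.measure_Ioc]
    exact ENNReal.ofReal_ne_top
  suffices hs : Tendsto (fun δ : ℝ => ∫ r in Ioc a b, psi V m δ r ∂V.measure) (𝓝[>] 0)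
      (𝓝 (∫ r in Ioc a b, (0 : ℝ) ∂V.measure)) by simpa using hs
  refine tendsto_integral_filter_of_dominated_convergence (fun _ => (1 : ℝ))
    (Eventually.of_forall fun δ => (psi_measurable hm δ).aestronglyMeasurable) ?_
    (integrableOn_const hfin) ?_
  · filter_upwards [self_mem_nhdsWithin] with δ hδ
    refine Eventually.of_forall fun r => ?_
    rw [Real.norm_eq_abs, abs_of_nonneg (psi_nonneg hm0 (le_of_lt hδ) r)]
    exact psi_le_one δ r
  · refine Eventually.of_forall fun r => ?_
    unfold psi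
    by_cases hr : m r = 0
    · simp [hr]
    · simp only [if_neg hr]
      have h1 : Tendsto (fun δ : ℝ => V (r + δ)) (𝓝[>] 0) (𝓝 (V r)) := by
        have h2 := V.right_continuous r
        have h3 : Tendsto (fun δ : ℝ => r + δ) (𝓝[>] 0) (𝓝[≥] r) := by
          refine tendsto_nhdsWithin_iff.2 ⟨?_, ?_⟩
          · have : Tendsto (fun δ : ℝ => r + δ) (𝓝 0) (𝓝 (r + 0)) := by
              exact (continuous_const.add continuous_id).tendsto 0
            rw [add_zero] at this
            exact this.mono_left nhdsWithin_le_nhds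
          · filter_upwards [self_mem_nhdsWithin] with δ hδ
            have : (0 : ℝ) < δ := hδ
            show r ≤ r + δ
            linarith
        exact h2.tendsto.comp h3
      have h4 : Tendsto (fun δ : ℝ => (V (r + δ) - V r) / m r) (𝓝[>] 0) (𝓝 ((V r - V r) / m r)) :=
        (h1.sub tendsto_const_nhds).div_const _
      rw [sub_self, zero_div] at h4
      have h5 := (tendsto_const_nhds (x := (1 : ℝ)) (f := 𝓝[>] (0 : ℝ))).min h4
      simpa using h5

end

end Key67
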