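import Pool.Agent.Lib.MP_b499b5_pr.Rows23
import Pool.Agent.Lib.MP_b499b5_pr.Key67

/-!
# Row AN
-/

set_option autoImplicit false

namespace LimCurt

open MeasureTheory Filter Topology Set

theorem an (V m : ℝ → ℝ) (hV : Monotone V) (hVr : ∀ t, ContinuousWithinAt V (Ici t) t)
    (hm0 : ∀ t, 0 ≤ m t) (hm : ∀ s t, s ≤ t → |m t - m s| ≤ V t - V s) (ε : ℝ) (hε : 0 < ε) :
    ∃ δ₀ > 0, ∀ δ, 0 < δ → δ ≤ δ₀ → ∀ (Q : ℕ) (t f : ℕ → ℝ), t 0 = 0 → t Q = 1 →
      (∀ k < Q, t k ≤ t (k + 1) ∧ t (k + 1) - t k ≤ δ) →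
      (∀ k < Q, 0 ≤ f k ∧ f k ≤ m (t (k + 1)) ∧ f k ≤ 2 * (V (t (k + 1)) - V (t k))) →
      ∑ k ∈ Finset.range Q, f k *
        min 1 ((V (t (k + 1) + δ) - V (t (k + 1))) / m (t (k + 1))) ≤ ε := by
  let V' : StieltjesFunction ℝ := ⟨V, hV, hVr⟩
  have hVV : ∀ x, V' x = V x := fun x => rfl
  have hmm : Measurable m := by
    have h1 : Monotone fun x => m x + V x := by
      intro s t hst
      have := abs_le.1 (hm s t hst)
      simp only
      linarith
    have h2 : m = fun x => (m x + V x) - V x := by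
      funext x
      ring
    rw [h2]
    exact h1.measurable.sub hV.measurable
  have hlim := Key67.psi_tendsto (V := V') hmm hm0 0 1
  have hev : ∀ᶠ δ : ℝ in 𝓝[>] 0,
      ∫ r in Ioc (0 : ℝ) 1, Key67.psi V' m δ r ∂V'.measure < ε / 3 :=
    hlim.eventually_lt tendsto_const_nhds (by linarith)
  obtain ⟨u, hu, hsub⟩ := (mem_nhdsGT_iff_exists_Ioo_subset).1 hev
  have hu0 : (0 : ℝ) < u := hu
  refine ⟨u / 4, by linarith, fun δ hδ hδ0 Q t f ht0 htQ hst hf => ?_⟩
  have hI : ∫ r in Ioc (0 : ℝ) 1, Key67.psi V' m (2 * δ) r ∂V'.measure < ε / 3 :=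
    hsub ⟨by linarith, by linarith⟩
  have hkey := Key67.key (V := V') hmm hm0 hm (δ := δ) t Q (fun k hk => (hst k hk).1)
    (fun k hk => (hst k hk).2) hδ.le
  rw [ht0, htQ] at hkey
  have hle : ∑ k ∈ Finset.range Q, f k *
        min 1 ((V (t (k + 1) + δ) - V (t (k + 1))) / m (t (k + 1))) ≤
      2 * ∑ k ∈ Finset.range Q, min (V' (t (k + 1)) - V' (t k)) (m (t (k + 1)) / 2) *
        (if m (t (k + 1)) = 0 then 0 else
          min 1 ((V' (t (k + 1) + δ) - V' (t (k + 1))) / m (t (k + 1)))) := by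
    rw [Finset.mul_sum]
    refine Finset.sum_le_sum fun k hk => ?_
    have hk' := Finset.mem_range.1 hk
    obtain ⟨h1, h2, h3⟩ := hf k hk'
    by_cases h0 : m (t (k + 1)) = 0
    · have : f k = 0 := le_antisymm (h0 ▸ h2) h1
      rw [this, if_pos h0]
      simp
    · rw [if_neg h0]
      have hW : 0 ≤ min 1 ((V (t (k + 1) + δ) - V (t (k + 1))) / m (t (k + 1))) :=
        le_min zero_le_one (div_nonneg (sub_nonneg.2 (hV (by linarith))) (hm0 _))
      have h4 : f k ≤ 2 * min (V' (t (k + 1)) - V' (t k)) (m (t (k + 1)) / 2) := by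
        rw [mul_min_of_nonneg _ _ (by norm_num : (0 : ℝ) ≤ 2)]
        refine le_min h3 ?_
        linarith
      calc f k * min 1 ((V (t (k + 1) + δ) - V (t (k + 1))) / m (t (k + 1))) ≤
            (2 * min (V' (t (k + 1)) - V' (t k)) (m (t (k + 1)) / 2)) *
              min 1 ((V (t (k + 1) + δ) - V (t (k + 1))) / m (t (k + 1))) :=
            mul_le_mul_of_nonneg_right h4 hW
        _ = _ := by rw [mul_assoc]
  linarith

end LimCurt
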