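import Pool.Agent.Lib.MP_b499b5_pr.Rows23

/-!
# Canonical parameters of the paths of a discretised process
-/

set_option autoImplicit false

namespace LimCurt

open MeasureTheory Filter Topology Set

namespace CAN23

/-- An initial segment is determined by its cardinality. -/
theorem mem_iff_lt {n : ℕ} (A : Finset (Fin n)) (hA : ∀ i j, i ≤ j → j ∈ A → i ∈ A) (i : Fin n) :
    i ∈ A ↔ i.val < A.card := by
  constructor
  · intro hi
    have h1 : Finset.Iic i ⊆ A := fun j hj => hA j i (Finset.mem_Iic.1 hj) hi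
    have h2 := Finset.card_le_card h1
    rw [Fin.card_Iic] at h2
    omega
  · intro hi
    by_contra hni
    have h1 : A ⊆ Finset.Iio i := fun j hj => by
      rw [Finset.mem_Iio]
      by_contra h
      exact hni (hA i j (not_lt.1 h) hj)
    have h2 := Finset.card_le_card h1
    rw [Fin.card_Iio] at h2
    omega

section

variable (Q : ℕ) (ω : ℕ → ℝ)

open Classical in
/-- The indices of the jumps in `(0,1)`. -/
noncomputable def J : Finset ℕ := (Finset.range Q).filter fun k => 0 < k ∧ ω k ≠ ω (k - 1)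

/-- The enumeration of the jump indices. -/
noncomputable def e : Fin (J Q ω).card ↪o ℕ := (J Q ω).orderEmbOfFin rfl

theorem e_mem (i : Fin (J Q ω).card) : e Q ω i < Q ∧ 0 < e Q ω i ∧ ω (e Q ω i) ≠ ω (e Q ω i - 1) := by
  have h := (J Q ω).orderEmbOfFin_mem rfl i
  have h2 := Finset.mem_filter.1 h
  exact ⟨Finset.mem_range.1 h2.1, h2.2.1, h2.2.2⟩

/-- The index of the value after `i` jumps. -/
noncomputable def idx (i : Fin ((J Q ω).card + 1)) : ℕ := Fin.cases 0 (fun j => e Q ω j) i

theorem idx_le (i : Fin ((J Q ω).card + 1)) : idx Q ω i ≤ Q := by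
  refine Fin.cases ?_ (fun j => ?_) i
  · exact Nat.zero_le _
  · exact (e_mem Q ω j).1.le

theorem t_lt {t : ℕ → I} (ht : IsPart Q t) {k l : ℕ} (hkl : k < l) (hl : l ≤ Q) : t k < t l := by
  induction l with
  | zero => omega
  | succ l ih =>
    rcases Nat.lt_succ_iff_lt_or_eq.1 hkl with h | rfl
    · exact (ih h (by omega)).trans (ht.2.2 l (by omega))
    · exact ht.2.2 k (by omega)

/-- The canonical parameters. -/
noncomputable def par {t : ℕ → I} (ht : IsPart Q t) : Z :=
  ⟨(J Q ω).card, ⟨⟨fun i => (t (e Q ω i) : ℝ), by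
    constructor
    · intro i j hij
      exact t_lt Q ht ((e Q ω).strictMono hij) (e_mem Q ω j).1.le
    · intro i
      constructor
      · have h := t_lt Q ht (e_mem Q ω i).2.1 (e_mem Q ω i).1.le
        rw [ht.1] at h
        exact h
      · have h := t_lt Q ht (e_mem Q ω i).1 le_rfl
        rw [ht.2.1] at h
        exact h⟩,
    fun i => ω (idx Q ω i), ω Q⟩⟩

theorem const_of_no_jump {a k : ℕ} (hak : a ≤ k) (hk : k < Q)
    (h : ∀ j, a < j → j ≤ k → j ∉ J Q ω) : ω k = ω a := by
  induction k with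
  | zero => rw [Nat.le_zero.1 hak]
  | succ k ih =>
    rcases Nat.lt_or_ge a (k + 1) with h1 | h1
    · have h2 := h (k + 1) h1 le_rfl
      have h3 : ω (k + 1) = ω k := by
        by_contra hne
        apply h2
        simp only [J, Finset.mem_filter, Finset.mem_range]
        exact ⟨hk, Nat.succ_pos k, hne⟩
      rw [h3]
      exact ih (by omega) (by omega) fun j h4 h5 => h j h4 (by omega)
    · rw [le_antisymm hak h1]

theorem exists_index {t : ℕ → I} (ht : IsPart Q t) (s : I) (hs : s ≠ 1) :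
    ∃ k < Q, t k ≤ s ∧ s < t (k + 1) := by
  classical
  have hs1 : s < 1 := lt_of_le_of_ne s.2.2 hs
  have hex : ∃ k, s < t k := ⟨Q, by rw [ht.2.1]; exact hs1⟩
  have h1 := Nat.find_spec hex
  have h0 : Nat.find hex ≠ 0 := by
    intro h
    rw [h, ht.1] at h1
    exact absurd h1 (not_lt.2 s.2.1)
  obtain ⟨k, hk⟩ := Nat.exists_eq_succ_of_ne_zero h0
  have h2 : Nat.find hex ≤ Q := Nat.find_min' hex (by rw [ht.2.1]; exact hs1)
  refine ⟨k, by omega, ?_, ?_⟩
  · have := Nat.find_min hex (m := k) (by omega)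
    exact not_lt.1 this
  · rw [hk] at h1
    exact h1

theorem stepFn_par {t : ℕ → I} (ht : IsPart Q t) (x : I → ℝ)
    (hx : ∀ k < Q, ∀ s : I, t k ≤ s → s < t (k + 1) → x s = x (t k))
    (hω : ∀ k ≤ Q, x (t k) = ω k) : stepFn (par Q ω ht) = x := by
  classical
  funext s
  rw [stepFn]
  split_ifs with hs
  · subst hs
    rw [← ht.2.1, hω Q le_rfl]
    rfl
  · obtain ⟨k, hk, hks, hsk⟩ := exists_index Q ht s hs
    rw [hx k hk s hks hsk, hω k hk.le]
    show ω (idx Q ω _) = ω k
    symm
    have hle : ∀ i : Fin (J Q ω).card, ((t (e Q ω i) : I) : ℝ) ≤ (s : ℝ) ↔ e Q ω i ≤ k := by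
      intro i
      constructor
      · intro h
        by_contra h2
        have h3 : t (k + 1) ≤ t (e Q ω i) := by
          rcases Nat.lt_or_ge (k + 1) (e Q ω i) with h4 | h4
          · exact (t_lt Q ht h4 (e_mem Q ω i).1.le).le
          · have : k + 1 = e Q ω i := by omega
            rw [this]
        exact absurd (lt_of_lt_of_le hsk h3) (not_lt.2 h)
      · intro h
        have h3 : t (e Q ω i) ≤ t k := by
          rcases Nat.lt_or_ge (e Q ω i) k with h4 | h4
          · exact (t_lt Q ht h4 hk.le).le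
          · have : e Q ω i = k := by omega
            rw [this]
        exact h3.trans hks
    set A : Finset (Fin (J Q ω).card) :=
      Finset.univ.filter fun i => (par Q ω ht).2.1.1 i ≤ (s : ℝ) with hA
    have hAmem : ∀ i, i ∈ A ↔ e Q ω i ≤ k := by
      intro i
      rw [hA, Finset.mem_filter]
      exact ⟨fun h => (hle i).1 h.2, fun h => ⟨Finset.mem_univ i, (hle i).2 h⟩⟩
    have hAlow : ∀ i j, i ≤ j → j ∈ A → i ∈ A := fun i j hij hj =>
      (hAmem i).2 (((e Q ω).monotone hij).trans ((hAmem j).1 hj))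
    have hno : ∀ j, j ∈ J Q ω → j ≤ k → ∃ i : Fin (J Q ω).card, e Q ω i = j ∧ i.val < A.card := by
      intro j hj hjk
      have : j ∈ Set.range (e Q ω) := by
        rw [e, Finset.range_orderEmbOfFin]
        exact hj
      obtain ⟨i, hi⟩ := this
      exact ⟨i, hi, (mem_iff_lt A hAlow i).1 ((hAmem i).2 (by rw [hi]; exact hjk))⟩
    have hgen : ∀ c : Fin ((J Q ω).card + 1), c.val = A.card → ω k = ω (idx Q ω c) := by
      intro c
      refine Fin.cases (fun hc => ?_) (fun c' hc => ?_) c
      · refine const_of_no_jump Q ω (Nat.zero_le k) hk fun j _ hjk hj => ?_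
        obtain ⟨i, _, hi⟩ := hno j hj hjk
        have h0 : (0 : ℕ) = A.card := hc
        omega
      · have hc2 : c'.val + 1 = A.card := hc
        have h1 : e Q ω c' ≤ k := (hAmem c').1 ((mem_iff_lt A hAlow c').2 (by omega))
        show ω k = ω (e Q ω c')
        refine const_of_no_jump Q ω h1 hk fun j hj1 hjk hj => ?_
        obtain ⟨i, hi1, hi2⟩ := hno j hj hjk
        have h2 : i ≤ c' := by
          show i.val ≤ c'.val
          omega
        have h3 := (e Q ω).monotone h2
        omega
    exact hgen _ rfl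

theorem par_mem {t : ℕ → I} (ht : IsPart Q t) (n : ℕ) (δ r : ℝ)
    (hg : ω ∈ good Q t n δ r) : par Q ω ht ∈ KK n δ r := by
  classical
  obtain ⟨h1, h2, h3, h4⟩ := hg
  have hjump : ∀ i : Fin (J Q ω).card, ∃ k, e Q ω i = k + 1 ∧ k < Q ∧ ω (k + 1) ≠ ω k := by
    intro i
    obtain ⟨a, b, c⟩ := e_mem Q ω i
    refine ⟨e Q ω i - 1, by omega, by omega, ?_⟩
    rw [show e Q ω i - 1 + 1 = e Q ω i by omega]
    exact c
  have hne1 : ∀ i : Fin (J Q ω).card, t (e Q ω i) ≠ 1 := by
    intro i
    have h := t_lt Q ht (e_mem Q ω i).1 le_rfl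
    rw [ht.2.1] at h
    exact h.ne
  refine ⟨?_, ?_, ?_, ?_, ?_⟩
  · show (J Q ω).card ≤ n
    refine le_trans ?_ h2
    refine Finset.card_le_card_of_injOn (fun k => k - 1) (fun k hk => ?_) (fun k hk l hl hkl => ?_)
    · have hk2 := Finset.mem_filter.1 (Finset.mem_coe.1 hk)
      have hk3 := Finset.mem_range.1 hk2.1
      refine Finset.mem_coe.2 (Finset.mem_filter.2
        ⟨Finset.mem_range.2 (show k - 1 < Q by omega), ?_⟩)
      show ω (k - 1 + 1) ≠ ω (k - 1)
      rw [show k - 1 + 1 = k by omega]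
      exact hk2.2.2
    · have hk2 := (Finset.mem_filter.1 (Finset.mem_coe.1 hk)).2.1
      have hl2 := (Finset.mem_filter.1 (Finset.mem_coe.1 hl)).2.1
      have : k - 1 = l - 1 := hkl
      omega
  · intro i
    obtain ⟨k, hk1, hk2, hk3⟩ := hjump i
    have h5 := h3 k hk2 hk3
    rw [← hk1] at h5
    exact ⟨h5.1, h5.2.resolve_right (hne1 i)⟩
  · intro i j hij
    obtain ⟨k, hk1, hk2, hk3⟩ := hjump i
    obtain ⟨l, hl1, hl2, hl3⟩ := hjump j
    have h6 := (e Q ω).strictMono hij
    have h7 := h4 k l (by omega) hl2 hk3 hl3 (by rw [← hl1]; exact hne1 j)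
    rw [← hk1, ← hl1] at h7
    exact h7
  · intro i
    exact h1 _ (idx_le Q ω i)
  · exact h1 Q le_rfl

end

/-- The map to the Skorokhod space. -/
noncomputable def toD (hcad : ∀ z, IsCadlag (stepFn z)) (z : Z) : D := ⟨stepFn z, hcad z⟩

/-- Row CAN. -/
theorem lift (hcad : ∀ z, IsCadlag (stepFn z)) (hcont : Continuous (toD hcad))
    (hKc : ∀ (n : ℕ) {δ : ℝ} (_ : 0 < δ) (r : ℝ), IsCompact (KK n δ r))
    (Q : ℕ) (t : ℕ → I) (ht : IsPart Q t) (P : ProbabilityMeasure D)
    (hc : ∀ᵐ x ∂(P : Measure D), ∀ k < Q, ∀ s : I, t k ≤ s → s < t (k + 1) → x.1 s = x.1 (t k))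
    (C : Set ℝ) (hC : C.Countable) (hPC : ∀ k ≤ Q, ∀ᵐ x ∂(P : Measure D), x.1 (t k) ∈ C) :
    ∃ Pz : ProbabilityMeasure Z,
      (P : Measure D) = (Pz : Measure Z).map (toD hcad) ∧
      ∀ (n : ℕ) (δ r : ℝ), 0 < δ → (Pz : Measure Z) (KK n δ r)ᶜ ≤
        (P : Measure D) {x | (fun k => x.1 (t k)) ∉ good Q t n δ r} := by
  classical
  have hT2 : T2Space Z :=
    inferInstanceAs (T2Space (Σ n : ℕ, Tn n × (Fin (n + 1) → ℝ) × ℝ))
  set E : Set D := {x | (∀ k < Q, ∀ s : I, t k ≤ s → s < t (k + 1) → x.1 s = x.1 (t k)) ∧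
    ∀ k ≤ Q, x.1 (t k) ∈ C} with hE
  have hPE : ∀ᵐ x ∂(P : Measure D), x ∈ E := by
    have h2 : ∀ᵐ x ∂(P : Measure D), ∀ k : ℕ, k ≤ Q → x.1 (t k) ∈ C := by
      rw [ae_all_iff]
      intro k
      by_cases hk : k ≤ Q
      · filter_upwards [hPC k hk] with x hx _
        exact hx
      · exact Eventually.of_forall fun x h => absurd h hk
    filter_upwards [hc, h2] with x h3 h4
    exact ⟨h3, h4⟩
  have hEc : E.Countable := by
    have hcount : Countable C := hC.to_subtype
    let g : E → (Fin (Q + 1) → C) := fun x k => ⟨x.1.1 (t k), x.2.2 k (by have := k.2; omega)⟩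
    have hg : Function.Injective g := by
      intro x y hxy
      apply Subtype.ext
      apply Subtype.ext
      have h1 : ∀ k ≤ Q, x.1.1 (t k) = y.1.1 (t k) := by
        intro k hk
        have := congrFun hxy ⟨k, by omega⟩
        exact congrArg Subtype.val this
      funext s
      by_cases hs : s = 1
      · rw [hs, ← ht.2.1]
        exact h1 Q le_rfl
      · obtain ⟨k, hk, h2, h3⟩ := exists_index Q ht s hs
        rw [x.2.1 k hk s h2 h3, y.2.1 k hk s h2 h3]
        exact h1 k hk.le
    have : Countable E := hg.countable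
    exact Set.countable_coe_iff.1 this
  let z0 : Z := par Q (fun _ => 0) ht
  let zf : D → Z := fun x => if x ∈ E then par Q (fun k => x.1 (t k)) ht else z0
  have hzm : Measurable zf := by
    intro B hB
    have h1 : zf ⁻¹' B = (E ∩ zf ⁻¹' B) ∪ (Eᶜ ∩ zf ⁻¹' B) := by
      rw [← union_inter_distrib_right, union_compl_self, univ_inter]
    rw [h1]
    refine MeasurableSet.union ((hEc.mono inter_subset_left).measurableSet) ?_
    by_cases hz : z0 ∈ B
    · have : Eᶜ ∩ zf ⁻¹' B = Eᶜ := by
        ext x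
        constructor
        · exact fun h => h.1
        · intro h
          refine ⟨h, ?_⟩
          show zf x ∈ B
          simp only [zf]
          rw [if_neg h]
          exact hz
      rw [this]
      exact hEc.measurableSet.compl
    · have : Eᶜ ∩ zf ⁻¹' B = ∅ := by
        ext x
        constructor
        · rintro ⟨h, h2⟩
          have h3 : zf x ∈ B := h2
          simp only [zf] at h3
          rw [if_neg h] at h3
          exact absurd h3 hz
        · exact fun h => absurd h (notMem_empty x)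
      rw [this]
      exact MeasurableSet.empty
  let Pz : ProbabilityMeasure Z := P.map hzm.aemeasurable
  have hPz : (Pz : Measure Z) = (P : Measure D).map zf := rfl
  refine ⟨Pz, ?_, ?_⟩
  · rw [hPz, Measure.map_map hcont.measurable hzm]
    have h1 : toD hcad ∘ zf =ᵐ[(P : Measure D)] id := by
      filter_upwards [hPE] with x hx
      show toD hcad (zf x) = x
      apply Subtype.ext
      simp only [zf]
      rw [if_pos hx]
      exact stepFn_par Q _ ht x.1 hx.1 (fun k _ => rfl)
    rw [Measure.map_congr h1, Measure.map_id]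
  · intro n δ r hδ
    rw [hPz, Measure.map_apply hzm (hKc n hδ r).isClosed.measurableSet.compl]
    refine measure_mono_ae ?_
    filter_upwards [hPE] with x hx hx2
    intro hg
    have h3 : zf x ∉ KK n δ r := hx2
    apply h3
    simp only [zf]
    rw [if_pos hx]
    exact par_mem Q _ ht n δ r hg

end CAN23

end LimCurt
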