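import Pool.Agent.Lib.MP_b499b5_pr.Rows23

/-!
# Canonical parameters of step paths
-/

set_option autoImplicit false

namespace LimCurt

namespace Can73

open MeasureTheory Filter Topology Set

variable {Q : ℕ} {t : ℕ → I}

theorem part_lt (ht : IsPart Q t) {k l : ℕ} (hkl : k < l) (hl : l ≤ Q) : t k < t l := by
  induction l, hkl using Nat.le_induction with
  | base => exact ht.2.2 k (by omega)
  | succ l h ih => exact (ih (by omega)).trans (ht.2.2 l (by omega))

theorem part_le (ht : IsPart Q t) {k l : ℕ} (hkl : k ≤ l) (hl : l ≤ Q) : t k ≤ t l := by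
  rcases hkl.eq_or_lt with rfl | h
  · exact le_rfl
  · exact (part_lt ht h hl).le

theorem exists_cell (ht : IsPart Q t) (s : I) (hs : s < 1) :
    ∃ k < Q, t k ≤ s ∧ s < t (k + 1) := by
  classical
  have h : ∃ k, s < t k := ⟨Q, by rw [ht.2.1]; exact hs⟩
  have h1 := Nat.find_spec h
  have h2 : Nat.find h ≤ Q := Nat.find_min' h (by rw [ht.2.1]; exact hs)
  have h3 : Nat.find h ≠ 0 := by
    intro h0
    rw [h0, ht.1] at h1
    exact absurd h1 (not_lt.2 s.2.1)
  refine ⟨Nat.find h - 1, by omega, ?_, ?_⟩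
  · exact not_lt.1 (Nat.find_min h (by omega))
  · rw [Nat.sub_add_cancel (by omega)]
    exact h1

/-- The jump times in `(0,1)`. -/
noncomputable def J (Q : ℕ) (t : ℕ → I) (x : I → ℝ) : Finset ℝ :=
  ((Finset.range (Q - 1)).filter fun k => x (t (k + 1)) ≠ x (t k)).image
    fun k => ((t (k + 1) : I) : ℝ)

theorem mem_J {x : I → ℝ} {s : ℝ} : s ∈ J Q t x ↔
    ∃ k, k < Q - 1 ∧ x (t (k + 1)) ≠ x (t k) ∧ ((t (k + 1) : I) : ℝ) = s := by
  unfold J
  simp only [Finset.mem_image, Finset.mem_filter, Finset.mem_range, and_assoc]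

/-- The path is constant on the cells. -/
def Cell (Q : ℕ) (t : ℕ → I) (x : I → ℝ) : Prop :=
  ∀ k < Q, ∀ s : I, t k ≤ s → s < t (k + 1) → x s = x (t k)

theorem eq_of_noJump (ht : IsPart Q t) {x : I → ℝ} (hx : Cell Q t x) {s u : I} (hsu : s ≤ u)
    (hu : u < 1) (h : ∀ a ∈ J Q t x, (s : ℝ) < a → a ≤ u → False) : x s = x u := by
  obtain ⟨j, hj, hj1, hj2⟩ := exists_cell ht s (hsu.trans_lt hu)
  obtain ⟨k, hk, hk1, hk2⟩ := exists_cell ht u hu
  rw [hx j hj s hj1 hj2, hx k hk u hk1 hk2]
  have hjk : j ≤ k := by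
    by_contra hcon
    have : t (k + 1) ≤ t j := part_le ht (by omega) hj.le
    exact absurd (hk2.trans_le (this.trans (hj1.trans hsu))) (lt_irrefl _)
  clear hsu
  have key : ∀ l, j ≤ l → l ≤ k → x (t j) = x (t l) := by
    intro l hl
    induction l, hl using Nat.le_induction with
    | base => intro _; rfl
    | succ l h1 ih =>
      intro h2
      rw [ih (by omega)]
      by_contra hne
      refine h ((t (l + 1) : I) : ℝ) (mem_J.2 ⟨l, by omega, fun he => hne he.symm, rfl⟩) ?_ ?_
      · exact_mod_cast hj2.trans_le (part_le ht (by omega) (by omega))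
      · exact_mod_cast (part_le ht h2 hk.le).trans hk1
  exact key k hjk le_rfl

theorem J_mem (ht : IsPart Q t) {x : I → ℝ} {s : ℝ} (hs : s ∈ J Q t x) : s ∈ Ioo (0 : ℝ) 1 := by
  obtain ⟨k, hk, -, rfl⟩ := mem_J.1 hs
  constructor
  · have := part_lt ht (show 0 < k + 1 by omega) (by omega)
    rw [ht.1] at this
    exact_mod_cast this
  · have := part_lt ht (show k + 1 < Q by omega) le_rfl
    rw [ht.2.1] at this
    exact_mod_cast this

/-- The `i`-th jump time. -/
noncomputable def tau (Q : ℕ) (t : ℕ → I) (x : I → ℝ) : Fin (J Q t x).card ↪o ℝ :=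
  (J Q t x).orderEmbOfFin rfl

theorem tau_mem (x : I → ℝ) (i : Fin (J Q t x).card) : tau Q t x i ∈ J Q t x :=
  Finset.orderEmbOfFin_mem _ _ _

theorem exists_tau (x : I → ℝ) {s : ℝ} (hs : s ∈ J Q t x) : ∃ i, tau Q t x i = s := by
  have h : (s : ℝ) ∈ Set.range ((J Q t x).orderEmbOfFin rfl) := by
    rw [Finset.range_orderEmbOfFin]
    exact hs
  exact h

/-- The canonical parameters. -/
noncomputable def canon (ht : IsPart Q t) (x : I → ℝ) : Z :=
  ⟨(J Q t x).card, ⟨fun i => tau Q t x i, (tau Q t x).strictMono, fun i => J_mem ht (tau_mem x i)⟩,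
    Fin.cases (x 0) (fun i => x ⟨tau Q t x i, (J_mem ht (tau_mem x i)).1.le,
      (J_mem ht (tau_mem x i)).2.le⟩), x 1⟩

theorem stepFn_canon (ht : IsPart Q t) {x : I → ℝ} (hx : Cell Q t x) :
    stepFn (canon ht x) = x := by
  funext u
  unfold stepFn
  by_cases hu : u = 1
  · rw [if_pos hu, hu]
    rfl
  rw [if_neg hu]
  have hu1 : u < 1 := lt_of_le_of_ne (Subtype.coe_le_coe.1 u.2.2) hu
  set m := (Finset.univ.filter fun i => (canon ht x).2.1.1 i ≤ (u : ℝ)).card with hm
  -- the set is an initial segment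
  have hiff : ∀ i : Fin (J Q t x).card, tau Q t x i ≤ u ↔ i.val < m := by
    have hset : ∀ i : Fin (J Q t x).card,
        i ∈ (Finset.univ.filter fun i : Fin (J Q t x).card => tau Q t x i ≤ (u : ℝ)) ↔
          tau Q t x i ≤ u := by
      intro i
      simp
    have hm' : m = (Finset.univ.filter fun i : Fin (J Q t x).card =>
      tau Q t x i ≤ (u : ℝ)).card := rfl
    intro i
    constructor
    · intro hi
      have hsub : Finset.Iic i ⊆
          (Finset.univ.filter fun i : Fin (J Q t x).card => tau Q t x i ≤ (u : ℝ)) := by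
        intro j hj
        rw [hset]
        exact ((tau Q t x).monotone (Finset.mem_Iic.1 hj)).trans hi
      have := Finset.card_le_card hsub
      rw [Fin.card_Iic, ← hm'] at this
      omega
    · intro hi
      by_contra hcon
      have hsub : (Finset.univ.filter fun i : Fin (J Q t x).card => tau Q t x i ≤ (u : ℝ)) ⊆
          Finset.Iio i := by
        intro j hj
        rw [hset] at hj
        rw [Finset.mem_Iio]
        by_contra hji
        exact hcon (((tau Q t x).monotone (not_lt.1 hji)).trans hj)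
      have := Finset.card_le_card hsub
      rw [Fin.card_Iio, ← hm'] at this
      omega
  have hmle : m ≤ (J Q t x).card := by
    rw [hm]
    exact (Finset.card_filter_le _ _).trans_eq (by rw [Finset.card_univ, Fintype.card_fin]; rfl)
  rcases Nat.eq_zero_or_pos m with h0 | hpos
  · have e : (⟨m, Nat.lt_succ_of_le hmle⟩ : Fin ((J Q t x).card + 1)) = 0 := Fin.ext h0
    have e2 : (canon ht x).2.2.1 ⟨m, Nat.lt_succ_of_le hmle⟩ = x 0 := by
      show (Fin.cases (x 0) (fun i => x ⟨tau Q t x i, (J_mem ht (tau_mem x i)).1.le,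
        (J_mem ht (tau_mem x i)).2.le⟩) : Fin ((J Q t x).card + 1) → ℝ)
          ⟨m, Nat.lt_succ_of_le hmle⟩ = x 0
      rw [e]
      rfl
    refine e2.trans ?_
    refine eq_of_noJump ht hx (Subtype.coe_le_coe.1 u.2.1) hu1 ?_
    intro a ha _ h2
    obtain ⟨i, rfl⟩ := exists_tau x ha
    have := (hiff i).1 h2
    omega
  · obtain ⟨m', hm'⟩ : ∃ m', m = m' + 1 := ⟨m - 1, by omega⟩
    have hm'' : m' < (J Q t x).card := by omega
    have e : (⟨m, Nat.lt_succ_of_le hmle⟩ : Fin ((J Q t x).card + 1)) =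
        Fin.succ ⟨m', hm''⟩ := Fin.ext hm'
    have e2 : (canon ht x).2.2.1 ⟨m, Nat.lt_succ_of_le hmle⟩ =
        x ⟨tau Q t x ⟨m', hm''⟩, (J_mem ht (tau_mem x _)).1.le, (J_mem ht (tau_mem x _)).2.le⟩ := by
      show (Fin.cases (x 0) (fun i => x ⟨tau Q t x i, (J_mem ht (tau_mem x i)).1.le,
        (J_mem ht (tau_mem x i)).2.le⟩) : Fin ((J Q t x).card + 1) → ℝ)
          ⟨m, Nat.lt_succ_of_le hmle⟩ = _
      rw [e]
      rfl
    refine e2.trans ?_
    have hle : tau Q t x ⟨m', hm''⟩ ≤ u := (hiff _).2 (by show m' < m; omega)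
    refine eq_of_noJump ht hx (Subtype.coe_le_coe.1 hle) hu1 ?_
    intro a ha h1 h2
    obtain ⟨i, rfl⟩ := exists_tau x ha
    have h3 := (hiff i).1 h2
    have h4 : (⟨m', hm''⟩ : Fin (J Q t x).card) < i := (tau Q t x).lt_iff_lt.1 h1
    have h5 : m' < i.val := h4
    omega

theorem canon_mem_KK (ht : IsPart Q t) {x : I → ℝ} {n : ℕ} {δ r : ℝ}
    (hg : (fun k => x (t k)) ∈ good Q t n δ r) : canon ht x ∈ KK n δ r := by
  obtain ⟨h1, h2, h3, h4⟩ := hg
  refine ⟨?_, ?_, ?_, ?_, ?_⟩
  · show (J Q t x).card ≤ n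
    refine le_trans Finset.card_image_le (le_trans (Finset.card_le_card ?_) h2)
    intro k hk
    rw [Finset.mem_filter, Finset.mem_range] at hk ⊢
    exact ⟨by omega, hk.2⟩
  · intro i
    show tau Q t x i ∈ Icc δ (1 - δ)
    obtain ⟨k, hk, hne, he⟩ := mem_J.1 (tau_mem x i)
    have h5 := h3 k (by omega) hne
    rw [← he]
    refine ⟨h5.1, h5.2.resolve_right fun h6 => ?_⟩
    have := part_lt ht (show k + 1 < Q by omega) le_rfl
    rw [ht.2.1, h6] at this
    exact lt_irrefl _ this
  · intro i j hij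
    show δ ≤ tau Q t x j - tau Q t x i
    obtain ⟨k, hk, hne, he⟩ := mem_J.1 (tau_mem x i)
    obtain ⟨l, hl, hne', he'⟩ := mem_J.1 (tau_mem x j)
    have h5 : tau Q t x i < tau Q t x j := (tau Q t x).strictMono hij
    rw [← he, ← he'] at h5
    rw [← he, ← he']
    have hkl : k < l := by
      by_contra hcon
      have := part_le ht (show l + 1 ≤ k + 1 by omega) (by omega)
      have h6 : ((t (l + 1) : I) : ℝ) ≤ t (k + 1) := by exact_mod_cast this
      linarith
    refine h4 k l hkl (by omega) hne hne' fun h6 => ?_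
    have := part_lt ht (show l + 1 < Q by omega) le_rfl
    rw [ht.2.1, h6] at this
    exact lt_irrefl _ this
  · intro i
    refine Fin.cases ?_ (fun i => ?_) i
    · show |x 0| ≤ r
      have h5 : |x (t 0)| ≤ r := h1 0 (Nat.zero_le _)
      rw [ht.1] at h5
      exact h5
    · show |x ⟨tau Q t x i, (J_mem ht (tau_mem x i)).1.le, (J_mem ht (tau_mem x i)).2.le⟩| ≤ r
      obtain ⟨k, hk, hne, he⟩ := mem_J.1 (tau_mem x i)
      have h5 := h1 (k + 1) (by omega)
      have h6 : (⟨tau Q t x i, (J_mem ht (tau_mem x i)).1.le, (J_mem ht (tau_mem x i)).2.le⟩ : I) =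
          t (k + 1) := Subtype.ext he.symm
      rw [h6]
      exact h5
  · show |x 1| ≤ r
    have h5 : |x (t Q)| ≤ r := h1 Q le_rfl
    rw [ht.2.1] at h5
    exact h5

instance : T1Space Z := inferInstanceAs (T1Space (Σ n : ℕ, Tn n × (Fin (n + 1) → ℝ) × ℝ))

theorem lift_of (stp : Z → D) (hstp : ∀ z, (stp z).1 = stepFn z) (hms : Measurable stp)
    (Q : ℕ) (t : ℕ → I) (ht : IsPart Q t) (P : ProbabilityMeasure D)
    (hc : ∀ᵐ x ∂(P : Measure D), ∀ k < Q, ∀ s : I, t k ≤ s → s < t (k + 1) → x.1 s = x.1 (t k))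
    (C : Set ℝ) (hC : C.Countable) (hPC : ∀ k ≤ Q, ∀ᵐ x ∂(P : Measure D), x.1 (t k) ∈ C) :
    ∃ Pz : ProbabilityMeasure Z, (P : Measure D) = (Pz : Measure Z).map stp ∧
      ∀ (n : ℕ) (δ r : ℝ), 0 < δ → (Pz : Measure Z) (KK n δ r)ᶜ ≤
        (P : Measure D) {x | (fun k => x.1 (t k)) ∉ good Q t n δ r} := by
  classical
  set S : Set D := {x | Cell Q t x.1 ∧ ∀ k ≤ Q, x.1 (t k) ∈ C} with hS
  have hSc : S.Countable := by
    have : Countable C := hC.to_subtype
    let f : S → (Fin (Q + 1) → C) := fun x k => ⟨x.1.1 (t k), x.2.2 k (Nat.lt_succ_iff.1 k.2)⟩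
    have hf : Function.Injective f := by
      intro x y hxy
      apply Subtype.ext
      apply Subtype.ext
      funext s
      by_cases hs : s = 1
      · rw [hs, ← ht.2.1]
        exact congrArg Subtype.val (congrFun hxy (Fin.last Q))
      · obtain ⟨k, hk, h1, h2⟩ := exists_cell ht s
          (lt_of_le_of_ne (Subtype.coe_le_coe.1 s.2.2) hs)
        rw [x.2.1 k hk s h1 h2, y.2.1 k hk s h1 h2]
        exact congrArg Subtype.val (congrFun hxy ⟨k, by omega⟩)
    exact Set.countable_coe_iff.1 hf.countable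
  have hSa : ∀ᵐ x ∂(P : Measure D), x ∈ S := by
    have h1 : ∀ᵐ x ∂(P : Measure D), ∀ k ≤ Q, x.1 (t k) ∈ C := by
      rw [ae_all_iff]
      intro k
      by_cases hk : k ≤ Q
      · filter_upwards [hPC k hk] with x hx _
        exact hx
      · exact Eventually.of_forall fun x h => absurd h hk
    filter_upwards [hc, h1] with x a b
    exact ⟨a, b⟩
  set z0 : Z := canon ht (fun _ => 0) with hz0
  set F : D → Z := fun x => if x ∈ S then canon ht x.1 else z0 with hF
  have hF1 : ∀ x ∈ S, F x = canon ht x.1 := fun x hx => by rw [hF]; simp only [if_pos hx]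
  have hF2 : ∀ x, x ∉ S → F x = z0 := fun x hx => by rw [hF]; simp only [if_neg hx]
  have hFm : Measurable F := by
    intro B _
    by_cases hz : z0 ∈ B
    · have e : F ⁻¹' B = (S ∩ (F ⁻¹' B)ᶜ)ᶜ := by
        ext x
        simp only [mem_preimage, mem_compl_iff, mem_inter_iff, not_and, not_not]
        refine ⟨fun h _ => h, fun h => ?_⟩
        by_cases hx : x ∈ S
        · exact h hx
        · rw [hF2 x hx]
          exact hz
      rw [e]
      exact (hSc.mono inter_subset_left).measurableSet.compl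
    · have e : F ⁻¹' B = S ∩ F ⁻¹' B := by
        ext x
        simp only [mem_preimage, mem_inter_iff, iff_and_self]
        intro h
        by_contra hx
        rw [hF2 x hx] at h
        exact hz h
      rw [e]
      exact (hSc.mono inter_subset_left).measurableSet
  have hR : (range F).Countable := by
    refine ((hSc.image F).union (countable_singleton z0)).mono ?_
    rintro _ ⟨x, rfl⟩
    by_cases hx : x ∈ S
    · exact Or.inl ⟨x, hx, rfl⟩
    · exact Or.inr (hF2 x hx)
  refine ⟨⟨(P : Measure D).map F, Measure.isProbabilityMeasure_map hFm.aemeasurable⟩, ?_, ?_⟩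
  · show (P : Measure D) = ((P : Measure D).map F).map stp
    rw [Measure.map_map hms hFm]
    have h1 : stp ∘ F =ᵐ[(P : Measure D)] id := by
      filter_upwards [hSa] with x hx
      show stp (F x) = x
      apply Subtype.ext
      rw [hstp, hF1 x hx]
      exact stepFn_canon ht hx.1
    rw [Measure.map_congr h1, Measure.map_id]
  · intro n δ r _
    show ((P : Measure D).map F) (KK n δ r)ᶜ ≤ _
    have h1 : (KK n δ r)ᶜ ⊆ ((KK n δ r)ᶜ ∩ range F) ∪ (range F)ᶜ := by
      intro z hz
      by_cases hzr : z ∈ range F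
      · exact Or.inl ⟨hz, hzr⟩
      · exact Or.inr hzr
    refine (measure_mono h1).trans ((measure_union_le _ _).trans ?_)
    rw [Measure.map_apply hFm (hR.mono inter_subset_right).measurableSet,
      Measure.map_apply hFm hR.measurableSet.compl]
    have h2 : F ⁻¹' (range F)ᶜ = ∅ := by
      ext x
      simp
    rw [h2, measure_empty, add_zero]
    refine measure_mono_ae ?_
    filter_upwards [hSa] with x hx
    rintro ⟨h3, -⟩ h4
    exact h3 (by
      rw [hF1 x hx]
      exact canon_mem_KK ht h4)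

end Can73

end LimCurt
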