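import Pool.Agent.Lib.MP_b499b5_pr.RowsE23

/-!
# Row COUP: the left-curtain coupling from the shadows
-/

set_option autoImplicit false

namespace LimCurt

open MeasureTheory Filter Topology Set
open scoped ENNReal

namespace Coup11

theorem eq_of_le_of_univ {ρ ν : Measure ℝ} (hν : IsFiniteMeasure ν) (h : ρ ≤ ν)
    (hu : ρ univ = ν univ) : ρ = ν := by
  have hρ : IsFiniteMeasure ρ := ⟨(h univ).trans_lt (measure_lt_top _ _)⟩
  ext B hB
  refine le_antisymm (h B) ?_
  have h1 : ν B + ν Bᶜ = ν univ := measure_add_measure_compl hB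
  have h2 : ρ B + ρ Bᶜ = ρ univ := measure_add_measure_compl hB
  have h5 : ν B + ν Bᶜ ≤ ρ B + ν Bᶜ := by
    rw [h1, ← hu, ← h2]
    exact add_le_add le_rfl (h Bᶜ)
  exact (ENNReal.add_le_add_iff_right (measure_ne_top _ _)).1 h5

theorem tsum_Iic (D : ℤ → ℝ≥0∞) (i : ℤ) :
    ∑' j : ℤ, (if j ≤ i then D j else 0) = ∑' n : ℕ, D (i - n) := by
  have hinj : Function.Injective fun n : ℕ => i - (n : ℤ) := by
    intro a b h
    have h' : i - (a : ℤ) = i - (b : ℤ) := h
    omega
  have h1 := hinj.tsum_eq (f := fun j : ℤ => if j ≤ i then D j else 0) (by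
    intro j hj
    have h2 : j ≤ i := by
      by_contra h3
      exact hj (if_neg h3)
    exact ⟨(i - j).toNat, by
      change i - ((i - j).toNat : ℤ) = j
      rw [Int.toNat_of_nonneg (by omega)]
      omega⟩)
  rw [← h1]
  refine tsum_congr fun n => ?_
  rw [if_pos (by omega)]

theorem tele (θ D : ℤ → ℝ≥0∞) (hD : ∀ i, D i + θ (i - 1) = θ i) (i : ℤ)
    (h0 : Tendsto (fun N : ℕ => θ (i - N)) atTop (𝓝 0)) :
    ∑' j : ℤ, (if j ≤ i then D j else 0) = θ i := by
  rw [tsum_Iic]
  have h1 : ∀ N : ℕ, (∑ n ∈ Finset.range N, D (i - n)) + θ (i - N) = θ i := by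
    intro N
    induction N with
    | zero => simp
    | succ N ih =>
      rw [Finset.sum_range_succ, add_assoc]
      have e1 : i - ((N + 1 : ℕ) : ℤ) = i - (N : ℤ) - 1 := by
        push_cast
        ring
      rw [e1, hD, ih]
  have h2 : Tendsto (fun N : ℕ => (∑ n ∈ Finset.range N, D (i - n)) + θ (i - N)) atTop
      (𝓝 ((∑' n : ℕ, D (i - n)) + 0)) := (ENNReal.tendsto_nat_tsum _).add h0
  rw [add_zero] at h2
  refine tendsto_nhds_unique h2 ?_
  rw [funext h1]
  exact tendsto_const_nhds

end Coup11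

open Coup11 in
theorem coup {s : ℤ → ℝ} (hs : Enum s) {μ ν : Measure ℝ} (hμ : Nice s μ) (hν : Nice s ν)
    (h : Cx μ ν) (sh : Measure ℝ → Measure ℝ) (h1 : ∀ η, η ≤ μ → IsShadow ν η (sh η))
    (h2 : ∀ η₁ η₂, η₁ ≤ η₂ → η₂ ≤ μ → sh η₁ ≤ sh η₂) :
    ∃ π : Measure (ℝ × ℝ), IsCurt μ ν π := by
  classical
  have := hμ.fin
  have := hν.fin
  set θ : ℤ → Measure ℝ := fun i => sh (μ.restrict (Iic (s i))) with hθ
  have hθs : ∀ i, IsShadow ν (μ.restrict (Iic (s i))) (θ i) := fun i =>
    h1 _ Measure.restrict_le_self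
  have hθν : ∀ i, θ i ≤ ν := fun i => (hθs i).1
  have hθf : ∀ i, IsFiniteMeasure (θ i) := fun i =>
    ⟨((hθν i) univ).trans_lt (measure_lt_top _ _)⟩
  have hθu : ∀ i, θ i univ = μ (Iic (s i)) := by
    intro i
    have e1 : μ.restrict (Iic (s i)) univ = θ i univ := (hθs i).2.1.1
    rw [← e1, Measure.restrict_apply_univ]
  have hθm : ∀ i, θ (i - 1) ≤ θ i := fun i =>
    h2 _ _ (Measure.restrict_mono (Iic_subset_Iic.2 (hs.mono.monotone (by omega))) le_rfl)
      Measure.restrict_le_self
  set D : ℤ → Measure ℝ := fun i => θ i - θ (i - 1) with hD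
  have hDa : ∀ i, D i + θ (i - 1) = θ i := fun i => Measure.sub_add_cancel_of_le (hθm i)
  have hDf : ∀ i, IsFiniteMeasure (D i) := fun i =>
    ⟨lt_of_le_of_lt (by
      have e1 := congrArg (fun m : Measure ℝ => m univ) (hDa i)
      have e2 : D i univ + θ (i - 1) univ = θ i univ := e1
      rw [← e2]
      exact le_self_add) (measure_lt_top (θ i) univ)⟩
  -- the masses
  have hcar : ∀ (a b : Set ℝ), (∀ z ∈ range s, z ∈ a ↔ z ∈ b) → μ a = μ b := by
    intro a b hab
    have e1 : a =ᵐ[μ] b := by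
      have e2 : ∀ᵐ z ∂μ, z ∈ range s := by
        rw [ae_iff]
        exact hμ.car
      filter_upwards [e2] with z hz
      exact propext (hab z hz)
    exact measure_congr e1
  have hIic : ∀ i, μ (Iic (s i)) = μ {s i} + μ (Iic (s (i - 1))) := by
    intro i
    have e1 : μ (Iic (s i)) = μ ({s i} ∪ Iic (s (i - 1))) := by
      refine hcar _ _ ?_
      rintro _ ⟨j, rfl⟩
      simp only [mem_Iic, mem_union, mem_singleton_iff, hs.mono.le_iff_le]
      rw [hs.mono.injective.eq_iff]
      omega
    rw [e1, measure_union _ measurableSet_Iic]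
    rw [Set.disjoint_singleton_left, mem_Iic, not_le]
    exact hs.mono (by omega)
  have hDu : ∀ i, D i univ = μ {s i} := by
    intro i
    have e1 := congrArg (fun m : Measure ℝ => m univ) (hDa i)
    have e2 : D i univ + θ (i - 1) univ = θ i univ := e1
    rw [hθu, hθu, hIic i] at e2
    exact (ENNReal.add_left_inj (measure_ne_top _ _)).1 e2
  -- the telescoping sum
  have hlim : ∀ i : ℤ, Tendsto (fun N : ℕ => μ (Iic (s (i - N)))) atTop (𝓝 0) := by
    intro i
    have e1 := tendsto_measure_iInter_atTop (μ := μ) (s := fun N : ℕ => Iic (s (i - N)))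
      (fun N => measurableSet_Iic.nullMeasurableSet) (fun a b hab =>
        Iic_subset_Iic.2 (hs.mono.monotone (by omega))) ⟨0, measure_ne_top _ _⟩
    have e2 : (⋂ N : ℕ, Iic (s (i - N))) = ∅ := by
      refine eq_empty_of_forall_notMem fun z hz => ?_
      rw [mem_iInter] at hz
      have e3 : Tendsto (fun N : ℕ => s (i - N)) atTop atBot := by
        refine hs.bot.comp ?_
        refine tendsto_atBot.2 fun b => ?_
        filter_upwards [eventually_ge_atTop (i - b).toNat] with N hN
        omega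
      obtain ⟨N, hN⟩ := (e3.eventually (eventually_lt_atBot z)).exists
      exact absurd (hz N) (not_le.2 hN)
    rw [e2, measure_empty] at e1
    exact e1
  have htele : ∀ (i : ℤ) (B : Set ℝ), ∑' j : ℤ, (if j ≤ i then D j B else 0) = θ i B := by
    intro i B
    refine tele (fun j => θ j B) (fun j => D j B) (fun j => ?_) i ?_
    · have e1 := congrArg (fun m : Measure ℝ => m B) (hDa j)
      exact e1
    · refine tendsto_of_tendsto_of_tendsto_of_le_of_le tendsto_const_nhds (hlim i)
        (fun N => zero_le) fun N => ?_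
      change θ (i - N) B ≤ μ (Iic (s (i - N)))
      rw [← hθu]
      exact measure_mono (subset_univ B)
  -- the coupling
  set π : Measure (ℝ × ℝ) := Measure.sum fun i : ℤ => (Measure.dirac (s i)).prod (D i) with hπ
  have hrect : ∀ A B : Set ℝ, MeasurableSet A → MeasurableSet B →
      π (A ×ˢ B) = ∑' i : ℤ, (if s i ∈ A then D i B else 0) := by
    intro A B hA hB
    rw [hπ, Measure.sum_apply _ (hA.prod hB)]
    refine tsum_congr fun i => ?_
    rw [Measure.prod_prod, Measure.dirac_apply' _ hA]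
    by_cases e1 : s i ∈ A
    · rw [indicator_of_mem e1, if_pos e1, Pi.one_apply, one_mul]
    · rw [indicator_of_notMem e1, if_neg e1, zero_mul]
  have hfst : π.map Prod.fst = μ := by
    ext A hA
    rw [Measure.map_apply measurable_fst hA]
    have e1 : Prod.fst ⁻¹' A = A ×ˢ (univ : Set ℝ) := by
      ext z
      simp
    rw [e1, hrect A univ hA MeasurableSet.univ]
    have e2 : μ A = μ (⋃ i : ℤ, A ∩ {s i}) := by
      refine hcar _ _ ?_
      rintro _ ⟨j, rfl⟩
      constructor
      · intro hz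
        exact mem_iUnion.2 ⟨j, hz, rfl⟩
      · intro hz
        obtain ⟨i, hi⟩ := mem_iUnion.1 hz
        exact hi.1
    rw [e2, measure_iUnion]
    · refine tsum_congr fun i => ?_
      by_cases e3 : s i ∈ A
      · rw [if_pos e3, hDu, inter_eq_self_of_subset_right (singleton_subset_iff.2 e3)]
      · rw [if_neg e3, inter_singleton_eq_empty.2 e3, measure_empty]
    · intro i j hij
      rw [Function.onFun, Set.disjoint_left]
      rintro z ⟨-, hz⟩ ⟨-, hz'⟩
      exact hij (hs.mono.injective (hz.symm.trans hz'))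
    · exact fun i => hA.inter (measurableSet_singleton _)
  have hsnd_le : π.map Prod.snd ≤ ν := by
    refine Measure.le_iff.2 fun B hB => ?_
    rw [Measure.map_apply measurable_snd hB]
    have e1 : Prod.snd ⁻¹' B = (univ : Set ℝ) ×ˢ B := by
      ext z
      simp
    rw [e1, hrect univ B MeasurableSet.univ hB, ENNReal.tsum_eq_iSup_sum]
    refine iSup_le fun F => ?_
    obtain ⟨i, hi⟩ := F.exists_le
    calc _ = ∑ j ∈ F, (if j ≤ i then D j B else 0) :=
          Finset.sum_congr rfl fun j hj => by rw [if_pos (mem_univ _), if_pos (hi j hj)]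
      _ ≤ ∑' j : ℤ, (if j ≤ i then D j B else 0) := ENNReal.sum_le_tsum F
      _ = θ i B := htele i B
      _ ≤ ν B := hθν i B
  have hsnd : π.map Prod.snd = ν := by
    refine eq_of_le_of_univ hν.fin hsnd_le ?_
    rw [Measure.map_apply measurable_snd MeasurableSet.univ, preimage_univ, ← h.1, ← hfst,
      Measure.map_apply measurable_fst MeasurableSet.univ, preimage_univ]
  refine ⟨π, hfst, hsnd, fun x => ?_⟩
  -- the index of x
  obtain ⟨i, hi1, hi2⟩ : ∃ i : ℤ, s i ≤ x ∧ x < s (i + 1) := by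
    obtain ⟨b, hb⟩ := (hs.top.eventually (eventually_gt_atTop x)).exists
    obtain ⟨a, ha⟩ := (hs.bot.eventually (eventually_le_atBot x)).exists
    obtain ⟨i, hi, hi'⟩ := Int.exists_greatest_of_bdd (P := fun i => s i ≤ x)
      ⟨b, fun j hj => by
        by_contra h3
        exact absurd (hb.trans_le ((hs.mono.monotone (not_le.1 h3).le).trans hj)) (lt_irrefl _)⟩
      ⟨a, ha⟩
    refine ⟨i, hi, ?_⟩
    by_contra h3
    have := hi' (i + 1) (not_lt.1 h3)
    omega
  have hix : ∀ j, s j ≤ x ↔ j ≤ i := by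
    intro j
    constructor
    · intro hj
      by_contra h3
      have e1 : s (i + 1) ≤ s j := hs.mono.monotone (by omega)
      exact absurd (hi2.trans_le (e1.trans hj)) (lt_irrefl _)
    · intro hj
      exact (hs.mono.monotone hj).trans hi1
  have e1 : μ.restrict (Iic x) = μ.restrict (Iic (s i)) := by
    refine Measure.restrict_congr_set ?_
    have e2 : ∀ᵐ z ∂μ, z ∈ range s := by
      rw [ae_iff]
      exact hμ.car
    filter_upwards [e2] with z hz
    obtain ⟨j, rfl⟩ := hz
    refine propext ?_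
    change s j ≤ x ↔ s j ≤ s i
    rw [hix, hs.mono.le_iff_le]
  have e2 : (π.restrict (Iic x ×ˢ univ)).map Prod.snd = θ i := by
    ext B hB
    rw [Measure.map_apply measurable_snd hB, Measure.restrict_apply (measurable_snd hB)]
    have e3 : Prod.snd ⁻¹' B ∩ Iic x ×ˢ (univ : Set ℝ) = Iic x ×ˢ B := by
      ext z
      simp only [mem_inter_iff, mem_preimage, mem_prod, mem_univ, and_true]
      exact and_comm
    rw [e3, hrect _ _ measurableSet_Iic hB, ← htele i B]
    refine tsum_congr fun j => ?_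
    by_cases e4 : j ≤ i
    · rw [if_pos e4, if_pos (mem_Iic.2 ((hix j).2 e4))]
    · rw [if_neg e4, if_neg fun h5 => e4 ((hix j).1 (mem_Iic.1 h5))]
  rw [e1, e2]
  exact hθs i

end LimCurt
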