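import Pool.Agent.Lib.MP_b499b5_pr.RowsE23

/-!
# Left-curtain couplings from monotone shadows
-/

set_option autoImplicit false

namespace LimCurt

namespace Coup57

open MeasureTheory Filter Topology Set
open scoped ENNReal

/-- Telescoping. -/
theorem tele (f : ℤ → ℝ≥0∞) (hf : Monotone f) (F : Finset ℤ) :
    ∀ k, (∀ i ∈ F, i ≤ k) → ∑ i ∈ F, (f i - f (i - 1)) ≤ f k := by
  induction F using Finset.induction_on_max with
  | empty => intro k _; simp
  | insert a F' hF ih =>
    intro k hk
    have ha : a ∉ F' := fun h => lt_irrefl _ (hF a h)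
    rw [Finset.sum_insert ha]
    calc (f a - f (a - 1)) + ∑ i ∈ F', (f i - f (i - 1)) ≤ (f a - f (a - 1)) + f (a - 1) := by
          gcongr
          exact ih (a - 1) fun i hi => by have := hF i hi; omega
      _ = f a := tsub_add_cancel_of_le (hf (by omega))
      _ ≤ f k := hf (hk a (Finset.mem_insert_self _ _))

/-- two finite measures, one below the other, with the same mass -/
theorem eq_of_le_mass {α : Type*} [MeasurableSpace α] {a b : Measure α} [IsFiniteMeasure b]
    (h : a ≤ b) (hm : a univ = b univ) : a = b := by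
  have : IsFiniteMeasure a := isFiniteMeasure_of_le b h
  refine Measure.ext fun A hA => le_antisymm (h A) ?_
  by_contra hcon
  push Not at hcon
  have h1 : a A + a Aᶜ < b A + b Aᶜ :=
    ENNReal.add_lt_add_of_lt_of_le (measure_ne_top a _) hcon (h Aᶜ)
  rw [measure_add_measure_compl hA, measure_add_measure_compl hA, hm] at h1
  exact lt_irrefl _ h1

/-- a measure on the range of `s` -/
theorem apply_eq {s : ℤ → ℝ} (hs : Enum s) {μ : Measure ℝ} (hμ : Nice s μ) {A : Set ℝ}
    (hA : MeasurableSet A) : μ A = ∑' i, Measure.dirac (s i) A * μ {s i} := by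
  have h1 : μ A = μ (⋃ i, A ∩ {s i}) := by
    rw [← Set.inter_iUnion]
    have h2 : (⋃ i, {s i}) = range s := by
      ext x; simp [eq_comm]
    rw [h2]
    have h3 : μ (A \ range s) = 0 := measure_mono_null (fun x hx => hx.2) hμ.car
    have hr : MeasurableSet (range s) := (countable_range s).measurableSet
    rw [← measure_inter_add_sdiff A hr, h3, add_zero]
  rw [h1, measure_iUnion]
  · refine tsum_congr fun i => ?_
    rw [Measure.dirac_apply' _ hA]
    by_cases hi : s i ∈ A
    · rw [inter_eq_self_of_subset_right (singleton_subset_iff.2 hi), indicator_of_mem hi]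
      simp
    · rw [inter_singleton_eq_empty.2 hi, indicator_of_notMem hi]
      simp
  · intro i j hij
    refine Disjoint.mono inter_subset_right inter_subset_right ?_
    exact disjoint_singleton.2 fun h => hij (hs.mono.injective h)
  · exact fun i => hA.inter (measurableSet_singleton _)

/-- mass of a point -/
theorem mass_point {s : ℤ → ℝ} (hs : Enum s) {μ : Measure ℝ} (hμ : Nice s μ) (i : ℤ) :
    μ (Iic (s i)) = μ {s i} + μ (Iic (s (i - 1))) := by
  have hlt : s (i - 1) < s i := hs.mono (by omega)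
  have h1 : Iic (s i) = ({s i} ∪ Iic (s (i - 1))) ∪ Ioo (s (i - 1)) (s i) := by
    ext x
    simp only [mem_Iic, mem_union, mem_singleton_iff, mem_Ioo]
    constructor
    · intro hx
      rcases hx.lt_or_eq with h | h
      · rcases le_or_gt x (s (i - 1)) with h' | h'
        · exact Or.inl (Or.inr h')
        · exact Or.inr ⟨h', h⟩
      · exact Or.inl (Or.inl h)
    · rintro ((h | h) | h)
      · exact h.le
      · exact h.trans hlt.le
      · exact h.2.le
  have h2 : μ (Ioo (s (i - 1)) (s i)) = 0 := by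
    refine measure_mono_null ?_ hμ.car
    rintro x ⟨hx1, hx2⟩ ⟨j, rfl⟩
    have h3 := hs.mono.lt_iff_lt.1 hx1
    have h4 := hs.mono.lt_iff_lt.1 hx2
    omega
  rw [h1]
  have h5 : μ ({s i} ∪ Iic (s (i - 1)) ∪ Ioo (s (i - 1)) (s i)) = μ ({s i} ∪ Iic (s (i - 1))) := by
    refine le_antisymm ((measure_union_le _ _).trans (by rw [h2, add_zero])) ?_
    exact measure_mono subset_union_left
  rw [h5, measure_union _ measurableSet_Iic]
  rw [disjoint_singleton_left]
  exact fun h => absurd (mem_Iic.1 h) (not_le.2 hlt)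

/-- the last index not above `x` -/
theorem exists_idx {s : ℤ → ℝ} (hs : Enum s) (x : ℝ) : ∃ k, s k ≤ x ∧ ∀ i, s i ≤ x ↔ i ≤ k := by
  obtain ⟨b, hb⟩ := (hs.top.eventually (eventually_gt_atTop x)).exists
  obtain ⟨a, ha⟩ := (hs.bot.eventually (eventually_le_atBot x)).exists
  obtain ⟨k, hk, hk'⟩ := Int.exists_greatest_of_bdd (P := fun i => s i ≤ x)
    ⟨b, fun z hz => hs.mono.le_iff_le.1 (hz.trans hb.le)⟩ ⟨a, ha⟩
  exact ⟨k, hk, fun i => ⟨fun h => hk' i h, fun h => (hs.mono.monotone h).trans hk⟩⟩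

theorem restrict_eq {s : ℤ → ℝ} {μ : Measure ℝ} (hμ : Nice s μ) {x : ℝ} {k : ℤ}
    (hk : s k ≤ x) (hk' : ∀ i, s i ≤ x ↔ i ≤ k) (hs : Enum s) :
    μ.restrict (Iic x) = μ.restrict (Iic (s k)) := by
  have h0 : μ (Ioc (s k) x) = 0 := by
    refine measure_mono_null ?_ hμ.car
    rintro y ⟨hy1, hy2⟩ ⟨j, rfl⟩
    have h3 := hs.mono.lt_iff_lt.1 hy1
    have h4 := (hk' j).1 hy2
    omega
  refine Measure.ext fun A hA => ?_
  rw [Measure.restrict_apply hA, Measure.restrict_apply hA]
  refine le_antisymm ?_ (measure_mono (inter_subset_inter_right _ (Iic_subset_Iic.2 hk)))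
  have h1 : A ∩ Iic x ⊆ (A ∩ Iic (s k)) ∪ Ioc (s k) x := by
    rintro y ⟨hy1, hy2⟩
    rcases le_or_gt y (s k) with h | h
    · exact Or.inl ⟨hy1, h⟩
    · exact Or.inr ⟨h, hy2⟩
  exact (measure_mono h1).trans ((measure_union_le _ _).trans (by rw [h0, add_zero]))

theorem coup57 {s : ℤ → ℝ} (hs : Enum s) {μ ν : Measure ℝ} (hμ : Nice s μ) (hν : Nice s ν)
    (h : Cx μ ν) (sh : Measure ℝ → Measure ℝ) (h1 : ∀ η, η ≤ μ → IsShadow ν η (sh η))
    (h2 : ∀ η₁ η₂, η₁ ≤ η₂ → η₂ ≤ μ → sh η₁ ≤ sh η₂) :
    ∃ π : Measure (ℝ × ℝ), IsCurt μ ν π := by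
  have := hμ.fin
  have := hν.fin
  have hle : ∀ x, μ.restrict (Iic x) ≤ μ := fun x => Measure.restrict_le_self
  set θ : ℤ → Measure ℝ := fun i => sh (μ.restrict (Iic (s i))) with hθ
  have hθν : ∀ i, θ i ≤ ν := fun i => (h1 _ (hle _)).1
  have hθfin : ∀ i, IsFiniteMeasure (θ i) := fun i => isFiniteMeasure_of_le ν (hθν i)
  have hθmono : Monotone θ := fun i j hij => h2 _ _
    (Measure.restrict_mono (Iic_subset_Iic.2 (hs.mono.monotone hij)) le_rfl) (hle _)
  have hθm : ∀ i, θ i univ = μ (Iic (s i)) := fun i => by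
    have := (h1 _ (hle (s i))).2.1.1
    rw [Measure.restrict_apply_univ] at this
    exact this.symm
  set d : ℤ → Measure ℝ := fun i => θ i - θ (i - 1) with hd
  have hdA : ∀ i (A : Set ℝ), MeasurableSet A → d i A = θ i A - θ (i - 1) A := fun i A hA => by
    have := hθfin (i - 1)
    exact Measure.sub_apply hA (hθmono (by omega))
  have hdfin : ∀ i, IsFiniteMeasure (d i) := fun i => by
    have := hθfin i
    exact isFiniteMeasure_of_le (θ i) Measure.sub_le
  have hdm : ∀ i, d i univ = μ {s i} := fun i => by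
    rw [hdA i _ MeasurableSet.univ, hθm, hθm, mass_point hs hμ i]
    exact ENNReal.add_sub_cancel_right (measure_ne_top μ _)
  set π : Measure (ℝ × ℝ) := Measure.sum fun i => (Measure.dirac (s i)).prod (d i) with hπ
  have hπA : ∀ A B : Set ℝ, MeasurableSet A → MeasurableSet B →
      π (A ×ˢ B) = ∑' i, Measure.dirac (s i) A * d i B := fun A B hA hB => by
    rw [hπ, Measure.sum_apply _ (hA.prod hB)]
    refine tsum_congr fun i => ?_
    have := hdfin i
    exact Measure.prod_prod A B
  have hπfst : ∀ A : Set ℝ, MeasurableSet A → π (A ×ˢ univ) = μ A := fun A hA => by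
    rw [hπA A univ hA MeasurableSet.univ, apply_eq hs hμ hA]
    exact tsum_congr fun i => by rw [hdm]
  -- bound of the partial sums
  have hpart : ∀ (k : ℤ) (A B : Set ℝ), MeasurableSet A → MeasurableSet B →
      (∀ i, s i ∈ A → i ≤ k) → ∑' i, Measure.dirac (s i) A * d i B ≤ θ k B := by
    intro k A B hA hB hk
    rw [ENNReal.tsum_eq_iSup_sum]
    refine iSup_le fun F => ?_
    classical
    calc ∑ i ∈ F, Measure.dirac (s i) A * d i B
        ≤ ∑ i ∈ F.filter (fun i => i ≤ k), d i B := by
          rw [Finset.sum_filter]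
          refine Finset.sum_le_sum fun i _ => ?_
          rw [Measure.dirac_apply' _ hA]
          by_cases hi : s i ∈ A
          · rw [indicator_of_mem hi, if_pos (hk i hi)]; simp
          · rw [indicator_of_notMem hi]; simp
      _ = ∑ i ∈ F.filter (fun i => i ≤ k), (θ i B - θ (i - 1) B) :=
          Finset.sum_congr rfl fun i _ => hdA i B hB
      _ ≤ θ k B := tele (fun i => θ i B) (fun i j hij => hθmono hij B) _ k
          fun i hi => (Finset.mem_filter.1 hi).2
  refine ⟨π, ?_, ?_, fun x => ?_⟩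
  · refine Measure.ext fun A hA => ?_
    rw [Measure.map_apply measurable_fst hA, ← hπfst A hA]
    congr 1
    ext p; simp
  · refine eq_of_le_mass ?_ ?_
    · refine Measure.le_iff.2 fun B hB => ?_
      rw [Measure.map_apply measurable_snd hB]
      have h3 : (Prod.snd ⁻¹' B : Set (ℝ × ℝ)) = univ ×ˢ B := by ext p; simp
      rw [h3, hπA univ B MeasurableSet.univ hB, ENNReal.tsum_eq_iSup_sum]
      refine iSup_le fun F => ?_
      obtain ⟨k, hk⟩ := F.bddAbove
      calc ∑ i ∈ F, Measure.dirac (s i) univ * d i B = ∑ i ∈ F, (θ i B - θ (i - 1) B) :=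
            Finset.sum_congr rfl fun i _ => by rw [measure_univ, one_mul, hdA i B hB]
        _ ≤ θ k B := tele (fun i => θ i B) (fun i j hij => hθmono hij B) _ k fun i hi => hk hi
        _ ≤ ν B := hθν k B
    · rw [Measure.map_apply measurable_snd MeasurableSet.univ]
      have h3 : (Prod.snd ⁻¹' univ : Set (ℝ × ℝ)) = univ ×ˢ univ := by ext p; simp
      rw [h3, hπfst univ MeasurableSet.univ]
      exact h.1
  · obtain ⟨k, hk, hk'⟩ := exists_idx hs x
    rw [restrict_eq hμ hk hk' hs]
    have h4 : (π.restrict (Iic x ×ˢ univ)).map Prod.snd = θ k := by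
      have := hθfin k
      refine eq_of_le_mass ?_ ?_
      · refine Measure.le_iff.2 fun B hB => ?_
        rw [Measure.map_apply measurable_snd hB, Measure.restrict_apply (measurable_snd hB)]
        have h3 : (Prod.snd ⁻¹' B ∩ Iic x ×ˢ univ : Set (ℝ × ℝ)) = Iic x ×ˢ B := by
          ext p; simp [and_comm]
        rw [h3, hπA _ B measurableSet_Iic hB]
        exact hpart k _ B measurableSet_Iic hB fun i hi => (hk' i).1 hi
      · rw [Measure.map_apply measurable_snd MeasurableSet.univ,
          Measure.restrict_apply (measurable_snd MeasurableSet.univ)]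
        have h3 : (Prod.snd ⁻¹' univ ∩ Iic x ×ˢ univ : Set (ℝ × ℝ)) = Iic x ×ˢ univ := by
          ext p; simp
        rw [h3, hπfst _ measurableSet_Iic, hθm]
        have h5 := congrArg (fun m : Measure ℝ => m univ) (restrict_eq hμ hk hk' hs)
        simpa using h5
    rw [h4]
    exact h1 _ (hle _)

end Coup57

end LimCurt
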