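import Pool.Agent.Lib.MP_b499b5_pr.RowsE23

/-!
# Convex order from potentials
-/

set_option autoImplicit false

namespace LimCurt

open MeasureTheory Filter Topology Set

namespace Cxp38

/-- `h` is integrable and has the smaller integral with respect to `η`. -/
def Ok (η θ : Measure ℝ) (h : ℝ → ℝ) : Prop :=
  Integrable h η ∧ Integrable h θ ∧ ∫ z, h z ∂η ≤ ∫ z, h z ∂θ

theorem Ok.add {η θ : Measure ℝ} {h k : ℝ → ℝ} (a : Ok η θ h) (b : Ok η θ k) :
    Ok η θ (fun z => h z + k z) :=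
  ⟨a.1.add b.1, a.2.1.add b.2.1, by
    rw [integral_add a.1 b.1, integral_add a.2.1 b.2.1]
    exact add_le_add a.2.2 b.2.2⟩

theorem Ok.mul {η θ : Measure ℝ} {h : ℝ → ℝ} {c : ℝ} (hc : 0 ≤ c) (a : Ok η θ h) :
    Ok η θ (fun z => c * h z) :=
  ⟨a.1.const_mul c, a.2.1.const_mul c, by
    rw [integral_const_mul, integral_const_mul]
    exact mul_le_mul_of_nonneg_left a.2.2 hc⟩

theorem ok_aff {s : ℤ → ℝ} {η θ : Measure ℝ} (hη : Nice s η) (hθ : Nice s θ)
    (hm : η univ = θ univ) (hb : ∫ z, z ∂η = ∫ z, z ∂θ) (a b : ℝ) :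
    Ok η θ (fun z => a + b * z) := by
  have := hη.fin
  have := hθ.fin
  refine ⟨(integrable_const a).add (hη.int.const_mul b),
    (integrable_const a).add (hθ.int.const_mul b), ?_⟩
  rw [integral_add (integrable_const a) (hη.int.const_mul b),
    integral_add (integrable_const a) (hθ.int.const_mul b), integral_const_mul,
    integral_const_mul, integral_const, integral_const, hb]
  have : η.real univ = θ.real univ := by
    rw [measureReal_def, measureReal_def, hm]
  rw [this]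

theorem ok_abs {s : ℤ → ℝ} {η θ : Measure ℝ} (hη : Nice s η) (hθ : Nice s θ)
    (hp : ∀ i, potM η (s i) ≤ potM θ (s i)) (i : ℤ) : Ok η θ (fun z => |z - s i|) := by
  have := hη.fin
  have := hθ.fin
  exact ⟨(hη.int.sub (integrable_const _)).abs, (hθ.int.sub (integrable_const _)).abs, hp i⟩

/-- The slope. -/
noncomputable def sl (s : ℤ → ℝ) (f : ℝ → ℝ) (j : ℤ) : ℝ :=
  (f (s (j + 1)) - f (s j)) / (s (j + 1) - s j)

theorem sl_mul {s : ℤ → ℝ} (hs : StrictMono s) (f : ℝ → ℝ) (j : ℤ) :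
    sl s f j * (s (j + 1) - s j) = f (s (j + 1)) - f (s j) :=
  div_mul_cancel₀ _ (sub_pos.2 (hs (lt_add_one j))).ne'

theorem sl_mono {s : ℤ → ℝ} (hs : StrictMono s) {f : ℝ → ℝ} (hf : ConvexOn ℝ univ f) (j : ℤ) :
    0 ≤ sl s f j - sl s f (j - 1) := by
  have h := hf.slope_mono_adjacent (mem_univ (s (j - 1))) (mem_univ (s (j + 1)))
    (hs (sub_one_lt j)) (hs (lt_add_one j))
  rw [sub_nonneg]
  unfold sl
  rw [sub_add_cancel]
  exact h

/-- The interpolations. -/
noncomputable def hin (s : ℤ → ℝ) (f : ℝ → ℝ) : ℕ → ℝ → ℝ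
  | 0, z => (f (s 0) - sl s f 0 * s 0 + sl s f 0 * z) +
      (sl s f 0 - sl s f (0 - 1)) * (1 / 2 * |z - s 0| + (s 0 / 2 + (-(1 / 2)) * z))
  | n + 1, z => (hin s f n z + (sl s f (n + 1) - sl s f (n + 1 - 1)) *
        (1 / 2 * |z - s (n + 1)| + (-(s (n + 1) / 2) + 1 / 2 * z))) +
      (sl s f (-(n + 1)) - sl s f (-(n + 1) - 1)) *
        (1 / 2 * |z - s (-(n + 1))| + (s (-(n + 1)) / 2 + (-(1 / 2)) * z))

theorem hin_R {s : ℤ → ℝ} (hs : StrictMono s) (f : ℝ → ℝ) (n : ℕ) (z : ℝ) (hz : s n ≤ z) :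
    hin s f n z = f (s n) + sl s f n * (z - s n) := by
  induction n with
  | zero =>
    rw [Nat.cast_zero] at hz ⊢
    rw [hin, abs_of_nonneg (sub_nonneg.2 hz)]
    ring
  | succ n ih =>
    rw [Nat.cast_succ] at hz ⊢
    have h1 : s n ≤ z := (hs.monotone (by omega)).trans hz
    have h2 : s (-(n + 1)) ≤ z := (hs.monotone (by omega)).trans hz
    rw [hin, ih h1, abs_of_nonneg (sub_nonneg.2 hz), abs_of_nonneg (sub_nonneg.2 h2),
      add_sub_cancel_right]
    have h3 := sl_mul hs f n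
    linear_combination h3

theorem hin_L {s : ℤ → ℝ} (hs : StrictMono s) (f : ℝ → ℝ) (n : ℕ) (z : ℝ) (hz : z ≤ s (-n)) :
    hin s f n z = f (s (-n)) + sl s f (-n - 1) * (z - s (-n)) := by
  induction n with
  | zero =>
    rw [Nat.cast_zero, neg_zero] at hz ⊢
    rw [hin, abs_of_nonpos (sub_nonpos.2 hz)]
    ring
  | succ n ih =>
    rw [Nat.cast_succ] at hz ⊢
    have h1 : z ≤ s (-n) := hz.trans (hs.monotone (by omega))
    have h2 : z ≤ s (n + 1) := hz.trans (hs.monotone (by omega))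
    have h3 := sl_mul hs f (-(n + 1))
    have h4 : (-((n : ℤ) + 1) + 1) = -n := by ring
    have h5 : (-(n : ℤ) - 1) = -(n + 1) := by ring
    rw [h4] at h3
    rw [hin, ih h1, abs_of_nonpos (sub_nonpos.2 hz), abs_of_nonpos (sub_nonpos.2 h2), h5]
    linear_combination -h3

theorem hin_E {s : ℤ → ℝ} (hs : StrictMono s) (f : ℝ → ℝ) (n : ℕ) (i : ℤ) (h1 : -n ≤ i)
    (h2 : i ≤ n) : hin s f n (s i) = f (s i) := by
  induction n with
  | zero =>
    have h3 : i = 0 := by
      rw [Nat.cast_zero] at h1 h2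
      omega
    subst h3
    have := hin_R hs f 0 (s 0) (by rw [Nat.cast_zero])
    rw [Nat.cast_zero] at this
    rw [this]
    ring
  | succ n ih =>
    rw [Nat.cast_succ] at h1 h2
    rcases eq_or_ne i (n + 1) with rfl | h3
    · have := hin_R hs f (n + 1) (s (n + 1)) (by rw [Nat.cast_succ])
      rw [Nat.cast_succ] at this
      rw [this]
      ring
    rcases eq_or_ne i (-(n + 1)) with rfl | h4
    · have := hin_L hs f (n + 1) (s (-(n + 1))) (by rw [Nat.cast_succ])
      rw [Nat.cast_succ] at this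
      rw [this]
      ring
    have h5 : s i ≤ s (n + 1) := hs.monotone h2
    have h6 : s (-(n + 1)) ≤ s i := hs.monotone h1
    rw [hin, ih (by omega) (by omega), abs_of_nonpos (sub_nonpos.2 h5),
      abs_of_nonneg (sub_nonneg.2 h6)]
    ring

theorem hin_mono {s : ℤ → ℝ} (hs : StrictMono s) {f : ℝ → ℝ} (hf : ConvexOn ℝ univ f) (z : ℝ) :
    Monotone fun n => hin s f n z := by
  refine monotone_nat_of_le_succ fun n => ?_
  show hin s f n z ≤ hin s f (n + 1) z
  rw [hin]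
  have h1 : 0 ≤ 1 / 2 * |z - s (n + 1)| + (-(s (n + 1) / 2) + 1 / 2 * z) := by
    have := neg_abs_le (z - s (n + 1))
    linarith
  have h2 : 0 ≤ 1 / 2 * |z - s (-(n + 1))| + (s (-(n + 1)) / 2 + (-(1 / 2)) * z) := by
    have := le_abs_self (z - s (-(n + 1)))
    linarith
  have h3 := mul_nonneg (sl_mono hs hf (n + 1)) h1
  have h4 := mul_nonneg (sl_mono hs hf (-(n + 1))) h2
  linarith

theorem hin_ok {s : ℤ → ℝ} (hs : StrictMono s) {η θ : Measure ℝ} (hη : Nice s η) (hθ : Nice s θ)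
    (hm : η univ = θ univ) (hb : ∫ z, z ∂η = ∫ z, z ∂θ)
    (hp : ∀ i, potM η (s i) ≤ potM θ (s i)) {f : ℝ → ℝ} (hf : ConvexOn ℝ univ f) (n : ℕ) :
    Ok η θ (hin s f n) := by
  have ha := fun i => (ok_abs hη hθ hp i).mul (c := 1 / 2) (by norm_num)
  have hl := ok_aff hη hθ hm hb
  induction n with
  | zero =>
    exact (hl _ _).add (((ha 0).add (hl _ _)).mul (sl_mono hs hf 0))
  | succ n ih =>
    exact (ih.add (((ha _).add (hl _ _)).mul (sl_mono hs hf _))).add
      (((ha _).add (hl _ _)).mul (sl_mono hs hf _))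

theorem tends {s : ℤ → ℝ} (hs : StrictMono s) {η : Measure ℝ} (hη : Nice s η) {f : ℝ → ℝ}
    (hf : ConvexOn ℝ univ f) (hi : Integrable f η) (hin' : ∀ n, Integrable (hin s f n) η) :
    Tendsto (fun n => ∫ z, hin s f n z ∂η) atTop (𝓝 (∫ z, f z ∂η)) := by
  have hr : ∀ᵐ z ∂η, z ∈ range s := hη.car
  refine tendsto_integral_of_dominated_convergence (fun z => |hin s f 0 z| + |f z|)
    (fun n => (hin' n).aestronglyMeasurable) ((hin' 0).abs.add hi.abs) (fun n => ?_) ?_
  · filter_upwards [hr] with z hz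
    obtain ⟨i, rfl⟩ := hz
    have h1 : hin s f 0 (s i) ≤ hin s f n (s i) := hin_mono hs hf (s i) (Nat.zero_le n)
    have h2 : hin s f n (s i) ≤ f (s i) := by
      rw [← hin_E hs f (max n i.natAbs) i (by omega) (by omega)]
      exact hin_mono hs hf (s i) (le_max_left _ _)
    rw [Real.norm_eq_abs, abs_le]
    have h3 := neg_abs_le (hin s f 0 (s i))
    have h4 := le_abs_self (f (s i))
    have h5 := abs_nonneg (hin s f 0 (s i))
    have h6 := abs_nonneg (f (s i))
    constructor <;> linarith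
  · filter_upwards [hr] with z hz
    obtain ⟨i, rfl⟩ := hz
    refine tendsto_const_nhds.congr' ?_
    filter_upwards [eventually_ge_atTop i.natAbs] with n hn
    exact (hin_E hs f n i (by omega) (by omega)).symm

end Cxp38

theorem cx_of_pot {s : ℤ → ℝ} (hs : Enum s) {η θ : Measure ℝ} (hη : Nice s η) (hθ : Nice s θ)
    (hm : η univ = θ univ) (hb : ∫ z, z ∂η = ∫ z, z ∂θ)
    (hp : ∀ i, potM η (s i) ≤ potM θ (s i)) : Cx η θ := by
  refine ⟨hm, fun f hf h1 h2 => ?_⟩
  have hk := Cxp38.hin_ok hs.mono hη hθ hm hb hp hf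
  exact le_of_tendsto_of_tendsto' (Cxp38.tends hs.mono hη hf h1 fun n => (hk n).1)
    (Cxp38.tends hs.mono hθ hf h2 fun n => (hk n).2.1) fun n => (hk n).2.2

end LimCurt
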