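import Pool.Agent.Lib.MP_b499b5_pr.RowsE23

/-!
# Convex order and potentials
-/

set_option autoImplicit false

namespace LimCurt

open MeasureTheory Filter Topology Set

theorem pot_of_cx {s : ℤ → ℝ} {η θ : Measure ℝ} (hη : Nice s η) (hθ : Nice s θ) (h : Cx η θ) :
    η univ = θ univ ∧ ∫ z, z ∂η = ∫ z, z ∂θ ∧ ∀ y, potM η y ≤ potM θ y := by
  haveI := hη.fin
  haveI := hθ.fin
  refine ⟨h.1, le_antisymm ?_ ?_, fun y => ?_⟩
  · exact h.2 (fun z => z) (convexOn_id convex_univ) hη.int hθ.int
  · have h1 := h.2 (fun z => -z) ((concaveOn_id convex_univ).neg) hη.int.neg hθ.int.neg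
    rw [integral_neg, integral_neg] at h1
    linarith
  · refine h.2 (fun z => |z - y|) ?_ (hη.int.sub (integrable_const y)).abs
      (hθ.int.sub (integrable_const y)).abs
    have h2 : ConvexOn ℝ univ fun z : ℝ => dist z y := convexOn_univ_dist y
    simpa only [Real.dist_eq] using h2

namespace Cxp92

/-- The values of integrable functions are ordered. -/
def Good (η θ : Measure ℝ) (φ : ℝ → ℝ) : Prop :=
  Integrable φ η ∧ Integrable φ θ ∧ ∫ z, φ z ∂η ≤ ∫ z, φ z ∂θ

theorem Good.add {η θ : Measure ℝ} {φ ψ : ℝ → ℝ} (h : Good η θ φ) (h' : Good η θ ψ) :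
    Good η θ fun z => φ z + ψ z := by
  refine ⟨h.1.add h'.1, h.2.1.add h'.2.1, ?_⟩
  rw [integral_add h.1 h'.1, integral_add h.2.1 h'.2.1]
  exact add_le_add h.2.2 h'.2.2

theorem Good.smul {η θ : Measure ℝ} {φ : ℝ → ℝ} {c : ℝ} (hc : 0 ≤ c) (h : Good η θ φ) :
    Good η θ fun z => c * φ z := by
  refine ⟨h.1.const_mul c, h.2.1.const_mul c, ?_⟩
  rw [integral_const_mul, integral_const_mul]
  exact mul_le_mul_of_nonneg_left h.2.2 hc

theorem Good.sum {η θ : Measure ℝ} {φ : ℕ → ℝ → ℝ} (h : ∀ i, Good η θ (φ i)) (n : ℕ) :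
    Good η θ fun z => ∑ i ∈ Finset.range n, φ i z := by
  induction n with
  | zero =>
    simp only [Finset.range_zero, Finset.sum_empty]
    exact ⟨integrable_zero _ _ _, integrable_zero _ _ _, by simp⟩
  | succ n ih =>
    simp only [Finset.sum_range_succ]
    exact ih.add (h n)

/-- The slopes. -/
noncomputable def sl (s h : ℤ → ℝ) (i : ℤ) : ℝ := (h (i + 1) - h i) / (s (i + 1) - s i)

theorem kink_eq (s h : ℤ → ℝ) (i : ℤ) : kink s h i = sl s h i - sl s h (i - 1) := by
  unfold kink sl
  rw [sub_add_cancel]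

theorem step {s : ℤ → ℝ} (hs : StrictMono s) (h : ℤ → ℝ) (i : ℤ) :
    h (i + 1) = h i + sl s h i * (s (i + 1) - s i) := by
  have h1 : s (i + 1) - s i ≠ 0 := (sub_pos.2 (hs (lt_add_one i))).ne'
  rw [sl, div_mul_cancel₀ _ h1]
  ring

theorem sl_up (s h : ℤ → ℝ) (k : ℕ) :
    sl s h k = sl s h 0 + ∑ i ∈ Finset.range k, kink s h (i + 1) := by
  induction k with
  | zero => simp
  | succ k ih =>
    rw [Finset.sum_range_succ, ← add_assoc, ← ih, kink_eq]
    push_cast
    rw [add_sub_cancel_right]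
    ring

theorem sl_down (s h : ℤ → ℝ) (k : ℕ) :
    sl s h (-k - 1) = sl s h 0 - ∑ i ∈ Finset.range (k + 1), kink s h (-i) := by
  induction k with
  | zero => simp [kink_eq]
  | succ k ih =>
    rw [Finset.sum_range_succ, ← sub_sub, ← ih, kink_eq]
    push_cast
    have h1 : (-(k + 1 : ℤ)) = -(k : ℤ) - 1 := by ring
    rw [h1]
    ring

theorem up {s : ℤ → ℝ} (hs : StrictMono s) (h : ℤ → ℝ) (k : ℕ) :
    h k = h 0 + sl s h 0 * (s k - s 0) +
      ∑ i ∈ Finset.range k, kink s h (i + 1) * (s k - s (i + 1)) := by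
  induction k with
  | zero => simp
  | succ k ih =>
    have h1 := step hs h k
    rw [sl_up] at h1
    push_cast
    rw [h1, ih, Finset.sum_range_succ, sub_self, mul_zero, add_zero]
    have h2 : ∑ i ∈ Finset.range k, kink s h (i + 1) * (s (k + 1) - s (i + 1)) =
        ∑ i ∈ Finset.range k, kink s h (i + 1) * (s k - s (i + 1)) +
          (∑ i ∈ Finset.range k, kink s h (i + 1)) * (s (k + 1) - s k) := by
      rw [Finset.sum_mul, ← Finset.sum_add_distrib]
      exact Finset.sum_congr rfl fun i _ => by ring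
    rw [h2]
    ring

theorem down {s : ℤ → ℝ} (hs : StrictMono s) (h : ℤ → ℝ) (k : ℕ) :
    h (-k) = h 0 + sl s h 0 * (s (-k) - s 0) +
      ∑ i ∈ Finset.range k, kink s h (-i) * (s (-i) - s (-k)) := by
  induction k with
  | zero => simp
  | succ k ih =>
    have h1 := step hs h (-k - 1)
    rw [sl_down, sub_add_cancel] at h1
    have h3 : (-((k + 1 : ℕ) : ℤ)) = -(k : ℤ) - 1 := by push_cast; ring
    rw [h3]
    have h2 : ∑ i ∈ Finset.range (k + 1), kink s h (-i) * (s (-i) - s (-k - 1)) =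
        ∑ i ∈ Finset.range (k + 1), kink s h (-i) * (s (-i) - s (-k)) +
          (∑ i ∈ Finset.range (k + 1), kink s h (-i)) * (s (-k) - s (-k - 1)) := by
      rw [Finset.sum_mul, ← Finset.sum_add_distrib]
      exact Finset.sum_congr rfl fun i _ => by ring
    have h4 : ∑ i ∈ Finset.range (k + 1), kink s h (-i) * (s (-i) - s (-k)) =
        ∑ i ∈ Finset.range k, kink s h (-i) * (s (-i) - s (-k)) := by
      rw [Finset.sum_range_succ, sub_self, mul_zero, add_zero]
    rw [h2, h4]
    rw [ih] at h1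
    linarith

/-- The interpolation of `f` at the points `s i`, `|i| ≤ n`. -/
noncomputable def ip (s : ℤ → ℝ) (f : ℝ → ℝ) (n : ℕ) (z : ℝ) : ℝ :=
  (f (s 0) + sl s (fun i => f (s i)) 0 * (z - s 0)) +
    (∑ i ∈ Finset.range n, kink s (fun i => f (s i)) (i + 1) * max (z - s (i + 1)) 0 +
      ∑ i ∈ Finset.range n, kink s (fun i => f (s i)) (-i) * max (s (-i) - z) 0)

theorem ip_up {s : ℤ → ℝ} (hs : StrictMono s) (f : ℝ → ℝ) (k n : ℕ) (hk : k ≤ n) :
    ip s f n (s k) = f (s k) := by
  have h0 := up hs (fun i => f (s i)) k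
  have h1 : ∑ i ∈ Finset.range n, kink s (fun i => f (s i)) (-i) * max (s (-i) - s k) 0 = 0 := by
    refine Finset.sum_eq_zero fun i _ => ?_
    rw [max_eq_right (sub_nonpos.2 (hs.monotone (by omega))), mul_zero]
  have h2 : ∑ i ∈ Finset.range n, kink s (fun i => f (s i)) (i + 1) * max (s k - s (i + 1)) 0 =
      ∑ i ∈ Finset.range k, kink s (fun i => f (s i)) (i + 1) * (s k - s (i + 1)) := by
    rw [← Finset.sum_subset (Finset.range_mono hk)]
    · refine Finset.sum_congr rfl fun i hi => ?_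
      have hi' := Finset.mem_range.1 hi
      rw [max_eq_left (sub_nonneg.2 (hs.monotone (by omega)))]
    · intro i _ hi
      rw [Finset.mem_range, not_lt] at hi
      rw [max_eq_right (sub_nonpos.2 (hs.monotone (by omega))), mul_zero]
  rw [ip, h1, h2, add_zero]
  exact h0.symm

theorem ip_down {s : ℤ → ℝ} (hs : StrictMono s) (f : ℝ → ℝ) (k n : ℕ) (hk : k ≤ n) :
    ip s f n (s (-k)) = f (s (-k)) := by
  have h0 := down hs (fun i => f (s i)) k
  have h1 : ∑ i ∈ Finset.range n, kink s (fun i => f (s i)) (i + 1) *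
      max (s (-k) - s (i + 1)) 0 = 0 := by
    refine Finset.sum_eq_zero fun i _ => ?_
    rw [max_eq_right (sub_nonpos.2 (hs.monotone (by omega))), mul_zero]
  have h2 : ∑ i ∈ Finset.range n, kink s (fun i => f (s i)) (-i) * max (s (-i) - s (-k)) 0 =
      ∑ i ∈ Finset.range k, kink s (fun i => f (s i)) (-i) * (s (-i) - s (-k)) := by
    rw [← Finset.sum_subset (Finset.range_mono hk)]
    · refine Finset.sum_congr rfl fun i hi => ?_
      have hi' := Finset.mem_range.1 hi
      rw [max_eq_left (sub_nonneg.2 (hs.monotone (by omega)))]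
    · intro i _ hi
      rw [Finset.mem_range, not_lt] at hi
      rw [max_eq_right (sub_nonpos.2 (hs.monotone (by omega))), mul_zero]
  rw [ip, h1, h2, zero_add]
  exact h0.symm

theorem ip_eq {s : ℤ → ℝ} (hs : StrictMono s) (f : ℝ → ℝ) (k : ℤ) (n : ℕ) (hk : k.natAbs ≤ n) :
    ip s f n (s k) = f (s k) := by
  rcases Int.natAbs_eq k with h | h
  · rw [h]
    exact ip_up hs f _ n hk
  · rw [h]
    exact ip_down hs f _ n hk

theorem ip_mono {s : ℤ → ℝ} {f : ℝ → ℝ} (hk : ∀ i, 0 ≤ kink s (fun i => f (s i)) i) (z : ℝ) :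
    Monotone fun n => ip s f n z := by
  refine monotone_nat_of_le_succ fun n => ?_
  rw [ip, ip, Finset.sum_range_succ, Finset.sum_range_succ]
  have h1 := mul_nonneg (hk (n + 1)) (le_max_right (z - s (n + 1)) 0)
  have h2 := mul_nonneg (hk (-n)) (le_max_right (s (-n) - z) 0)
  linarith

theorem good_ip {s : ℤ → ℝ} {η θ : Measure ℝ} (hη : Nice s η) (hθ : Nice s θ)
    (hm : η univ = θ univ) (hb : ∫ z, z ∂η = ∫ z, z ∂θ)
    (hp : ∀ i, potM η (s i) ≤ potM θ (s i)) {f : ℝ → ℝ}
    (hk : ∀ i, 0 ≤ kink s (fun i => f (s i)) i) (n : ℕ) : Good η θ (ip s f n) := by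
  haveI := hη.fin
  haveI := hθ.fin
  have haff : ∀ a b : ℝ, Good η θ fun z => a + b * z := by
    intro a b
    refine ⟨(integrable_const a).add (hη.int.const_mul b),
      (integrable_const a).add (hθ.int.const_mul b), le_of_eq ?_⟩
    rw [integral_add (integrable_const a) (hη.int.const_mul b),
      integral_add (integrable_const a) (hθ.int.const_mul b), integral_const_mul,
      integral_const_mul, hb, integral_const, integral_const, measureReal_def, measureReal_def, hm]
  have habs : ∀ i, Good η θ fun z => |z - s i| := fun i =>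
    ⟨(hη.int.sub (integrable_const _)).abs, (hθ.int.sub (integrable_const _)).abs, hp i⟩
  have hpos : ∀ i, Good η θ fun z => max (z - s i) 0 := by
    intro i
    have h1 := ((habs i).smul (c := 1 / 2) (by norm_num)).add (haff (-(s i) / 2) (1 / 2))
    have h2 : (fun z => max (z - s i) 0) =
        fun z => 1 / 2 * |z - s i| + (-(s i) / 2 + 1 / 2 * z) := by
      funext z
      rcases le_total (z - s i) 0 with h | h
      · rw [max_eq_right h, abs_of_nonpos h]; ring
      · rw [max_eq_left h, abs_of_nonneg h]; ring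
    rw [h2]
    exact h1
  have hneg : ∀ i, Good η θ fun z => max (s i - z) 0 := by
    intro i
    have h1 := ((habs i).smul (c := 1 / 2) (by norm_num)).add (haff (s i / 2) (-(1 / 2)))
    have h2 : (fun z => max (s i - z) 0) =
        fun z => 1 / 2 * |z - s i| + (s i / 2 + -(1 / 2) * z) := by
      funext z
      rcases le_total (z - s i) 0 with h | h
      · rw [max_eq_left (by linarith), abs_of_nonpos h]; ring
      · rw [max_eq_right (by linarith), abs_of_nonneg h]; ring
    rw [h2]
    exact h1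
  have h1 : (ip s f n) = fun z =>
      ((f (s 0) - sl s (fun i => f (s i)) 0 * s 0) + sl s (fun i => f (s i)) 0 * z) +
      (∑ i ∈ Finset.range n, kink s (fun i => f (s i)) (i + 1) * max (z - s (i + 1)) 0 +
      ∑ i ∈ Finset.range n, kink s (fun i => f (s i)) (-i) * max (s (-i) - z) 0) := by
    funext z
    rw [ip]
    ring
  rw [h1]
  exact (haff _ _).add ((Good.sum (fun i => (hpos _).smul (hk _)) n).add
    (Good.sum (fun i => (hneg _).smul (hk _)) n))

end Cxp92

open Cxp92 in
theorem cx_of_pot {s : ℤ → ℝ} (hs : Enum s) {η θ : Measure ℝ} (hη : Nice s η) (hθ : Nice s θ)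
    (hm : η univ = θ univ) (hb : ∫ z, z ∂η = ∫ z, z ∂θ)
    (hp : ∀ i, potM η (s i) ≤ potM θ (s i)) : Cx η θ := by
  refine ⟨hm, fun f hf hfη hfθ => ?_⟩
  have hk : ∀ i, 0 ≤ kink s (fun i => f (s i)) i := by
    intro i
    have h1 : s (i - 1) < s i := hs.mono (by omega)
    have h2 : s i < s (i + 1) := hs.mono (by omega)
    exact sub_nonneg.2 (hf.slope_mono_adjacent (mem_univ _) (mem_univ _) h1 h2)
  have hae : ∀ ν : Measure ℝ, Nice s ν → ∀ᵐ z ∂ν, ∃ k, s k = z := by
    intro ν hν
    have h1 := hν.car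
    rw [← MeasureTheory.mem_ae_iff] at h1
    filter_upwards [h1] with z hz
    exact hz
  have hlim : ∀ ν : Measure ℝ, Nice s ν → Integrable f ν → (∀ n, Integrable (ip s f n) ν) →
      Tendsto (fun n => ∫ z, ip s f n z ∂ν) atTop (𝓝 (∫ z, f z ∂ν)) := by
    intro ν hν hfν hi
    refine tendsto_integral_of_dominated_convergence (fun z => |f z| + |ip s f 0 z|)
      (fun n => (hi n).aestronglyMeasurable) (hfν.abs.add (hi 0).abs) (fun n => ?_) ?_
    · filter_upwards [hae ν hν] with z hz
      obtain ⟨k, rfl⟩ := hz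
      have h1 : ip s f 0 (s k) ≤ ip s f n (s k) := ip_mono hk (s k) (Nat.zero_le n)
      have h2 : ip s f n (s k) ≤ f (s k) := by
        rw [← ip_eq hs.mono f k (max n k.natAbs) (le_max_right _ _)]
        exact ip_mono hk (s k) (le_max_left _ _)
      rw [Real.norm_eq_abs]
      have h3 := neg_abs_le (ip s f 0 (s k))
      have h4 := le_abs_self (f (s k))
      have h5 := abs_nonneg (f (s k))
      have h6 := abs_nonneg (ip s f 0 (s k))
      rw [abs_le]
      constructor <;> linarith
    · filter_upwards [hae ν hν] with z hz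
      obtain ⟨k, rfl⟩ := hz
      refine tendsto_const_nhds.congr' ?_
      filter_upwards [eventually_ge_atTop k.natAbs] with n hn
      exact (ip_eq hs.mono f k n hn).symm
  exact le_of_tendsto_of_tendsto' (hlim η hη hfη fun n => (good_ip hη hθ hm hb hp hk n).1)
    (hlim θ hθ hfθ fun n => (good_ip hη hθ hm hb hp hk n).2.1)
    fun n => (good_ip hη hθ hm hb hp hk n).2.2

end LimCurt
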