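import Mathlib

/-!
# Discretised curtain processes on the Skorokhod space: definitions
-/

set_option autoImplicit false

namespace LimCurt

open MeasureTheory Filter Topology Set

/-- The time interval `[0,1]`. -/
abbrev I := unitInterval

/-- Right-continuous with left limits. -/
def IsCadlag (x : I → ℝ) : Prop :=
  (∀ t, ContinuousWithinAt x (Ici t) t) ∧ ∀ t, ∃ l, Tendsto x (𝓝[<] t) (𝓝 l)

/-- The Skorokhod space `D([0,1])`. -/
def D : Type := {x : I → ℝ // IsCadlag x}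

/-- `x ∘ l` and `y` are `ε`-close, `l` an increasing bijection of `[0,1]`, `ε`-close to the
identity. -/
def near (ε : ℝ) (x y : D) : Prop :=
  ∃ l : I ≃o I, ∀ t : I, |((l t : I) : ℝ) - t| < ε ∧ |x.1 (l t) - y.1 t| < ε

theorem near_refl {ε : ℝ} (hε : 0 < ε) (x : D) : near ε x x :=
  ⟨OrderIso.refl I, fun t => by simpa using hε⟩

theorem near_symm {ε : ℝ} {x y : D} (h : near ε x y) : near ε y x := by
  obtain ⟨l, hl⟩ := h
  refine ⟨l.symm, fun t => ?_⟩
  have h1 := hl (l.symm t)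
  rw [OrderIso.apply_symm_apply] at h1
  exact ⟨by rw [abs_sub_comm]; exact h1.1, by rw [abs_sub_comm]; exact h1.2⟩

theorem near_trans {ε δ : ℝ} {x y z : D} (h : near ε x y) (h' : near δ y z) :
    near (ε + δ) x z := by
  obtain ⟨l, hl⟩ := h
  obtain ⟨l', hl'⟩ := h'
  refine ⟨l'.trans l, fun t => ?_⟩
  have h1 := hl (l' t)
  have h2 := hl' t
  show |((l (l' t) : I) : ℝ) - t| < ε + δ ∧ |x.1 (l (l' t)) - z.1 t| < ε + δ
  constructor
  · calc |((l (l' t) : I) : ℝ) - t| = |(((l (l' t) : I) : ℝ) - (l' t : I)) + ((l' t : I) - t)| := by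
          ring_nf
      _ ≤ _ := abs_add_le _ _
      _ < ε + δ := add_lt_add h1.1 h2.1
  · calc |x.1 (l (l' t)) - z.1 t| = |(x.1 (l (l' t)) - y.1 (l' t)) + (y.1 (l' t) - z.1 t)| := by
          ring_nf
      _ ≤ _ := abs_add_le _ _
      _ < ε + δ := add_lt_add h1.2 h2.2

theorem near_mono {ε δ : ℝ} (h : ε ≤ δ) {x y : D} (hxy : near ε x y) : near δ x y := by
  obtain ⟨l, hl⟩ := hxy
  exact ⟨l, fun t => ⟨(hl t).1.trans_le h, (hl t).2.trans_le h⟩⟩

/-- The basis of the Skorokhod uniformity. -/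
def skBasis : FilterBasis (D × D) where
  sets := {s | ∃ ε > 0, s = {p : D × D | near ε p.1 p.2}}
  nonempty := ⟨_, 1, one_pos, rfl⟩
  inter_sets := by
    rintro _ _ ⟨ε, hε, rfl⟩ ⟨δ, hδ, rfl⟩
    exact ⟨_, ⟨min ε δ, lt_min hε hδ, rfl⟩, fun p hp =>
      ⟨near_mono (min_le_left _ _) hp, near_mono (min_le_right _ _) hp⟩⟩

/-- The Skorokhod topology (J1), as a uniform structure. -/
instance : UniformSpace D :=
  UniformSpace.ofCore (UniformSpace.Core.mkOfBasis skBasis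
    (by rintro _ ⟨ε, hε, rfl⟩ x; exact near_refl hε x)
    (by
      rintro _ ⟨ε, hε, rfl⟩
      exact ⟨_, ⟨ε, hε, rfl⟩, fun p hp => near_symm hp⟩)
    (by
      rintro _ ⟨ε, hε, rfl⟩
      refine ⟨_, ⟨ε / 2, half_pos hε, rfl⟩, ?_⟩
      rintro ⟨x, z⟩ ⟨y, h1, h2⟩
      have := near_trans h1 h2
      rwa [add_halves] at this))

instance : MeasurableSpace D := borel D

instance : BorelSpace D := ⟨rfl⟩

theorem uniformity_basis :
    (uniformity D).HasBasis (fun ε : ℝ => 0 < ε) (fun ε => {p | near ε p.1 p.2}) := by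
  refine ⟨fun s => ?_⟩
  show s ∈ skBasis.filter ↔ _
  rw [FilterBasis.mem_filter_iff]
  constructor
  · rintro ⟨_, ⟨ε, hε, rfl⟩, h⟩
    exact ⟨ε, hε, h⟩
  · rintro ⟨ε, hε, h⟩
    exact ⟨_, ⟨ε, hε, rfl⟩, h⟩

theorem eq_of_near {x y : D} (hn : ∀ ε : ℝ, 0 < ε → near ε x y) : x = y := by
  apply Subtype.ext
  funext t
  rcases eq_or_ne t 1 with rfl | ht1
  · refine eq_of_forall_dist_le fun ε hε => ?_
    obtain ⟨l, hl⟩ := hn ε hε
    have h1 := (hl 1).2
    have h2 : l 1 = 1 := l.map_top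
    rw [h2] at h1
    exact h1.le
  · refine eq_of_forall_dist_le fun ε hε => ?_
    have ht : (t : ℝ) < 1 := lt_of_le_of_ne t.2.2 fun h => ht1 (Subtype.ext h)
    obtain ⟨η, hη, h1⟩ := Metric.continuousWithinAt_iff.1 (x.2.1 t) (ε / 3) (by linarith)
    obtain ⟨η', hη', h2⟩ := Metric.continuousWithinAt_iff.1 (y.2.1 t) (ε / 3) (by linarith)
    set a : ℝ := min (min η η') (1 - t) with ha
    have ha0 : 0 < a := lt_min (lt_min hη hη') (by linarith)
    have ha1 : a ≤ 1 - t := min_le_right _ _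
    have ha2 : a ≤ η := (min_le_left _ _).trans (min_le_left _ _)
    have ha3 : a ≤ η' := (min_le_left _ _).trans (min_le_right _ _)
    let s : I := ⟨t + a / 2, by have := t.2.1; linarith, by linarith⟩
    obtain ⟨l, hl⟩ := hn (min (ε / 3) (a / 4)) (lt_min (by linarith) (by linarith))
    have h3 := hl s
    have h4 := abs_lt.1 (h3.1.trans_le (min_le_right _ _))
    have h5 := h3.2.trans_le (min_le_left _ _)
    have h6 : ((s : I) : ℝ) = t + a / 2 := rfl
    have h7 : dist (x.1 (l s)) (x.1 t) < ε / 3 := h1 (by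
      show t ≤ l s
      rw [← Subtype.coe_le_coe]
      linarith [h4.1]) (by
      rw [Subtype.dist_eq, Real.dist_eq, abs_lt]
      constructor <;> linarith [h4.1, h4.2])
    have h8 : dist (y.1 s) (y.1 t) < ε / 3 := h2 (by
      show t ≤ s
      rw [← Subtype.coe_le_coe]
      linarith) (by
      rw [Subtype.dist_eq, Real.dist_eq, abs_lt]
      constructor <;> linarith)
    rw [Real.dist_eq] at h7 h8 ⊢
    have h9 : x.1 t - y.1 t = (x.1 (l s) - y.1 s) - (x.1 (l s) - x.1 t) + (y.1 s - y.1 t) := by ring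
    rw [h9]
    have := abs_add_le ((x.1 (l s) - y.1 s) - (x.1 (l s) - x.1 t)) (y.1 s - y.1 t)
    have h10 := abs_sub (x.1 (l s) - y.1 s) (x.1 (l s) - x.1 t)
    linarith

instance : T2Space D := by
  have h0 : T0Space D :=
    ⟨fun _ _ hxy => eq_of_near fun ε hε => uniformity_basis.inseparable_iff_uniformity.1 hxy ε hε⟩
  infer_instance

/-- Convex order of finite measures with finite first moments. -/
def Cx (η θ : Measure ℝ) : Prop := η univ = θ univ ∧
  ∀ f : ℝ → ℝ, ConvexOn ℝ univ f → Integrable f η → Integrable f θ → ∫ z, f z ∂η ≤ ∫ z, f z ∂θ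

/-- The right-continuous peacocks. -/
structure Peacock (μ : I → ProbabilityMeasure ℝ) : Prop where
  integrable : ∀ t, Integrable (fun z : ℝ => z) (μ t : Measure ℝ)
  cx : ∀ s t, s ≤ t → Cx (μ s : Measure ℝ) (μ t : Measure ℝ)
  right : ∀ t, ContinuousWithinAt μ (Ici t) t
  right_abs : ∀ t, ContinuousWithinAt (fun s => ∫ z, |z| ∂(μ s : Measure ℝ)) (Ici t) t

/-- `θ` is the shadow of `η` in `ν`. -/
def IsShadow (ν η θ : Measure ℝ) : Prop :=
  θ ≤ ν ∧ Cx η θ ∧ ∀ θ' : Measure ℝ, θ' ≤ ν → Cx η θ' → Cx θ θ'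

/-- `π` is the left-curtain coupling of `μ` and `ν`. -/
def IsCurt (μ ν : Measure ℝ) (π : Measure (ℝ × ℝ)) : Prop :=
  π.map Prod.fst = μ ∧ π.map Prod.snd = ν ∧
    ∀ x : ℝ, IsShadow ν (μ.restrict (Iic x)) ((π.restrict (Iic x ×ˢ univ)).map Prod.snd)

/-- A partition `0 = t_0 < … < t_Q = 1`. -/
def IsPart (Q : ℕ) (t : ℕ → I) : Prop :=
  t 0 = 0 ∧ t Q = 1 ∧ ∀ k, k < Q → t k < t (k + 1)

/-- `P` is the law of the discretised curtain process of `μ` along the partition `t`: constant on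
`[t_k, t_{k+1})`, a Markov chain at the times `t_k`, consecutive pairs are left-curtain
couplings. -/
def IsDisc (μ : I → ProbabilityMeasure ℝ) (Q : ℕ) (t : ℕ → I) (P : Measure D) : Prop :=
  (∀ᵐ x ∂P, ∀ k < Q, ∀ s : I, t k ≤ s → s < t (k + 1) → x.1 s = x.1 (t k)) ∧
  (∀ k < Q, ∃ κ : ProbabilityTheory.Kernel ℝ ℝ, ProbabilityTheory.IsMarkovKernel κ ∧
    P.map (fun x => ((fun j : Fin (k + 1) => x.1 (t j)), x.1 (t (k + 1)))) =
      (P.map (fun x => (fun j : Fin (k + 1) => x.1 (t j)))).compProd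
        (κ.comap (fun v : Fin (k + 1) → ℝ => v (Fin.last k)) (measurable_pi_apply _))) ∧
  ∀ k < Q, IsCurt (μ (t k) : Measure ℝ) (μ (t (k + 1)) : Measure ℝ)
    (P.map fun x => (x.1 (t k), x.1 (t (k + 1))))

end LimCurt
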