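import Pool.Agent.Lib.MP_b499b5_pr.RowsE23

/-!
# Row ENUM (helper14)
-/

set_option autoImplicit false

namespace LimCurt

open MeasureTheory Filter Topology Set

namespace Enum14

/-- The set with the integers added. -/
def TT (S : Set ℝ) : Set ℝ := S ∪ range (fun k : ℤ => (k : ℝ))

theorem fin (S : Set ℝ) (hSf : ∀ r : ℝ, (S ∩ Icc (-r) r).Finite) (a b : ℝ) :
    (TT S ∩ Icc a b).Finite := by
  have h1 : (S ∩ Icc a b).Finite := by
    refine (hSf (max |a| |b|)).subset ?_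
    rintro x ⟨hx, h2, h3⟩
    refine ⟨hx, ?_, ?_⟩
    · have h4 := neg_abs_le a
      have h5 := le_max_left |a| |b|
      linarith
    · exact h3.trans ((le_abs_self b).trans (le_max_right _ _))
  have h2 : (range (fun k : ℤ => (k : ℝ)) ∩ Icc a b).Finite := by
    refine ((Set.finite_Icc ⌈a⌉ ⌊b⌋).image (fun k : ℤ => (k : ℝ))).subset ?_
    rintro _ ⟨⟨k, rfl⟩, h3, h4⟩
    exact ⟨k, ⟨Int.ceil_le.2 h3, Int.le_floor.2 h4⟩, rfl⟩
  rw [TT, union_inter_distrib_right]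
  exact h1.union h2

end Enum14

/-- Row ENUM. -/
theorem enum (S : Set ℝ) (hSf : ∀ r : ℝ, (S ∩ Icc (-r) r).Finite) :
    ∃ s : ℤ → ℝ, Enum s ∧ S ⊆ range s := by
  classical
  have hmem : ∀ k : ℤ, (k : ℝ) ∈ Enum14.TT S := fun k => Or.inr ⟨k, rfl⟩
  let i0 : LocallyFiniteOrder (Enum14.TT S) := LocallyFiniteOrder.ofFiniteIcc fun x y => by
    refine Set.Finite.of_finite_image ((Enum14.fin S hSf x y).subset ?_)
      (Subtype.val_injective.injOn)
    rintro _ ⟨z, hz, rfl⟩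
    exact ⟨z.2, hz.1, hz.2⟩
  let i1 : SuccOrder (Enum14.TT S) := LinearLocallyFiniteOrder.succOrder _
  let i2 : PredOrder (Enum14.TT S) := LinearLocallyFiniteOrder.predOrder _
  have : Nonempty (Enum14.TT S) := ⟨⟨_, hmem 0⟩⟩
  have : NoMaxOrder (Enum14.TT S) := ⟨fun x => by
    obtain ⟨k, hk⟩ := exists_int_gt (x : ℝ)
    exact ⟨⟨k, hmem k⟩, hk⟩⟩
  have : NoMinOrder (Enum14.TT S) := ⟨fun x => by
    obtain ⟨k, hk⟩ := exists_int_lt (x : ℝ)
    exact ⟨⟨k, hmem k⟩, hk⟩⟩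
  let e : Enum14.TT S ≃o ℤ := orderIsoIntOfLinearSuccPredArch
  have hmono : StrictMono (fun k : ℤ => ((e.symm k : Enum14.TT S) : ℝ)) := fun a b hab =>
    e.symm.strictMono hab
  refine ⟨fun k => ((e.symm k : Enum14.TT S) : ℝ), ⟨hmono, ?_, ?_⟩, ?_⟩
  · refine tendsto_atTop_atTop_of_monotone hmono.monotone fun b => ?_
    obtain ⟨k, hk⟩ := exists_int_gt b
    exact ⟨e ⟨k, hmem k⟩, by simpa using hk.le⟩
  · refine tendsto_atBot_atBot_of_monotone hmono.monotone fun b => ?_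
    obtain ⟨k, hk⟩ := exists_int_lt b
    exact ⟨e ⟨k, hmem k⟩, by simpa using hk.le⟩
  · intro x hx
    exact ⟨e ⟨x, Or.inl hx⟩, by simp⟩

end LimCurt
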