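import Pool.Agent.Lib.MP_b499b5_pr.An67

/-!
# Row EST: estimates of the bad events
-/

set_option autoImplicit false

namespace LimCurt

open MeasureTheory Filter Topology Set

/-! ## Potentials -/

theorem convexOn_abs_sub67 (x : ℝ) : ConvexOn ℝ univ (fun z : ℝ => |z - x|) := by
  refine ⟨convex_univ, fun a _ b _ p q hp hq hpq => ?_⟩
  simp only [smul_eq_mul]
  have h : p * a + q * b - x = p * (a - x) + q * (b - x) := by
    have : p * x + q * x = x := by rw [← add_mul, hpq, one_mul]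
    linarith
  rw [h]
  refine (abs_add_le _ _).trans ?_
  rw [abs_mul, abs_mul, abs_of_nonneg hp, abs_of_nonneg hq]

variable {μ : I → ProbabilityMeasure ℝ}

theorem integrable_abs_sub67 (hμ : Peacock μ) (s : I) (x : ℝ) :
    Integrable (fun z : ℝ => |z - x|) (μ s : Measure ℝ) :=
  ((hμ.integrable s).sub (integrable_const x)).abs

theorem pot_mono67 (hμ : Peacock μ) {s t : I} (hst : s ≤ t) (x : ℝ) :
    pot (μ s) x ≤ pot (μ t) x :=
  (hμ.cx s t hst).2 _ (convexOn_abs_sub67 x) (integrable_abs_sub67 hμ s x)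
    (integrable_abs_sub67 hμ t x)

/-- `|z - x| - |z|` -/
noncomputable def bdd67 (x : ℝ) : BoundedContinuousFunction ℝ ℝ :=
  BoundedContinuousFunction.ofNormedAddCommGroup (fun z : ℝ => |z - x| - |z|)
    ((continuous_id.sub continuous_const).abs.sub continuous_abs) |x| (fun z => by
      rw [Real.norm_eq_abs]
      refine (abs_abs_sub_abs_le (z - x) z).trans ?_
      rw [show z - x - z = -x by ring, abs_neg])

theorem pot_right67 (hμ : Peacock μ) (x : ℝ) (t : I) :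
    ContinuousWithinAt (fun s => pot (μ s) x) (Ici t) t := by
  have h1 : ContinuousWithinAt (fun s => ∫ z, bdd67 x z ∂(μ s : Measure ℝ)) (Ici t) t := by
    have := hμ.right t
    unfold ContinuousWithinAt at this ⊢
    rw [ProbabilityMeasure.tendsto_iff_forall_integral_tendsto] at this
    exact this (bdd67 x)
  have h2 := h1.add (hμ.right_abs t)
  have h3 : (fun s => pot (μ s) x) =
      fun s => (∫ z, bdd67 x z ∂(μ s : Measure ℝ)) + ∫ z, |z| ∂(μ s : Measure ℝ) := by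
    funext s
    unfold pot
    rw [← integral_add ((bdd67 x).integrable _) (hμ.integrable s).abs]
    refine integral_congr_ae (Eventually.of_forall fun z => ?_)
    show |z - x| = (|z - x| - |z|) + |z|
    ring
  rw [h3]
  exact h2

/-- The potential as a function on the line. -/
noncomputable def Up (μ : I → ProbabilityMeasure ℝ) (x : ℝ) (s : ℝ) : ℝ :=
  pot (μ (projIcc 0 1 zero_le_one s)) x

theorem Up_coe (x : ℝ) (t : I) : Up μ x t = pot (μ t) x := by
  unfold Up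
  rw [projIcc_val]

theorem Up_mono (hμ : Peacock μ) (x : ℝ) : Monotone (Up μ x) := fun _ _ hst =>
  pot_mono67 hμ (monotone_projIcc _ hst) x

theorem Up_right (hμ : Peacock μ) (x s : ℝ) : ContinuousWithinAt (Up μ x) (Ici s) s := by
  have h1 := pot_right67 hμ x (projIcc 0 1 zero_le_one s)
  have h2 : ContinuousWithinAt (projIcc (0 : ℝ) 1 zero_le_one) (Ici s) s :=
    continuous_projIcc.continuousWithinAt
  exact ContinuousWithinAt.comp (t := Ici (projIcc (0 : ℝ) 1 zero_le_one s)) h1 h2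
    (fun r hr => mem_Ici.2 (monotone_projIcc _ (mem_Ici.1 hr)))

/-- `V_y` -/
noncomputable def Vy (μ : I → ProbabilityMeasure ℝ) (y ρ : ℝ) (s : ℝ) : ℝ :=
  (Up μ (y + ρ) s + Up μ (y - ρ) s + 2 * Up μ y s) / (2 * ρ)

/-- `m_y` -/
noncomputable def My (μ : I → ProbabilityMeasure ℝ) (y ρ : ℝ) (s : ℝ) : ℝ :=
  (Up μ (y + ρ) s + Up μ (y - ρ) s - 2 * Up μ y s) / (2 * ρ)

theorem Vy_mono (hμ : Peacock μ) (y : ℝ) {ρ : ℝ} (hρ : 0 < ρ) : Monotone (Vy μ y ρ) := by
  intro s t hst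
  unfold Vy
  have h1 := Up_mono hμ (y + ρ) hst
  have h2 := Up_mono hμ (y - ρ) hst
  have h3 := Up_mono hμ y hst
  gcongr

theorem Vy_right (hμ : Peacock μ) (y ρ s : ℝ) : ContinuousWithinAt (Vy μ y ρ) (Ici s) s :=
  (((Up_right hμ (y + ρ) s).add (Up_right hμ (y - ρ) s)).add
    ((continuousWithinAt_const).mul (Up_right hμ y s))).div_const _

theorem My_sub (hμ : Peacock μ) (y : ℝ) {ρ : ℝ} (hρ : 0 < ρ) (s t : ℝ) (hst : s ≤ t) :
    |My μ y ρ t - My μ y ρ s| ≤ Vy μ y ρ t - Vy μ y ρ s := by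
  have h1 := Up_mono hμ (y + ρ) hst
  have h2 := Up_mono hμ (y - ρ) hst
  have h3 := Up_mono hμ y hst
  unfold My Vy
  rw [← sub_div, ← sub_div, abs_div, abs_of_pos (show 0 < 2 * ρ by linarith)]
  refine div_le_div_of_nonneg_right ?_ (by linarith)
  rw [abs_le]
  constructor <;> linarith

/-- Telescoping over a part of a partition. -/
theorem tel67 (V : ℝ → ℝ) (hV : Monotone V) (Q : ℕ) (t : ℕ → ℝ) (ht : ∀ k < Q, t k ≤ t (k + 1))
    (A : Finset ℕ) (hA : A ⊆ Finset.range Q) (lo hi : ℝ) (hlh : lo ≤ hi)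
    (h : ∀ k ∈ A, lo ≤ t k ∧ t (k + 1) ≤ hi) :
    ∑ k ∈ A, (V (t (k + 1)) - V (t k)) ≤ V hi - V lo := by
  let c : ℕ → ℝ := fun k => max lo (min hi (t k))
  have h1 : ∀ k ∈ Finset.range Q, 0 ≤ V (c (k + 1)) - V (c k) := by
    intro k hk
    have := ht k (Finset.mem_range.1 hk)
    exact sub_nonneg.2 (hV (max_le_max le_rfl (min_le_min le_rfl this)))
  have h2 : ∑ k ∈ A, (V (t (k + 1)) - V (t k)) = ∑ k ∈ A, (V (c (k + 1)) - V (c k)) := by
    refine Finset.sum_congr rfl fun k hk => ?_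
    obtain ⟨h3, h4⟩ := h k hk
    have h5 := ht k (Finset.mem_range.1 (hA hk))
    have h6 : c k = t k := by
      show max lo (min hi (t k)) = t k
      rw [min_eq_right (h5.trans h4), max_eq_right h3]
    have h7 : c (k + 1) = t (k + 1) := by
      show max lo (min hi (t (k + 1))) = t (k + 1)
      rw [min_eq_right h4, max_eq_right (h3.trans h5)]
    rw [h6, h7]
  rw [h2]
  calc ∑ k ∈ A, (V (c (k + 1)) - V (c k)) ≤ ∑ k ∈ Finset.range Q, (V (c (k + 1)) - V (c k)) :=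
        Finset.sum_le_sum_of_subset_of_nonneg hA fun k hk _ => h1 k hk
    _ = V (c Q) - V (c 0) := Finset.sum_range_sub (fun k => V (c k)) Q
    _ ≤ V hi - V lo := by
        have h8 : V (c Q) ≤ V hi := hV (max_le hlh (min_le_left _ _))
        have h9 : V lo ≤ V (c 0) := hV (le_max_left _ _)
        linarith

/-! ## The rows used -/

/-- row G -/
def StLeave : Prop := ∀ {Q : ℕ} {m : ℕ → ProbabilityMeasure ℝ} {Pr : Measure (ℕ → ℝ)}
    (_ : MChain Q m Pr)
    (_ : ∀ k, Integrable (fun z : ℝ => z) (m k : Measure ℝ)) (S : Set ℝ)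
    (_ : ∀ k, (m k : Measure ℝ) Sᶜ = 0) (y ρ : ℝ) (_ : 0 < ρ)
    (_ : ∀ s ∈ S, s ≠ y → ρ ≤ |s - y|) (k : ℕ),
    ρ * Pr.real {ω | ω k = y ∧ ω (k + 1) ≠ y} ≤ pot (m (k + 1)) y - pot (m k) y

/-- row MASS -/
def StMass : Prop := ∀ (μ : ProbabilityMeasure ℝ)
    (_ : Integrable (fun z : ℝ => z) (μ : Measure ℝ))
    (S : Set ℝ) (_ : (μ : Measure ℝ) Sᶜ = 0) (y ρ : ℝ) (_ : 0 < ρ)
    (_ : ∀ s ∈ S, s ≠ y → ρ ≤ |s - y|),
    (μ : Measure ℝ).real {y} = (pot μ (y + ρ) + pot μ (y - ρ) - 2 * pot μ y) / (2 * ρ)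

/-- row SHORT -/
def StShort : Prop := ∀ {Q : ℕ} {m : ℕ → ProbabilityMeasure ℝ} {Pr : Measure (ℕ → ℝ)}
    (_ : MChain Q m Pr) (y : ℝ) (k L : ℕ),
    Pr.real {ω | ω k ≠ y ∧ ω (k + 1) = y ∧ ∃ l, k + 1 ≤ l ∧ l < L ∧
        (∀ j, k + 1 ≤ j → j ≤ l → ω j = y) ∧ ω (l + 1) ≠ y} ≤
      Pr.real {ω | ω k ≠ y ∧ ω (k + 1) = y} *
        min 1 ((∑ l ∈ Finset.Ico (k + 1) L, Pr.real {ω | ω l = y ∧ ω (l + 1) ≠ y}) /
          Pr.real {ω | ω (k + 1) = y})

/-- row SUP -/
def StSup : Prop := ∀ {Q : ℕ} {m : ℕ → ProbabilityMeasure ℝ} {Pr : Measure (ℕ → ℝ)}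
    (_ : MChain Q m Pr)
    (_ : ∀ k, Integrable (fun z : ℝ => z) (m k : Measure ℝ)) (S : Set ℝ) (_ : S.Countable)
    (_ : ∀ k, (m k : Measure ℝ) Sᶜ = 0) (r : ℝ) (_ : 0 < r),
    r * Pr.real {ω | ∃ k ≤ Q, r < |ω k|} ≤ pot (m Q) 0

/-! ## Chain inequalities -/

theorem meas_eq67 (k : ℕ) (y : ℝ) : MeasurableSet {ω : ℕ → ℝ | ω k = y} :=
  measurableSet_eq_fun (measurable_pi_apply k) measurable_const

theorem leave_le67 (hG : StLeave) {S : Set ℝ} (hμ : Peacock μ)
    (hμS : ∀ s, (μ s : Measure ℝ) Sᶜ = 0) {y ρ : ℝ} (hρ : 0 < ρ)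
    (hy : ∀ s ∈ S, s ≠ y → ρ ≤ |s - y|) {Q : ℕ} {t : ℕ → I} (ht : IsPart Q t)
    {Pr : Measure (ℕ → ℝ)} (h : MChain Q (fun k => μ (t (min k Q))) Pr) {k : ℕ} (hk : k < Q) :
    Pr.real {ω | ω k = y ∧ ω (k + 1) ≠ y} ≤ Vy μ y ρ (t (k + 1)) - Vy μ y ρ (t k) := by
  have h1 := hG h (fun k => hμ.integrable _) S (fun k => hμS _) y ρ hρ hy k
  rw [min_eq_left hk.le, min_eq_left (show k + 1 ≤ Q from hk)] at h1
  have hle : (t k : ℝ) ≤ t (k + 1) := (ht.2.2 k hk).le
  have h2 := Up_mono hμ (y + ρ) hle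
  have h3 := Up_mono hμ (y - ρ) hle
  rw [← Up_coe (μ := μ), ← Up_coe (μ := μ)] at h1
  unfold Vy
  rw [← sub_div, le_div_iff₀ (by linarith)]
  nlinarith

theorem marg67 (hM : StMass) {S : Set ℝ} (hμ : Peacock μ)
    (hμS : ∀ s, (μ s : Measure ℝ) Sᶜ = 0) {y ρ : ℝ} (hρ : 0 < ρ)
    (hy : ∀ s ∈ S, s ≠ y → ρ ≤ |s - y|) {Q : ℕ} {t : ℕ → I}
    {Pr : Measure (ℕ → ℝ)} (h : MChain Q (fun k => μ (t (min k Q))) Pr) {k : ℕ} (hk : k ≤ Q) :
    Pr.real {ω | ω k = y} = My μ y ρ (t k) := by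
  have h1 := h.marg k
  rw [min_eq_left hk] at h1
  have h2 : Pr.real {ω | ω k = y} = (μ (t k) : Measure ℝ).real {y} := by
    rw [← h1, measureReal_def, measureReal_def,
      Measure.map_apply (measurable_pi_apply k) (measurableSet_singleton y)]
    rfl
  rw [h2, hM (μ (t k)) (hμ.integrable _) S (hμS _) y ρ hρ hy]
  unfold My
  rw [Up_coe, Up_coe, Up_coe]

theorem enter_le67 (hG : StLeave) (hM : StMass) {S : Set ℝ} (hμ : Peacock μ)
    (hμS : ∀ s, (μ s : Measure ℝ) Sᶜ = 0) {y ρ : ℝ} (hρ : 0 < ρ)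
    (hy : ∀ s ∈ S, s ≠ y → ρ ≤ |s - y|) {Q : ℕ} {t : ℕ → I} (ht : IsPart Q t)
    {Pr : Measure (ℕ → ℝ)} (h : MChain Q (fun k => μ (t (min k Q))) Pr) {k : ℕ} (hk : k < Q) :
    Pr.real {ω | ω k ≠ y ∧ ω (k + 1) = y} ≤ My μ y ρ (t (k + 1)) ∧
    Pr.real {ω | ω k ≠ y ∧ ω (k + 1) = y} ≤
      2 * (Vy μ y ρ (t (k + 1)) - Vy μ y ρ (t k)) := by
  have := h.prob
  have hle : (t k : ℝ) ≤ t (k + 1) := (ht.2.2 k hk).le
  have h1 := marg67 hM hμ hμS hρ hy h (k := k) hk.le
  have h2 := marg67 hM hμ hμS hρ hy h (k := k + 1) hk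
  have h3 := leave_le67 hG hμ hμS hρ hy ht h hk
  have h4 := abs_le.1 (My_sub hμ y hρ (t k) (t (k + 1)) hle)
  have hmk : MeasurableSet {ω : ℕ → ℝ | ω k = y} := meas_eq67 k y
  have hmk1 : MeasurableSet {ω : ℕ → ℝ | ω (k + 1) = y} := meas_eq67 (k + 1) y
  constructor
  · rw [← h2]
    exact measureReal_mono (fun ω hω => hω.2)
  · have h5 : Pr.real {ω | ω (k + 1) = y} =
        Pr.real ({ω | ω (k + 1) = y} ∩ {ω | ω k = y}) +
          Pr.real ({ω | ω (k + 1) = y} \ {ω | ω k = y}) :=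
      (measureReal_inter_add_sdiff hmk).symm
    have h6 : Pr.real {ω | ω k = y} =
        Pr.real ({ω | ω k = y} ∩ {ω | ω (k + 1) = y}) +
          Pr.real ({ω | ω k = y} \ {ω | ω (k + 1) = y}) :=
      (measureReal_inter_add_sdiff hmk1).symm
    have h7 : ({ω : ℕ → ℝ | ω (k + 1) = y} \ {ω | ω k = y}) = {ω | ω k ≠ y ∧ ω (k + 1) = y} := by
      ext ω
      exact ⟨fun h => ⟨h.2, h.1⟩, fun h => ⟨h.2, h.1⟩⟩
    have h8 : ({ω : ℕ → ℝ | ω k = y} \ {ω | ω (k + 1) = y}) = {ω | ω k = y ∧ ω (k + 1) ≠ y} := rfl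
    rw [inter_comm, h8] at h6
    rw [h7] at h5
    linarith

/-- Isolation radius. -/
theorem iso67 {S : Set ℝ} (hSf : ∀ r : ℝ, (S ∩ Icc (-r) r).Finite) (y : ℝ) :
    ∃ ρ > 0, ∀ s ∈ S, s ≠ y → ρ ≤ |s - y| := by
  have hfin : ((S ∩ Icc (-(|y| + 1)) (|y| + 1)) \ {y}).Finite := (hSf _).subset sdiff_subset
  have hmem : ((S ∩ Icc (-(|y| + 1)) (|y| + 1)) \ {y})ᶜ ∈ 𝓝 y :=
    hfin.isClosed.isOpen_compl.mem_nhds (fun h => h.2 rfl)
  obtain ⟨ε, hε, hsub⟩ := Metric.mem_nhds_iff.1 hmem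
  refine ⟨min 1 ε, lt_min one_pos hε, fun s hs hsy => ?_⟩
  by_contra hlt
  push Not at hlt
  have h1 : |s - y| < 1 := hlt.trans_le (min_le_left _ _)
  have h2 : |s - y| < ε := hlt.trans_le (min_le_right _ _)
  have h3 : s ∈ Metric.ball y ε := by
    rw [Metric.mem_ball, Real.dist_eq]
    exact h2
  refine hsub h3 ⟨⟨hs, ?_⟩, hsy⟩
  have h4 := abs_lt.1 h1
  have h5 := neg_abs_le y
  have h6 := le_abs_self y
  constructor <;> linarith

/-! ## One site -/

section site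

variable (Q : ℕ) (t : ℕ → I) (y : ℝ)

/-- Leaving `y` at a bad time. -/
def Bad3 (δ : ℝ) : Set (ℕ → ℝ) := {ω | ∃ k < Q, ((t (k + 1) : ℝ) < δ ∨
  (1 - δ < (t (k + 1) : ℝ) ∧ t (k + 1) ≠ 1)) ∧ ω k = y ∧ ω (k + 1) ≠ y}

/-- A short stay at `y`. -/
def Bad4 (δ : ℝ) : Set (ℕ → ℝ) := {ω | ∃ k < Q, ω k ≠ y ∧ ω (k + 1) = y ∧ ∃ l < Q,
  k + 1 ≤ l ∧ (t (l + 1) : ℝ) < t (k + 1) + δ ∧ (∀ j, k + 1 ≤ j → j ≤ l → ω j = y) ∧
    ω (l + 1) ≠ y}

end site

theorem site67 (hG : StLeave) (hM : StMass) (hSh : StShort) {S : Set ℝ} (hμ : Peacock μ)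
    (hμS : ∀ s, (μ s : Measure ℝ) Sᶜ = 0) {y ρ : ℝ} (hρ : 0 < ρ)
    (hy : ∀ s ∈ S, s ≠ y → ρ ≤ |s - y|) (ε : ℝ) (hε : 0 < ε) :
    ∀ᶠ δ : ℝ in 𝓝[>] 0, ∀ (Q : ℕ) (t : ℕ → I), IsPart Q t →
      (∀ k < Q, (t (k + 1) : ℝ) - t k ≤ δ) → ∀ Pr : Measure (ℕ → ℝ),
      MChain Q (fun k => μ (t (min k Q))) Pr →
      Pr.real (Bad3 Q t y δ) ≤ ε ∧ Pr.real (Bad4 Q t y δ) ≤ ε ∧
      ∑ k ∈ Finset.range Q, Pr.real {ω | ω k = y ∧ ω (k + 1) ≠ y} ≤
        Vy μ y ρ 1 - Vy μ y ρ 0 := by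
  set V := Vy μ y ρ with hVdef
  have hV : Monotone V := Vy_mono hμ y hρ
  have hVr : ∀ s, ContinuousWithinAt V (Ici s) s := Vy_right hμ y ρ
  -- near zero
  have hev1 : ∀ᶠ δ : ℝ in 𝓝[>] 0, V δ - V 0 < ε / 2 := by
    have h1 : Tendsto V (𝓝[>] 0) (𝓝 (V 0)) := (hVr 0).mono_left
      (nhdsWithin_mono _ Ioi_subset_Ici_self)
    have h2 : Tendsto (fun δ => V δ - V 0) (𝓝[>] 0) (𝓝 (V 0 - V 0)) := h1.sub tendsto_const_nhds
    rw [sub_self] at h2
    exact h2.eventually_lt tendsto_const_nhds (by linarith)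
  -- near one
  have hev2 : ∀ᶠ δ : ℝ in 𝓝[>] 0, Function.leftLim V 1 - V (1 - 2 * δ) < ε / 2 := by
    have h1 := hV.tendsto_leftLim 1
    have h3 : Tendsto (fun δ : ℝ => 1 - 2 * δ) (𝓝[>] 0) (𝓝[<] 1) := by
      refine tendsto_nhdsWithin_iff.2 ⟨?_, ?_⟩
      · have : Tendsto (fun δ : ℝ => 1 - 2 * δ) (𝓝 0) (𝓝 (1 - 2 * 0)) :=
          (continuous_const.sub (continuous_const.mul continuous_id)).tendsto 0
        rw [mul_zero, sub_zero] at this
        exact this.mono_left nhdsWithin_le_nhds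
      · filter_upwards [self_mem_nhdsWithin] with δ hδ
        have : (0 : ℝ) < δ := hδ
        show 1 - 2 * δ < 1
        linarith
    have h4 : Tendsto (fun δ => Function.leftLim V 1 - V (1 - 2 * δ)) (𝓝[>] 0)
        (𝓝 (Function.leftLim V 1 - Function.leftLim V 1)) :=
      tendsto_const_nhds.sub (h1.comp h3)
    rw [sub_self] at h4
    exact h4.eventually_lt tendsto_const_nhds (by linarith)
  -- short stays
  have hm0 : ∀ s, 0 ≤ My μ y ρ s := by
    intro s
    have := hM (μ (projIcc 0 1 zero_le_one s)) (hμ.integrable _) S (hμS _) y ρ hρ hy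
    have h2 : My μ y ρ s = (μ (projIcc 0 1 zero_le_one s) : Measure ℝ).real {y} := this.symm
    rw [h2]
    exact measureReal_nonneg
  obtain ⟨δ₀, hδ₀, han⟩ := an V (My μ y ρ) hV hVr hm0 (My_sub hμ y hρ) ε hε
  have hev3 : ∀ᶠ δ : ℝ in 𝓝[>] 0, δ ≤ δ₀ := by
    filter_upwards [Ioo_mem_nhdsGT hδ₀] with δ hδ
    exact hδ.2.le
  filter_upwards [hev1, hev2, hev3, Ioo_mem_nhdsGT (show (0 : ℝ) < 1 / 2 by norm_num),
    self_mem_nhdsWithin] with δ h1 h2 h3 hhalf hδ0 Q t ht mesh Pr h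
  have hδ : (0 : ℝ) < δ := hδ0
  have hprob := h.prob
  have hstep : ∀ k < Q, (t k : ℝ) ≤ t (k + 1) := fun k hk => (ht.2.2 k hk).le
  have hmono : ∀ k l, k ≤ l → l ≤ Q → (t k : ℝ) ≤ t l := by
    intro k l hkl
    induction l, hkl using Nat.le_induction with
    | base => exact fun _ => le_rfl
    | succ l hkl ih => exact fun hl => (ih (by omega)).trans (hstep l (by omega))
  have hg : ∀ k < Q, Pr.real {ω | ω k = y ∧ ω (k + 1) ≠ y} ≤ V (t (k + 1)) - V (t k) :=
    fun k hk => leave_le67 hG hμ hμS hρ hy ht h hk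
  have ht0 : ((t 0 : I) : ℝ) = 0 := by rw [ht.1]; rfl
  have htQ : ((t Q : I) : ℝ) = 1 := by rw [ht.2.1]; rfl
  refine ⟨?_, ?_, ?_⟩
  · -- bad times
    classical
    set A1 := (Finset.range Q).filter fun k => (t (k + 1) : ℝ) < δ with hA1
    set A2 := (Finset.range Q).filter fun k => 1 - δ < (t (k + 1) : ℝ) ∧ t (k + 1) ≠ 1 with hA2
    have hsub : Bad3 Q t y δ ⊆ (⋃ k ∈ A1, {ω | ω k = y ∧ ω (k + 1) ≠ y}) ∪
        ⋃ k ∈ A2, {ω | ω k = y ∧ ω (k + 1) ≠ y} := by
      rintro ω ⟨k, hk, h4 | h4, h5⟩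
      · left
        exact mem_biUnion (show k ∈ A1 from Finset.mem_filter.2 ⟨Finset.mem_range.2 hk, h4⟩) h5
      · right
        exact mem_biUnion (show k ∈ A2 from Finset.mem_filter.2 ⟨Finset.mem_range.2 hk, h4⟩) h5
    have hb1 : Pr.real (⋃ k ∈ A1, {ω | ω k = y ∧ ω (k + 1) ≠ y}) ≤ V δ - V 0 := by
      refine (measureReal_biUnion_finset_le _ _).trans ?_
      refine (Finset.sum_le_sum fun k hk => hg k
        (Finset.mem_range.1 (Finset.mem_filter.1 hk).1)).trans ?_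
      refine tel67 V hV Q (fun k => t k) hstep A1 (Finset.filter_subset _ _) 0 δ hδ.le ?_
      intro k hk
      exact ⟨(t k).2.1, (Finset.mem_filter.1 hk).2.le⟩
    have hb2 : Pr.real (⋃ k ∈ A2, {ω | ω k = y ∧ ω (k + 1) ≠ y}) ≤
        Function.leftLim V 1 - V (1 - 2 * δ) := by
      refine (measureReal_biUnion_finset_le _ _).trans ?_
      -- the modified function
      let V' : ℝ → ℝ := fun s => if s < 1 then V s else Function.leftLim V 1
      have hV' : Monotone V' := by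
        intro a b hab
        show (if a < 1 then V a else Function.leftLim V 1) ≤
          if b < 1 then V b else Function.leftLim V 1
        split_ifs with ha hb hb
        · exact hV hab
        · exact hV.le_leftLim ha
        · exact absurd (hab.trans_lt hb) ha
        · exact le_rfl
      have hlt : ∀ k ∈ A2, (t (k + 1) : ℝ) < 1 := by
        intro k hk
        have := (Finset.mem_filter.1 hk).2.2
        exact lt_of_le_of_ne (t (k + 1)).2.2 fun h => this (Subtype.ext h)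
      have h6 : ∑ k ∈ A2, Pr.real {ω | ω k = y ∧ ω (k + 1) ≠ y} ≤
          ∑ k ∈ A2, (V' (t (k + 1)) - V' (t k)) := by
        refine Finset.sum_le_sum fun k hk => ?_
        have hk' := Finset.mem_range.1 (Finset.mem_filter.1 hk).1
        have h7 : V' (t (k + 1)) = V (t (k + 1)) := if_pos (hlt k hk)
        have h8 : V' (t k) = V (t k) := if_pos ((hstep k hk').trans_lt (hlt k hk))
        rw [h7, h8]
        exact hg k hk'
      refine h6.trans ?_
      have h9 := tel67 V' hV' Q (fun k => t k) hstep A2 (Finset.filter_subset _ _)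
        (1 - 2 * δ) 1 (by linarith) (by
          intro k hk
          have hk' := Finset.mem_range.1 (Finset.mem_filter.1 hk).1
          have := (Finset.mem_filter.1 hk).2.1
          exact ⟨by linarith [mesh k hk'], (t (k + 1)).2.2⟩)
      have h10 : V' 1 = Function.leftLim V 1 := if_neg (lt_irrefl _)
      have h11 : V' (1 - 2 * δ) = V (1 - 2 * δ) := if_pos (by linarith)
      rw [h10, h11] at h9
      exact h9
    have h12 : Pr.real (Bad3 Q t y δ) ≤ _ :=
      (measureReal_mono hsub (measure_ne_top Pr _)).trans (measureReal_union_le _ _)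
    linarith
  · -- short stays
    let L : ℕ → ℕ := fun k => Nat.findGreatest (fun l => (t l : ℝ) ≤ t (k + 1) + δ) Q
    have hsub : Bad4 Q t y δ ⊆ ⋃ k ∈ Finset.range Q, {ω | ω k ≠ y ∧ ω (k + 1) = y ∧
        ∃ l, k + 1 ≤ l ∧ l < L k ∧ (∀ j, k + 1 ≤ j → j ≤ l → ω j = y) ∧ ω (l + 1) ≠ y} := by
      rintro ω ⟨k, hk, h4, h5, l, hl, h6, h7, h8, h9⟩
      refine mem_biUnion (show k ∈ (Finset.range Q : Set ℕ) from Finset.mem_coe.2
        (Finset.mem_range.2 hk)) ⟨h4, h5, l, h6, ?_, h8, h9⟩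
      exact Nat.le_findGreatest (m := l + 1) hl h7.le
    refine (measureReal_mono hsub (measure_ne_top Pr _)).trans
      ((measureReal_biUnion_finset_le _ _).trans ?_)
    have hf := han δ hδ h3 Q (fun k => t k)
      (fun k => Pr.real {ω | ω k ≠ y ∧ ω (k + 1) = y}) ht0 htQ
      (fun k hk => ⟨hstep k hk, mesh k hk⟩)
      (fun k hk => ⟨measureReal_nonneg, (enter_le67 hG hM hμ hμS hρ hy ht h hk).1,
        (enter_le67 hG hM hμ hμS hρ hy ht h hk).2⟩)
    refine le_trans (Finset.sum_le_sum fun k hk => ?_) hf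
    have hk' := Finset.mem_range.1 hk
    refine (hSh h y k (L k)).trans ?_
    refine mul_le_mul_of_nonneg_left ?_ measureReal_nonneg
    rw [marg67 hM hμ hμS hρ hy h (k := k + 1) hk']
    refine min_le_min le_rfl (div_le_div_of_nonneg_right ?_ (hm0 _))
    have hLQ : L k ≤ Q := Nat.findGreatest_le Q
    have hLt : ((t (L k) : I) : ℝ) ≤ t (k + 1) + δ := by
      have h0 : ((t 0 : I) : ℝ) ≤ t (k + 1) + δ := by
        rw [ht0]
        have := (t (k + 1)).2.1
        linarith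
      exact Nat.findGreatest_spec (P := fun l => (t l : ℝ) ≤ t (k + 1) + δ) (Nat.zero_le Q) h0
    refine (Finset.sum_le_sum fun l hl => hg l
      (lt_of_lt_of_le (Finset.mem_Ico.1 hl).2 hLQ)).trans ?_
    refine tel67 V hV Q (fun k => t k) hstep (Finset.Ico (k + 1) (L k)) ?_ _ _ (by linarith) ?_
    · intro l hl
      exact Finset.mem_range.2 (lt_of_lt_of_le (Finset.mem_Ico.1 hl).2 hLQ)
    · intro l hl
      obtain ⟨h4, h5⟩ := Finset.mem_Ico.1 hl
      exact ⟨hmono _ _ h4 (by omega), (hmono _ _ (show l + 1 ≤ L k from h5) hLQ).trans hLt⟩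
  · refine (Finset.sum_le_sum fun k hk => hg k (Finset.mem_range.1 hk)).trans ?_
    refine tel67 V hV Q (fun k => t k) hstep (Finset.range Q) (Finset.Subset.refl _) 0 1
      zero_le_one ?_
    intro k _
    exact ⟨(t k).2.1, (t (k + 1)).2.2⟩

/-! ## The bad events cover the complement of the good set -/

theorem est67 (hG : StLeave) (hM : StMass) (hSh : StShort) (hSup : StSup) (S : Set ℝ)
    (hSf : ∀ r : ℝ, (S ∩ Icc (-r) r).Finite) (μ : I → ProbabilityMeasure ℝ)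
    (hμ : Peacock μ) (hμS : ∀ s, (μ s : Measure ℝ) Sᶜ = 0) (ε : ℝ) (hε : 0 < ε) :
    ∃ (n : ℕ) (δ r : ℝ), 0 < δ ∧ ∀ (Q : ℕ) (t : ℕ → I), IsPart Q t →
      (∀ k < Q, (t (k + 1) : ℝ) - t k ≤ δ) → ∀ Pr : Measure (ℕ → ℝ),
      MChain Q (fun k => μ (t (min k Q))) Pr → Pr (good Q t n δ r)ᶜ ≤ ENNReal.ofReal ε := by
  classical
  have hSc : S.Countable := by
    have : S ⊆ ⋃ r : ℕ, (S ∩ Icc (-(r : ℝ)) r) := fun s hs => by
      obtain ⟨r, hr⟩ := exists_nat_ge |s|
      exact mem_iUnion.2 ⟨r, hs, abs_le.1 hr⟩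
    exact (countable_iUnion fun r : ℕ => (hSf r).countable).mono this
  -- the level
  have hp0 : 0 ≤ pot (μ 1) 0 := integral_nonneg fun z => abs_nonneg _
  obtain ⟨r, hr0, hr⟩ : ∃ r : ℝ, 0 < r ∧ pot (μ 1) 0 / r ≤ ε / 4 := by
    refine ⟨4 * (pot (μ 1) 0 + 1) / ε, by positivity, ?_⟩
    rw [div_le_iff₀ (by positivity)]
    have : ε / 4 * (4 * (pot (μ 1) 0 + 1) / ε) = pot (μ 1) 0 + 1 := by
      field_simp
    rw [this]
    linarith
  set F : Finset ℝ := (hSf r).toFinset with hF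
  choose ρ hρ hy using fun y => iso67 hSf y
  -- number of jumps
  set C : ℝ := ∑ y ∈ F, (Vy μ y (ρ y) 1 - Vy μ y (ρ y) 0) with hC
  have hC0 : 0 ≤ C := Finset.sum_nonneg fun y _ =>
    sub_nonneg.2 (Vy_mono hμ y (hρ y) zero_le_one)
  obtain ⟨n, hn⟩ := exists_nat_ge (4 * C / ε)
  have hn' : C / (n + 1) ≤ ε / 4 := by
    rw [div_le_iff₀ (by positivity)]
    rw [div_le_iff₀ hε] at hn
    nlinarith
  -- the sites
  set e : ℝ := ε / (4 * (F.card + 1)) with he
  have he0 : 0 < e := by positivity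
  have heF : F.card * e ≤ ε / 4 := by
    rw [he, mul_div_assoc', div_le_div_iff₀ (by positivity) (by norm_num)]
    nlinarith [hε, (Nat.cast_nonneg F.card : (0 : ℝ) ≤ F.card)]
  have hev := (eventually_all_finset F).2 fun y _ =>
    site67 hG hM hSh hμ hμS (hρ y) (hy y) e he0
  obtain ⟨δ, hsite, hδ0⟩ := (hev.and self_mem_nhdsWithin).exists
  have hδ : (0 : ℝ) < δ := hδ0
  refine ⟨n, δ, r, hδ, fun Q t ht mesh Pr h => ?_⟩
  have hprob := h.prob
  have hsite' := fun y hy' => hsite y hy' Q t ht mesh Pr h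
  have hlt1 : ∀ k < Q, t k < t (k + 1) := ht.2.2
  -- almost surely in S
  have haeS : ∀ᵐ ω ∂Pr, ∀ k, ω k ∈ S := by
    rw [ae_all_iff]
    intro k
    have h1 : ∀ᵐ z ∂(Pr.map fun ω => ω k), z ∈ S := by
      rw [h.marg k]
      exact hμS _
    exact ae_of_ae_map (measurable_pi_apply k).aemeasurable h1
  -- events
  set B1 : Set (ℕ → ℝ) := {ω | ∃ k ≤ Q, r < |ω k|} with hB1
  set N : (ℕ → ℝ) → ℝ := fun ω => ∑ y ∈ F, ∑ k ∈ Finset.range Q,
    indicator {ω : ℕ → ℝ | ω k = y ∧ ω (k + 1) ≠ y} (fun _ => (1 : ℝ)) ω with hN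
  set B2 : Set (ℕ → ℝ) := {ω | (n + 1 : ℝ) ≤ N ω} with hB2
  set B3 : Set (ℕ → ℝ) := ⋃ y ∈ F, Bad3 Q t y δ with hB3
  set B4 : Set (ℕ → ℝ) := ⋃ y ∈ F, Bad4 Q t y δ with hB4
  have hmeas : ∀ (k : ℕ) (y : ℝ), MeasurableSet {ω : ℕ → ℝ | ω k = y ∧ ω (k + 1) ≠ y} :=
    fun k y => (meas_eq67 k y).inter (meas_eq67 (k + 1) y).compl
  have hcover : (good Q t n δ r)ᶜ ≤ᵐ[Pr] (B1 ∪ B2 ∪ (B3 ∪ B4) : Set (ℕ → ℝ)) := by
    filter_upwards [haeS] with ω hω
    intro hgood
    by_contra hnot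
    have hnot' : ω ∉ B1 ∪ B2 ∪ (B3 ∪ B4) := hnot
    have n1 : ω ∉ B1 := fun h => hnot' (Or.inl (Or.inl h))
    have n2 : ω ∉ B2 := fun h => hnot' (Or.inl (Or.inr h))
    have n3 : ω ∉ B3 := fun h => hnot' (Or.inr (Or.inl h))
    have n4 : ω ∉ B4 := fun h => hnot' (Or.inr (Or.inr h))
    have hr1 : ∀ k ≤ Q, |ω k| ≤ r := by
      intro k hk
      by_contra hcon
      exact n1 ⟨k, hk, not_le.1 hcon⟩
    have hFm : ∀ k ≤ Q, ω k ∈ F := fun k hk =>
      (hSf r).mem_toFinset.2 ⟨hω k, abs_le.1 (hr1 k hk)⟩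
    apply show ω ∉ (good Q t n δ r)ᶜ from ?_
    · exact hgood
    · intro hc
      refine hc ⟨hr1, ?_, ?_, ?_⟩
      · -- number of jumps
        by_contra hcon
        push Not at hcon
        apply n2
        show (n + 1 : ℝ) ≤ N ω
        have h1 : (((Finset.range Q).filter fun k => ω (k + 1) ≠ ω k).card : ℝ) ≤ N ω := by
          rw [hN]
          simp only
          rw [Finset.sum_comm, Finset.card_filter, Nat.cast_sum]
          refine Finset.sum_le_sum fun k hk => ?_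
          have hk' := Finset.mem_range.1 hk
          by_cases hj : ω (k + 1) ≠ ω k
          · rw [if_pos hj]
            have hmem : ω ∈ {ω' : ℕ → ℝ | ω' k = ω k ∧ ω' (k + 1) ≠ ω k} := And.intro rfl hj
            have h3 : indicator {ω' : ℕ → ℝ | ω' k = ω k ∧ ω' (k + 1) ≠ ω k}
                (fun _ => (1 : ℝ)) ω = 1 := indicator_of_mem hmem _
            have h4 := Finset.single_le_sum (f := fun y =>
              indicator {ω' : ℕ → ℝ | ω' k = y ∧ ω' (k + 1) ≠ y} (fun _ => (1 : ℝ)) ω)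
              (fun y _ => indicator_nonneg (fun _ _ => zero_le_one) _) (hFm k hk'.le)
            have h5 : (1 : ℝ) ≤ ∑ y ∈ F, indicator {ω' : ℕ → ℝ | ω' k = y ∧ ω' (k + 1) ≠ y}
                (fun _ => (1 : ℝ)) ω := (le_of_eq h3.symm).trans h4
            simpa using h5
          · rw [if_neg hj]
            simp only [Nat.cast_zero]
            exact Finset.sum_nonneg fun y _ => indicator_nonneg (fun _ _ => zero_le_one) _
        refine le_trans ?_ h1
        exact_mod_cast hcon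
      · -- bad times
        intro k hk hj
        by_contra hcon
        apply n3
        refine mem_biUnion (hFm k hk.le) ⟨k, hk, ?_, rfl, hj⟩
        by_cases h5 : (t (k + 1) : ℝ) < δ
        · exact Or.inl h5
        · right
          push Not at h5
          by_contra h6
          apply hcon
          refine ⟨h5, ?_⟩
          by_contra h7
          push Not at h7
          exact h6 ⟨h7.1, h7.2⟩
      · -- short stays
        intro k l hkl hl hj hj' hne
        by_contra hcon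
        push Not at hcon
        have hex : ∃ i, k < i ∧ ω (i + 1) ≠ ω i := ⟨l, hkl, hj'⟩
        obtain ⟨hi1, hi2⟩ := Nat.find_spec hex
        set i := Nat.find hex with hi
        have hil : i ≤ l := Nat.find_min' hex ⟨hkl, hj'⟩
        have hconst : ∀ j, k + 1 ≤ j → j ≤ i → ω j = ω (k + 1) := by
          intro j hj1
          induction j, hj1 using Nat.le_induction with
          | base => exact fun _ => rfl
          | succ j hj1 ih =>
            intro hj2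
            have h8 := ih (by omega)
            have h9 : ¬ (k < j ∧ ω (j + 1) ≠ ω j) := Nat.find_min hex (by omega)
            rw [← h8]
            by_contra h10
            exact h9 ⟨by omega, h10⟩
        apply n4
        refine mem_biUnion (hFm (k + 1) (by omega)) ⟨k, by omega, fun h => hj h.symm, rfl, i,
          by omega, hi1, ?_, hconst, ?_⟩
        · have hmono : ∀ a b, a ≤ b → b ≤ Q → (t a : ℝ) ≤ t b := by
            intro a b hab
            induction b, hab using Nat.le_induction with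
            | base => exact fun _ => le_rfl
            | succ b hab ih => exact fun hb => (ih (by omega)).trans (hlt1 b (by omega)).le
          have := hmono (i + 1) (l + 1) (by omega) (by omega)
          linarith
        · rw [← hconst i hi1 le_rfl]
          exact hi2
  -- probabilities
  have p1 : Pr.real B1 ≤ ε / 4 := by
    have h1 := hSup h (fun k => hμ.integrable _) S hSc (fun k => hμS _) r hr0
    rw [min_self, ht.2.1] at h1
    rw [div_le_iff₀ hr0] at hr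
    have : r * Pr.real B1 ≤ r * (ε / 4) := by
      refine h1.trans ?_
      linarith
    exact le_of_mul_le_mul_left this hr0
  have p2 : Pr.real B2 ≤ ε / 4 := by
    have hint : ∀ (y : ℝ) (k : ℕ), Integrable
        (indicator {ω : ℕ → ℝ | ω k = y ∧ ω (k + 1) ≠ y} (fun _ => (1 : ℝ))) Pr :=
      fun y k => (integrable_const 1).indicator (hmeas k y)
    have hNint : Integrable N Pr := by
      rw [hN]
      exact integrable_finsetSum _ fun y _ => integrable_finsetSum _ fun k _ => hint y k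
    have hN0 : 0 ≤ᵐ[Pr] N := Eventually.of_forall fun ω => Finset.sum_nonneg fun y _ =>
      Finset.sum_nonneg fun k _ => indicator_nonneg (fun _ _ => zero_le_one) _
    have h1 := mul_meas_ge_le_integral_of_nonneg hN0 hNint (n + 1 : ℝ)
    have h2 : ∫ ω, N ω ∂Pr ≤ C := by
      rw [hN]
      rw [integral_finsetSum _ fun y _ => integrable_finsetSum _ fun k _ => hint y k]
      refine Finset.sum_le_sum fun y hy' => ?_
      rw [integral_finsetSum _ fun k _ => hint y k]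
      refine le_trans (le_of_eq ?_) (hsite' y hy').2.2
      refine Finset.sum_congr rfl fun k _ => ?_
      exact integral_indicator_one (hmeas k y)
    have h3 : Pr.real B2 ≤ C / (n + 1) := by
      rw [le_div_iff₀ (by positivity), mul_comm]
      exact h1.trans h2
    exact h3.trans hn'
  have p3 : Pr.real B3 ≤ ε / 4 := by
    refine (measureReal_biUnion_finset_le _ _).trans ?_
    refine (Finset.sum_le_card_nsmul F _ e fun y hy' => (hsite' y hy').1).trans ?_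
    rw [nsmul_eq_mul]
    exact heF
  have p4 : Pr.real B4 ≤ ε / 4 := by
    refine (measureReal_biUnion_finset_le _ _).trans ?_
    refine (Finset.sum_le_card_nsmul F _ e fun y hy' => (hsite' y hy').2.1).trans ?_
    rw [nsmul_eq_mul]
    exact heF
  have htot : Pr.real (B1 ∪ B2 ∪ (B3 ∪ B4)) ≤ ε := by
    have h1 := measureReal_union_le (μ := Pr) (B1 ∪ B2) (B3 ∪ B4)
    have h2 := measureReal_union_le (μ := Pr) B1 B2
    have h3 := measureReal_union_le (μ := Pr) B3 B4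
    linarith
  calc Pr (good Q t n δ r)ᶜ ≤ Pr (B1 ∪ B2 ∪ (B3 ∪ B4)) := measure_mono_ae hcover
    _ = ENNReal.ofReal (Pr.real (B1 ∪ B2 ∪ (B3 ∪ B4))) := (ofReal_measureReal).symm
    _ ≤ ENNReal.ofReal ε := ENNReal.ofReal_le_ofReal htot

end LimCurt
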