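import Pool.Agent.Lib.MP_b499b5_pr.Rows23

/-!
# Rows G and MASS: leaving an isolated point costs potential; the mass of an isolated point
-/

set_option autoImplicit false

namespace LimCurt

open MeasureTheory Filter Topology Set

theorem mass (μ : ProbabilityMeasure ℝ) (hi : Integrable (fun z : ℝ => z) (μ : Measure ℝ))
    (S : Set ℝ) (hS : (μ : Measure ℝ) Sᶜ = 0) (y ρ : ℝ) (hρ : 0 < ρ)
    (hy : ∀ s ∈ S, s ≠ y → ρ ≤ |s - y|) :
    (μ : Measure ℝ).real {y} = (pot μ (y + ρ) + pot μ (y - ρ) - 2 * pot μ y) / (2 * ρ) := by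
  have hint : ∀ c : ℝ, Integrable (fun z : ℝ => |z - c|) (μ : Measure ℝ) := fun c =>
    (hi.sub (integrable_const c)).abs
  have h1 : pot μ (y + ρ) + pot μ (y - ρ) - 2 * pot μ y =
      ∫ z, (|z - (y + ρ)| + |z - (y - ρ)| - 2 * |z - y|) ∂(μ : Measure ℝ) := by
    have e1 : ∫ z, (|z - (y + ρ)| + |z - (y - ρ)| - 2 * |z - y|) ∂(μ : Measure ℝ) =
        ∫ z, (|z - (y + ρ)| + |z - (y - ρ)|) ∂(μ : Measure ℝ) -
          ∫ z, 2 * |z - y| ∂(μ : Measure ℝ) :=
      integral_sub ((hint (y + ρ)).add (hint (y - ρ))) ((hint y).const_mul 2)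
    have e2 : ∫ z, (|z - (y + ρ)| + |z - (y - ρ)|) ∂(μ : Measure ℝ) =
        ∫ z, |z - (y + ρ)| ∂(μ : Measure ℝ) + ∫ z, |z - (y - ρ)| ∂(μ : Measure ℝ) :=
      integral_add (hint (y + ρ)) (hint (y - ρ))
    rw [e1, e2, integral_const_mul]
    rfl
  have h2 : ∫ z, (|z - (y + ρ)| + |z - (y - ρ)| - 2 * |z - y|) ∂(μ : Measure ℝ) =
      ∫ z, ({y} : Set ℝ).indicator (fun _ => 2 * ρ) z ∂(μ : Measure ℝ) := by
    refine integral_congr_ae ?_
    have h3 : ∀ᵐ z ∂(μ : Measure ℝ), z ∈ S := by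
      rw [ae_iff]
      exact hS
    filter_upwards [h3] with z hz
    by_cases h4 : z = y
    · subst h4
      rw [indicator_of_mem (mem_singleton z)]
      have e1 : z - (z + ρ) = -ρ := by ring
      have e2 : z - (z - ρ) = ρ := by ring
      rw [e1, e2, sub_self, abs_neg, abs_of_pos hρ, abs_zero]
      ring
    · rw [indicator_of_notMem (fun h => h4 (mem_singleton_iff.1 h))]
      have h5 := hy z hz h4
      rcases le_total 0 (z - y) with h6 | h6
      · rw [abs_of_nonneg h6] at h5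
        rw [abs_of_nonneg h6, abs_of_nonneg (by linarith : 0 ≤ z - (y + ρ)),
          abs_of_nonneg (by linarith : 0 ≤ z - (y - ρ))]
        ring
      · rw [abs_of_nonpos h6] at h5
        rw [abs_of_nonpos h6, abs_of_nonpos (by linarith : z - (y + ρ) ≤ 0),
          abs_of_nonpos (by linarith : z - (y - ρ) ≤ 0)]
        ring
  rw [h1, h2, integral_indicator_const _ (measurableSet_singleton y), smul_eq_mul,
    mul_div_cancel_right₀ _ (by positivity)]

theorem leave {Q : ℕ} {m : ℕ → ProbabilityMeasure ℝ} {Pr : Measure (ℕ → ℝ)} (h : MChain Q m Pr)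
    (hi : ∀ k, Integrable (fun z : ℝ => z) (m k : Measure ℝ)) (S : Set ℝ)
    (hS : ∀ k, (m k : Measure ℝ) Sᶜ = 0) (y ρ : ℝ) (hρ : 0 < ρ)
    (hy : ∀ s ∈ S, s ≠ y → ρ ≤ |s - y|) (k : ℕ) :
    ρ * Pr.real {ω | ω k = y ∧ ω (k + 1) ≠ y} ≤ pot (m (k + 1)) y - pot (m k) y := by
  have : IsProbabilityMeasure Pr := h.prob
  have hmeas : ∀ j : ℕ, Measurable fun ω : ℕ → ℝ => ω j := fun j => measurable_pi_apply j
  have hX : ∀ j : ℕ, Integrable (fun ω : ℕ → ℝ => ω j) Pr := by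
    intro j
    have h1 := hi j
    rw [← h.marg j] at h1
    exact (integrable_map_measure h1.aestronglyMeasurable (hmeas j).aemeasurable).1 h1
  have hSae : ∀ j : ℕ, ∀ᵐ ω ∂Pr, ω j ∈ S := by
    intro j
    have h1 : ∀ᵐ z ∂(Pr.map fun ω => ω j), z ∈ S := by
      rw [h.marg j, ae_iff]
      exact hS j
    exact ae_of_ae_map (hmeas j).aemeasurable h1
  have hpot : ∀ j : ℕ, pot (m j) y = ∫ ω, |ω j - y| ∂Pr := by
    intro j
    unfold pot
    rw [← h.marg j, integral_map (hmeas j).aemeasurable]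
    exact (continuous_abs.comp (continuous_id.sub continuous_const)).aestronglyMeasurable
  set U : (ℕ → ℝ) → ℝ := fun ω => ω (k + 1) - ω k with hU
  have hUi : Integrable U Pr := (hX (k + 1)).sub (hX k)
  have hle : ∀ a : ℝ, MeasurableSet {ω : ℕ → ℝ | ω k ≤ a} := fun a =>
    measurableSet_le (hmeas k) measurable_const
  -- the total integral vanishes
  have htot : ∫ ω, U ω ∂Pr = 0 := by
    have h1 := tendsto_setIntegral_of_monotone (μ := Pr) (f := U)
      (s := fun n : ℕ => {ω : ℕ → ℝ | ω k ≤ (n : ℝ)}) (fun n => hle n)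
      (fun a b hab ω hω => by
        have e1 : ω k ≤ (a : ℝ) := hω
        have e2 : (a : ℝ) ≤ b := Nat.cast_le.2 hab
        exact e1.trans e2) hUi.integrableOn
    have h2 : (⋃ n : ℕ, {ω : ℕ → ℝ | ω k ≤ (n : ℝ)}) = univ := by
      refine eq_univ_of_forall fun ω => ?_
      obtain ⟨n, hn⟩ := exists_nat_ge (ω k)
      exact mem_iUnion.2 ⟨n, hn⟩
    rw [h2, setIntegral_univ] at h1
    have h3 : (fun n : ℕ => ∫ ω in {ω : ℕ → ℝ | ω k ≤ (n : ℝ)}, U ω ∂Pr) = fun _ => 0 :=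
      funext fun n => h.mart k n
    rw [h3] at h1
    exact (tendsto_nhds_unique h1 tendsto_const_nhds)
  have hley : ∫ ω in {ω : ℕ → ℝ | ω k ≤ y}, U ω ∂Pr = 0 := h.mart k y
  have hlty : ∫ ω in {ω : ℕ → ℝ | ω k ≤ y - ρ}, U ω ∂Pr = 0 := h.mart k (y - ρ)
  have hgt : ∫ ω in {ω : ℕ → ℝ | ω k ≤ y}ᶜ, U ω ∂Pr = 0 := by
    have h1 := integral_add_compl (hle y) hUi
    rw [htot, hley] at h1
    linarith
  -- the lower bound
  set E : Set (ℕ → ℝ) := {ω | ω k = y ∧ ω (k + 1) ≠ y} with hE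
  have hEm : MeasurableSet E := by
    have h1 : E = (fun ω : ℕ → ℝ => ω k) ⁻¹' {y} ∩ ((fun ω : ℕ → ℝ => ω (k + 1)) ⁻¹' {y})ᶜ := rfl
    rw [h1]
    exact (hmeas k (measurableSet_singleton y)).inter
      (hmeas (k + 1) (measurableSet_singleton y)).compl
  have hpt : ∀ᵐ ω ∂Pr, E.indicator (fun _ => ρ) ω +
      ({ω : ℕ → ℝ | ω k ≤ y}ᶜ.indicator U ω - {ω : ℕ → ℝ | ω k ≤ y - ρ}.indicator U ω) ≤
      |ω (k + 1) - y| - |ω k - y| := by
    filter_upwards [hSae k, hSae (k + 1)] with ω h1 h2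
    by_cases h3 : ω k = y
    · have h4 : ω ∉ {ω : ℕ → ℝ | ω k ≤ y}ᶜ := fun h => h h3.le
      have h5 : ω ∉ {ω : ℕ → ℝ | ω k ≤ y - ρ} := fun h => by
        have h6 : ω k ≤ y - ρ := h
        linarith
      rw [indicator_of_notMem h4, indicator_of_notMem h5, h3, sub_self, sub_self, abs_zero,
        add_zero, sub_zero]
      by_cases h6 : ω (k + 1) = y
      · have h7 : ω ∉ E := fun h => h.2 h6
        rw [indicator_of_notMem h7]
        exact abs_nonneg _
      · have h7 : ω ∈ E := ⟨h3, h6⟩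
        rw [indicator_of_mem h7]
        exact hy _ h2 h6
    · have h7 : ω ∉ E := fun h => h3 h.1
      rw [indicator_of_notMem h7, zero_add]
      have h8 := hy _ h1 h3
      rcases lt_or_gt_of_ne h3 with h9 | h9
      · have h4 : ω ∉ {ω : ℕ → ℝ | ω k ≤ y}ᶜ := fun h => h h9.le
        have h5 : ω ∈ {ω : ℕ → ℝ | ω k ≤ y - ρ} := by
          rw [abs_of_neg (by linarith)] at h8
          change ω k ≤ y - ρ
          linarith
        rw [indicator_of_notMem h4, indicator_of_mem h5, abs_of_neg (by linarith : ω k - y < 0)]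
        have h10 := neg_abs_le (ω (k + 1) - y)
        change 0 - (ω (k + 1) - ω k) ≤ _
        linarith
      · have h4 : ω ∈ {ω : ℕ → ℝ | ω k ≤ y}ᶜ := fun h => by
          have h6 : ω k ≤ y := h
          linarith
        have h5 : ω ∉ {ω : ℕ → ℝ | ω k ≤ y - ρ} := fun h => by
          have h6 : ω k ≤ y - ρ := h
          linarith
        rw [indicator_of_mem h4, indicator_of_notMem h5, abs_of_pos (by linarith : 0 < ω k - y)]
        have h10 := le_abs_self (ω (k + 1) - y)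
        change (ω (k + 1) - ω k) - 0 ≤ _
        linarith
  have habs : ∀ j : ℕ, Integrable (fun ω : ℕ → ℝ => |ω j - y|) Pr := fun j =>
    ((hX j).sub (integrable_const y)).abs
  have i1 : Integrable (E.indicator (fun _ : ℕ → ℝ => ρ)) Pr :=
    (integrable_const ρ).indicator hEm
  have i2 : Integrable ({ω : ℕ → ℝ | ω k ≤ y}ᶜ.indicator U) Pr := hUi.indicator (hle y).compl
  have i3 : Integrable ({ω : ℕ → ℝ | ω k ≤ y - ρ}.indicator U) Pr := hUi.indicator (hle _)
  have hfin := integral_mono_ae (i1.add (i2.sub i3)) ((habs (k + 1)).sub (habs k)) hpt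
  have e1 : ∫ ω, (E.indicator (fun _ => ρ) + ({ω : ℕ → ℝ | ω k ≤ y}ᶜ.indicator U -
      {ω : ℕ → ℝ | ω k ≤ y - ρ}.indicator U)) ω ∂Pr = ρ * Pr.real E := by
    rw [integral_add' i1 (i2.sub i3), integral_sub' i2 i3, integral_indicator_const _ hEm,
      integral_indicator (hle y).compl, integral_indicator (hle _), hgt, hlty, smul_eq_mul]
    ring
  have e2 : ∫ ω, ((fun ω : ℕ → ℝ => |ω (k + 1) - y|) - fun ω : ℕ → ℝ => |ω k - y|) ω ∂Pr =
      pot (m (k + 1)) y - pot (m k) y := by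
    rw [integral_sub' (habs (k + 1)) (habs k), hpot, hpot]
  rw [← e1, ← e2]
  exact hfin

end LimCurt
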