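import Pool.Agent.Lib.MP_b499b5_pr.Rows23

/-!
Short stays of a Markov chain at a point.
-/

set_option autoImplicit false

namespace LimCurt

open MeasureTheory Filter Topology Set

namespace Short37

/-- the Markov property in real numbers -/
theorem markovR {Q : ℕ} {m : ℕ → ProbabilityMeasure ℝ} {Pr : Measure (ℕ → ℝ)}
    (h : MChain Q m Pr) (l : ℕ) (A : Set (Fin (l + 1) → ℝ)) (hA : MeasurableSet A) (B : Set ℝ)
    (hB : MeasurableSet B) (y : ℝ) :
    Pr.real {ω | (fun j : Fin (l + 1) => ω j) ∈ A ∧ ω l = y ∧ ω (l + 1) ∈ B} *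
        Pr.real {ω | ω l = y} =
      Pr.real {ω | (fun j : Fin (l + 1) => ω j) ∈ A ∧ ω l = y} *
        Pr.real {ω | ω l = y ∧ ω (l + 1) ∈ B} := by
  have h1 := congrArg ENNReal.toReal (h.markov l A hA B hB y)
  rw [ENNReal.toReal_mul, ENNReal.toReal_mul] at h1
  exact h1

theorem meas_pt (l : ℕ) (y : ℝ) : MeasurableSet {ω : ℕ → ℝ | ω l = y} :=
  measurableSet_eq_fun (measurable_pi_apply l) measurable_const

/-- stays from `k + 1` to `l` -/
def stay (y : ℝ) (k l : ℕ) : Set (ℕ → ℝ) := {ω | ∀ j, k + 1 ≤ j → j ≤ l → ω j = y}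

/-- the set of initial segments -/
def segA (c : Prop) (y : ℝ) (k l : ℕ) : Set (Fin (l + 1) → ℝ) :=
  {v | ∀ j : Fin (l + 1), (c → j.val = k → v j ≠ y) ∧ (k + 1 ≤ j.val → v j = y)}

theorem meas_segA (c : Prop) (y : ℝ) (k l : ℕ) : MeasurableSet (segA c y k l) := by
  classical
  have h1 : segA c y k l = ⋂ j : Fin (l + 1),
      ({v : Fin (l + 1) → ℝ | c → j.val = k → v j ≠ y} ∩ {v | k + 1 ≤ j.val → v j = y}) := by
    ext v
    simp only [segA, mem_ofPred_eq, mem_iInter, mem_inter_iff]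
  rw [h1]
  refine MeasurableSet.iInter fun j => MeasurableSet.inter ?_ ?_
  · by_cases h2 : c ∧ j.val = k
    · have h3 : {v : Fin (l + 1) → ℝ | c → j.val = k → v j ≠ y} = {v | v j = y}ᶜ := by
        ext v
        exact ⟨fun h => h h2.1 h2.2, fun h _ _ => h⟩
      rw [h3]
      exact (measurableSet_eq_fun (measurable_pi_apply j) measurable_const).compl
    · have h3 : {v : Fin (l + 1) → ℝ | c → j.val = k → v j ≠ y} = univ :=
        eq_univ_of_forall fun v h4 h5 => absurd ⟨h4, h5⟩ h2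
      rw [h3]
      exact MeasurableSet.univ
  · by_cases h2 : k + 1 ≤ j.val
    · have h3 : {v : Fin (l + 1) → ℝ | k + 1 ≤ j.val → v j = y} = {v | v j = y} := by
        ext v
        exact ⟨fun h => h h2, fun h _ => h⟩
      rw [h3]
      exact measurableSet_eq_fun (measurable_pi_apply j) measurable_const
    · have h3 : {v : Fin (l + 1) → ℝ | k + 1 ≤ j.val → v j = y} = univ :=
        eq_univ_of_forall fun v h4 => absurd h4 h2
      rw [h3]
      exact MeasurableSet.univ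

theorem mem_segA {c : Prop} {y : ℝ} {k l : ℕ} (hkl : k + 1 ≤ l) (ω : ℕ → ℝ) :
    (fun j : Fin (l + 1) => ω j) ∈ segA c y k l ↔ (c → ω k ≠ y) ∧ ω ∈ stay y k l := by
  constructor
  · intro h
    refine ⟨fun hc => (h ⟨k, by omega⟩).1 hc rfl, fun j h1 h2 => (h ⟨j, by omega⟩).2 h1⟩
  · rintro ⟨h1, h2⟩ j
    refine ⟨fun hc hj => ?_, fun hj => h2 j.val hj (by have := j.2; omega)⟩
    change ω j.val ≠ y
    rw [hj]
    exact h1 hc

/-- starting at `y` at time `k + 1` (coming from elsewhere, if `c`) and staying until `l` -/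
def ev (c : Prop) (y : ℝ) (k l : ℕ) : Set (ℕ → ℝ) := {ω | (c → ω k ≠ y) ∧ ω ∈ stay y k l}

theorem ev_sub (c : Prop) (y : ℝ) {k l : ℕ} (hkl : k + 1 ≤ l) : ev c y k l ⊆ {ω | ω l = y} :=
  fun _ h => h.2 l hkl le_rfl

theorem ev_succ (c : Prop) (y : ℝ) {k l : ℕ} (hkl : k + 1 ≤ l) :
    ev c y k (l + 1) = ev c y k l ∩ {ω | ω (l + 1) = y} := by
  ext ω
  constructor
  · rintro ⟨h1, h2⟩
    exact ⟨⟨h1, fun j h3 h4 => h2 j h3 (by omega)⟩, h2 (l + 1) (by omega) le_rfl⟩
  · rintro ⟨⟨h1, h2⟩, h3⟩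
    refine ⟨h1, fun j h4 h5 => ?_⟩
    rcases Nat.lt_or_ge l j with h6 | h6
    · rw [show j = l + 1 by omega]
      exact h3
    · exact h2 j h4 h6

/-- one step -/
theorem step {Q : ℕ} {m : ℕ → ProbabilityMeasure ℝ} {Pr : Measure (ℕ → ℝ)}
    (h : MChain Q m Pr) (c : Prop) (y : ℝ) {k l : ℕ} (hkl : k + 1 ≤ l) (B : Set ℝ)
    (hB : MeasurableSet B) :
    Pr.real (ev c y k l ∩ {ω | ω (l + 1) ∈ B}) * Pr.real {ω | ω l = y} =
      Pr.real (ev c y k l) * Pr.real {ω | ω l = y ∧ ω (l + 1) ∈ B} := by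
  have h1 := markovR h l (segA c y k l) (meas_segA c y k l) B hB y
  have h2 : {ω : ℕ → ℝ | (fun j : Fin (l + 1) => ω j) ∈ segA c y k l ∧ ω l = y ∧ ω (l + 1) ∈ B} =
      ev c y k l ∩ {ω | ω (l + 1) ∈ B} := by
    ext ω
    rw [mem_ofPred_eq, mem_segA hkl]
    exact ⟨fun h => ⟨h.1, h.2.2⟩, fun h => ⟨h.1, ev_sub c y hkl h.1, h.2⟩⟩
  have h3 : {ω : ℕ → ℝ | (fun j : Fin (l + 1) => ω j) ∈ segA c y k l ∧ ω l = y} =
      ev c y k l := by
    ext ω
    rw [mem_ofPred_eq, mem_segA hkl]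
    exact ⟨fun h => h.1, fun h => ⟨h, ev_sub c y hkl h⟩⟩
  rw [h2, h3] at h1
  exact h1

end Short37

open Short37 in
theorem short {Q : ℕ} {m : ℕ → ProbabilityMeasure ℝ} {Pr : Measure (ℕ → ℝ)} (h : MChain Q m Pr)
    (y : ℝ) (k L : ℕ) :
    Pr.real {ω | ω k ≠ y ∧ ω (k + 1) = y ∧ ∃ l, k + 1 ≤ l ∧ l < L ∧
        (∀ j, k + 1 ≤ j → j ≤ l → ω j = y) ∧ ω (l + 1) ≠ y} ≤
      Pr.real {ω | ω k ≠ y ∧ ω (k + 1) = y} *
        min 1 ((∑ l ∈ Finset.Ico (k + 1) L, Pr.real {ω | ω l = y ∧ ω (l + 1) ≠ y}) /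
          Pr.real {ω | ω (k + 1) = y}) := by
  have hP : IsProbabilityMeasure Pr := h.prob
  set f := Pr.real {ω | ω k ≠ y ∧ ω (k + 1) = y} with hf
  set M : ℕ → ℝ := fun l => Pr.real {ω | ω l = y} with hM
  have hM0 : ∀ l, 0 ≤ M l := fun l => measureReal_nonneg
  have hf0 : 0 ≤ f := measureReal_nonneg
  have hfa : Pr.real (ev True y k (k + 1)) = f := by
    rw [hf]
    congr 1
    ext ω
    constructor
    · rintro ⟨h1, h2⟩
      exact ⟨h1 trivial, h2 (k + 1) le_rfl le_rfl⟩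
    · rintro ⟨h1, h2⟩
      refine ⟨fun _ => h1, fun j h3 h4 => ?_⟩
      rw [show j = k + 1 by omega]
      exact h2
  have hma : Pr.real (ev False y k (k + 1)) = M (k + 1) := by
    rw [hM]
    congr 1
    ext ω
    constructor
    · rintro ⟨h1, h2⟩
      exact h2 (k + 1) le_rfl le_rfl
    · intro h2
      refine ⟨fun h => h.elim, fun j h3 h4 => ?_⟩
      rw [show j = k + 1 by omega]
      exact h2
  have hle : ∀ c l, k + 1 ≤ l → Pr.real (ev c y k l) ≤ M l := fun c l hl =>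
    measureReal_mono (ev_sub c y hl)
  -- the quotient is constant
  have key : ∀ l, k + 1 ≤ l →
      Pr.real (ev True y k l) * M (k + 1) = f * Pr.real (ev False y k l) := by
    intro l hl
    induction l, hl using Nat.le_induction with
    | base => rw [hfa, hma]
    | succ l hl ih =>
      have h1 := step h True y hl {y} (measurableSet_singleton y)
      have h2 := step h False y hl {y} (measurableSet_singleton y)
      have h3 : ∀ c, ev c y k l ∩ {ω | ω (l + 1) ∈ ({y} : Set ℝ)} = ev c y k (l + 1) := fun c =>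
        (ev_succ c y hl).symm
      rw [h3] at h1 h2
      by_cases hz : M l = 0
      · have h4 : ∀ c, Pr.real (ev c y k (l + 1)) = 0 := by
          intro c
          refine le_antisymm ?_ measureReal_nonneg
          rw [← hz]
          refine (measureReal_mono ?_ : Pr.real (ev c y k (l + 1)) ≤ Pr.real (ev c y k l)).trans
            (hle c l hl)
          rw [ev_succ c y hl]
          exact inter_subset_left
        rw [h4, h4, zero_mul, mul_zero]
      · apply mul_right_cancel₀ hz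
        have e1 : Pr.real (ev True y k (l + 1)) * M l = Pr.real (ev True y k l) *
            Pr.real {ω | ω l = y ∧ ω (l + 1) ∈ ({y} : Set ℝ)} := h1
        have e2 : Pr.real (ev False y k (l + 1)) * M l = Pr.real (ev False y k l) *
            Pr.real {ω | ω l = y ∧ ω (l + 1) ∈ ({y} : Set ℝ)} := h2
        calc Pr.real (ev True y k (l + 1)) * M (k + 1) * M l =
            (Pr.real (ev True y k (l + 1)) * M l) * M (k + 1) := by ring
          _ = (Pr.real (ev True y k l) * M (k + 1)) *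
              Pr.real {ω | ω l = y ∧ ω (l + 1) ∈ ({y} : Set ℝ)} := by rw [e1]; ring
          _ = f * (Pr.real (ev False y k l) *
              Pr.real {ω | ω l = y ∧ ω (l + 1) ∈ ({y} : Set ℝ)}) := by rw [ih]; ring
          _ = f * Pr.real (ev False y k (l + 1)) * M l := by rw [← e2]; ring
  -- leaving
  set g : ℕ → ℝ := fun l => Pr.real {ω | ω l = y ∧ ω (l + 1) ≠ y} with hg
  have hE : ∀ l, k + 1 ≤ l →
      Pr.real (ev True y k l ∩ {ω | ω (l + 1) ≠ y}) * M (k + 1) ≤ f * g l := by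
    intro l hl
    have h1 : Pr.real (ev True y k l ∩ {ω | ω (l + 1) ≠ y}) * M l =
        Pr.real (ev True y k l) * g l :=
      step h True y hl {y}ᶜ (measurableSet_singleton y).compl
    have hg0 : 0 ≤ g l := measureReal_nonneg
    by_cases hz : M l = 0
    · have h4 : Pr.real (ev True y k l ∩ {ω | ω (l + 1) ≠ y}) = 0 := by
        refine le_antisymm ?_ measureReal_nonneg
        rw [← hz]
        exact (measureReal_mono inter_subset_left).trans (hle True l hl)
      rw [h4, zero_mul]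
      exact mul_nonneg hf0 hg0
    · have hpos : 0 < M l := lt_of_le_of_ne (hM0 l) (Ne.symm hz)
      refine le_of_mul_le_mul_right ?_ hpos
      calc Pr.real (ev True y k l ∩ {ω | ω (l + 1) ≠ y}) * M (k + 1) * M l =
          (Pr.real (ev True y k l ∩ {ω | ω (l + 1) ≠ y}) * M l) * M (k + 1) := by ring
        _ = (Pr.real (ev True y k l) * M (k + 1)) * g l := by rw [h1]; ring
        _ = f * g l * Pr.real (ev False y k l) := by rw [key l hl]; ring
        _ ≤ f * g l * M l := mul_le_mul_of_nonneg_left (hle False l hl) (mul_nonneg hf0 hg0)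
  -- the union
  set E := {ω : ℕ → ℝ | ω k ≠ y ∧ ω (k + 1) = y ∧ ∃ l, k + 1 ≤ l ∧ l < L ∧
        (∀ j, k + 1 ≤ j → j ≤ l → ω j = y) ∧ ω (l + 1) ≠ y} with hEdef
  have hEf : Pr.real E ≤ f := measureReal_mono fun ω h => ⟨h.1, h.2.1⟩
  have hEs : Pr.real E ≤ ∑ l ∈ Finset.Ico (k + 1) L,
      Pr.real (ev True y k l ∩ {ω | ω (l + 1) ≠ y}) := by
    have h1 : E ⊆ ⋃ l ∈ Finset.Ico (k + 1) L, (ev True y k l ∩ {ω | ω (l + 1) ≠ y}) := by
      rintro ω ⟨h1, h2, l, h3, h4, h5, h6⟩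
      rw [mem_iUnion₂]
      exact ⟨l, Finset.mem_Ico.2 ⟨h3, h4⟩, ⟨fun _ => h1, h5⟩, h6⟩
    exact (measureReal_mono h1 (measure_ne_top Pr _)).trans (measureReal_biUnion_finset_le _ _)
  have hm1 : Pr.real {ω | ω (k + 1) = y} = M (k + 1) := rfl
  rw [hm1]
  by_cases hz : M (k + 1) = 0
  · have h1 : f = 0 := by
      refine le_antisymm ?_ hf0
      rw [← hz]
      exact measureReal_mono fun ω h => h.2
    rw [h1, zero_mul, ← h1]
    exact hEf
  · have hpos : 0 < M (k + 1) := lt_of_le_of_ne (hM0 _) (Ne.symm hz)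
    have h1 : Pr.real E ≤ f * ((∑ l ∈ Finset.Ico (k + 1) L, g l) / M (k + 1)) := by
      rw [← mul_div_assoc, le_div_iff₀ hpos, Finset.mul_sum]
      refine (mul_le_mul_of_nonneg_right hEs hpos.le).trans ?_
      rw [Finset.sum_mul]
      exact Finset.sum_le_sum fun l hl => hE l (Finset.mem_Ico.1 hl).1
    rw [mul_min_of_nonneg _ _ hf0, mul_one]
    exact le_min hEf h1

end LimCurt
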