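import Pool.Agent.Lib.MP_b499b5_pr.Est67
import Pool.Agent.Lib.MP_b499b5_pr.G63
import Pool.Agent.Lib.MP_b499b5_pr.Short37

/-!
# Row EST from row SUP
-/

set_option autoImplicit false

namespace LimCurt

open MeasureTheory Filter Topology Set

theorem estSup (hSup : StSup) (S : Set ℝ) (hSf : ∀ r : ℝ, (S ∩ Icc (-r) r).Finite)
    (μ : I → ProbabilityMeasure ℝ)
    (hμ : Peacock μ) (hμS : ∀ s, (μ s : Measure ℝ) Sᶜ = 0) (ε : ℝ) (hε : 0 < ε) :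
    ∃ (n : ℕ) (δ r : ℝ), 0 < δ ∧ ∀ (Q : ℕ) (t : ℕ → I), IsPart Q t →
      (∀ k < Q, (t (k + 1) : ℝ) - t k ≤ δ) → ∀ Pr : Measure (ℕ → ℝ),
      MChain Q (fun k => μ (t (min k Q))) Pr → Pr (good Q t n δ r)ᶜ ≤ ENNReal.ofReal ε :=
  est67 (fun h hi S hS y ρ hρ hy k => leave h hi S hS y ρ hρ hy k)
    (fun μ hi S hS y ρ hρ hy => mass μ hi S hS y ρ hρ hy)
    (fun h y k L => short h y k L) hSup S hSf μ hμ hμS ε hε

end LimCurt
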