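import Pool.Agent.Lib.MP_b499b5_pr.Rows23

/-!
The maximal inequality for a chain of martingale couplings.
-/

set_option autoImplicit false

namespace LimCurt

open MeasureTheory Filter Topology Set

namespace Sup37

variable {Q : ℕ} {m : ℕ → ProbabilityMeasure ℝ} {Pr : Measure (ℕ → ℝ)}

theorem meas_coord (k : ℕ) : Measurable fun ω : ℕ → ℝ => ω k := measurable_pi_apply k

theorem meas_eq (k : ℕ) (y : ℝ) : MeasurableSet {ω : ℕ → ℝ | ω k = y} :=
  measurableSet_eq_fun (meas_coord k) measurable_const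

theorem meas_le (k : ℕ) (y : ℝ) : MeasurableSet {ω : ℕ → ℝ | ω k ≤ y} :=
  measurableSet_le (meas_coord k) measurable_const

theorem meas_lt (k : ℕ) (y : ℝ) : MeasurableSet {ω : ℕ → ℝ | ω k < y} :=
  measurableSet_lt (meas_coord k) measurable_const

theorem integ (h : MChain Q m Pr) (hi : ∀ k, Integrable (fun z : ℝ => z) (m k : Measure ℝ))
    (k : ℕ) : Integrable (fun ω : ℕ → ℝ => ω k) Pr := by
  have h1 := hi k
  rw [← h.marg k] at h1
  exact (integrable_map_measure aestronglyMeasurable_id (meas_coord k).aemeasurable).1 h1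

/-- the martingale property on the fibres -/
theorem mart_eq (h : MChain Q m Pr) (hi : ∀ k, Integrable (fun z : ℝ => z) (m k : Measure ℝ))
    (k : ℕ) (y : ℝ) : ∫ ω in {ω | ω k = y}, (ω (k + 1) - ω k) ∂Pr = 0 := by
  have hP : IsProbabilityMeasure Pr := h.prob
  have hint : Integrable (fun ω : ℕ → ℝ => ω (k + 1) - ω k) Pr :=
    (integ h hi (k + 1)).sub (integ h hi k)
  have hlt : ∫ ω in {ω | ω k < y}, (ω (k + 1) - ω k) ∂Pr = 0 := by
    have h1 : {ω : ℕ → ℝ | ω k < y} = ⋃ n : ℕ, {ω | ω k ≤ y - 1 / ((n : ℝ) + 1)} := by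
      ext ω
      rw [mem_iUnion]
      constructor
      · intro h2
        have h3 : (0 : ℝ) < y - ω k := sub_pos.2 h2
        obtain ⟨n, hn⟩ := exists_nat_one_div_lt h3
        exact ⟨n, by change ω k ≤ y - 1 / ((n : ℝ) + 1); linarith⟩
      · rintro ⟨n, hn⟩
        have h3 : (0 : ℝ) < 1 / ((n : ℝ) + 1) := by positivity
        change ω k < y
        have h4 : ω k ≤ y - 1 / ((n : ℝ) + 1) := hn
        linarith
    have h2 := tendsto_setIntegral_of_monotone (μ := Pr) (f := fun ω : ℕ → ℝ => ω (k + 1) - ω k)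
      (s := fun n : ℕ => {ω : ℕ → ℝ | ω k ≤ y - 1 / ((n : ℝ) + 1)})
      (fun n => meas_le k _)
      (fun n n' hnn ω hω => by
        change ω k ≤ y - 1 / ((n' : ℝ) + 1)
        have h3 : ω k ≤ y - 1 / ((n : ℝ) + 1) := hω
        have h4 : 1 / ((n' : ℝ) + 1) ≤ 1 / ((n : ℝ) + 1) :=
          one_div_le_one_div_of_le (by positivity) (by
            have : (n : ℝ) ≤ n' := Nat.cast_le.2 hnn
            linarith)
        linarith)
      hint.integrableOn
    rw [← h1] at h2
    have h3 : (fun n : ℕ => ∫ ω in {ω : ℕ → ℝ | ω k ≤ y - 1 / ((n : ℝ) + 1)},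
        (ω (k + 1) - ω k) ∂Pr) = fun _ => 0 := by
      funext n
      exact h.mart k _
    rw [h3] at h2
    exact tendsto_nhds_unique h2 tendsto_const_nhds
  have h1 : {ω : ℕ → ℝ | ω k = y} = {ω | ω k ≤ y} \ {ω | ω k < y} := by
    ext ω
    constructor
    · intro h2
      exact ⟨le_of_eq h2, fun h3 => absurd h2 (ne_of_lt h3)⟩
    · rintro ⟨h2, h3⟩
      exact le_antisymm h2 (not_lt.1 h3)
  have h4 : {ω : ℕ → ℝ | ω k < y} ⊆ {ω | ω k ≤ y} := by
    intro ω h2
    have h3 : ω k < y := h2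
    exact h3.le
  rw [h1, setIntegral_sdiff (meas_lt k y) hint.integrableOn h4, h.mart, hlt, sub_zero]

/-- the absolute value grows on the sets of the past -/
theorem grow_pt (h : MChain Q m Pr) (hi : ∀ k, Integrable (fun z : ℝ => z) (m k : Measure ℝ))
    (k : ℕ) (A : Set (Fin (k + 1) → ℝ)) (hA : MeasurableSet A) (y : ℝ) :
    0 ≤ ∫ ω in {ω | (fun j : Fin (k + 1) => ω j) ∈ A ∧ ω k = y}, (|ω (k + 1)| - |ω k|) ∂Pr := by
  have hP : IsProbabilityMeasure Pr := h.prob
  set E : Set (ℕ → ℝ) := {ω | (fun j : Fin (k + 1) => ω j) ∈ A ∧ ω k = y} with hE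
  have hEm : MeasurableSet E := by
    refine MeasurableSet.inter ?_ (meas_eq k y)
    exact (measurable_pi_lambda _ fun j => measurable_pi_apply _) hA
  have hEy : ∀ ω ∈ E, ω k = y := fun ω hω => hω.2
  have i1 := integ h hi (k + 1)
  -- the two measures
  set F : Set (ℕ → ℝ) := {ω | ω k = y} with hF
  have hFm : MeasurableSet F := meas_eq k y
  have hmeas : Pr F • (Pr.restrict E).map (fun ω => ω (k + 1)) =
      Pr E • (Pr.restrict F).map (fun ω => ω (k + 1)) := by
    ext B hB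
    rw [Measure.smul_apply, Measure.smul_apply, Measure.map_apply (meas_coord _) hB,
      Measure.map_apply (meas_coord _) hB, Measure.restrict_apply ((meas_coord _) hB),
      Measure.restrict_apply ((meas_coord _) hB), smul_eq_mul, smul_eq_mul]
    have h1 := h.markov k A hA B hB y
    have h2 : {ω : ℕ → ℝ | (fun j : Fin (k + 1) => ω j) ∈ A ∧ ω k = y ∧ ω (k + 1) ∈ B} =
        (fun ω : ℕ → ℝ => ω (k + 1)) ⁻¹' B ∩ E := by
      ext ω
      exact ⟨fun h => ⟨h.2.2, h.1, h.2.1⟩, fun h => ⟨h.2.1, h.2.2, h.1⟩⟩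
    have h3 : {ω : ℕ → ℝ | ω k = y ∧ ω (k + 1) ∈ B} = (fun ω : ℕ → ℝ => ω (k + 1)) ⁻¹' B ∩ F := by
      ext ω
      exact ⟨fun h => ⟨h.2, h.1⟩, fun h => ⟨h.2, h.1⟩⟩
    rw [h2, h3] at h1
    rw [mul_comm, h1]
  have hmean : ∫ ω in E, ω (k + 1) ∂Pr = y * Pr.real E := by
    by_cases hz : Pr F = 0
    · have h1 : Pr E = 0 := measure_mono_null (fun ω hω => hω.2) hz
      rw [setIntegral_measure_zero _ h1, Measure.real, h1, ENNReal.toReal_zero, mul_zero]
    · have h1 : ∫ ω in F, ω (k + 1) ∂Pr = y * Pr.real F := by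
        have h2 := mart_eq h hi k y
        rw [integral_sub i1.integrableOn (integ h hi k).integrableOn, sub_eq_zero] at h2
        rw [h2, setIntegral_congr_fun hFm (g := fun _ => y) (fun ω hω => hω), setIntegral_const,
          smul_eq_mul, mul_comm]
      have h2 : (Pr F).toReal * ∫ ω in E, ω (k + 1) ∂Pr =
          (Pr E).toReal * ∫ ω in F, ω (k + 1) ∂Pr := by
        have h3 := congrArg (fun ν : Measure ℝ => ∫ z, z ∂ν) hmeas
        beta_reduce at h3
        have h5 : ∀ ν : Measure (ℕ → ℝ), ∫ z, z ∂(ν.map fun ω : ℕ → ℝ => ω (k + 1)) =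
            ∫ ω, ω (k + 1) ∂ν := fun ν =>
          integral_map (meas_coord _).aemeasurable
            (aestronglyMeasurable_id : AEStronglyMeasurable (fun z : ℝ => z) _)
        rw [integral_smul_measure, integral_smul_measure, h5, h5, smul_eq_mul,
          smul_eq_mul] at h3
        exact h3
      rw [h1] at h2
      have h4 : (Pr F).toReal ≠ 0 := ENNReal.toReal_ne_zero.2 ⟨hz, measure_ne_top _ _⟩
      apply mul_left_cancel₀ h4
      rw [h2]
      change (Pr E).toReal * (y * (Pr F).toReal) = (Pr F).toReal * (y * (Pr E).toReal)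
      ring
  rw [integral_sub i1.abs.integrableOn (integ h hi k).abs.integrableOn, sub_nonneg]
  have h1 : ∫ ω in E, |ω k| ∂Pr = |y| * Pr.real E := by
    rw [setIntegral_congr_fun hEm (g := fun _ => |y|) (fun ω hω => by
      change |ω k| = |y|
      rw [hEy ω hω]), setIntegral_const, smul_eq_mul, mul_comm]
  rw [h1]
  calc |y| * Pr.real E = |∫ ω in E, ω (k + 1) ∂Pr| := by
        rw [hmean, abs_mul, abs_of_nonneg (measureReal_nonneg)]
    _ ≤ _ := abs_integral_le_integral_abs

theorem grow (h : MChain Q m Pr) (hi : ∀ k, Integrable (fun z : ℝ => z) (m k : Measure ℝ))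
    (S : Set ℝ) (hSc : S.Countable) (hS : ∀ k, (m k : Measure ℝ) Sᶜ = 0)
    (k : ℕ) (A : Set (Fin (k + 1) → ℝ)) (hA : MeasurableSet A) :
    ∫ ω in {ω | (fun j : Fin (k + 1) => ω j) ∈ A}, |ω k| ∂Pr ≤
      ∫ ω in {ω | (fun j : Fin (k + 1) => ω j) ∈ A}, |ω (k + 1)| ∂Pr := by
  have hP : IsProbabilityMeasure Pr := h.prob
  have : Countable S := hSc
  set E : Set (ℕ → ℝ) := {ω | (fun j : Fin (k + 1) => ω j) ∈ A} with hE
  have hEm : MeasurableSet E := (measurable_pi_lambda _ fun j => measurable_pi_apply _) hA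
  have i0 := (integ h hi k).abs
  have i1 := (integ h hi (k + 1)).abs
  have hae : E =ᵐ[Pr] ⋃ y : S, {ω | (fun j : Fin (k + 1) => ω j) ∈ A ∧ ω k = y} := by
    have h1 : ∀ᵐ ω ∂Pr, ω k ∈ S := by
      have h2 : Pr.map (fun ω => ω k) Sᶜ = 0 := by rw [h.marg]; exact hS k
      rw [Measure.map_apply (meas_coord k) hSc.measurableSet.compl] at h2
      exact h2
    filter_upwards [h1] with ω hω
    refine propext ⟨fun h2 => mem_iUnion.2 ⟨⟨ω k, hω⟩, h2, rfl⟩, fun h2 => ?_⟩
    obtain ⟨y, h3⟩ := mem_iUnion.1 h2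
    exact h3.1
  have h0 : 0 ≤ ∫ ω in E, (|ω (k + 1)| - |ω k|) ∂Pr := by
    rw [setIntegral_congr_set hae, integral_iUnion]
    · exact tsum_nonneg fun y => grow_pt h hi k A hA y
    · exact fun y => hEm.inter (meas_eq k y)
    · intro y y' hyy
      rw [Function.onFun, disjoint_left]
      rintro ω ⟨_, h1⟩ ⟨_, h2⟩
      exact hyy (Subtype.ext (h1.symm.trans h2))
    · exact (i1.sub i0).integrableOn
  rw [integral_sub i1.integrableOn i0.integrableOn, sub_nonneg] at h0
  exact h0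

/-- the sets of the past -/
def past (k : ℕ) : Set (Set (ℕ → ℝ)) :=
  {E | ∃ A : Set (Fin (k + 1) → ℝ), MeasurableSet A ∧ E = {ω | (fun j : Fin (k + 1) => ω j) ∈ A}}

theorem past_succ {k : ℕ} {E : Set (ℕ → ℝ)} (hE : E ∈ past k) : E ∈ past (k + 1) := by
  obtain ⟨A, hA, rfl⟩ := hE
  refine ⟨(fun v : Fin (k + 1 + 1) → ℝ => fun j : Fin (k + 1) => v j.castSucc) ⁻¹' A, ?_, rfl⟩
  exact (measurable_pi_lambda _ fun j => measurable_pi_apply _) hA

theorem grow_le (h : MChain Q m Pr) (hi : ∀ k, Integrable (fun z : ℝ => z) (m k : Measure ℝ))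
    (S : Set ℝ) (hSc : S.Countable) (hS : ∀ k, (m k : Measure ℝ) Sᶜ = 0)
    {k l : ℕ} (hkl : k ≤ l) {E : Set (ℕ → ℝ)} (hE : E ∈ past k) :
    ∫ ω in E, |ω k| ∂Pr ≤ ∫ ω in E, |ω l| ∂Pr := by
  induction l, hkl using Nat.le_induction with
  | base => exact le_rfl
  | succ l hl ih =>
    have h1 : E ∈ past l := Nat.le_induction hE (fun n _ h2 => past_succ h2) l hl
    obtain ⟨A, hA, rfl⟩ := h1
    exact ih.trans (grow h hi S hSc hS l A hA)

end Sup37

open Sup37 in
theorem supb {Q : ℕ} {m : ℕ → ProbabilityMeasure ℝ} {Pr : Measure (ℕ → ℝ)} (h : MChain Q m Pr)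
    (hi : ∀ k, Integrable (fun z : ℝ => z) (m k : Measure ℝ)) (S : Set ℝ) (hSc : S.Countable)
    (hS : ∀ k, (m k : Measure ℝ) Sᶜ = 0) (r : ℝ) (hr : 0 < r) :
    r * Pr.real {ω | ∃ k ≤ Q, r < |ω k|} ≤ pot (m Q) 0 := by
  have hP : IsProbabilityMeasure Pr := h.prob
  set A : ℕ → Set (ℕ → ℝ) := fun k => {ω | (∀ j < k, |ω j| ≤ r) ∧ r < |ω k|} with hA
  have hAp : ∀ k, A k ∈ past k := by
    intro k
    refine ⟨{v | (∀ j : Fin (k + 1), j.val < k → |v j| ≤ r) ∧ r < |v (Fin.last k)|}, ?_, ?_⟩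
    · refine MeasurableSet.inter ?_ ?_
      · have h1 : {v : Fin (k + 1) → ℝ | ∀ j : Fin (k + 1), j.val < k → |v j| ≤ r} =
            ⋂ j : Fin (k + 1), {v | j.val < k → |v j| ≤ r} := by
          ext v
          rw [mem_iInter]
          rfl
        change MeasurableSet {v : Fin (k + 1) → ℝ | ∀ j : Fin (k + 1), j.val < k → |v j| ≤ r}
        rw [h1]
        refine MeasurableSet.iInter fun j => ?_
        by_cases hj : j.val < k
        · have h2 : {v : Fin (k + 1) → ℝ | j.val < k → |v j| ≤ r} = {v | |v j| ≤ r} := by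
            ext v
            exact ⟨fun h => h hj, fun h _ => h⟩
          rw [h2]
          exact measurableSet_le (measurable_pi_apply j).abs measurable_const
        · have h2 : {v : Fin (k + 1) → ℝ | j.val < k → |v j| ≤ r} = univ :=
            eq_univ_of_forall fun v h3 => absurd h3 hj
          rw [h2]
          exact MeasurableSet.univ
      · exact measurableSet_lt measurable_const (measurable_pi_apply _).abs
    · ext ω
      constructor
      · rintro ⟨h1, h2⟩
        exact ⟨fun j hj => h1 j.val hj, h2⟩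
      · rintro ⟨h1, h2⟩
        exact ⟨fun j hj => h1 ⟨j, by omega⟩ hj, h2⟩
  have hAm : ∀ k, MeasurableSet (A k) := by
    intro k
    obtain ⟨B, hB, hE⟩ := hAp k
    rw [hE]
    exact (measurable_pi_lambda _ fun j => measurable_pi_apply _) hB
  have hdis : Pairwise (Function.onFun Disjoint A) := by
    have key : ∀ k l, k < l → Disjoint (A k) (A l) := by
      intro k l hkl
      rw [disjoint_left]
      rintro ω ⟨_, h1⟩ ⟨h2, _⟩
      exact absurd (h2 k hkl) (not_le.2 h1)
    intro k l hkl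
    rcases lt_or_gt_of_ne hkl with h1 | h1
    · exact key k l h1
    · exact (key l k h1).symm
  have hun : {ω : ℕ → ℝ | ∃ k ≤ Q, r < |ω k|} = ⋃ k ∈ Finset.range (Q + 1), A k := by
    classical
    ext ω
    rw [mem_iUnion₂]
    constructor
    · intro h1
      have hex : ∃ k, r < |ω k| := h1.imp fun k hk => hk.2
      refine ⟨Nat.find hex, ?_, fun j hj => not_lt.1 (Nat.find_min hex hj), Nat.find_spec hex⟩
      obtain ⟨k, hk, hk2⟩ := h1
      rw [Finset.mem_range]
      have := Nat.find_min' hex hk2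
      omega
    · rintro ⟨k, hk, h2⟩
      rw [Finset.mem_range] at hk
      exact ⟨k, by omega, h2.2⟩
  have iQ := (integ h hi Q).abs
  have hk : ∀ k ∈ Finset.range (Q + 1), r * Pr.real (A k) ≤ ∫ ω in A k, |ω Q| ∂Pr := by
    intro k hk
    rw [Finset.mem_range] at hk
    refine le_trans ?_ (grow_le h hi S hSc hS (by omega : k ≤ Q) (hAp k))
    have h1 : ∫ _ω in A k, r ∂Pr = r * Pr.real (A k) := by
      rw [setIntegral_const, smul_eq_mul, mul_comm]
    rw [← h1]
    refine setIntegral_mono_on (integrable_const _).integrableOn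
      (integ h hi k).abs.integrableOn (hAm k) fun ω hω => ?_
    exact le_of_lt hω.2
  rw [hun]
  have h1 : Pr.real (⋃ k ∈ Finset.range (Q + 1), A k) = ∑ k ∈ Finset.range (Q + 1), Pr.real (A k) :=
    measureReal_biUnion_finset (fun k _ l _ hkl => hdis hkl) fun k _ => hAm k
  rw [h1, Finset.mul_sum]
  refine (Finset.sum_le_sum hk).trans ?_
  rw [← integral_biUnion_finset _ (fun k _ => hAm k) (fun k _ l _ hkl => hdis hkl)
    fun k _ => iQ.integrableOn]
  refine (setIntegral_le_integral iQ (Eventually.of_forall fun ω => abs_nonneg _)).trans_eq ?_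
  unfold pot
  have h5 : AEStronglyMeasurable (fun z : ℝ => |z - 0|) (Pr.map fun ω : ℕ → ℝ => ω Q) :=
    ((continuous_id.sub continuous_const).abs).aestronglyMeasurable
  rw [← h.marg Q, integral_map (meas_coord Q).aemeasurable h5]
  simp only [sub_zero]

end LimCurt
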