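import Pool.Agent.Lib.MP_b499b5_pr.Rows23

/-!
# Compactness of the sets `KK` and extraction of a convergent subsequence
-/

set_option autoImplicit false

namespace LimCurt

open MeasureTheory Filter Topology Set

/-- the inclusion -/
def valT (k : ℕ) : Tn k → Fin k → ℝ := fun τ => τ.1

/-- the compact set of jump times -/
theorem isCompact_Tn (k : ℕ) {δ : ℝ} (hδ : 0 < δ) :
    IsCompact {τ : Tn k | (∀ i, τ.1 i ∈ Icc δ (1 - δ)) ∧ ∀ i j, i < j → δ ≤ τ.1 j - τ.1 i} := by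
  have hind : IsInducing (valT k) :=
    IsInducing.subtypeVal (t := {τ : Fin k → ℝ | StrictMono τ ∧ ∀ i, τ i ∈ Ioo (0 : ℝ) 1})
  refine hind.isCompact_iff.2 ?_
  have himg : valT k ''
      {τ : Tn k | (∀ i, τ.1 i ∈ Icc δ (1 - δ)) ∧ ∀ i j, i < j → δ ≤ τ.1 j - τ.1 i} =
      (Set.univ.pi fun _ => Icc δ (1 - δ)) ∩ {τ | ∀ i j, i < j → δ ≤ τ j - τ i} := by
    ext τ
    constructor
    · rintro ⟨σ, ⟨h1, h2⟩, rfl⟩
      exact ⟨fun i _ => h1 i, h2⟩
    · rintro ⟨h1, h2⟩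
      refine ⟨⟨τ, fun i j hij => ?_, fun i => ?_⟩, ⟨fun i => h1 i (mem_univ _), h2⟩, rfl⟩
      · have := h2 i j hij
        linarith
      · have := h1 i (mem_univ _)
        exact ⟨by linarith [this.1], by linarith [this.2]⟩
  rw [himg]
  refine (isCompact_univ_pi fun _ => isCompact_Icc).inter_right ?_
  simp only [Set.ofPred_forall]
  refine isClosed_iInter fun i => isClosed_iInter fun j => isClosed_iInter fun _ => ?_
  exact isClosed_le continuous_const ((continuous_apply j).sub (continuous_apply i))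

/-- the inclusion of a sheet -/
def mkZ (k : ℕ) : Tn k × (Fin (k + 1) → ℝ) × ℝ → Z := fun y => ⟨k, y⟩

theorem continuous_mkZ (k : ℕ) : Continuous (mkZ k) :=
  continuous_sigmaMk (σ := fun n : ℕ => Tn n × (Fin (n + 1) → ℝ) × ℝ)

theorem isCompact_KK (n : ℕ) {δ : ℝ} (hδ : 0 < δ) (r : ℝ) : IsCompact (KK n δ r) := by
  have h1 : KK n δ r = ⋃ k ∈ Iic n, mkZ k ''
      ({τ : Tn k | (∀ i, τ.1 i ∈ Icc δ (1 - δ)) ∧ ∀ i j, i < j → δ ≤ τ.1 j - τ.1 i} ×ˢ
        ((Set.univ.pi fun _ => Icc (-r) r) ×ˢ Icc (-r) r)) := by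
    ext z
    simp only [mem_iUnion, mem_image, exists_prop, mem_Iic]
    constructor
    · rintro ⟨h1, h2, h3, h4, h5⟩
      exact ⟨z.1, h1, z.2, ⟨⟨h2, h3⟩, fun i _ => abs_le.1 (h4 i), abs_le.1 h5⟩, rfl⟩
    · rintro ⟨k, hk, y, ⟨⟨h2, h3⟩, h4, h5⟩, rfl⟩
      exact ⟨hk, h2, h3, fun i => abs_le.2 (h4 i (mem_univ _)), abs_le.2 h5⟩
  rw [h1]
  refine (finite_Iic n).isCompact_biUnion fun k _ => ?_
  refine IsCompact.image ?_ (continuous_mkZ k)
  exact (isCompact_Tn k hδ).prod ((isCompact_univ_pi fun _ => isCompact_Icc).prod isCompact_Icc)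

theorem KK_mono {n n' : ℕ} {δ δ' r r' : ℝ} (hn : n ≤ n') (hδ : δ' ≤ δ) (hr : r ≤ r') :
    KK n δ r ⊆ KK n' δ' r' := by
  rintro z ⟨h1, h2, h3, h4, h5⟩
  refine ⟨h1.trans hn, fun i => ⟨hδ.trans (h2 i).1, (h2 i).2.trans (by linarith)⟩,
    fun i j hij => hδ.trans (h3 i j hij), fun i => (h4 i).trans hr, h5.trans hr⟩

theorem iUnion_KK : ⋃ j : ℕ, KK j (1 / ((j : ℝ) + 1)) j = univ := by
  rw [eq_univ_iff_forall]
  rintro ⟨k, ⟨τ, hτ, hτ'⟩, v, w⟩
  -- finitely many positive numbers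
  have h0 : ∀ᶠ j : ℕ in atTop, k ≤ j := eventually_ge_atTop k
  have hlim : Tendsto (fun j : ℕ => 1 / ((j : ℝ) + 1)) atTop (𝓝 0) :=
    tendsto_one_div_add_atTop_nhds_zero_nat
  have h1 : ∀ i, ∀ᶠ j : ℕ in atTop, 1 / ((j : ℝ) + 1) ≤ τ i := fun i =>
    hlim.eventually_le_const (hτ' i).1
  have h2 : ∀ i, ∀ᶠ j : ℕ in atTop, 1 / ((j : ℝ) + 1) ≤ 1 - τ i := fun i =>
    hlim.eventually_le_const (by linarith [(hτ' i).2])
  have h3 : ∀ i l, i < l → ∀ᶠ j : ℕ in atTop, 1 / ((j : ℝ) + 1) ≤ τ l - τ i := fun i l hil =>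
    hlim.eventually_le_const (sub_pos.2 (hτ hil))
  have h4 : ∀ i, ∀ᶠ j : ℕ in atTop, |v i| ≤ (j : ℝ) := fun i =>
    tendsto_natCast_atTop_atTop.eventually_ge_atTop _
  have h5 : ∀ᶠ j : ℕ in atTop, |w| ≤ (j : ℝ) := tendsto_natCast_atTop_atTop.eventually_ge_atTop _
  have h3' : ∀ᶠ j : ℕ in atTop, ∀ i l, i < l → 1 / ((j : ℝ) + 1) ≤ τ l - τ i := by
    refine eventually_all.2 fun i => eventually_all.2 fun l => ?_
    by_cases hil : i < l
    · exact (h3 i l hil).mono fun j hj _ => hj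
    · exact Eventually.of_forall fun j h => absurd h hil
  obtain ⟨j, hj⟩ := (h0.and ((eventually_all.2 h1).and ((eventually_all.2 h2).and
    (h3'.and ((eventually_all.2 h4).and h5))))).exists
  obtain ⟨g0, g1, g2, g3, g4, g5⟩ := hj
  exact mem_iUnion.2 ⟨j, g0, fun i => ⟨g1 i, by have := g2 i; linarith⟩, g3, g4, g5⟩

instance : T2Space Z := inferInstanceAs (T2Space (Σ n : ℕ, Tn n × (Fin (n + 1) → ℝ) × ℝ))

instance : SecondCountableTopology Z :=
  inferInstanceAs (SecondCountableTopology (Σ n : ℕ, Tn n × (Fin (n + 1) → ℝ) × ℝ))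

instance : TopologicalSpace.MetrizableSpace Z := by
  let _ : MetricSpace (Σ n : ℕ, Tn n × (Fin (n + 1) → ℝ) × ℝ) := Metric.Sigma.metricSpace
  exact inferInstanceAs (TopologicalSpace.MetrizableSpace
    (Σ n : ℕ, Tn n × (Fin (n + 1) → ℝ) × ℝ))

theorem exists_KK (P : ProbabilityMeasure Z) {ε : ENNReal} (hε : 0 < ε) :
    ∃ (n : ℕ) (δ r : ℝ), 0 < δ ∧ (P : Measure Z) (KK n δ r)ᶜ ≤ ε := by
  have hanti : Antitone fun j : ℕ => (KK j (1 / ((j : ℝ) + 1)) j)ᶜ := by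
    intro i j hij
    refine compl_subset_compl.2 (KK_mono hij ?_ (by exact_mod_cast hij))
    have : (i : ℝ) ≤ j := by exact_mod_cast hij
    exact one_div_le_one_div_of_le (by positivity) (by linarith)
  have hmeas : ∀ j : ℕ, MeasurableSet (KK j (1 / ((j : ℝ) + 1)) j) := fun j =>
    (isCompact_KK j (by positivity) j).isClosed.measurableSet
  have h1 := tendsto_measure_iInter_atTop (μ := (P : Measure Z))
    (fun j => (hmeas j).compl.nullMeasurableSet) hanti ⟨0, measure_ne_top _ _⟩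
  rw [← compl_iUnion, iUnion_KK, compl_univ, measure_empty] at h1
  obtain ⟨j, hj⟩ := (h1.eventually_le_const hε).exists
  exact ⟨j, 1 / ((j : ℝ) + 1), j, by positivity, hj⟩

/-- extraction, for any continuous map to the Skorokhod space -/
theorem extract_gen (s : Z → D) (hs : Continuous s) (Pz : ℕ → ProbabilityMeasure Z)
    (tight : ∀ ε : ℝ, 0 < ε → ∃ (n : ℕ) (δ r : ℝ), 0 < δ ∧ ∀ᶠ p in atTop,
      (Pz p : Measure Z) (KK n δ r)ᶜ ≤ ENNReal.ofReal ε)
    (P : ℕ → ProbabilityMeasure D) (hP : ∀ p, (P p : Measure D) = (Pz p : Measure Z).map s) :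
    ∃ φ : ℕ → ℕ, StrictMono φ ∧ ∃ P' : ProbabilityMeasure D,
      Tendsto (fun p => P (φ p)) atTop (𝓝 P') := by
  have h1 : IsTightMeasureSet {((μ : ProbabilityMeasure Z) : Measure Z) | μ ∈ range Pz} := by
    rw [isTightMeasureSet_iff_exists_isCompact_measure_compl_le]
    intro ε hε
    obtain ⟨ε', hε', hle⟩ : ∃ ε' : ℝ, 0 < ε' ∧ ENNReal.ofReal ε' ≤ ε := by
      rcases eq_or_ne ε ⊤ with rfl | hne
      · exact ⟨1, one_pos, le_top⟩
      · exact ⟨ε.toReal, ENNReal.toReal_pos hε.ne' hne, (ENNReal.ofReal_toReal hne).le⟩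
    obtain ⟨n, δ, r, hδ, h⟩ := tight ε' hε'
    obtain ⟨N, hN⟩ := eventually_atTop.1 h
    choose n' δ' r' hδ' hh using fun p : ℕ => exists_KK (Pz p) hε
    refine ⟨KK n δ r ∪ ⋃ p ∈ Iio N, KK (n' p) (δ' p) (r' p),
      (isCompact_KK n hδ r).union ((finite_Iio N).isCompact_biUnion fun p _ =>
        isCompact_KK _ (hδ' p) _), ?_⟩
    rintro _ ⟨_, ⟨p, rfl⟩, rfl⟩
    by_cases hp : N ≤ p
    · exact (measure_mono (compl_subset_compl.2 subset_union_left)).trans ((hN p hp).trans hle)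
    · refine (measure_mono (compl_subset_compl.2 ?_)).trans (hh p)
      exact (subset_biUnion_of_mem (u := fun p => KK (n' p) (δ' p) (r' p))
        (mem_Iio.2 (not_le.1 hp))).trans subset_union_right
  have h2 := isCompact_closure_of_isTightMeasureSet h1
  obtain ⟨P₀, -, φ, hφ, hlim⟩ := h2.isSeqCompact (fun p => subset_closure (mem_range_self p))
  refine ⟨φ, hφ, P₀.map hs.measurable.aemeasurable, ?_⟩
  have h3 := ((ProbabilityMeasure.continuous_map hs).tendsto P₀).comp hlim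
  refine h3.congr fun p => ?_
  apply Subtype.ext
  show (Pz (φ p) : Measure Z).map s = _
  exact (hP (φ p)).symm

end LimCurt
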