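import Pool.Agent.Lib.MP_b499b5_pr.Rows23

/-!
# Row FD: the finite-dimensional law (helper14)
-/

set_option autoImplicit false

namespace LimCurt

open MeasureTheory Filter Topology Set

namespace Fd14

/-- The values at the partition times. -/
def vals (Q : ℕ) (t : ℕ → I) (x : D) : ℕ → ℝ := fun k => x.1 (t (min k Q))

variable {μ : I → ProbabilityMeasure ℝ} {Q : ℕ} {t : ℕ → I} {P : ProbabilityMeasure D}

theorem am2 (hP : IsDisc μ Q t (P : Measure D)) {k : ℕ} (hk : k < Q) :
    AEMeasurable (fun x : D => (x.1 (t k), x.1 (t (k + 1)))) (P : Measure D) := by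
  by_contra h
  have h1 := (hP.2.2 k hk).1
  rw [Measure.map_of_not_aemeasurable h, Measure.map_zero] at h1
  exact (IsProbabilityMeasure.ne_zero (μ (t k) : Measure ℝ)) h1.symm

theorem Q_pos (ht : IsPart Q t) : 0 < Q := by
  rcases Nat.eq_zero_or_pos Q with h | h
  · exfalso
    have h1 := ht.1
    have h2 := ht.2.1
    rw [h, h1] at h2
    exact zero_ne_one h2
  · exact h

theorem am (ht : IsPart Q t) (hP : IsDisc μ Q t (P : Measure D)) {k : ℕ} (hk : k ≤ Q) :
    AEMeasurable (fun x : D => x.1 (t k)) (P : Measure D) := by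
  rcases Nat.lt_or_ge k Q with h | h
  · exact measurable_fst.comp_aemeasurable (am2 hP h)
  · have h1 := Q_pos ht
    have h2 := measurable_snd.comp_aemeasurable (am2 hP (k := Q - 1) (by omega))
    have h3 : k = Q - 1 + 1 := by omega
    rw [h3]
    exact h2

theorem amv (ht : IsPart Q t) (hP : IsDisc μ Q t (P : Measure D)) :
    AEMeasurable (vals Q t) (P : Measure D) :=
  aemeasurable_pi_lambda _ fun k => am ht hP (min_le_right k Q)

/-- The one-dimensional laws. -/
theorem marg (ht : IsPart Q t) (hP : IsDisc μ Q t (P : Measure D)) {k : ℕ} (hk : k ≤ Q) :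
    (P : Measure D).map (fun x => x.1 (t k)) = (μ (t k) : Measure ℝ) := by
  rcases Nat.lt_or_ge k Q with h | h
  · rw [← (hP.2.2 k h).1, AEMeasurable.map_map_of_aemeasurable measurable_fst.aemeasurable
      (am2 hP h)]
    rfl
  · have h1 := Q_pos ht
    have h3 : k = Q - 1 + 1 := by omega
    rw [h3, ← (hP.2.2 (Q - 1) (by omega)).2.1,
      AEMeasurable.map_map_of_aemeasurable measurable_snd.aemeasurable (am2 hP (by omega))]
    rfl

/-- The kernel form, on sets of pasts that end in `y`. -/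
theorem ker (ht : IsPart Q t) (hP : IsDisc μ Q t (P : Measure D)) {k : ℕ} (hk : k < Q)
    {B : Set ℝ} (hB : MeasurableSet B) (y : ℝ) :
    ∃ c : ENNReal, ∀ E : Set (Fin (k + 1) → ℝ), MeasurableSet E →
      (∀ v ∈ E, v (Fin.last k) = y) →
      (P : Measure D) {x | (fun j : Fin (k + 1) => x.1 (t j)) ∈ E ∧ x.1 (t (k + 1)) ∈ B} =
        c * (P : Measure D) {x | (fun j : Fin (k + 1) => x.1 (t j)) ∈ E} := by
  obtain ⟨κ, hκ, h1⟩ := hP.2.1 k hk
  refine ⟨κ y B, fun E hE hy => ?_⟩
  have hp : AEMeasurable (fun (x : D) (j : Fin (k + 1)) => x.1 (t j)) (P : Measure D) :=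
    aemeasurable_pi_lambda _ fun j => am ht hP (by have := j.2; omega)
  have hpr : AEMeasurable (fun x : D => ((fun j : Fin (k + 1) => x.1 (t j)), x.1 (t (k + 1))))
      (P : Measure D) := hp.prodMk (am ht hP hk)
  have h2 : ((P : Measure D).map (fun x : D => ((fun j : Fin (k + 1) => x.1 (t j)),
      x.1 (t (k + 1))))) (E ×ˢ B) =
      (((P : Measure D).map (fun x : D => (fun j : Fin (k + 1) => x.1 (t j)))).compProd
        (κ.comap (fun v : Fin (k + 1) → ℝ => v (Fin.last k)) (measurable_pi_apply _)))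
        (E ×ˢ B) := by
    rw [h1]
  rw [Measure.map_apply_of_aemeasurable hpr (hE.prod hB),
    Measure.compProd_apply_prod hE hB] at h2
  have h3 : ∫⁻ v in E, (κ.comap (fun v : Fin (k + 1) → ℝ => v (Fin.last k))
      (measurable_pi_apply _)) v B ∂((P : Measure D).map fun x => fun j : Fin (k + 1) =>
        x.1 (t j)) = κ y B * (P : Measure D) {x | (fun j : Fin (k + 1) => x.1 (t j)) ∈ E} := by
    rw [setLIntegral_congr_fun hE (g := fun _ => κ y B) (fun v hv => by
      simp only [ProbabilityTheory.Kernel.comap_apply]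
      rw [hy v hv]), setLIntegral_const, Measure.map_apply_of_aemeasurable hp hE]
    rfl
  rw [h3] at h2
  exact h2

theorem good_congr {n : ℕ} {δ r : ℝ} {ω ω' : ℕ → ℝ} (hk : ∀ k ≤ Q, ω k = ω' k)
    (hg : ω ∈ good Q t n δ r) : ω' ∈ good Q t n δ r := by
  obtain ⟨g1, g2, g3, g4⟩ := hg
  refine ⟨fun k h => ?_, ?_, fun k h h' => ?_, fun k l h1 h2 h3 h4 h5 => ?_⟩
  · rw [← hk k h]
    exact g1 k h
  · refine le_trans (le_of_eq ?_) g2
    congr 1
    refine Finset.filter_congr fun k hk' => ?_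
    rw [Finset.mem_range] at hk'
    rw [hk k hk'.le, hk (k + 1) hk']
  · refine g3 k h ?_
    rw [hk k h.le, hk (k + 1) h]
    exact h'
  · refine g4 k l h1 h2 ?_ ?_ h5
    · rw [hk k (h1.trans h2).le, hk (k + 1) (by omega)]
      exact h3
    · rw [hk l h2.le, hk (l + 1) h2]
      exact h4

end Fd14

/-- Row FD. -/
theorem fdlaw (μ : I → ProbabilityMeasure ℝ) (hμ : Peacock μ) (Q : ℕ) (t : ℕ → I)
    (ht : IsPart Q t) (P : ProbabilityMeasure D) (hP : IsDisc μ Q t (P : Measure D))
    (C : Set ℝ) (hC : C.Countable) (hμC : ∀ s, (μ s : Measure ℝ) Cᶜ = 0) :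
    ∃ Pr : Measure (ℕ → ℝ), MChain Q (fun k => μ (t (min k Q))) Pr ∧
      ∀ (n : ℕ) (δ r : ℝ), (P : Measure D) {x | (fun k => x.1 (t k)) ∉ good Q t n δ r} ≤
        Pr (good Q t n δ r)ᶜ := by
  have hv := Fd14.amv ht hP
  have hmap : ∀ S : Set (ℕ → ℝ), MeasurableSet S →
      ((P : Measure D).map (Fd14.vals Q t)) S = (P : Measure D) (Fd14.vals Q t ⁻¹' S) :=
    fun S hS => Measure.map_apply_of_aemeasurable hv hS
  refine ⟨(P : Measure D).map (Fd14.vals Q t), ⟨?_, ?_, ?_, ?_, ?_⟩, ?_⟩
  · exact Measure.isProbabilityMeasure_map hv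
  · intro k
    rw [AEMeasurable.map_map_of_aemeasurable (measurable_pi_apply k).aemeasurable hv]
    exact Fd14.marg ht hP (min_le_right k Q)
  · refine (ae_map_iff hv ?_).2 (Eventually.of_forall fun x k hk => ?_)
    · have : {ω : ℕ → ℝ | ∀ k, Q ≤ k → ω k = ω Q} = ⋂ k, {ω | Q ≤ k → ω k = ω Q} := by
        ext ω
        simp
      rw [this]
      refine MeasurableSet.iInter fun k => ?_
      by_cases hk : Q ≤ k
      · have h2 : {ω : ℕ → ℝ | Q ≤ k → ω k = ω Q} = {ω | ω k = ω Q} := by
          ext ω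
          simp [hk]
        rw [h2]
        exact measurableSet_eq_fun (measurable_pi_apply _) (measurable_pi_apply _)
      · have h2 : {ω : ℕ → ℝ | Q ≤ k → ω k = ω Q} = univ := by
          ext ω
          simp [hk]
        rw [h2]
        exact MeasurableSet.univ
    · show x.1 (t (min k Q)) = x.1 (t (min Q Q))
      rw [min_eq_right hk, min_self]
  · intro k A hA B hB y
    have hlast : MeasurableSet {ω : ℕ → ℝ | ω k = y} :=
      (measurableSet_singleton y).preimage (measurable_pi_apply k)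
    have hnext : MeasurableSet {ω : ℕ → ℝ | ω (k + 1) ∈ B} :=
      hB.preimage (measurable_pi_apply (k + 1))
    have hpast : MeasurableSet {ω : ℕ → ℝ | (fun j : Fin (k + 1) => ω j) ∈ A} :=
      hA.preimage (measurable_pi_lambda _ fun j => measurable_pi_apply _)
    have m1 : MeasurableSet {ω : ℕ → ℝ | (fun j : Fin (k + 1) => ω j) ∈ A ∧ ω k = y ∧
        ω (k + 1) ∈ B} := hpast.inter (hlast.inter hnext)
    have m2 : MeasurableSet {ω : ℕ → ℝ | (fun j : Fin (k + 1) => ω j) ∈ A ∧ ω k = y} :=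
      hpast.inter hlast
    have m3 : MeasurableSet {ω : ℕ → ℝ | ω k = y ∧ ω (k + 1) ∈ B} := hlast.inter hnext
    rw [hmap _ m1, hmap _ hlast, hmap _ m2, hmap _ m3]
    rcases Nat.lt_or_ge k Q with hk | hk
    · obtain ⟨c, hc⟩ := Fd14.ker ht hP hk hB y
      have hmin : ∀ j : Fin (k + 1), min (j : ℕ) Q = j := fun j =>
        min_eq_left (by have := j.2; omega)
      have hvj : ∀ x : D, (fun j : Fin (k + 1) => Fd14.vals Q t x j) =
          fun j : Fin (k + 1) => x.1 (t j) := by
        intro x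
        funext j
        show x.1 (t (min (j : ℕ) Q)) = _
        rw [hmin j]
      have hvk : ∀ x : D, Fd14.vals Q t x k = x.1 (t k) := by
        intro x
        show x.1 (t (min k Q)) = _
        rw [min_eq_left hk.le]
      have hvn : ∀ x : D, Fd14.vals Q t x (k + 1) = x.1 (t (k + 1)) := by
        intro x
        show x.1 (t (min (k + 1) Q)) = _
        rw [min_eq_left hk]
      have hE0 : MeasurableSet {v : Fin (k + 1) → ℝ | v (Fin.last k) = y} :=
        (measurableSet_singleton y).preimage (measurable_pi_apply _)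
      have e1 := hc (A ∩ {v | v (Fin.last k) = y}) (hA.inter hE0) (fun v hv => hv.2)
      have e2 := hc {v | v (Fin.last k) = y} hE0 (fun v hv => hv)
      have s1 : Fd14.vals Q t ⁻¹' {ω : ℕ → ℝ | (fun j : Fin (k + 1) => ω j) ∈ A ∧ ω k = y ∧
          ω (k + 1) ∈ B} = {x | (fun j : Fin (k + 1) => x.1 (t j)) ∈
            A ∩ {v | v (Fin.last k) = y} ∧ x.1 (t (k + 1)) ∈ B} := by
        ext x
        show ((fun j : Fin (k + 1) => Fd14.vals Q t x j) ∈ A ∧ Fd14.vals Q t x k = y ∧
          Fd14.vals Q t x (k + 1) ∈ B) ↔ (((fun j : Fin (k + 1) => x.1 (t j)) ∈ A ∧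
            x.1 (t k) = y) ∧ x.1 (t (k + 1)) ∈ B)
        rw [hvj, hvk, hvn, and_assoc]
      have s2 : Fd14.vals Q t ⁻¹' {ω : ℕ → ℝ | (fun j : Fin (k + 1) => ω j) ∈ A ∧ ω k = y} =
          {x | (fun j : Fin (k + 1) => x.1 (t j)) ∈ A ∩ {v | v (Fin.last k) = y}} := by
        ext x
        show ((fun j : Fin (k + 1) => Fd14.vals Q t x j) ∈ A ∧ Fd14.vals Q t x k = y) ↔
          ((fun j : Fin (k + 1) => x.1 (t j)) ∈ A ∧ x.1 (t k) = y)
        rw [hvj, hvk]
      have s3 : Fd14.vals Q t ⁻¹' {ω : ℕ → ℝ | ω k = y ∧ ω (k + 1) ∈ B} =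
          {x | (fun j : Fin (k + 1) => x.1 (t j)) ∈ {v | v (Fin.last k) = y} ∧
            x.1 (t (k + 1)) ∈ B} := by
        ext x
        show (Fd14.vals Q t x k = y ∧ Fd14.vals Q t x (k + 1) ∈ B) ↔
          (x.1 (t k) = y ∧ x.1 (t (k + 1)) ∈ B)
        rw [hvk, hvn]
      have s4 : Fd14.vals Q t ⁻¹' {ω : ℕ → ℝ | ω k = y} =
          {x | (fun j : Fin (k + 1) => x.1 (t j)) ∈ {v | v (Fin.last k) = y}} := by
        ext x
        show Fd14.vals Q t x k = y ↔ x.1 (t k) = y
        rw [hvk]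
      rw [s1, s2, s3, s4, e1, e2]
      ring
    · have hkk : ∀ x : D, Fd14.vals Q t x (k + 1) = Fd14.vals Q t x k := by
        intro x
        show x.1 (t (min (k + 1) Q)) = x.1 (t (min k Q))
        rw [min_eq_right hk, min_eq_right (by omega)]
      by_cases hy : y ∈ B
      · have s1 : Fd14.vals Q t ⁻¹' {ω : ℕ → ℝ | (fun j : Fin (k + 1) => ω j) ∈ A ∧ ω k = y ∧
            ω (k + 1) ∈ B} = Fd14.vals Q t ⁻¹' {ω : ℕ → ℝ | (fun j : Fin (k + 1) => ω j) ∈ A ∧
              ω k = y} := by
          ext x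
          show (_ ∧ Fd14.vals Q t x k = y ∧ Fd14.vals Q t x (k + 1) ∈ B) ↔
            (_ ∧ Fd14.vals Q t x k = y)
          rw [hkk]
          exact ⟨fun h => ⟨h.1, h.2.1⟩, fun h => ⟨h.1, h.2, by rw [h.2]; exact hy⟩⟩
        have s2 : Fd14.vals Q t ⁻¹' {ω : ℕ → ℝ | ω k = y ∧ ω (k + 1) ∈ B} =
            Fd14.vals Q t ⁻¹' {ω : ℕ → ℝ | ω k = y} := by
          ext x
          show (Fd14.vals Q t x k = y ∧ Fd14.vals Q t x (k + 1) ∈ B) ↔ Fd14.vals Q t x k = y
          rw [hkk]
          exact ⟨fun h => h.1, fun h => ⟨h, by rw [h]; exact hy⟩⟩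
        rw [s1, s2]
      · have s1 : Fd14.vals Q t ⁻¹' {ω : ℕ → ℝ | (fun j : Fin (k + 1) => ω j) ∈ A ∧ ω k = y ∧
            ω (k + 1) ∈ B} = ∅ := by
          ext x
          show (_ ∧ Fd14.vals Q t x k = y ∧ Fd14.vals Q t x (k + 1) ∈ B) ↔ x ∈ (∅ : Set D)
          rw [hkk]
          exact ⟨fun h => absurd (h.2.1 ▸ h.2.2) hy, fun h => absurd h (notMem_empty x)⟩
        have s2 : Fd14.vals Q t ⁻¹' {ω : ℕ → ℝ | ω k = y ∧ ω (k + 1) ∈ B} = ∅ := by
          ext x
          show (Fd14.vals Q t x k = y ∧ Fd14.vals Q t x (k + 1) ∈ B) ↔ x ∈ (∅ : Set D)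
          rw [hkk]
          exact ⟨fun h => absurd (h.1 ▸ h.2) hy, fun h => absurd h (notMem_empty x)⟩
        rw [s1, s2, measure_empty, zero_mul, mul_zero]
  · intro k a
    have hset : MeasurableSet {ω : ℕ → ℝ | ω k ≤ a} :=
      measurableSet_Iic.preimage (measurable_pi_apply k)
    rcases Nat.lt_or_ge k Q with hk | hk
    · have ham := Fd14.am2 hP hk
      obtain ⟨c1, c2, c3⟩ := hP.2.2 k hk
      obtain ⟨d1, d2, _⟩ := c3 a
      set π : Measure (ℝ × ℝ) := (P : Measure D).map fun x => (x.1 (t k), x.1 (t (k + 1)))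
        with hπ
      set θ : Measure ℝ := (π.restrict (Iic a ×ˢ univ)).map Prod.snd with hθ
      have iθ : Integrable (fun z : ℝ => z) θ := (hμ.integrable (t (k + 1))).mono_measure d1
      have iμ : Integrable (fun z : ℝ => z) ((μ (t k) : Measure ℝ).restrict (Iic a)) :=
        (hμ.integrable (t k)).restrict
      have e1 : ∫ z, z ∂((μ (t k) : Measure ℝ).restrict (Iic a)) ≤ ∫ z, z ∂θ :=
        d2.2 (fun z => z) (convexOn_id convex_univ) iμ iθ
      have e2 : ∫ z, -z ∂((μ (t k) : Measure ℝ).restrict (Iic a)) ≤ ∫ z, -z ∂θ :=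
        d2.2 (fun z => -z) (concaveOn_id convex_univ).neg iμ.neg iθ.neg
      rw [integral_neg, integral_neg] at e2
      have e3 : ∫ z, z ∂((μ (t k) : Measure ℝ).restrict (Iic a)) = ∫ z, z ∂θ :=
        le_antisymm e1 (by linarith)
      -- the two sides as integrals over the pair law
      have hS : MeasurableSet (Iic a ×ˢ (univ : Set ℝ)) := measurableSet_Iic.prod MeasurableSet.univ
      have f1 : ∫ z, z ∂θ = ∫ p in Iic a ×ˢ (univ : Set ℝ), p.2 ∂π := by
        rw [hθ, integral_map measurable_snd.aemeasurable]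
        exact measurable_id.aestronglyMeasurable
      have f2 : ∫ z, z ∂((μ (t k) : Measure ℝ).restrict (Iic a)) =
          ∫ p in Iic a ×ˢ (univ : Set ℝ), p.1 ∂π := by
        have hid : AEStronglyMeasurable (fun z : ℝ => z) (π.map Prod.fst) :=
          measurable_id.aestronglyMeasurable
        rw [← c1, setIntegral_map measurableSet_Iic hid measurable_fst.aemeasurable]
        congr 2
        ext p
        simp
      have i2 : Integrable (fun p : ℝ × ℝ => p.2) π := by
        have := hμ.integrable (t (k + 1))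
        rw [← c2] at this
        exact (integrable_map_measure measurable_id.aestronglyMeasurable
          measurable_snd.aemeasurable).1 this
      have i1 : Integrable (fun p : ℝ × ℝ => p.1) π := by
        have := hμ.integrable (t k)
        rw [← c1] at this
        exact (integrable_map_measure measurable_id.aestronglyMeasurable
          measurable_fst.aemeasurable).1 this
      have f3 : ∫ p in Iic a ×ˢ (univ : Set ℝ), (p.2 - p.1) ∂π = 0 := by
        rw [integral_sub i2.restrict i1.restrict, ← f1, ← f2, e3, sub_self]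
      have f4 : ((P : Measure D).map (Fd14.vals Q t)).map (fun ω : ℕ → ℝ => (ω k, ω (k + 1))) =
          π := by
        rw [AEMeasurable.map_map_of_aemeasurable
          ((measurable_pi_apply k).prodMk (measurable_pi_apply (k + 1))).aemeasurable hv, hπ]
        congr 1
        funext x
        show (x.1 (t (min k Q)), x.1 (t (min (k + 1) Q))) = _
        rw [min_eq_left hk.le, min_eq_left (show k + 1 ≤ Q from hk)]
      have hid : AEStronglyMeasurable (fun p : ℝ × ℝ => p.2 - p.1)
          (((P : Measure D).map (Fd14.vals Q t)).map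
            (fun ω : ℕ → ℝ => (ω k, ω (k + 1)))) :=
        (measurable_snd.sub measurable_fst).aestronglyMeasurable
      rw [← f4, setIntegral_map hS hid
        ((measurable_pi_apply k).prodMk (measurable_pi_apply (k + 1))).aemeasurable] at f3
      have f5 : (fun ω : ℕ → ℝ => (ω k, ω (k + 1))) ⁻¹' (Iic a ×ˢ (univ : Set ℝ)) =
          {ω | ω k ≤ a} := by
        ext ω
        simp
      rw [f5] at f3
      exact f3
    · have hid : AEStronglyMeasurable (fun ω : ℕ → ℝ => ω (k + 1) - ω k)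
          ((P : Measure D).map (Fd14.vals Q t)) :=
        ((measurable_pi_apply (k + 1)).sub (measurable_pi_apply k)).aestronglyMeasurable
      rw [setIntegral_map hset hid hv]
      have : ∀ x : D, Fd14.vals Q t x (k + 1) - Fd14.vals Q t x k = 0 := by
        intro x
        show x.1 (t (min (k + 1) Q)) - x.1 (t (min k Q)) = 0
        rw [min_eq_right hk, min_eq_right (show Q ≤ k + 1 by omega), sub_self]
      simp [this]
  · intro n δ r
    refine le_trans (measure_mono ?_) (Measure.le_map_apply hv _)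
    intro x hx hg
    apply hx
    have hk : ∀ k ≤ Q, Fd14.vals Q t x k = x.1 (t k) := by
      intro k hk
      show x.1 (t (min k Q)) = _
      rw [min_eq_left hk]
    exact Fd14.good_congr hk hg

end LimCurt
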