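import Pool.Agent.Lib.MP_b499b5_pr.Rows23

/-!
# Step paths are cadlag and depend continuously on their parameters
-/

set_option autoImplicit false

namespace LimCurt

open MeasureTheory Filter Topology Set

theorem stepFn_of_ne {z : Z} {t : I} (ht : t ≠ 1) :
    stepFn z t = z.2.2.1 ⟨(Finset.univ.filter fun i => z.2.1.1 i ≤ (t : ℝ)).card,
      Nat.lt_succ_of_le ((Finset.card_filter_le _ _).trans_eq (by
        rw [Finset.card_univ, Fintype.card_fin]))⟩ := if_neg ht

theorem stepFn_one (z : Z) : stepFn z 1 = z.2.2.2 := if_pos rfl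

theorem stepFn_cadlag (z : Z) : IsCadlag (stepFn z) := by
  constructor
  · intro t
    rcases eq_or_ne t 1 with rfl | ht
    · have h1 : Ici (1 : I) = {1} := by
        ext s
        simp only [mem_Ici, mem_singleton_iff]
        exact ⟨fun h => le_antisymm s.2.2 h, fun h => h.ge⟩
      rw [h1]
      exact continuousWithinAt_singleton
    · have h1 : ∀ᶠ s : I in 𝓝[≥] t, ∀ i, (z.2.1.1 i ≤ (s : ℝ) ↔ z.2.1.1 i ≤ (t : ℝ)) := by
        rw [eventually_all]
        intro i
        by_cases hi : z.2.1.1 i ≤ (t : ℝ)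
        · filter_upwards [self_mem_nhdsWithin] with s hs
          exact ⟨fun _ => hi, fun _ => hi.trans hs⟩
        · have h2 : ∀ᶠ s : I in 𝓝 t, (s : ℝ) < z.2.1.1 i :=
            continuous_subtype_val.continuousAt.eventually_lt continuousAt_const (not_le.1 hi)
          filter_upwards [mem_nhdsWithin_of_mem_nhds h2] with s hs
          exact ⟨fun h => absurd h (not_le.2 hs), fun h => absurd h hi⟩
      have h2 : ∀ᶠ s : I in 𝓝[≥] t, s ≠ 1 := mem_nhdsWithin_of_mem_nhds (isOpen_ne.mem_nhds ht)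
      refine continuousWithinAt_const.congr_of_eventuallyEq (f := fun _ => stepFn z t) ?_ rfl
      filter_upwards [h1, h2] with s hs hs1
      have hcard : (Finset.univ.filter fun i => z.2.1.1 i ≤ (s : ℝ)).card =
          (Finset.univ.filter fun i => z.2.1.1 i ≤ (t : ℝ)).card :=
        congrArg Finset.card (Finset.filter_congr fun i _ => hs i)
      rw [stepFn_of_ne hs1, stepFn_of_ne ht]
      exact congrArg z.2.2.1 (Fin.ext hcard)
  · intro t
    have h1 : ∀ᶠ s : I in 𝓝[<] t, ∀ i, (z.2.1.1 i < (t : ℝ) ↔ z.2.1.1 i ≤ (s : ℝ)) := by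
      rw [eventually_all]
      intro i
      by_cases hi : z.2.1.1 i < (t : ℝ)
      · have h2 : ∀ᶠ s : I in 𝓝 t, z.2.1.1 i < (s : ℝ) :=
          continuousAt_const.eventually_lt continuous_subtype_val.continuousAt hi
        filter_upwards [mem_nhdsWithin_of_mem_nhds h2] with s hs
        exact ⟨fun _ => hs.le, fun _ => hi⟩
      · filter_upwards [self_mem_nhdsWithin] with s hs
        have h3 : (s : ℝ) < t := hs
        exact ⟨fun h => absurd h hi, fun h => absurd (h.trans_lt h3) hi⟩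
    refine ⟨z.2.2.1 ⟨(Finset.univ.filter fun i => z.2.1.1 i < (t : ℝ)).card,
      Nat.lt_succ_of_le ((Finset.card_filter_le _ _).trans_eq (by
        rw [Finset.card_univ, Fintype.card_fin]))⟩, tendsto_const_nhds.congr' ?_⟩
    filter_upwards [h1, self_mem_nhdsWithin] with s hs hs1
    have hs2 : s ≠ 1 := fun h => absurd (h ▸ hs1 : (1 : I) < t) (not_lt.2 t.2.2)
    have hcard : (Finset.univ.filter fun i => z.2.1.1 i < (t : ℝ)).card =
        (Finset.univ.filter fun i => z.2.1.1 i ≤ (s : ℝ)).card :=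
      congrArg Finset.card (Finset.filter_congr fun i _ => hs i)
    rw [stepFn_of_ne hs2]
    exact congrArg z.2.2.1 (Fin.ext hcard)

/-- The map from the parameters to the Skorokhod space. -/
noncomputable def stp (z : Z) : D := ⟨stepFn z, stepFn_cadlag z⟩

/-- A change of time that moves finitely many points. -/
theorem step_iso {n : ℕ} (τ' d : Fin n → ℝ) (w : ℝ) (hw : 0 < w) (h0 : ∀ i, w ≤ τ' i)
    (h1 : ∀ i, τ' i ≤ 1 - w) (hg : ∀ i j, i ≠ j → w ≤ |τ' i - τ' j|) (hd : ∑ i, |d i| < w) :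
    ∃ l : I ≃o I, (∀ (t : I) (i : Fin n), (t : ℝ) = τ' i → ((l t : I) : ℝ) = τ' i + d i) ∧
      ∀ t : I, |((l t : I) : ℝ) - t| ≤ ∑ i, |d i| := by
  set T : Fin n → ℝ → ℝ := fun i t => max (1 - |t - τ' i| / w) 0 with hT
  set L : ℝ → ℝ := fun t => t + ∑ i, d i * T i t with hL
  have hT0 : ∀ i t, 0 ≤ T i t := fun i t => le_max_right _ _
  have hT1 : ∀ i t, T i t ≤ 1 := fun i t => max_le (by
    have := div_nonneg (abs_nonneg (t - τ' i)) hw.le
    linarith) zero_le_one
  have hTl : ∀ i s t, |T i t - T i s| ≤ |t - s| / w := by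
    intro i s t
    refine (abs_max_sub_max_le_abs _ _ _).trans ?_
    have h2 : 1 - |t - τ' i| / w - (1 - |s - τ' i| / w) = (|s - τ' i| - |t - τ' i|) / w := by ring
    rw [h2, abs_div, abs_of_pos hw]
    refine div_le_div_of_nonneg_right ?_ hw.le
    refine (abs_abs_sub_abs_le_abs_sub _ _).trans (le_of_eq ?_)
    rw [abs_sub_comm t s]
    congr 1
    ring
  have hTz : ∀ i t, w ≤ |t - τ' i| → T i t = 0 := fun i t h =>
    max_eq_right (by
      have := (one_le_div hw).2 h
      linarith)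
  have hLc : Continuous L := by
    rw [hL, hT]
    fun_prop
  have hLm : StrictMono L := by
    intro s t hst
    have h2 : L t - L s = (t - s) + ∑ i, d i * (T i t - T i s) := by
      simp only [hL, mul_sub, Finset.sum_sub_distrib]
      ring
    have h3 : |∑ i, d i * (T i t - T i s)| ≤ (∑ i, |d i|) * (|t - s| / w) := by
      rw [Finset.sum_mul]
      refine (Finset.abs_sum_le_sum_abs _ _).trans (Finset.sum_le_sum fun i _ => ?_)
      rw [abs_mul]
      exact mul_le_mul_of_nonneg_left (hTl i s t) (abs_nonneg _)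
    have h4 : (∑ i, |d i|) * (|t - s| / w) < t - s := by
      rw [abs_of_pos (sub_pos.2 hst), ← mul_div_assoc, div_lt_iff₀ hw, mul_comm]
      exact mul_lt_mul_of_pos_left hd (sub_pos.2 hst)
    have h5 := (abs_le.1 h3).1
    linarith
  have hL0 : L 0 = 0 := by
    simp only [hL, zero_add]
    refine Finset.sum_eq_zero fun i _ => ?_
    rw [hTz i 0 (by rw [zero_sub, abs_neg, abs_of_pos (hw.trans_le (h0 i))]; exact h0 i), mul_zero]
  have hL1 : L 1 = 1 := by
    simp only [hL]
    rw [Finset.sum_eq_zero fun i _ => ?_, add_zero]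
    rw [hTz i 1 (by
      have := h1 i
      rw [abs_of_nonneg (by linarith)]
      linarith), mul_zero]
  have hmem : ∀ t : I, L t ∈ Icc (0 : ℝ) 1 := fun t =>
    ⟨hL0.ge.trans (hLm.monotone t.2.1), (hLm.monotone t.2.2).trans hL1.le⟩
  set l0 : I → I := fun t => ⟨L t, hmem t⟩ with hl0
  have hl0m : StrictMono l0 := fun s t hst => hLm hst
  have hl0s : Function.Surjective l0 := by
    intro y
    have h2 := intermediate_value_Icc (zero_le_one (α := ℝ)) hLc.continuousOn
    rw [hL0, hL1] at h2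
    obtain ⟨t, ht, hty⟩ := h2 y.2
    exact ⟨⟨t, ht⟩, Subtype.ext hty⟩
  refine ⟨hl0m.orderIsoOfSurjective l0 hl0s, fun t i hti => ?_, fun t => ?_⟩
  · show L t = τ' i + d i
    simp only [hL]
    rw [hti, Finset.sum_eq_single i]
    · have : T i (τ' i) = 1 := by
        simp [hT]
      rw [this, mul_one]
    · intro j _ hj
      rw [hTz j _ (hg i j hj.symm), mul_zero]
    · intro h
      exact absurd (Finset.mem_univ i) h
  · show |L t - t| ≤ _
    simp only [hL, add_sub_cancel_left]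
    refine (Finset.abs_sum_le_sum_abs _ _).trans (Finset.sum_le_sum fun i _ => ?_)
    rw [abs_mul, abs_of_nonneg (hT0 i _)]
    exact mul_le_of_le_one_right (abs_nonneg _) (hT1 i _)

theorem continuous_stp : Continuous stp := by
  show @Continuous (Σ n : ℕ, Tn n × (Fin (n + 1) → ℝ) × ℝ) D _ _ stp
  refine continuous_sigma_iff.2 fun n => continuous_iff_continuousAt.2 fun z => ?_
  refine (nhds_basis_uniformity' uniformity_basis).tendsto_right_iff.2 fun ε hε => ?_
  obtain ⟨w, hw, hw0, hw1, hwg⟩ : ∃ w : ℝ, 0 < w ∧ (∀ i, 2 * w ≤ z.1.1 i) ∧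
      (∀ i, z.1.1 i ≤ 1 - 2 * w) ∧ ∀ i j, i ≠ j → 2 * w ≤ |z.1.1 i - z.1.1 j| := by
    have a0 : ∀ᶠ w in 𝓝[>] (0 : ℝ), 0 < w := self_mem_nhdsWithin
    have a1 : ∀ᶠ w in 𝓝[>] (0 : ℝ), ∀ i, 2 * w ≤ z.1.1 i := eventually_all.2 fun i => by
      filter_upwards [Ioo_mem_nhdsGT (half_pos (z.1.2.2 i).1)] with w hw
      linarith [hw.2]
    have a2 : ∀ᶠ w in 𝓝[>] (0 : ℝ), ∀ i, z.1.1 i ≤ 1 - 2 * w := eventually_all.2 fun i => by
      filter_upwards [Ioo_mem_nhdsGT (half_pos (sub_pos.2 (z.1.2.2 i).2))] with w hw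
      linarith [hw.2]
    have a3 : ∀ᶠ w in 𝓝[>] (0 : ℝ), ∀ i j, i ≠ j → 2 * w ≤ |z.1.1 i - z.1.1 j| :=
      eventually_all.2 fun i => eventually_all.2 fun j => by
        by_cases hij : i = j
        · exact Eventually.of_forall fun w h => absurd hij h
        · filter_upwards [Ioo_mem_nhdsGT (half_pos (abs_pos.2 (sub_ne_zero.2
            (z.1.2.1.injective.ne hij))))] with w hw _
          linarith [hw.2]
    obtain ⟨w, h⟩ := (a0.and (a1.and (a2.and a3))).exists
    exact ⟨w, h.1, h.2.1, h.2.2.1, h.2.2.2⟩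
  have hc1 : Continuous fun y : Tn n × (Fin (n + 1) → ℝ) × ℝ => y.1.1 :=
    (continuous_subtype_val (p := fun τ : Fin n → ℝ => StrictMono τ ∧
      ∀ i, τ i ∈ Ioo (0 : ℝ) 1)).comp continuous_fst
  have e1 : ∀ᶠ y : Tn n × (Fin (n + 1) → ℝ) × ℝ in 𝓝 z,
      ∑ i, |z.1.1 i - y.1.1 i| < min (w / 2) ε := by
    have h2 : Continuous fun y : Tn n × (Fin (n + 1) → ℝ) × ℝ => ∑ i, |z.1.1 i - y.1.1 i| :=
      continuous_finsetSum _ fun i _ =>
        (continuous_const.sub ((continuous_apply i).comp hc1)).abs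
    exact h2.continuousAt.eventually_lt continuousAt_const (by simpa using ⟨hw, hε⟩)
  have e2 : ∀ᶠ y : Tn n × (Fin (n + 1) → ℝ) × ℝ in 𝓝 z, ∀ i, |z.2.1 i - y.2.1 i| < ε :=
    eventually_all.2 fun i => by
      have h2 : Continuous fun y : Tn n × (Fin (n + 1) → ℝ) × ℝ => |z.2.1 i - y.2.1 i| :=
        (continuous_const.sub ((continuous_apply i).comp (continuous_fst.comp
          continuous_snd))).abs
      exact h2.continuousAt.eventually_lt continuousAt_const (by simpa using hε)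
  have e3 : ∀ᶠ y : Tn n × (Fin (n + 1) → ℝ) × ℝ in 𝓝 z, |z.2.2 - y.2.2| < ε := by
    have h2 : Continuous fun y : Tn n × (Fin (n + 1) → ℝ) × ℝ => |z.2.2 - y.2.2| :=
      (continuous_const.sub (continuous_snd.comp continuous_snd)).abs
    exact h2.continuousAt.eventually_lt continuousAt_const (by simpa using hε)
  filter_upwards [e1, e2, e3] with y h1 h2 h3
  have hdi : ∀ i, |z.1.1 i - y.1.1 i| < w / 2 := fun i =>
    (Finset.single_le_sum (f := fun i => |z.1.1 i - y.1.1 i|) (fun j _ => abs_nonneg _)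
      (Finset.mem_univ i)).trans_lt (h1.trans_le (min_le_left _ _))
  obtain ⟨l, hl1, hl2⟩ := step_iso (fun i => y.1.1 i) (fun i => z.1.1 i - y.1.1 i) w hw
    (fun i => by
      have a1 := abs_lt.1 (hdi i)
      have a2 := hw0 i
      show w ≤ y.1.1 i
      linarith [a1.2])
    (fun i => by
      have a1 := abs_lt.1 (hdi i)
      have a2 := hw1 i
      show y.1.1 i ≤ 1 - w
      linarith [a1.1])
    (fun i j hij => by
      have a1 := hdi i
      have a2 := hdi j
      have a3 := hwg i j hij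
      have a4 : z.1.1 i - z.1.1 j = (z.1.1 i - y.1.1 i) + (y.1.1 i - y.1.1 j) -
          (z.1.1 j - y.1.1 j) := by ring
      rw [a4] at a3
      have a5 := abs_sub ((z.1.1 i - y.1.1 i) + (y.1.1 i - y.1.1 j)) (z.1.1 j - y.1.1 j)
      have a6 := abs_add_le (z.1.1 i - y.1.1 i) (y.1.1 i - y.1.1 j)
      show w ≤ |y.1.1 i - y.1.1 j|
      linarith)
    (h1.trans_le ((min_le_left _ _).trans (by linarith)))
  refine ⟨l, fun t => ⟨(hl2 t).trans_lt (h1.trans_le (min_le_right _ _)), ?_⟩⟩
  show |stepFn ⟨n, z⟩ (l t) - stepFn ⟨n, y⟩ t| < ε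
  rcases eq_or_ne t 1 with rfl | ht
  · have h4 : l 1 = 1 := l.map_top
    rw [h4, stepFn_one, stepFn_one]
    exact h3
  · have h4 : l t ≠ 1 := fun h => ht (l.injective (h.trans (l.map_top : l 1 = 1).symm))
    rw [stepFn_of_ne h4, stepFn_of_ne ht]
    have hcard : (Finset.univ.filter fun i => z.1.1 i ≤ ((l t : I) : ℝ)).card =
        (Finset.univ.filter fun i => y.1.1 i ≤ (t : ℝ)).card := by
      refine congrArg Finset.card (Finset.filter_congr fun i _ => ?_)
      have hi := y.1.2.2 i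
      set s : I := ⟨y.1.1 i, hi.1.le, hi.2.le⟩ with hs
      have a1 : ((l s : I) : ℝ) = z.1.1 i := by
        rw [hl1 s i rfl]
        ring
      rw [← a1]
      show l s ≤ l t ↔ s ≤ t
      exact l.le_iff_le
    have hfin : (⟨(Finset.univ.filter fun i => z.1.1 i ≤ ((l t : I) : ℝ)).card,
        Nat.lt_succ_of_le ((Finset.card_filter_le _ _).trans_eq (by
        rw [Finset.card_univ, Fintype.card_fin]))⟩ : Fin (n + 1)) =
        ⟨(Finset.univ.filter fun i => y.1.1 i ≤ (t : ℝ)).card,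
        Nat.lt_succ_of_le ((Finset.card_filter_le _ _).trans_eq (by
        rw [Finset.card_univ, Fintype.card_fin]))⟩ := Fin.ext hcard
    have h5 := h2 ⟨(Finset.univ.filter fun i => y.1.1 i ≤ (t : ℝ)).card,
        Nat.lt_succ_of_le ((Finset.card_filter_le _ _).trans_eq (by
        rw [Finset.card_univ, Fintype.card_fin]))⟩
    show |z.2.1 ⟨(Finset.univ.filter fun i => z.1.1 i ≤ ((l t : I) : ℝ)).card, _⟩ - _| < ε
    rw [hfin]
    exact h5

end LimCurt
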