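import Pool.Agent.Lib.MP_b499b5_pr.Rows23

/-!
# Row SUP: the maximal inequality for the chain
-/

set_option autoImplicit false

namespace LimCurt

open MeasureTheory Filter Topology Set

namespace Sup11

theorem integrable_coord {Q : ℕ} {m : ℕ → ProbabilityMeasure ℝ} {Pr : Measure (ℕ → ℝ)}
    (h : MChain Q m Pr) (hi : ∀ k, Integrable (fun z : ℝ => z) (m k : Measure ℝ)) (j : ℕ) :
    Integrable (fun ω : ℕ → ℝ => ω j) Pr := by
  have h1 := hi j
  rw [← h.marg j] at h1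
  exact (integrable_map_measure h1.aestronglyMeasurable
    (measurable_pi_apply j).aemeasurable).1 h1

/-- The increment has mean zero on every atom of the present state. -/
theorem single {Q : ℕ} {m : ℕ → ProbabilityMeasure ℝ} {Pr : Measure (ℕ → ℝ)}
    (h : MChain Q m Pr) (hi : ∀ k, Integrable (fun z : ℝ => z) (m k : Measure ℝ)) (k : ℕ)
    (y : ℝ) : ∫ ω in {ω : ℕ → ℝ | ω k = y}, (ω (k + 1) - ω k) ∂Pr = 0 := by
  have hmeas : ∀ j : ℕ, Measurable fun ω : ℕ → ℝ => ω j := fun j => measurable_pi_apply j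
  set U : (ℕ → ℝ) → ℝ := fun ω => ω (k + 1) - ω k with hU
  have hUi : Integrable U Pr := (integrable_coord h hi (k + 1)).sub (integrable_coord h hi k)
  have hle : ∀ a : ℝ, MeasurableSet {ω : ℕ → ℝ | ω k ≤ a} := fun a =>
    measurableSet_le (hmeas k) measurable_const
  have hlt : MeasurableSet {ω : ℕ → ℝ | ω k < y} := measurableSet_lt (hmeas k) measurable_const
  have h1 := tendsto_setIntegral_of_monotone (μ := Pr) (f := U)
    (s := fun n : ℕ => {ω : ℕ → ℝ | ω k ≤ y - 1 / ((n : ℝ) + 1)}) (fun n => hle _)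
    (fun a b hab ω hω => by
      have e1 : ω k ≤ y - 1 / ((a : ℝ) + 1) := hω
      have e2 : (1 : ℝ) / ((b : ℝ) + 1) ≤ 1 / ((a : ℝ) + 1) :=
        one_div_le_one_div_of_le (by positivity)
          (by have : (a : ℝ) ≤ b := Nat.cast_le.2 hab
              linarith)
      change ω k ≤ y - 1 / ((b : ℝ) + 1)
      linarith) hUi.integrableOn
  have h2 : (⋃ n : ℕ, {ω : ℕ → ℝ | ω k ≤ y - 1 / ((n : ℝ) + 1)}) = {ω : ℕ → ℝ | ω k < y} := by
    ext ω
    rw [mem_iUnion]
    constructor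
    · rintro ⟨n, hn⟩
      have e1 : ω k ≤ y - 1 / ((n : ℝ) + 1) := hn
      have e2 : (0 : ℝ) < 1 / ((n : ℝ) + 1) := by positivity
      change ω k < y
      linarith
    · intro hω
      have e1 : ω k < y := hω
      obtain ⟨n, hn⟩ := exists_nat_one_div_lt (sub_pos.2 e1)
      refine ⟨n, ?_⟩
      change ω k ≤ y - 1 / ((n : ℝ) + 1)
      linarith
  rw [h2] at h1
  have h3 : (fun n : ℕ => ∫ ω in {ω : ℕ → ℝ | ω k ≤ y - 1 / ((n : ℝ) + 1)}, U ω ∂Pr) =
      fun _ => 0 := funext fun n => h.mart k _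
  rw [h3] at h1
  have h4 : ∫ ω in {ω : ℕ → ℝ | ω k < y}, U ω ∂Pr = 0 :=
    tendsto_nhds_unique h1 tendsto_const_nhds
  have h5 : {ω : ℕ → ℝ | ω k ≤ y} = {ω : ℕ → ℝ | ω k < y} ∪ {ω : ℕ → ℝ | ω k = y} := by
    ext ω
    exact (le_iff_lt_or_eq : ω k ≤ y ↔ ω k < y ∨ ω k = y)
  have h6 : Disjoint {ω : ℕ → ℝ | ω k < y} {ω : ℕ → ℝ | ω k = y} := by
    rw [Set.disjoint_left]
    intro ω e1 e2
    exact (ne_of_lt e1) e2
  have h7 := h.mart k y
  rw [h5, setIntegral_union h6 (hmeas k (measurableSet_singleton y)) hUi.integrableOn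
    hUi.integrableOn] at h7
  have h8 : ∫ ω in {ω : ℕ → ℝ | ω k < y}, (ω (k + 1) - ω k) ∂Pr = 0 := h4
  rw [h8, zero_add] at h7
  exact h7

/-- The increment has mean zero on every past event with the present state in one atom. -/
theorem cond_single {Q : ℕ} {m : ℕ → ProbabilityMeasure ℝ} {Pr : Measure (ℕ → ℝ)}
    (h : MChain Q m Pr) (hi : ∀ k, Integrable (fun z : ℝ => z) (m k : Measure ℝ)) (k : ℕ)
    (y : ℝ) (A : Set (Fin (k + 1) → ℝ)) (hA : MeasurableSet A) :
    ∫ ω in {ω : ℕ → ℝ | (fun j : Fin (k + 1) => ω j) ∈ A ∧ ω k = y}, (ω (k + 1) - ω k) ∂Pr = 0 := by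
  have : IsProbabilityMeasure Pr := h.prob
  have hmeas : ∀ j : ℕ, Measurable fun ω : ℕ → ℝ => ω j := fun j => measurable_pi_apply j
  have hpast : Measurable fun (ω : ℕ → ℝ) (j : Fin (k + 1)) => ω j :=
    measurable_pi_lambda _ fun j => hmeas j
  set G : Set (ℕ → ℝ) := {ω | (fun j : Fin (k + 1) => ω j) ∈ A ∧ ω k = y} with hG
  set H : Set (ℕ → ℝ) := {ω | ω k = y} with hH
  have hHm : MeasurableSet H := hmeas k (measurableSet_singleton y)
  have hGm : MeasurableSet G := (hpast hA).inter hHm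
  rcases eq_or_ne (Pr H) 0 with h0 | h0
  · have h1 : Pr G = 0 := measure_mono_null (fun ω hω => hω.2) h0
    rw [Measure.restrict_eq_zero.2 h1, integral_zero_measure]
  · have hid : (Pr.restrict G).map (fun ω => ω (k + 1)) =
        (Pr G / Pr H) • (Pr.restrict H).map (fun ω => ω (k + 1)) := by
      ext B hB
      rw [Measure.map_apply (hmeas _) hB, Measure.restrict_apply (hmeas _ hB), Measure.smul_apply,
        Measure.map_apply (hmeas _) hB, Measure.restrict_apply (hmeas _ hB), smul_eq_mul]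
      have e1 := h.markov k A hA B hB y
      have e2 : (fun ω : ℕ → ℝ => ω (k + 1)) ⁻¹' B ∩ G =
          {ω | (fun j : Fin (k + 1) => ω j) ∈ A ∧ ω k = y ∧ ω (k + 1) ∈ B} := by
        ext ω
        constructor
        · rintro ⟨a, b, c⟩
          exact ⟨b, c, a⟩
        · rintro ⟨a, b, c⟩
          exact ⟨c, a, b⟩
      have e3 : (fun ω : ℕ → ℝ => ω (k + 1)) ⁻¹' B ∩ H = {ω | ω k = y ∧ ω (k + 1) ∈ B} := by
        ext ω
        constructor
        · rintro ⟨a, b⟩
          exact ⟨b, a⟩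
        · rintro ⟨a, b⟩
          exact ⟨b, a⟩
      rw [e2, e3, ENNReal.div_eq_inv_mul, mul_assoc, ← e1, mul_comm _ (Pr {ω | ω k = y}),
        ← mul_assoc, ENNReal.inv_mul_cancel h0 (measure_ne_top _ _), one_mul]
    have hint : ∀ E : Set (ℕ → ℝ), MeasurableSet E → (∀ ω ∈ E, ω k = y) →
        ∫ ω in E, (ω (k + 1) - ω k) ∂Pr =
          ∫ z, (z - y) ∂((Pr.restrict E).map fun ω => ω (k + 1)) := by
      intro E hE hEy
      have e0 : ∫ z, (z - y) ∂((Pr.restrict E).map fun ω => ω (k + 1)) =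
          ∫ ω in E, (ω (k + 1) - y) ∂Pr :=
        integral_map (hmeas _).aemeasurable
          (continuous_id.sub continuous_const).aestronglyMeasurable
      rw [e0]
      refine setIntegral_congr_fun hE fun ω hω => ?_
      simp only [hEy ω hω]
    have e1 := single h hi k y
    rw [hint H hHm fun ω hω => hω] at e1
    rw [hint G hGm fun ω hω => hω.2, hid, integral_smul_measure, e1, smul_zero]

/-- The increment has mean zero on every past event. -/
theorem cond_mart {Q : ℕ} {m : ℕ → ProbabilityMeasure ℝ} {Pr : Measure (ℕ → ℝ)}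
    (h : MChain Q m Pr) (hi : ∀ k, Integrable (fun z : ℝ => z) (m k : Measure ℝ)) (S : Set ℝ)
    (hSc : S.Countable) (hS : ∀ k, (m k : Measure ℝ) Sᶜ = 0) (k : ℕ)
    (A : Set (Fin (k + 1) → ℝ)) (hA : MeasurableSet A) :
    ∫ ω in {ω : ℕ → ℝ | (fun j : Fin (k + 1) => ω j) ∈ A}, (ω (k + 1) - ω k) ∂Pr = 0 := by
  have : IsProbabilityMeasure Pr := h.prob
  have hmeas : ∀ j : ℕ, Measurable fun ω : ℕ → ℝ => ω j := fun j => measurable_pi_apply j
  have hpast : Measurable fun (ω : ℕ → ℝ) (j : Fin (k + 1)) => ω j :=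
    measurable_pi_lambda _ fun j => hmeas j
  have hUi : Integrable (fun ω : ℕ → ℝ => ω (k + 1) - ω k) Pr :=
    (integrable_coord h hi (k + 1)).sub (integrable_coord h hi k)
  have hSae : ∀ᵐ ω ∂Pr, ω k ∈ S := by
    have h1 : ∀ᵐ z ∂(Pr.map fun ω => ω k), z ∈ S := by
      rw [h.marg k, ae_iff]
      exact hS k
    exact ae_of_ae_map (hmeas k).aemeasurable h1
  have : Countable S := hSc.to_subtype
  have h1 : ({ω : ℕ → ℝ | (fun j : Fin (k + 1) => ω j) ∈ A} : Set (ℕ → ℝ)) =ᵐ[Pr]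
      ⋃ y : S, {ω : ℕ → ℝ | (fun j : Fin (k + 1) => ω j) ∈ A ∧ ω k = y} := by
    filter_upwards [hSae] with ω hω
    refine propext ⟨fun h2 => ?_, fun h2 => ?_⟩
    · exact mem_iUnion.2 ⟨⟨ω k, hω⟩, h2, rfl⟩
    · obtain ⟨y, hy⟩ := mem_iUnion.1 h2
      exact hy.1
  have hm : ∀ y : S, MeasurableSet {ω : ℕ → ℝ | (fun j : Fin (k + 1) => ω j) ∈ A ∧ ω k = y} :=
    fun y => (hpast hA).inter (hmeas k (measurableSet_singleton (y : ℝ)))
  rw [setIntegral_congr_set h1, integral_iUnion hm ?_ hUi.integrableOn]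
  · have h2 : ∀ y : S, ∫ ω in {ω : ℕ → ℝ | (fun j : Fin (k + 1) => ω j) ∈ A ∧ ω k = y},
        (ω (k + 1) - ω k) ∂Pr = 0 := fun y => cond_single h hi k y A hA
    simp only [h2, tsum_zero]
  · intro y y' hyy
    rw [Function.onFun, Set.disjoint_left]
    intro ω e1 e2
    exact hyy (Subtype.ext (e1.2.symm.trans e2.2))

/-- On a past event the mean of the modulus grows. -/
theorem abs_step {Q : ℕ} {m : ℕ → ProbabilityMeasure ℝ} {Pr : Measure (ℕ → ℝ)}
    (h : MChain Q m Pr) (hi : ∀ k, Integrable (fun z : ℝ => z) (m k : Measure ℝ)) (S : Set ℝ)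
    (hSc : S.Countable) (hS : ∀ k, (m k : Measure ℝ) Sᶜ = 0) (k : ℕ)
    (A : Set (Fin (k + 1) → ℝ)) (hA : MeasurableSet A) :
    ∫ ω in {ω : ℕ → ℝ | (fun j : Fin (k + 1) => ω j) ∈ A}, |ω k| ∂Pr ≤
      ∫ ω in {ω : ℕ → ℝ | (fun j : Fin (k + 1) => ω j) ∈ A}, |ω (k + 1)| ∂Pr := by
  have : IsProbabilityMeasure Pr := h.prob
  have hmeas : ∀ j : ℕ, Measurable fun ω : ℕ → ℝ => ω j := fun j => measurable_pi_apply j
  have hpast : Measurable fun (ω : ℕ → ℝ) (j : Fin (k + 1)) => ω j :=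
    measurable_pi_lambda _ fun j => hmeas j
  set G : Set (ℕ → ℝ) := {ω | (fun j : Fin (k + 1) => ω j) ∈ A} with hG
  have hGm : MeasurableSet G := hpast hA
  have hi0 : Integrable (fun ω : ℕ → ℝ => |ω k|) Pr := (integrable_coord h hi k).abs
  have hi1 : Integrable (fun ω : ℕ → ℝ => |ω (k + 1)|) Pr := (integrable_coord h hi (k + 1)).abs
  have hUi : Integrable (fun ω : ℕ → ℝ => ω (k + 1) - ω k) Pr :=
    (integrable_coord h hi (k + 1)).sub (integrable_coord h hi k)
  set P : Set (ℕ → ℝ) := {ω | 0 ≤ ω k} with hP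
  have hPm : MeasurableSet P := measurableSet_le measurable_const (hmeas k)
  -- the two halves
  have hlastm : Measurable fun v : Fin (k + 1) → ℝ => v (Fin.last k) := measurable_pi_apply _
  have e1 : ∫ ω in G ∩ P, (ω (k + 1) - ω k) ∂Pr = 0 :=
    cond_mart h hi S hSc hS k (A ∩ {v | 0 ≤ v (Fin.last k)})
      (hA.inter (measurableSet_le measurable_const hlastm))
  have e2 : ∫ ω in G ∩ Pᶜ, (ω (k + 1) - ω k) ∂Pr = 0 :=
    cond_mart h hi S hSc hS k (A ∩ {v | 0 ≤ v (Fin.last k)}ᶜ)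
      (hA.inter (measurableSet_le measurable_const hlastm).compl)
  have e3 : ∫ ω in G ∩ P, |ω k| ∂Pr ≤ ∫ ω in G ∩ P, |ω (k + 1)| ∂Pr := by
    have e4 : ∫ ω in G ∩ P, (|ω k| + (ω (k + 1) - ω k)) ∂Pr ≤ ∫ ω in G ∩ P, |ω (k + 1)| ∂Pr := by
      refine setIntegral_mono_on (hi0.integrableOn.add hUi.integrableOn) hi1.integrableOn
        (hGm.inter hPm) fun ω hω => ?_
      have e5 : 0 ≤ ω k := hω.2
      have e6 := le_abs_self (ω (k + 1))
      rw [abs_of_nonneg e5]
      linarith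
    rw [integral_add hi0.integrableOn hUi.integrableOn, e1, add_zero] at e4
    exact e4
  have e4 : ∫ ω in G ∩ Pᶜ, |ω k| ∂Pr ≤ ∫ ω in G ∩ Pᶜ, |ω (k + 1)| ∂Pr := by
    have e4 : ∫ ω in G ∩ Pᶜ, (|ω k| - (ω (k + 1) - ω k)) ∂Pr ≤
        ∫ ω in G ∩ Pᶜ, |ω (k + 1)| ∂Pr := by
      refine setIntegral_mono_on (hi0.integrableOn.sub hUi.integrableOn) hi1.integrableOn
        (hGm.inter hPm.compl) fun ω hω => ?_
      have e5 : ω k < 0 := not_le.1 hω.2
      have e6 := neg_abs_le (ω (k + 1))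
      rw [abs_of_neg e5]
      linarith
    rw [integral_sub hi0.integrableOn hUi.integrableOn, e2, sub_zero] at e4
    exact e4
  rw [← integral_inter_add_sdiff hPm hi0.integrableOn, ← integral_inter_add_sdiff hPm
    hi1.integrableOn]
  exact add_le_add e3 e4

/-- On a past event the mean of the modulus grows, several steps. -/
theorem abs_steps {Q : ℕ} {m : ℕ → ProbabilityMeasure ℝ} {Pr : Measure (ℕ → ℝ)}
    (h : MChain Q m Pr) (hi : ∀ k, Integrable (fun z : ℝ => z) (m k : Measure ℝ)) (S : Set ℝ)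
    (hSc : S.Countable) (hS : ∀ k, (m k : Measure ℝ) Sᶜ = 0) (k : ℕ)
    (A : Set (Fin (k + 1) → ℝ)) (hA : MeasurableSet A) (l : ℕ) :
    ∫ ω in {ω : ℕ → ℝ | (fun j : Fin (k + 1) => ω j) ∈ A}, |ω k| ∂Pr ≤
      ∫ ω in {ω : ℕ → ℝ | (fun j : Fin (k + 1) => ω j) ∈ A}, |ω (k + l)| ∂Pr := by
  induction l with
  | zero => exact le_rfl
  | succ l ih =>
    refine ih.trans ?_
    have h1 : Measurable fun (v : Fin (k + l + 1) → ℝ) (j : Fin (k + 1)) =>
        v ⟨j, by have := j.2; omega⟩ := measurable_pi_lambda _ fun j => measurable_pi_apply _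
    exact abs_step h hi S hSc hS (k + l)
      {v | (fun j : Fin (k + 1) => v ⟨j, by have := j.2; omega⟩) ∈ A} (h1 hA)

end Sup11

open Sup11 in
/-- **Row SUP** (Doob). -/
theorem supb {Q : ℕ} {m : ℕ → ProbabilityMeasure ℝ} {Pr : Measure (ℕ → ℝ)} (h : MChain Q m Pr)
    (hi : ∀ k, Integrable (fun z : ℝ => z) (m k : Measure ℝ)) (S : Set ℝ) (hSc : S.Countable)
    (hS : ∀ k, (m k : Measure ℝ) Sᶜ = 0) (r : ℝ) (hr : 0 < r) :
    r * Pr.real {ω | ∃ k ≤ Q, r < |ω k|} ≤ pot (m Q) 0 := by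
  have : IsProbabilityMeasure Pr := h.prob
  have hmeas : ∀ j : ℕ, Measurable fun ω : ℕ → ℝ => ω j := fun j => measurable_pi_apply j
  have hia : ∀ j : ℕ, Integrable (fun ω : ℕ → ℝ => |ω j|) Pr := fun j =>
    (integrable_coord h hi j).abs
  -- the first passages
  set A : ∀ k : ℕ, Set (Fin (k + 1) → ℝ) := fun k =>
    {v | (∀ j : Fin (k + 1), (j : ℕ) < k → |v j| ≤ r) ∧ r < |v (Fin.last k)|} with hAd
  have hA : ∀ k, MeasurableSet (A k) := by
    intro k
    have h1 : A k = (⋂ j : Fin (k + 1), {v | (j : ℕ) < k → |v j| ≤ r}) ∩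
        {v | r < |v (Fin.last k)|} := by
      ext v
      simp only [hAd, mem_ofPred_eq, mem_inter_iff, mem_iInter]
    rw [h1]
    refine (MeasurableSet.iInter fun j => ?_).inter
      (measurableSet_lt measurable_const (measurable_pi_apply _).abs)
    by_cases hj : (j : ℕ) < k
    · simp only [hj, forall_const]
      exact measurableSet_le (measurable_pi_apply _).abs measurable_const
    · simp only [hj, false_imp_iff, ofPred_true, MeasurableSet.univ]
  set F : ℕ → Set (ℕ → ℝ) := fun k => {ω | (fun j : Fin (k + 1) => ω j) ∈ A k} with hFd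
  have hF : ∀ k, MeasurableSet (F k) := fun k =>
    (measurable_pi_lambda _ fun j => hmeas _ :
      Measurable fun (ω : ℕ → ℝ) (j : Fin (k + 1)) => ω j) (hA k)
  have hFr : ∀ k, ∀ ω ∈ F k, r < |ω k| := fun k ω hω => hω.2
  have hFb : ∀ k, ∀ ω ∈ F k, ∀ j < k, |ω j| ≤ r := fun k ω hω j hj =>
    hω.1 ⟨j, by omega⟩ hj
  have hdisj : Pairwise (Function.onFun Disjoint F) := by
    intro k l hkl
    rw [Function.onFun, Set.disjoint_left]
    intro ω h1 h2
    rcases lt_or_gt_of_ne hkl with h3 | h3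
    · exact absurd (hFr k ω h1) (not_lt.2 (hFb l ω h2 k h3))
    · exact absurd (hFr l ω h2) (not_lt.2 (hFb k ω h1 l h3))
  have hun : {ω : ℕ → ℝ | ∃ k ≤ Q, r < |ω k|} = ⋃ k ∈ Finset.range (Q + 1), F k := by
    ext ω
    simp only [mem_ofPred_eq, mem_iUnion, Finset.mem_range, exists_prop]
    constructor
    · rintro ⟨k, hk, hkr⟩
      classical
      have hex : ∃ k, r < |ω k| := ⟨k, hkr⟩
      have h1 := Nat.find_spec hex
      have h2 : Nat.find hex ≤ k := Nat.find_min' hex hkr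
      refine ⟨Nat.find hex, by omega, fun j hj => ?_, h1⟩
      exact not_lt.1 (Nat.find_min hex hj)
    · rintro ⟨k, hk, hω⟩
      exact ⟨k, by omega, hFr k ω hω⟩
  have hsum : Pr.real {ω | ∃ k ≤ Q, r < |ω k|} = ∑ k ∈ Finset.range (Q + 1), Pr.real (F k) := by
    rw [hun]
    exact measureReal_biUnion_finset (fun k _ l _ hkl => hdisj hkl) fun k _ => hF k
  have hone : ∀ k ∈ Finset.range (Q + 1), r * Pr.real (F k) ≤ ∫ ω in F k, |ω Q| ∂Pr := by
    intro k hk
    have hk' : k ≤ Q := by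
      have := Finset.mem_range.1 hk
      omega
    obtain ⟨l, rfl⟩ := Nat.exists_eq_add_of_le hk'
    refine le_trans ?_ (abs_steps h hi S hSc hS k (A k) (hA k) l)
    have h1 : ∫ ω in F k, r ∂Pr ≤ ∫ ω in F k, |ω k| ∂Pr :=
      setIntegral_mono_on (integrable_const r).integrableOn (hia k).integrableOn (hF k)
        fun ω hω => (hFr k ω hω).le
    rw [setIntegral_const, smul_eq_mul, mul_comm] at h1
    exact h1
  have hpot : pot (m Q) 0 = ∫ ω, |ω Q| ∂Pr := by
    unfold pot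
    rw [← h.marg Q, integral_map (hmeas Q).aemeasurable]
    · simp only [sub_zero]
    · exact (continuous_abs.comp (continuous_id.sub continuous_const)).aestronglyMeasurable
  rw [hsum, Finset.mul_sum, hpot]
  calc ∑ k ∈ Finset.range (Q + 1), r * Pr.real (F k)
      ≤ ∑ k ∈ Finset.range (Q + 1), ∫ ω in F k, |ω Q| ∂Pr := Finset.sum_le_sum hone
    _ = ∫ ω in ⋃ k ∈ Finset.range (Q + 1), F k, |ω Q| ∂Pr := by
        rw [integral_biUnion_finset _ (fun k _ => hF k) (fun k _ l _ hkl => hdisj hkl)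
          fun k _ => (hia Q).integrableOn]
    _ ≤ ∫ ω, |ω Q| ∂Pr :=
        setIntegral_le_integral (hia Q) (Eventually.of_forall fun ω => abs_nonneg _)

end LimCurt
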