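import Pool.Agent.Lib.MP_b499b5_pr.Marg23
import Pool.Agent.Lib.MP_b499b5_pr.Step38
import Pool.Agent.Lib.MP_b499b5_pr.Ext46
import Pool.Agent.Lib.MP_b499b5_pr.Fd14
import Pool.Agent.Lib.MP_b499b5_pr.EstB67
import Pool.Agent.Lib.MP_b499b5_pr.Sup11

/-!
# Compactness of the discretised curtain laws on a closed discrete set
-/

set_option autoImplicit false

namespace LimCurt

open MeasureTheory Filter Topology Set

namespace Fin23

theorem compactness (S : Set ℝ) (hSf : ∀ r : ℝ, (S ∩ Icc (-r) r).Finite)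
    (μ : I → ProbabilityMeasure ℝ) (hμ : Peacock μ) (hμS : ∀ s, (μ s : Measure ℝ) Sᶜ = 0)
    (Q : ℕ → ℕ) (t : ℕ → ℕ → I) (ht : ∀ p, IsPart (Q p) (t p))
    (mesh : ∀ δ : ℝ, 0 < δ → ∀ᶠ p in atTop, ∀ k < Q p, (t p (k + 1) : ℝ) - t p k ≤ δ)
    (P : ℕ → ProbabilityMeasure D) (hP : ∀ p, IsDisc μ (Q p) (t p) (P p : Measure D)) :
    ∃ φ : ℕ → ℕ, StrictMono φ ∧ ∃ P' : ProbabilityMeasure D,
      Tendsto (fun p => P (φ p)) atTop (𝓝 P') :=
  Marg23.main stepFn_cadlag continuous_stp (fun n _ hδ r => isCompact_KK n hδ r)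
    (extract_gen stp continuous_stp) fdlaw
    (fun S hSf μ hμ hμS ε hε => estSup (fun h hi S hSc hS r hr => supb h hi S hSc hS r hr)
      S hSf μ hμ hμS ε hε) S hSf μ hμ hμS Q t ht mesh P hP

end Fin23

end LimCurt
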