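import Pool.Agent.Lib.MP_b499b5_pr.RowsE23

/-!
# The largest discretely convex minorant
-/

set_option autoImplicit false

namespace LimCurt

open MeasureTheory Filter Topology Set

theorem kink_eq {s : ℤ → ℝ} (hs : StrictMono s) (h : ℤ → ℝ) (i : ℤ) :
    kink s h i * ((s (i + 1) - s i) * (s i - s (i - 1))) =
      h (i + 1) * (s i - s (i - 1)) + h (i - 1) * (s (i + 1) - s i) -
        h i * (s (i + 1) - s (i - 1)) := by
  have h1 : s (i + 1) - s i ≠ 0 := (sub_pos.2 (hs (by omega))).ne'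
  have h2 : s i - s (i - 1) ≠ 0 := (sub_pos.2 (hs (by omega))).ne'
  unfold kink
  field_simp
  ring

theorem kink_nonneg_iff {s : ℤ → ℝ} (hs : StrictMono s) (h : ℤ → ℝ) (i : ℤ) :
    0 ≤ kink s h i ↔ h i * (s (i + 1) - s (i - 1)) ≤
      h (i + 1) * (s i - s (i - 1)) + h (i - 1) * (s (i + 1) - s i) := by
  have h1 : 0 < s (i + 1) - s i := sub_pos.2 (hs (by omega))
  have h2 : 0 < s i - s (i - 1) := sub_pos.2 (hs (by omega))
  rw [← sub_nonneg (b := h i * (s (i + 1) - s (i - 1))), ← kink_eq hs h i]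
  exact ⟨fun h => mul_nonneg h (mul_pos h1 h2).le, fun h => by
    by_contra hc
    exact absurd h (not_le.2 (mul_neg_of_neg_of_pos (not_le.1 hc) (mul_pos h1 h2)))⟩

theorem hull {s : ℤ → ℝ} (hs : StrictMono s) (f g : ℤ → ℝ) (hg : DConv s g)
    (hgf : ∀ i, g i ≤ f i) : ∃ h : ℤ → ℝ, DConv s h ∧ (∀ i, g i ≤ h i) ∧ (∀ i, h i ≤ f i) ∧
      (∀ i, kink s h i = 0 ∨ h i = f i) ∧
      ∀ h' : ℤ → ℝ, DConv s h' → (∀ i, h' i ≤ f i) → ∀ i, h' i ≤ h i := by
  let C : Set (ℤ → ℝ) := {h' | DConv s h' ∧ ∀ i, h' i ≤ f i}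
  let h : ℤ → ℝ := fun i => sSup ((fun h' : ℤ → ℝ => h' i) '' C)
  have hgC : g ∈ C := ⟨hg, hgf⟩
  have hbdd : ∀ i, BddAbove ((fun h' : ℤ → ℝ => h' i) '' C) := fun i =>
    ⟨f i, by rintro _ ⟨h', hh', rfl⟩; exact hh'.2 i⟩
  have hne : ∀ i, ((fun h' : ℤ → ℝ => h' i) '' C).Nonempty := fun i => ⟨_, g, hgC, rfl⟩
  have hmax : ∀ h' ∈ C, ∀ i, h' i ≤ h i := fun h' hh' i => le_csSup (hbdd i) ⟨h', hh', rfl⟩
  have hle : ∀ i, h i ≤ f i := fun i => csSup_le (hne i) (by
    rintro _ ⟨h', hh', rfl⟩; exact hh'.2 i)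
  have ha : ∀ i, 0 < s i - s (i - 1) := fun i => sub_pos.2 (hs (by omega))
  have hb : ∀ i, 0 < s (i + 1) - s i := fun i => sub_pos.2 (hs (by omega))
  have hD : ∀ i, 0 < s (i + 1) - s (i - 1) := fun i => sub_pos.2 (hs (by omega))
  have hconv : DConv s h := by
    intro i
    rw [kink_nonneg_iff hs]
    rw [← le_div_iff₀ (hD i)]
    refine csSup_le (hne i) ?_
    rintro _ ⟨h', hh', rfl⟩
    rw [le_div_iff₀ (hD i)]
    refine ((kink_nonneg_iff hs h' i).1 (hh'.1 i)).trans ?_
    exact add_le_add (mul_le_mul_of_nonneg_right (hmax h' hh' _) (ha i).le)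
      (mul_le_mul_of_nonneg_right (hmax h' hh' _) (hb i).le)
  refine ⟨h, hconv, hmax g hgC, hle, fun i => ?_, fun h' h1 h2 => hmax h' ⟨h1, h2⟩⟩
  by_contra hcon
  rw [not_or] at hcon
  obtain ⟨h1, h2⟩ := hcon
  have h1' : 0 < kink s h i := lt_of_le_of_ne (hconv i) (Ne.symm h1)
  have h2' : h i < f i := lt_of_le_of_ne (hle i) h2
  -- the raised value
  let w : ℝ := (h (i + 1) * (s i - s (i - 1)) + h (i - 1) * (s (i + 1) - s i)) /
    (s (i + 1) - s (i - 1))
  have hw : h i < w := by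
    rw [lt_div_iff₀ (hD i), ← sub_pos, ← kink_eq hs h i]
    exact mul_pos h1' (mul_pos (hb i) (ha i))
  let v : ℝ := min (f i) w
  have hv : h i < v := lt_min h2' hw
  let h'' : ℤ → ℝ := Function.update h i v
  have hge : ∀ j, h j ≤ h'' j := by
    intro j
    rcases eq_or_ne j i with rfl | hj
    · simp only [h'', Function.update_self]; exact hv.le
    · simp only [h'', Function.update_of_ne hj]; exact le_rfl
  have hC : h'' ∈ C := by
    constructor
    · intro j
      rw [kink_nonneg_iff hs]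
      rcases eq_or_ne j i with rfl | hj
      · simp only [h'', Function.update_self]
        rw [Function.update_of_ne (by omega : j + 1 ≠ j), Function.update_of_ne
          (by omega : j - 1 ≠ j), ← le_div_iff₀ (hD j)]
        exact min_le_right _ _
      · have h3 : h'' j = h j := by simp only [h'', Function.update_of_ne hj]
        rw [h3]
        refine ((kink_nonneg_iff hs h j).1 (hconv j)).trans ?_
        exact add_le_add (mul_le_mul_of_nonneg_right (hge _) (ha j).le)
          (mul_le_mul_of_nonneg_right (hge _) (hb j).le)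
    · intro j
      rcases eq_or_ne j i with rfl | hj
      · simp only [h'', Function.update_self]; exact min_le_left _ _
      · simp only [h'', Function.update_of_ne hj]; exact hle j
  have h4 := hmax h'' hC i
  simp only [h'', Function.update_self] at h4
  exact absurd h4 (not_le.2 hv)

end LimCurt
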