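import Pool.Agent.Lib.MP_b499b5_pr.RowsE23

/-!
# Row POT: potentials of measures on a closed discrete set
-/

set_option autoImplicit false

namespace LimCurt

open MeasureTheory Filter Topology Set

namespace Pot63

theorem int_abs {s : ℤ → ℝ} {η : Measure ℝ} (hη : Nice s η) (y : ℝ) :
    Integrable (fun z : ℝ => |z - y|) η := by
  have := hη.fin
  exact (hη.int.sub (integrable_const y)).abs

theorem kink_sub (s f g : ℤ → ℝ) (i : ℤ) :
    kink s (fun j => f j - g j) i = kink s f i - kink s g i := by
  unfold kink; ring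

theorem kink_abs {s : ℤ → ℝ} (hs : StrictMono s) (i k : ℤ) :
    kink s (fun j => |s k - s j|) i = if k = i then 2 else 0 := by
  have h1 : 0 < s (i + 1) - s i := sub_pos.2 (hs (by omega))
  have h2 : 0 < s i - s (i - 1) := sub_pos.2 (hs (by omega))
  have g1 : s (i + 1) - s i ≠ 0 := h1.ne'
  have g2 : s i - s (i - 1) ≠ 0 := h2.ne'
  unfold kink
  rcases lt_trichotomy k i with h | h | h
  · have h3 : s k ≤ s (i - 1) := hs.monotone (by omega)
    have e1 : |s k - s (i + 1)| = s (i + 1) - s k := by
      rw [abs_of_nonpos (by linarith)]; ring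
    have e2 : |s k - s i| = s i - s k := by
      rw [abs_of_nonpos (by linarith)]; ring
    have e3 : |s k - s (i - 1)| = s (i - 1) - s k := by
      rw [abs_of_nonpos (by linarith)]; ring
    rw [if_neg h.ne]
    simp only [e1, e2, e3]
    rw [show s (i + 1) - s k - (s i - s k) = s (i + 1) - s i by ring,
      show s i - s k - (s (i - 1) - s k) = s i - s (i - 1) by ring, div_self g1, div_self g2]
    ring
  · subst h
    have e1 : |s k - s (k + 1)| = s (k + 1) - s k := by
      rw [abs_of_nonpos (by linarith)]; ring
    have e3 : |s k - s (k - 1)| = s k - s (k - 1) := by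
      rw [abs_of_nonneg (by linarith)]
    rw [if_pos rfl]
    simp only [e1, e3, sub_self, abs_zero, sub_zero, zero_sub]
    rw [div_self g1, neg_div, div_self g2]
    ring
  · have h3 : s (i + 1) ≤ s k := hs.monotone (by omega)
    have e1 : |s k - s (i + 1)| = s k - s (i + 1) := abs_of_nonneg (by linarith)
    have e2 : |s k - s i| = s k - s i := abs_of_nonneg (by linarith)
    have e3 : |s k - s (i - 1)| = s k - s (i - 1) := abs_of_nonneg (by linarith)
    rw [if_neg h.ne']
    simp only [e1, e2, e3]
    rw [show s k - s (i + 1) - (s k - s i) = -(s (i + 1) - s i) by ring,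
      show s k - s i - (s k - s (i - 1)) = -(s i - s (i - 1)) by ring, neg_div, neg_div,
      div_self g1, div_self g2]
    ring

theorem ae_range {s : ℤ → ℝ} {η : Measure ℝ} (hη : Nice s η) : ∀ᵐ z ∂η, z ∈ range s := by
  rw [ae_iff]
  exact hη.car

theorem affine {s d : ℤ → ℝ} (hs : StrictMono s) (hd : ∀ i, kink s d i = 0) :
    ∃ a b : ℝ, ∀ i, d i = a * s i + b := by
  set c : ℝ := (d 1 - d 0) / (s 1 - s 0) with hc
  have hsl : ∀ i : ℤ, (d (i + 1) - d i) / (s (i + 1) - s i) = c := by
    intro i
    induction i using Int.induction_on with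
    | zero => rw [hc]; norm_num
    | succ n ih =>
      have h := hd ((n : ℤ) + 1)
      unfold kink at h
      rw [show (n : ℤ) + 1 - 1 = n by ring] at h
      linarith
    | pred n ih =>
      have h := hd (-(n : ℤ))
      unfold kink at h
      rw [show -(n : ℤ) - 1 + 1 = -(n : ℤ) by ring]
      linarith
  have hstep : ∀ i : ℤ, d (i + 1) - c * s (i + 1) = d i - c * s i := by
    intro i
    have hp : 0 < s (i + 1) - s i := sub_pos.2 (hs (by omega))
    have h := hsl i
    rw [div_eq_iff hp.ne'] at h
    linarith
  have hconst : ∀ i : ℤ, d i - c * s i = d 0 - c * s 0 := by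
    intro i
    induction i using Int.induction_on with
    | zero => rfl
    | succ n ih => rw [hstep, ih]
    | pred n ih =>
      have h := hstep (-(n : ℤ) - 1)
      rw [show -(n : ℤ) - 1 + 1 = -(n : ℤ) by ring] at h
      rw [← h, ih]
  exact ⟨c, d 0 - c * s 0, fun i => by linarith [hconst i]⟩

theorem lin_zero {l : Filter ℤ} [NeBot l] {x : ℤ → ℝ} (hx : Tendsto x l atTop) {p q : ℝ}
    (h : Tendsto (fun i => p * x i + q) l (𝓝 0)) : p = 0 ∧ q = 0 := by
  have hinv : Tendsto (fun i => (x i)⁻¹) l (𝓝 0) := tendsto_inv_atTop_zero.comp hx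
  have h1 : Tendsto (fun i => (p * x i + q) * (x i)⁻¹) l (𝓝 (0 * 0)) := h.mul hinv
  have h2 : Tendsto (fun i => p + q * (x i)⁻¹) l (𝓝 (p + q * 0)) :=
    tendsto_const_nhds.add (hinv.const_mul q)
  have h3 : (fun i => (p * x i + q) * (x i)⁻¹) =ᶠ[l] fun i => p + q * (x i)⁻¹ := by
    filter_upwards [hx.eventually_gt_atTop 0] with i hi
    field_simp
  have hp : p = 0 := by
    have := tendsto_nhds_unique (h1.congr' h3) h2
    linarith
  refine ⟨hp, ?_⟩
  subst hp
  simp only [zero_mul, zero_add] at h
  exact tendsto_nhds_unique tendsto_const_nhds h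

end Pot63

open Pot63

theorem pot_kink {s : ℤ → ℝ} (hs : Enum s) {η : Measure ℝ} (hη : Nice s η) (i : ℤ) :
    kink s (fun j => potM η (s j)) i = 2 * η.real {s i} := by
  have := hη.fin
  have h0 : kink s (fun j => potM η (s j)) i = ∫ z, kink s (fun j => |z - s j|) i ∂η := by
    unfold kink potM
    beta_reduce
    have a1 := int_abs hη (s (i + 1))
    have a2 := int_abs hη (s i)
    have a3 := int_abs hη (s (i - 1))
    have b1 : Integrable (fun z : ℝ => (|z - s (i + 1)| - |z - s i|) / (s (i + 1) - s i)) η :=
      (a1.sub a2).div_const _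
    have b2 : Integrable (fun z : ℝ => (|z - s i| - |z - s (i - 1)|) / (s i - s (i - 1))) η :=
      (a2.sub a3).div_const _
    rw [integral_sub b1 b2, integral_div, integral_div, integral_sub a1 a2, integral_sub a2 a3]
  rw [h0]
  have h1 : (fun z => kink s (fun j => |z - s j|) i) =ᵐ[η]
      fun z => Set.indicator {s i} (fun _ => (2 : ℝ)) z := by
    filter_upwards [ae_range hη] with z hz
    obtain ⟨k, rfl⟩ := hz
    rw [kink_abs hs.mono]
    by_cases h : k = i
    · subst h; simp
    · rw [if_neg h, indicator_of_notMem]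
      intro h'
      exact h (hs.mono.injective h')
  rw [integral_congr_ae h1, integral_indicator (measurableSet_singleton _), setIntegral_const]
  rw [smul_eq_mul, mul_comm]

theorem pot_top {s : ℤ → ℝ} {η : Measure ℝ} (hη : Nice s η) :
    Tendsto (fun y => potM η y - (η.real univ * y - ∫ z, z ∂η)) atTop (𝓝 0) := by
  have := hη.fin
  have h0 : ∀ y, potM η y - (η.real univ * y - ∫ z, z ∂η) = ∫ z, (|z - y| - (y - z)) ∂η := by
    intro y
    have b1 : Integrable (fun z : ℝ => y - z) η := (integrable_const y).sub hη.int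
    rw [integral_sub (int_abs hη y) b1,
      integral_sub (integrable_const y) hη.int, integral_const, smul_eq_mul]
    rfl
  simp_rw [h0]
  have h := tendsto_integral_filter_of_dominated_convergence (μ := η) (l := atTop)
    (F := fun (y : ℝ) (z : ℝ) => |z - y| - (y - z)) (f := fun _ => (0 : ℝ))
    (fun z => 2 * |z|) ?_ ?_ (hη.int.abs.const_mul 2) ?_
  · simpa using h
  · exact Eventually.of_forall fun y =>
      ((int_abs hη y).sub ((integrable_const y).sub hη.int)).aestronglyMeasurable
  · filter_upwards [eventually_ge_atTop (0 : ℝ)] with y hy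
    refine Eventually.of_forall fun z => ?_
    rw [Real.norm_eq_abs]
    rcases le_total z y with hz | hz
    · rw [abs_of_nonpos (sub_nonpos.2 hz)]
      rw [show -(z - y) - (y - z) = 0 by ring, abs_zero]
      positivity
    · rw [abs_of_nonneg (sub_nonneg.2 hz), show z - y - (y - z) = 2 * (z - y) by ring,
        abs_of_nonneg (by linarith), abs_of_nonneg (by linarith : (0 : ℝ) ≤ z)]
      linarith
  · refine Eventually.of_forall fun z => ?_
    refine tendsto_const_nhds.congr' ?_
    filter_upwards [eventually_ge_atTop z] with y hy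
    rw [abs_of_nonpos (sub_nonpos.2 hy)]
    ring

theorem pot_bot {s : ℤ → ℝ} {η : Measure ℝ} (hη : Nice s η) :
    Tendsto (fun y => potM η y - (-(η.real univ * y) + ∫ z, z ∂η)) atBot (𝓝 0) := by
  have := hη.fin
  have h0 : ∀ y, potM η y - (-(η.real univ * y) + ∫ z, z ∂η) = ∫ z, (|z - y| - (z - y)) ∂η := by
    intro y
    have b1 : Integrable (fun z : ℝ => z - y) η := hη.int.sub (integrable_const y)
    rw [integral_sub (int_abs hη y) b1,
      integral_sub hη.int (integrable_const y), integral_const, smul_eq_mul]
    unfold potM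
    ring
  simp_rw [h0]
  have h := tendsto_integral_filter_of_dominated_convergence (μ := η) (l := atBot)
    (F := fun (y : ℝ) (z : ℝ) => |z - y| - (z - y)) (f := fun _ => (0 : ℝ))
    (fun z => 2 * |z|) ?_ ?_ (hη.int.abs.const_mul 2) ?_
  · simpa using h
  · exact Eventually.of_forall fun y =>
      ((int_abs hη y).sub (hη.int.sub (integrable_const y))).aestronglyMeasurable
  · filter_upwards [eventually_le_atBot (0 : ℝ)] with y hy
    refine Eventually.of_forall fun z => ?_
    rw [Real.norm_eq_abs]
    rcases le_total z y with hz | hz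
    · rw [abs_of_nonpos (sub_nonpos.2 hz), show -(z - y) - (z - y) = 2 * (y - z) by ring,
        abs_of_nonneg (by linarith), abs_of_nonpos (by linarith : z ≤ (0 : ℝ))]
      linarith
    · rw [abs_of_nonneg (sub_nonneg.2 hz)]
      rw [show z - y - (z - y) = 0 by ring, abs_zero]
      positivity
  · refine Eventually.of_forall fun z => ?_
    refine tendsto_const_nhds.congr' ?_
    filter_upwards [eventually_le_atBot z] with y hy
    rw [abs_of_nonneg (sub_nonneg.2 hy)]
    ring

/-- a sequence with the kinks of a potential and the same behaviour at both ends as another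
potential is the potential -/
theorem pot_of_kink {s : ℤ → ℝ} (hs : Enum s) {lam κ : Measure ℝ} (hl : Nice s lam)
    (hκ : Nice s κ) (h : ℤ → ℝ) (hk : ∀ i, kink s h i = 2 * lam.real {s i})
    (htop : Tendsto (fun i => h i - potM κ (s i)) atTop (𝓝 0))
    (hbot : Tendsto (fun i => h i - potM κ (s i)) atBot (𝓝 0)) :
    (∀ i, h i = potM lam (s i)) ∧ lam.real univ = κ.real univ ∧
      ∫ z, z ∂lam = ∫ z, z ∂κ := by
  obtain ⟨a, b, hab⟩ := affine (s := s) (d := fun i => h i - potM lam (s i)) hs.mono
    (fun i => by rw [kink_sub, hk, pot_kink hs hl, sub_self])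
  have T1 := (pot_top hl).comp hs.top
  have T2 := (pot_top hκ).comp hs.top
  have B1 := (pot_bot hl).comp hs.bot
  have B2 := (pot_bot hκ).comp hs.bot
  have T : Tendsto (fun i => (a + lam.real univ - κ.real univ) * s i +
      (b - ∫ z, z ∂lam + ∫ z, z ∂κ)) atTop (𝓝 0) := by
    have := (htop.sub T1).add T2
    simp only [sub_zero, add_zero] at this
    refine this.congr fun i => ?_
    have e := hab i
    beta_reduce at e
    simp only [Function.comp]
    linear_combination e
  have B : Tendsto (fun i => (-(a - lam.real univ + κ.real univ)) * (-s i) +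
      (b + ∫ z, z ∂lam - ∫ z, z ∂κ)) atBot (𝓝 0) := by
    have := (hbot.sub B1).add B2
    simp only [sub_zero, add_zero] at this
    refine this.congr fun i => ?_
    have e := hab i
    beta_reduce at e
    simp only [Function.comp]
    linear_combination e
  obtain ⟨t1, t2⟩ := lin_zero hs.top T
  obtain ⟨b1, b2⟩ := lin_zero (tendsto_neg_atBot_atTop.comp hs.bot) B
  have ha : a = 0 := by linarith
  have hb : b = 0 := by linarith
  refine ⟨fun i => ?_, by linarith, by linarith⟩
  have e := hab i
  beta_reduce at e
  rw [ha, hb] at e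
  linarith

end LimCurt
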