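import Pool.Agent.Lib.MP_b499b5_pr.RowsE23

/-!
Shadows on a closed discrete set.
-/

set_option autoImplicit false

namespace LimCurt

open MeasureTheory Filter Topology Set

namespace Shad37

variable {s : ℤ → ℝ}

theorem nice_mono {η ν : Measure ℝ} (hν : Nice s ν) (h : η ≤ ν) : Nice s η := by
  have := hν.fin
  exact ⟨isFiniteMeasure_of_le ν h, hν.int.mono_measure h,
    le_antisymm ((h _).trans_eq hν.car) bot_le⟩

theorem int_abs {η : Measure ℝ} (hη : Nice s η) (y : ℝ) : Integrable (fun z => |z - y|) η := by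
  have := hη.fin
  exact (hη.int.sub (integrable_const y)).abs

theorem sub_add {η ν : Measure ℝ} (hν : Nice s ν) (h : η ≤ ν) : (ν - η) + η = ν := by
  have := (nice_mono hν h).fin
  exact Measure.sub_add_cancel_of_le h

theorem nice_sub {η ν : Measure ℝ} (hν : Nice s ν) : Nice s (ν - η) :=
  nice_mono hν Measure.sub_le

theorem potM_sub {η ν : Measure ℝ} (hν : Nice s ν) (h : η ≤ ν) (y : ℝ) :
    potM (ν - η) y = potM ν y - potM η y := by
  have h2 : potM ν y = potM (ν - η) y + potM η y := by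
    calc potM ν y = potM ((ν - η) + η) y := by rw [sub_add hν h]
      _ = _ := integral_add_measure (int_abs (nice_sub hν) y) (int_abs (nice_mono hν h) y)
  linarith

theorem mean_sub {η ν : Measure ℝ} (hν : Nice s ν) (h : η ≤ ν) :
    ∫ z, z ∂(ν - η) = ∫ z, z ∂ν - ∫ z, z ∂η := by
  have h2 : ∫ z, z ∂ν = ∫ z, z ∂(ν - η) + ∫ z, z ∂η := by
    calc ∫ z, z ∂ν = ∫ z, z ∂((ν - η) + η) := by rw [sub_add hν h]
      _ = _ := integral_add_measure (nice_sub hν).int (nice_mono hν h).int
  linarith

theorem real_sub {η ν : Measure ℝ} (hν : Nice s ν) (h : η ≤ ν) (A : Set ℝ) :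
    (ν - η).real A = ν.real A - η.real A := by
  have i1 := (nice_mono hν h).fin
  have i2 := (nice_sub (η := η) hν).fin
  have h1 : ν A = (ν - η) A + η A := by
    rw [← Measure.add_apply, sub_add hν h]
  have h2 : ν.real A = (ν - η).real A + η.real A := by
    unfold Measure.real
    rw [h1, ENNReal.toReal_add (measure_ne_top _ _) (measure_ne_top _ _)]
  linarith

theorem le_of_atoms (hs : Function.Injective s) {η ν : Measure ℝ} (hη : η (range s)ᶜ = 0)
    (h : ∀ i, η {s i} ≤ ν {s i}) : η ≤ ν := by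
  refine Measure.le_iff.2 fun A hA => ?_
  have hd : Pairwise (Function.onFun Disjoint fun i : ℤ => A ∩ {s i}) := by
    intro i j hij
    rw [Function.onFun, disjoint_left]
    rintro x ⟨_, h1⟩ ⟨_, h2⟩
    exact hij (hs ((mem_singleton_iff.1 h1).symm.trans (mem_singleton_iff.1 h2)))
  have hm : ∀ i : ℤ, MeasurableSet (A ∩ {s i}) := fun i => hA.inter (measurableSet_singleton _)
  have h1 : η A ≤ η (⋃ i : ℤ, A ∩ {s i}) + η (range s)ᶜ := by
    refine (measure_mono ?_).trans (measure_union_le _ _)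
    intro x hx
    by_cases hxs : x ∈ range s
    · obtain ⟨i, rfl⟩ := hxs
      exact Or.inl (mem_iUnion.2 ⟨i, hx, rfl⟩)
    · exact Or.inr hxs
  rw [hη, add_zero, measure_iUnion hd hm] at h1
  refine h1.trans ?_
  have h2 : ∑' i, ν (A ∩ {s i}) ≤ ν A := by
    rw [← measure_iUnion hd hm]
    exact measure_mono (iUnion_subset fun i => inter_subset_left)
  refine le_trans (ENNReal.tsum_le_tsum fun i => ?_) h2
  by_cases hi : s i ∈ A
  · have h3 : A ∩ {s i} = {s i} := inter_eq_right.2 (singleton_subset_iff.2 hi)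
    rw [h3]
    exact h i
  · have h3 : A ∩ {s i} = ∅ := by
      ext x
      constructor
      · rintro ⟨h4, h5⟩
        rw [mem_singleton_iff.1 h5] at h4
        exact absurd h4 hi
      · exact fun h4 => absurd h4 (notMem_empty x)
    rw [h3, measure_empty, measure_empty]

/-- the measure with given kinks -/
noncomputable def lamM (s h : ℤ → ℝ) : Measure ℝ :=
  Measure.sum fun i : ℤ => ENNReal.ofReal (kink s h i / 2) • Measure.dirac (s i)

theorem lamM_atom (hs : Function.Injective s) (h : ℤ → ℝ) (j : ℤ) :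
    lamM s h {s j} = ENNReal.ofReal (kink s h j / 2) := by
  unfold lamM
  rw [Measure.sum_apply _ (measurableSet_singleton _), tsum_eq_single j]
  · rw [Measure.smul_apply, Measure.dirac_apply' _ (measurableSet_singleton _), smul_eq_mul,
      indicator_of_mem (mem_singleton _), Pi.one_apply, mul_one]
  · intro i hi
    rw [Measure.smul_apply, Measure.dirac_apply' _ (measurableSet_singleton _), smul_eq_mul,
      indicator_of_notMem, mul_zero]
    exact fun h1 => hi (hs (mem_singleton_iff.1 h1))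

theorem lamM_car (hs : Function.Injective s) (h : ℤ → ℝ) : lamM s h (range s)ᶜ = 0 := by
  have hm : MeasurableSet (range s)ᶜ := (countable_range s).measurableSet.compl
  unfold lamM
  rw [Measure.sum_apply _ hm, ENNReal.tsum_eq_zero]
  intro i
  rw [Measure.smul_apply, Measure.dirac_apply' _ hm, smul_eq_mul, indicator_of_notMem, mul_zero]
  exact fun h1 => h1 (mem_range_self i)

theorem kink_sub (f g : ℤ → ℝ) (i : ℤ) :
    kink s (fun j => f j - g j) i = kink s f i - kink s g i := by
  unfold kink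
  ring

theorem kink_add (f g : ℤ → ℝ) (i : ℤ) :
    kink s (fun j => f j + g j) i = kink s f i + kink s g i := by
  unfold kink
  ring

theorem kink_le (hs : StrictMono s) {h f : ℤ → ℝ} (hhf : ∀ i, h i ≤ f i) {i : ℤ}
    (hi : h i = f i) : kink s h i ≤ kink s f i := by
  have h1 : 0 < s (i + 1) - s i := sub_pos.2 (hs (by omega))
  have h2 : 0 < s i - s (i - 1) := sub_pos.2 (hs (by omega))
  unfold kink
  have h3 : (h (i + 1) - h i) / (s (i + 1) - s i) ≤ (f (i + 1) - f i) / (s (i + 1) - s i) :=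
    div_le_div_of_nonneg_right (by linarith [hhf (i + 1)]) h1.le
  have h4 : (f i - f (i - 1)) / (s i - s (i - 1)) ≤ (h i - h (i - 1)) / (s i - s (i - 1)) :=
    div_le_div_of_nonneg_right (by linarith [hhf (i - 1)]) h2.le
  linarith

/-- the data of a hull -/
structure IsHull (s f g h : ℤ → ℝ) : Prop where
  conv : DConv s h
  ge : ∀ i, g i ≤ h i
  le : ∀ i, h i ≤ f i
  touch : ∀ i, kink s h i = 0 ∨ h i = f i
  max : ∀ h' : ℤ → ℝ, DConv s h' → (∀ i, h' i ≤ f i) → ∀ i, h' i ≤ h i

end Shad37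

open Shad37 in
theorem shadows_of {s : ℤ → ℝ} (hs : Enum s)
    (hull : ∀ f g : ℤ → ℝ, DConv s g → (∀ i, g i ≤ f i) → ∃ h : ℤ → ℝ, DConv s h ∧
      (∀ i, g i ≤ h i) ∧ (∀ i, h i ≤ f i) ∧ (∀ i, kink s h i = 0 ∨ h i = f i) ∧
      ∀ h' : ℤ → ℝ, DConv s h' → (∀ i, h' i ≤ f i) → ∀ i, h' i ≤ h i)
    (pot_kink : ∀ {η : Measure ℝ} (_ : Nice s η) (i : ℤ),
      kink s (fun j => potM η (s j)) i = 2 * η.real {s i})
    (pot_top : ∀ {η : Measure ℝ} (_ : Nice s η),
      Tendsto (fun y => potM η y - (η.real univ * y - ∫ z, z ∂η)) atTop (𝓝 0))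
    (pot_bot : ∀ {η : Measure ℝ} (_ : Nice s η),
      Tendsto (fun y => potM η y - (-(η.real univ * y) + ∫ z, z ∂η)) atBot (𝓝 0))
    (pot_of_kink : ∀ {lam κ : Measure ℝ} (_ : Nice s lam) (_ : Nice s κ) (h : ℤ → ℝ)
      (_ : ∀ i, kink s h i = 2 * lam.real {s i})
      (_ : Tendsto (fun i => h i - potM κ (s i)) atTop (𝓝 0))
      (_ : Tendsto (fun i => h i - potM κ (s i)) atBot (𝓝 0)),
      (∀ i, h i = potM lam (s i)) ∧ lam.real univ = κ.real univ ∧ ∫ z, z ∂lam = ∫ z, z ∂κ)
    (cx_of_pot : ∀ {η θ : Measure ℝ} (_ : Nice s η) (_ : Nice s θ) (_ : η univ = θ univ)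
      (_ : ∫ z, z ∂η = ∫ z, z ∂θ) (_ : ∀ i, potM η (s i) ≤ potM θ (s i)), Cx η θ)
    (pot_of_cx : ∀ {η θ : Measure ℝ} (_ : Nice s η) (_ : Nice s θ) (_ : Cx η θ),
      η univ = θ univ ∧ ∫ z, z ∂η = ∫ z, z ∂θ ∧ ∀ y, potM η y ≤ potM θ y)
    {μ ν : Measure ℝ} (hμ : Nice s μ) (hν : Nice s ν)
    (h : Cx μ ν) : ∃ sh : Measure ℝ → Measure ℝ, (∀ η, η ≤ μ → IsShadow ν η (sh η)) ∧
      ∀ η₁ η₂, η₁ ≤ η₂ → η₂ ≤ μ → sh η₁ ≤ sh η₂ := by
  classical
  have hinj : Function.Injective s := hs.mono.injective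
  obtain ⟨hmass, hmean, hpot⟩ := pot_of_cx hμ hν h
  have ifμ := hμ.fin
  have ifν := hν.fin
  -- the hulls
  have hhull : ∀ η : Measure ℝ, η ≤ μ → ∃ hh : ℤ → ℝ,
      IsHull s (fun i => potM ν (s i) - potM η (s i)) (fun i => potM (μ - η) (s i)) hh := by
    intro η hη
    obtain ⟨hh, h1, h2, h3, h4, h5⟩ := hull (fun i => potM ν (s i) - potM η (s i))
      (fun i => potM (μ - η) (s i))
      (fun i => by
        rw [pot_kink (nice_sub hμ)]
        exact mul_nonneg zero_le_two measureReal_nonneg)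
      (fun i => by
        rw [potM_sub hμ hη]
        linarith [hpot (s i)])
    exact ⟨hh, h1, h2, h3, h4, h5⟩
  choose! H hH using hhull
  -- the measures
  have hlam : ∀ η, η ≤ μ → lamM s (H η) ≤ ν ∧ ∀ i, (lamM s (H η)).real {s i} = kink s (H η) i / 2 := by
    intro η hη
    have h0 := hH η hη
    have hreal : ∀ i, (lamM s (H η)).real {s i} = kink s (H η) i / 2 := by
      intro i
      unfold Measure.real
      rw [lamM_atom hinj, ENNReal.toReal_ofReal (div_nonneg (h0.conv i) zero_le_two)]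
    refine ⟨le_of_atoms hinj (lamM_car hinj _) fun i => ?_, hreal⟩
    rw [lamM_atom hinj]
    have h1 : kink s (H η) i / 2 ≤ ν.real {s i} := by
      rcases h0.touch i with h2 | h2
      · rw [h2, zero_div]
        exact measureReal_nonneg
      · have h3 := kink_le hs.mono h0.le h2
        rw [kink_sub (fun j => potM ν (s j)) (fun j => potM η (s j)), pot_kink hν,
          pot_kink (nice_mono hμ hη)] at h3
        have h4 : 0 ≤ η.real {s i} := measureReal_nonneg
        linarith
    calc ENNReal.ofReal (kink s (H η) i / 2) ≤ ENNReal.ofReal (ν.real {s i}) :=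
          ENNReal.ofReal_le_ofReal h1
      _ = ν {s i} := ENNReal.ofReal_toReal (measure_ne_top _ _)
  -- potentials of the measures
  have htop0 : Tendsto (fun i : ℤ => potM ν (s i) - potM μ (s i)) atTop (𝓝 0) := by
    have h1 := ((pot_top hν).sub (pot_top hμ)).comp hs.top
    rw [sub_zero] at h1
    refine h1.congr fun i => ?_
    simp only [Function.comp_apply]
    have h2 : ν.real univ = μ.real univ := by
      unfold Measure.real
      rw [hmass]
    rw [h2, hmean]
    ring
  have hbot0 : Tendsto (fun i : ℤ => potM ν (s i) - potM μ (s i)) atBot (𝓝 0) := by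
    have h1 := ((pot_bot hν).sub (pot_bot hμ)).comp hs.bot
    rw [sub_zero] at h1
    refine h1.congr fun i => ?_
    simp only [Function.comp_apply]
    have h2 : ν.real univ = μ.real univ := by
      unfold Measure.real
      rw [hmass]
    rw [h2, hmean]
    ring
  have hU : ∀ η, η ≤ μ → (∀ i, H η i = potM (lamM s (H η)) (s i)) ∧
      (lamM s (H η)).real univ = (μ - η).real univ ∧
      ∫ z, z ∂(lamM s (H η)) = ∫ z, z ∂(μ - η) := by
    intro η hη
    have h0 := hH η hη
    have hb : ∀ i, 0 ≤ H η i - potM (μ - η) (s i) := fun i => sub_nonneg.2 (h0.ge i)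
    have hb' : ∀ i, H η i - potM (μ - η) (s i) ≤ potM ν (s i) - potM μ (s i) := by
      intro i
      have h1 := h0.le i
      rw [potM_sub hμ hη]
      linarith
    refine pot_of_kink (nice_mono hν (hlam η hη).1) (nice_sub hμ) (H η) (fun i => ?_)
      (squeeze_zero hb hb' htop0) (squeeze_zero hb hb' hbot0)
    rw [(hlam η hη).2]
    ring
  have hmono : ∀ η₁ η₂, η₁ ≤ η₂ → η₂ ≤ μ → lamM s (H η₂) ≤ lamM s (H η₁) := by
    intro η₁ η₂ h12 h2μ
    have h1μ := h12.trans h2μ
    have k1 := hH η₁ h1μ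
    have k2 := hH η₂ h2μ
    have n2 := nice_mono hμ h2μ
    refine le_of_atoms hinj (lamM_car hinj _) fun i => ?_
    rw [lamM_atom hinj, lamM_atom hinj]
    refine ENNReal.ofReal_le_ofReal (div_le_div_of_nonneg_right ?_ zero_le_two)
    have hδ : ∀ y, potM (η₂ - η₁) y = potM η₂ y - potM η₁ y := fun y => potM_sub n2 h12 y
    have hk : ∀ j, kink s (fun j => H η₂ j + potM (η₂ - η₁) (s j)) j =
        kink s (H η₂) j + 2 * (η₂ - η₁).real {s j} := by
      intro j
      rw [kink_add (H η₂) (fun j => potM (η₂ - η₁) (s j)), pot_kink (nice_sub n2)]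
    have hle : ∀ j, H η₂ j + potM (η₂ - η₁) (s j) ≤ H η₁ j := by
      refine k1.max _ (fun j => ?_) fun j => ?_
      · rw [hk]
        exact add_nonneg (k2.conv j) (mul_nonneg zero_le_two measureReal_nonneg)
      · have h3 := k2.le j
        rw [hδ]
        linarith
    rcases k2.touch i with h3 | h3
    · rw [h3]
      exact k1.conv i
    · have h4 : H η₂ i + potM (η₂ - η₁) (s i) = H η₁ i := by
        refine le_antisymm (hle i) ?_
        have h5 := k1.le i
        rw [hδ, h3]
        linarith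
      have h5 := kink_le hs.mono hle h4
      rw [hk] at h5
      have h6 : 0 ≤ (η₂ - η₁).real {s i} := measureReal_nonneg
      linarith
  refine ⟨fun η => ν - lamM s (H η), fun η hη => ?_, fun η₁ η₂ h12 h2μ => ?_⟩
  · obtain ⟨u1, u2, u3⟩ := hU η hη
    have hl := (hlam η hη).1
    have nη := nice_mono hμ hη
    have ifη := nη.fin
    have nθ : Nice s (ν - lamM s (H η)) := nice_sub hν
    have ifθ := nθ.fin
    have pθ : ∀ i, potM (ν - lamM s (H η)) (s i) = potM ν (s i) - H η i := by
      intro i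
      rw [potM_sub hν hl, u1 i]
    have mθ : (ν - lamM s (H η)) univ = η univ := by
      have h1 : (ν - lamM s (H η)).real univ = η.real univ := by
        rw [real_sub hν hl, u2, real_sub hμ hη]
        have h2 : ν.real univ = μ.real univ := by
          unfold Measure.real
          rw [hmass]
        rw [h2]
        ring
      exact (ENNReal.toReal_eq_toReal_iff' (measure_ne_top _ _) (measure_ne_top _ _)).1 h1
    have bθ : ∫ z, z ∂(ν - lamM s (H η)) = ∫ z, z ∂η := by
      rw [mean_sub hν hl, u3, mean_sub hμ hη, hmean]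
      ring
    refine ⟨Measure.sub_le, ?_, fun θ' hθ' hc => ?_⟩
    · refine cx_of_pot nη nθ mθ.symm bθ.symm fun i => ?_
      rw [pθ]
      have h1 := (hH η hη).le i
      linarith
    · have nθ' := nice_mono hν hθ'
      obtain ⟨c1, c2, c3⟩ := pot_of_cx nη nθ' hc
      refine cx_of_pot nθ nθ' (mθ.trans c1) (bθ.trans c2) fun i => ?_
      have h1 : ∀ j, potM (ν - θ') (s j) ≤ H η j := by
        refine (hH η hη).max (fun j => potM (ν - θ') (s j)) (fun j => ?_) fun j => ?_
        · rw [pot_kink (nice_sub hν)]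
          exact mul_nonneg zero_le_two measureReal_nonneg
        · rw [potM_sub hν hθ']
          linarith [c3 (s j)]
      have h2 := h1 i
      rw [potM_sub hν hθ'] at h2
      rw [pθ]
      linarith
  · -- monotone
    have n1 := (hlam η₁ (h12.trans h2μ)).1
    have n2 := (hlam η₂ h2μ).1
    have if1 := (nice_mono hν n1).fin
    have if2 := (nice_mono hν n2).fin
    refine le_of_atoms hinj (nice_sub hν).car fun i => ?_
    have e1 : (ν - lamM s (H η₁)).real {s i} ≤ (ν - lamM s (H η₂)).real {s i} := by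
      rw [real_sub hν n1, real_sub hν n2]
      have h3 : (lamM s (H η₂)).real {s i} ≤ (lamM s (H η₁)).real {s i} :=
        ENNReal.toReal_mono (measure_ne_top _ _) (hmono η₁ η₂ h12 h2μ _)
      linarith
    have if3 := (nice_sub (η := lamM s (H η₁)) hν).fin
    have if4 := (nice_sub (η := lamM s (H η₂)) hν).fin
    exact (ENNReal.toReal_le_toReal (measure_ne_top _ _) (measure_ne_top _ _)).1 e1

end LimCurt
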