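import Pool.Agent.Lib.MP_b499b5_pr.Law23
import Pool.Agent.Lib.MP_b499b5_pr.Fin23
import Pool.Agent.Lib.MP_b499b5_pr.Enum14
import Pool.Agent.Lib.MP_b499b5_pr.Hull46
import Pool.Agent.Lib.MP_b499b5_pr.Pot63
import Pool.Agent.Lib.MP_b499b5_pr.CxpB92
import Pool.Agent.Lib.MP_b499b5_pr.Shad37
import Pool.Agent.Lib.MP_b499b5_pr.Coup11

/-!
# Existence of the discretised curtain laws on a closed discrete set
-/

set_option autoImplicit false

namespace LimCurt

open MeasureTheory Filter Topology Set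

namespace Exist23

theorem exist (S : Set ℝ) (hSf : ∀ r : ℝ, (S ∩ Icc (-r) r).Finite) (μ : I → ProbabilityMeasure ℝ)
    (hμ : Peacock μ) (hμS : ∀ s, (μ s : Measure ℝ) Sᶜ = 0) (Q : ℕ) (t : ℕ → I)
    (ht : IsPart Q t) : ∃ P : ProbabilityMeasure D, IsDisc μ Q t (P : Measure D) := by
  obtain ⟨s, hs, hSs⟩ := enum S hSf
  have hn : ∀ a, Nice s (μ a : Measure ℝ) := fun a => ⟨inferInstance, hμ.integrable a,
    measure_mono_null (compl_subset_compl.2 hSs) (hμS a)⟩
  refine Law23.law μ Q t ht fun k hk => ?_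
  have hc := hμ.cx (t k) (t (k + 1)) (ht.2.2 k hk).le
  obtain ⟨sh, h1, h2⟩ := shadows_of hs (fun f g hg hgf => hull hs.mono f g hg hgf)
    (fun hη i => pot_kink hs hη i) (fun hη => pot_top hη) (fun hη => pot_bot hη)
    (fun hl hκ h hk htop hbot => pot_of_kink hs hl hκ h hk htop hbot)
    (fun hη hθ hm hb hp => cx_of_pot hs hη hθ hm hb hp) (fun hη hθ h => pot_of_cx hη hθ h)
    (hn _) (hn _) hc
  exact coup hs (hn _) (hn _) hc sh h1 h2

end Exist23

end LimCurt
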