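import Pool.Agent.Lib.MP_b499b5_pr.Rows23

/-!
# Extraction of a convergent subsequence (Prokhorov on the parameter space)
-/

set_option autoImplicit false

namespace LimCurt

namespace Ext73

open MeasureTheory Filter Topology Set

instance : TopologicalSpace.MetrizableSpace Z := by
  let : MetricSpace (Σ n : ℕ, Tn n × (Fin (n + 1) → ℝ) × ℝ) := Metric.Sigma.metricSpace
  exact (inferInstance :
    TopologicalSpace.MetrizableSpace (Σ n : ℕ, Tn n × (Fin (n + 1) → ℝ) × ℝ))

instance : SecondCountableTopology Z :=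
  inferInstanceAs (SecondCountableTopology (Σ n : ℕ, Tn n × (Fin (n + 1) → ℝ) × ℝ))

theorem KK_mono {n n' : ℕ} {δ δ' r r' : ℝ} (hn : n ≤ n') (hδ : δ' ≤ δ) (hr : r ≤ r') :
    KK n δ r ⊆ KK n' δ' r' := by
  rintro z ⟨h1, h2, h3, h4, h5⟩
  exact ⟨h1.trans hn, fun i => ⟨hδ.trans (h2 i).1, (h2 i).2.trans (by linarith)⟩,
    fun i j hij => hδ.trans (h3 i j hij), fun i => (h4 i).trans hr, h5.trans hr⟩

/-- The exhausting sequence of compact sets. -/
def KN (N : ℕ) : Set Z := KK N (1 / ((N : ℝ) + 1)) N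

theorem KN_mono : Monotone KN := by
  intro N M h
  refine KK_mono h ?_ (by exact_mod_cast h)
  exact one_div_le_one_div_of_le (by positivity) (by
    have : (N : ℝ) ≤ M := by exact_mod_cast h
    linarith)

theorem mem_KN (z : Z) : ∃ N, z ∈ KN N := by
  have h0 : Tendsto (fun N : ℕ => 1 / ((N : ℝ) + 1)) atTop (𝓝 0) :=
    tendsto_one_div_add_atTop_nhds_zero_nat
  have h1 : ∀ᶠ N : ℕ in atTop, z.1 ≤ N := eventually_ge_atTop _
  have h2 : ∀ᶠ N : ℕ in atTop, ∀ i, z.2.1.1 i ∈ Icc (1 / ((N : ℝ) + 1)) (1 - 1 / ((N : ℝ) + 1)) := by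
    rw [eventually_all]
    intro i
    have h3 := (z.2.1.2.2 i)
    filter_upwards [h0.eventually_le_const h3.1,
      h0.eventually_le_const (show (0 : ℝ) < 1 - z.2.1.1 i by linarith [h3.2])] with N h4 h5
    exact ⟨h4, by linarith⟩
  have h3 : ∀ᶠ N : ℕ in atTop, ∀ i j, i < j → 1 / ((N : ℝ) + 1) ≤ z.2.1.1 j - z.2.1.1 i := by
    rw [eventually_all]
    intro i
    rw [eventually_all]
    intro j
    by_cases hij : i < j
    · filter_upwards [h0.eventually_le_const (sub_pos.2 (z.2.1.2.1 hij))] with N h4 _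
      exact h4
    · exact Eventually.of_forall fun N h => absurd h hij
  have h4 : ∀ᶠ N : ℕ in atTop, ∀ i, |z.2.2.1 i| ≤ N := by
    rw [eventually_all]
    intro i
    exact tendsto_natCast_atTop_atTop.eventually_ge_atTop _
  have h5 : ∀ᶠ N : ℕ in atTop, |z.2.2.2| ≤ N :=
    tendsto_natCast_atTop_atTop.eventually_ge_atTop _
  obtain ⟨N, a1, a2, a3, a4, a5⟩ := (h1.and (h2.and (h3.and (h4.and h5)))).exists
  exact ⟨N, a1, a2, a3, a4, a5⟩

theorem extract_of (stp : Z → D) (hst : Continuous stp)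
    (hK : ∀ (n : ℕ) {δ : ℝ} (_ : 0 < δ) (r : ℝ), IsCompact (KK n δ r))
    (Pz : ℕ → ProbabilityMeasure Z)
    (tight : ∀ ε : ℝ, 0 < ε → ∃ (n : ℕ) (δ r : ℝ), 0 < δ ∧ ∀ᶠ p in atTop,
      (Pz p : Measure Z) (KK n δ r)ᶜ ≤ ENNReal.ofReal ε)
    (P : ℕ → ProbabilityMeasure D) (hP : ∀ p, (P p : Measure D) = (Pz p : Measure Z).map stp) :
    ∃ φ : ℕ → ℕ, StrictMono φ ∧ ∃ P' : ProbabilityMeasure D,
      Tendsto (fun p => P (φ p)) atTop (𝓝 P') := by
  have hKN : ∀ N, IsCompact (KN N) := fun N => hK N (by positivity) N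
  -- every single measure is concentrated on the sets `KN`
  have hone : ∀ p, Tendsto (fun N => (Pz p : Measure Z) (KN N)ᶜ) atTop (𝓝 0) := by
    intro p
    have h1 := tendsto_measure_iInter_atTop (μ := (Pz p : Measure Z)) (s := fun N => (KN N)ᶜ)
      (fun N => (hKN N).isClosed.measurableSet.compl.nullMeasurableSet)
      (fun N M h => compl_subset_compl.2 (KN_mono h)) ⟨0, measure_ne_top _ _⟩
    have h2 : ⋂ N, (KN N)ᶜ = ∅ := by
      rw [← compl_iUnion, compl_empty_iff, eq_univ_iff_forall]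
      exact fun z => mem_iUnion.2 (mem_KN z)
    rw [h2, measure_empty] at h1
    exact h1
  have hT : IsTightMeasureSet
      {((μ : ProbabilityMeasure Z) : Measure Z) | μ ∈ range Pz} := by
    rw [isTightMeasureSet_iff_exists_isCompact_measure_compl_le]
    intro ε hε
    obtain ⟨ε', h0, h1, h2⟩ := ENNReal.lt_iff_exists_real_btwn.1 hε
    have h1' : 0 < ε' := ENNReal.ofReal_pos.1 h1
    obtain ⟨n, δ, r, hδ, h3⟩ := tight ε' h1'
    obtain ⟨N0, h4⟩ := eventually_atTop.1 h3
    have h5 : ∀ᶠ N in atTop, ∀ p ∈ Finset.range N0,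
        (Pz p : Measure Z) (KN N)ᶜ ≤ ENNReal.ofReal ε' := by
      rw [Finset.eventually_all]
      intro p _
      exact (hone p).eventually_le_const h1
    obtain ⟨M, h6⟩ := h5.exists
    refine ⟨KK n δ r ∪ KN M, (hK n hδ r).union (hKN M), ?_⟩
    rintro _ ⟨_, ⟨p, rfl⟩, rfl⟩
    refine le_trans ?_ h2.le
    by_cases hp : p < N0
    · exact (measure_mono (compl_subset_compl.2 subset_union_right)).trans
        (h6 p (Finset.mem_range.2 hp))
    · exact (measure_mono (compl_subset_compl.2 subset_union_left)).trans (h4 p (not_lt.1 hp))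
  have hC := isCompact_closure_of_isTightMeasureSet hT
  obtain ⟨a, _, φ, hφ, hlim⟩ := hC.tendsto_subseq
    (fun p => subset_closure (mem_range_self (f := Pz) p))
  refine ⟨φ, hφ, a.map hst.measurable.aemeasurable, ?_⟩
  have h1 := ProbabilityMeasure.tendsto_map_of_tendsto_of_continuous _ _ hlim hst
  refine h1.congr fun p => ?_
  apply Subtype.ext
  exact (hP (φ p)).symm

end Ext73

end LimCurt
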