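import Pool.Agent.Lib.MP_b499b5_pr.Marg23
import Pool.Agent.Lib.MP_b499b5_pr.Step38

/-!
# The law on the Skorokhod space from the couplings
-/

set_option autoImplicit false

namespace LimCurt

open MeasureTheory Filter Topology Set ProbabilityTheory

namespace Law23

theorem compProd_comap_map {α : Type*} [MeasurableSpace α] (μ : Measure α) [SFinite μ]
    (κ : Kernel ℝ ℝ) [IsSFiniteKernel κ] {f : α → ℝ} (hf : Measurable f) :
    (μ.compProd (κ.comap f hf)).map (fun p => (f p.1, p.2)) = (μ.map f).compProd κ := by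
  have hm : Measurable (fun p : α × ℝ => (f p.1, p.2)) :=
    (hf.comp measurable_fst).prodMk measurable_snd
  ext s hs
  rw [Measure.map_apply hm hs, Measure.compProd_apply (hm hs), Measure.compProd_apply hs,
    lintegral_map (Kernel.measurable_kernel_prodMk_left hs) hf]
  rfl

section

variable (m0 : Measure ℝ) (κ : ℕ → Kernel ℝ ℝ)

theorem meas_snoc (n : ℕ) : Measurable (fun p : (Fin (n + 1) → ℝ) × ℝ =>
    (Fin.snoc (α := fun _ => ℝ) p.1 p.2 : Fin (n + 2) → ℝ)) := by
  refine measurable_pi_iff.2 fun i => ?_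
  refine Fin.lastCases ?_ (fun j => ?_) i
  · simp only [Fin.snoc_last]
    exact measurable_snd
  · simp only [Fin.snoc_castSucc]
    exact (measurable_pi_apply j).comp measurable_fst

/-- The law of the chain. -/
noncomputable def chain : (n : ℕ) → Measure (Fin (n + 1) → ℝ)
  | 0 => m0.map (fun a _ => a)
  | n + 1 => ((chain n).compProd ((κ n).comap (fun v : Fin (n + 1) → ℝ => v (Fin.last n))
      (measurable_pi_apply _))).map
        (fun p => (Fin.snoc (α := fun _ => ℝ) p.1 p.2 : Fin (n + 2) → ℝ))

variable [IsProbabilityMeasure m0] (hκ : ∀ n, IsMarkovKernel (κ n))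

include hκ

theorem chain_prob (n : ℕ) : IsProbabilityMeasure (chain m0 κ n) := by
  induction n with
  | zero =>
    exact Measure.isProbabilityMeasure_map (measurable_pi_iff.2 fun _ => measurable_id).aemeasurable
  | succ n ih =>
    have := hκ n
    exact Measure.isProbabilityMeasure_map (meas_snoc n).aemeasurable

theorem chain_split (n : ℕ) :
    (chain m0 κ (n + 1)).map (fun v => ((fun j : Fin (n + 1) => v j.castSucc), v (Fin.last _))) =
      (chain m0 κ n).compProd ((κ n).comap (fun v : Fin (n + 1) → ℝ => v (Fin.last n))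
      (measurable_pi_apply _)) := by
  have h1 : Measurable (fun v : Fin (n + 2) → ℝ =>
      ((fun j : Fin (n + 1) => v j.castSucc), v (Fin.last _))) :=
    (measurable_pi_iff.2 fun j => measurable_pi_apply _).prodMk (measurable_pi_apply _)
  rw [chain, Measure.map_map h1 (meas_snoc n)]
  have h2 : ((fun v : Fin (n + 2) → ℝ => ((fun j : Fin (n + 1) => v j.castSucc), v (Fin.last _))) ∘
      fun p : (Fin (n + 1) → ℝ) × ℝ => (Fin.snoc (α := fun _ => ℝ) p.1 p.2 : Fin (n + 2) → ℝ)) =
      id := by
    funext p
    refine Prod.ext ?_ ?_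
    · funext j
      simp
    · simp
  rw [h2, Measure.map_id]

theorem chain_init (n : ℕ) :
    (chain m0 κ (n + 1)).map (fun v => (fun j : Fin (n + 1) => v j.castSucc)) = chain m0 κ n := by
  have := hκ n
  have := chain_prob m0 κ hκ n
  have h1 : Measurable (fun v : Fin (n + 2) → ℝ =>
      ((fun j : Fin (n + 1) => v j.castSucc), v (Fin.last _))) :=
    (measurable_pi_iff.2 fun j => measurable_pi_apply _).prodMk (measurable_pi_apply _)
  have h2 : (fun v : Fin (n + 2) → ℝ => (fun j : Fin (n + 1) => v j.castSucc)) =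
      Prod.fst ∘ (fun v : Fin (n + 2) → ℝ =>
      ((fun j : Fin (n + 1) => v j.castSucc), v (Fin.last _))) := rfl
  rw [h2, ← Measure.map_map measurable_fst h1, chain_split m0 κ hκ n]
  exact Measure.fst_compProd _ _

theorem chain_res (n k : ℕ) (h : k ≤ n) :
    (chain m0 κ n).map (fun v (j : Fin (k + 1)) => v (Fin.castLE (by omega) j)) =
      chain m0 κ k := by
  induction n with
  | zero =>
    obtain rfl : k = 0 := by omega
    exact Measure.map_id
  | succ n ih =>
    rcases Nat.lt_or_ge n k with h1 | h1
    · obtain rfl : k = n + 1 := by omega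
      exact Measure.map_id
    · have m1 : Measurable (fun (v : Fin (n + 1) → ℝ) (j : Fin (k + 1)) =>
          v (Fin.castLE (by omega) j)) := measurable_pi_iff.2 fun j => measurable_pi_apply _
      have m2 : Measurable (fun v : Fin (n + 2) → ℝ => (fun j : Fin (n + 1) => v j.castSucc)) :=
        measurable_pi_iff.2 fun j => measurable_pi_apply _
      rw [← ih h1, ← chain_init m0 κ hκ n, Measure.map_map m1 m2]
      rfl

theorem chain_pair (n : ℕ) :
    (chain m0 κ (n + 1)).map (fun v => (v (Fin.last n).castSucc, v (Fin.last _))) =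
      ((chain m0 κ n).map (fun v => v (Fin.last n))).compProd (κ n) := by
  have := hκ n
  have := chain_prob m0 κ hκ n
  have m1 : Measurable (fun p : (Fin (n + 1) → ℝ) × ℝ => (p.1 (Fin.last n), p.2)) :=
    ((measurable_pi_apply (Fin.last n)).comp measurable_fst).prodMk measurable_snd
  have m2 : Measurable (fun v : Fin (n + 2) → ℝ =>
      ((fun j : Fin (n + 1) => v j.castSucc), v (Fin.last _))) :=
    (measurable_pi_iff.2 fun j => measurable_pi_apply _).prodMk (measurable_pi_apply _)
  rw [← compProd_comap_map (chain m0 κ n) (κ n) (measurable_pi_apply (Fin.last n)),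
    ← chain_split m0 κ hκ n, Measure.map_map m1 m2]
  rfl

end

section path

variable {q : ℕ} {t : ℕ → I} (ht : IsPart (q + 1) t)

/-- The jump times. -/
noncomputable def tau : Tn q := ⟨fun i => (t (i + 1) : ℝ), by
  constructor
  · intro i j hij
    exact CAN23.t_lt (q + 1) ht (show (i : ℕ) + 1 < j + 1 by have : (i : ℕ) < j := hij; omega)
      (by have := j.2; omega)
  · intro i
    constructor
    · have h := CAN23.t_lt (q + 1) ht (k := 0) (l := i + 1) (Nat.succ_pos _)
        (by have := i.2; omega)
      rw [ht.1] at h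
      exact h
    · have h := CAN23.t_lt (q + 1) ht (k := i + 1) (l := q + 1) (by have := i.2; omega) le_rfl
      rw [ht.2.1] at h
      exact h⟩

/-- The parameters of the path with given values. -/
noncomputable def zof (v : Fin (q + 2) → ℝ) : Z :=
  ⟨q, tau ht, fun i : Fin (q + 1) => v i.castSucc, v (Fin.last _)⟩

theorem continuous_zof : Continuous (zof ht) := by
  have h1 : Continuous (fun v : Fin (q + 2) → ℝ =>
      ((tau ht, (fun i : Fin (q + 1) => v i.castSucc), v (Fin.last _)) :
        Tn q × (Fin (q + 1) → ℝ) × ℝ)) := by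
    refine continuous_const.prodMk (Continuous.prodMk ?_ (continuous_apply _))
    exact continuous_pi fun i => continuous_apply _
  have h2 : Continuous (fun p : Tn q × (Fin (q + 1) → ℝ) × ℝ =>
      (⟨q, p⟩ : Σ n : ℕ, Tn n × (Fin (n + 1) → ℝ) × ℝ)) :=
    continuous_sigmaMk (ι := ℕ) (σ := fun n => Tn n × (Fin (n + 1) → ℝ) × ℝ) (i := q)
  exact h2.comp h1

theorem step_val (v : Fin (q + 2) → ℝ) {k : ℕ} (hk : k < q + 1) (s : I) (h1 : t k ≤ s)
    (h2 : s < t (k + 1)) : stepFn (zof ht v) s = v ⟨k, by omega⟩ := by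
  have hs : s ≠ 1 := fun h => absurd h2 (not_lt.2 (by rw [h]; exact (t (k + 1)).2.2))
  rw [stepFn, if_neg hs]
  show v _ = v _
  congr 1
  apply Fin.ext
  show (Finset.univ.filter fun i : Fin q => ((t (i + 1) : I) : ℝ) ≤ (s : ℝ)).card = k
  have h3 : (Finset.univ.filter fun i : Fin q => ((t (i + 1) : I) : ℝ) ≤ (s : ℝ)) =
      Finset.univ.filter fun i : Fin q => (i : ℕ) < k := by
    ext i
    simp only [Finset.mem_filter, Finset.mem_univ, true_and]
    constructor
    · intro h
      by_contra h4
      have h5 : t (k + 1) ≤ t (i + 1) := by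
        rcases Nat.lt_or_ge k i with h6 | h6
        · exact (CAN23.t_lt (q + 1) ht (show k + 1 < (i : ℕ) + 1 by omega)
            (by have := i.2; omega)).le
        · rw [show k = (i : ℕ) by omega]
      exact absurd (lt_of_lt_of_le h2 h5) (not_lt.2 h)
    · intro h
      have h5 : t (i + 1) ≤ t k := by
        rcases Nat.lt_or_ge ((i : ℕ) + 1) k with h6 | h6
        · exact (CAN23.t_lt (q + 1) ht h6 (by omega)).le
        · rw [show (i : ℕ) + 1 = k by omega]
      exact h5.trans h1
  rw [h3]
  have h4 : (Finset.univ.filter fun i : Fin q => (i : ℕ) < k).card = k := by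
    rw [Fin.card_filter_val_lt]
    omega
  exact h4

theorem step_t (v : Fin (q + 2) → ℝ) {k : ℕ} (hk : k ≤ q + 1) :
    stepFn (zof ht v) (t k) = v ⟨k, by omega⟩ := by
  rcases Nat.lt_or_ge k (q + 1) with h | h
  · exact step_val ht v h (t k) le_rfl (ht.2.2 k h)
  · obtain rfl : k = q + 1 := by omega
    rw [ht.2.1, stepFn, if_pos rfl]
    rfl

theorem inj_path : Function.Injective fun v => stp (zof ht v) := by
  intro v w h
  funext k
  have h1 := congrFun (congrArg Subtype.val h) (t k)
  have h2 : stepFn (zof ht v) (t k) = stepFn (zof ht w) (t k) := h1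
  rw [step_t ht v (by have := k.2; omega), step_t ht w (by have := k.2; omega)] at h2
  exact h2

theorem emb : MeasurableEmbedding fun v => stp (zof ht v) :=
  (continuous_stp.comp (continuous_zof ht)).measurableEmbedding (inj_path ht)

end path

/-- Row LAW. -/
theorem law (μ : I → ProbabilityMeasure ℝ) (Q : ℕ) (t : ℕ → I) (ht : IsPart Q t)
    (hπ : ∀ k < Q, ∃ π : Measure (ℝ × ℝ), IsCurt (μ (t k) : Measure ℝ)
      (μ (t (k + 1)) : Measure ℝ) π) :
    ∃ P : ProbabilityMeasure D, IsDisc μ Q t (P : Measure D) := by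
  classical
  have hQ := Marg23.Q_pos ht
  obtain ⟨q, rfl⟩ : ∃ q, Q = q + 1 := ⟨Q - 1, by omega⟩
  have hpi : ∀ k, ∃ κ : Kernel ℝ ℝ, IsMarkovKernel κ ∧ (k < q + 1 →
      ((μ (t k) : Measure ℝ).compProd κ).map Prod.snd = (μ (t (k + 1)) : Measure ℝ) ∧
      IsCurt (μ (t k) : Measure ℝ) (μ (t (k + 1)) : Measure ℝ)
        ((μ (t k) : Measure ℝ).compProd κ)) := by
    intro k
    by_cases hk : k < q + 1
    · obtain ⟨π, h⟩ := hπ k hk
      have hprob : IsProbabilityMeasure π := by
        constructor
        have h1 := congrArg (fun m : Measure ℝ => m univ) h.1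
        simp only [Measure.map_apply measurable_fst MeasurableSet.univ, preimage_univ,
          measure_univ] at h1
        exact h1
      refine ⟨π.condKernel, inferInstance, fun _ => ?_⟩
      have h2 : (μ (t k) : Measure ℝ).compProd π.condKernel = π := by
        rw [← h.1]
        exact π.disintegrate π.condKernel
      rw [h2]
      exact ⟨h.2.1, h⟩
    · exact ⟨Kernel.const ℝ (Measure.dirac 0), inferInstance, fun h => absurd h hk⟩
  choose κ hκ hκ2 using hpi
  set m0 : Measure ℝ := (μ (t 0) : Measure ℝ) with hm0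
  have hlast : ∀ n, n ≤ q + 1 →
      (chain m0 κ n).map (fun v => v (Fin.last n)) = (μ (t n) : Measure ℝ) := by
    intro n
    induction n with
    | zero =>
      intro _
      have m1 : Measurable (fun v : Fin 1 → ℝ => v (Fin.last 0)) := measurable_pi_apply _
      have m2 : Measurable (fun (a : ℝ) (_ : Fin 1) => a) :=
        measurable_pi_iff.2 fun _ => measurable_id
      rw [chain, Measure.map_map m1 m2]
      exact Measure.map_id
    | succ n ih =>
      intro hn
      have h1 := chain_pair m0 κ hκ n
      rw [ih (by omega)] at h1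
      have m1 : Measurable (fun v : Fin (n + 2) → ℝ =>
          (v (Fin.last n).castSucc, v (Fin.last (n + 1)))) :=
        (measurable_pi_apply _).prodMk (measurable_pi_apply _)
      rw [← (hκ2 n (by omega)).1, ← h1, Measure.map_map measurable_snd m1]
      rfl
  have hprob := chain_prob m0 κ hκ (q + 1)
  have hE := emb ht
  let P : Measure D := (chain m0 κ (q + 1)).map fun v => stp (zof ht v)
  have hP : IsProbabilityMeasure P := Measure.isProbabilityMeasure_map hE.measurable.aemeasurable
  have hmap : ∀ {β : Type} [MeasurableSpace β] (F : D → β)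
      (_ : Measurable fun v => F (stp (zof ht v))),
      P.map F = (chain m0 κ (q + 1)).map fun v => F (stp (zof ht v)) := by
    intro β _ F hF
    have h1 : AEMeasurable F P := hE.aemeasurable_map_iff.2 hF.aemeasurable
    rw [AEMeasurable.map_map_of_aemeasurable h1 hE.measurable.aemeasurable]
    rfl
  have hev : ∀ k (hk : k ≤ q + 1) (v : Fin (q + 2) → ℝ),
      (stp (zof ht v)).1 (t k) = v ⟨k, by omega⟩ := fun k hk v => step_t ht v hk
  refine ⟨⟨P, hP⟩, ?_, ?_, ?_⟩
  · show ∀ᵐ x ∂P, _
    rw [hE.ae_map_iff]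
    refine Eventually.of_forall fun v k hk s h1 h2 => ?_
    rw [hev k (by omega) v]
    exact step_val ht v hk s h1 h2
  · intro k hk
    refine ⟨κ k, hκ k, ?_⟩
    show P.map _ = (P.map _).compProd _
    have e1 : (fun v : Fin (q + 2) → ℝ => (fun x : D => ((fun j : Fin (k + 1) => x.1 (t j)),
        x.1 (t (k + 1)))) (stp (zof ht v))) = fun v : Fin (q + 2) → ℝ =>
        ((fun j : Fin (k + 1) => v (Fin.castLE (by omega) j)), v ⟨k + 1, by omega⟩) := by
      funext v
      refine Prod.ext ?_ ?_
      · funext j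
        exact hev j (by have := j.2; omega) v
      · exact hev (k + 1) (by omega) v
    have e2 : (fun v : Fin (q + 2) → ℝ => (fun x : D => (fun j : Fin (k + 1) => x.1 (t j)))
        (stp (zof ht v))) = fun v : Fin (q + 2) → ℝ =>
        (fun j : Fin (k + 1) => v (Fin.castLE (by omega) j)) := by
      funext v j
      exact hev j (by have := j.2; omega) v
    have m2 : Measurable (fun v : Fin (q + 2) → ℝ =>
        (fun j : Fin (k + 1) => v (Fin.castLE (by omega) j))) :=
      measurable_pi_iff.2 fun j => measurable_pi_apply _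
    have m1 : Measurable (fun v : Fin (q + 2) → ℝ =>
        ((fun j : Fin (k + 1) => v (Fin.castLE (by omega) j)), v ⟨k + 1, by omega⟩)) :=
      m2.prodMk (measurable_pi_apply _)
    have m3 : Measurable (fun v : Fin (k + 2) → ℝ =>
        ((fun j : Fin (k + 1) => v j.castSucc), v (Fin.last _))) :=
      (measurable_pi_iff.2 fun j => measurable_pi_apply _).prodMk (measurable_pi_apply _)
    have m4 : Measurable (fun (v : Fin (q + 2) → ℝ) (j : Fin (k + 2)) =>
        v (Fin.castLE (by omega) j)) := measurable_pi_iff.2 fun j => measurable_pi_apply _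
    rw [hmap _ (by rw [e1]; exact m1), e1, hmap _ (by rw [e2]; exact m2), e2,
      chain_res m0 κ hκ (q + 1) k (by omega), ← chain_split m0 κ hκ k,
      ← chain_res m0 κ hκ (q + 1) (k + 1) (by omega), Measure.map_map m3 m4]
    rfl
  · intro k hk
    show IsCurt _ _ (P.map _)
    have e1 : (fun v : Fin (q + 2) → ℝ => (fun x : D => (x.1 (t k), x.1 (t (k + 1))))
        (stp (zof ht v))) = fun v : Fin (q + 2) → ℝ =>
        (v ⟨k, by omega⟩, v ⟨k + 1, by omega⟩) := by
      funext v
      exact Prod.ext (hev k (by omega) v) (hev (k + 1) (by omega) v)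
    have m1 : Measurable (fun v : Fin (q + 2) → ℝ => (v ⟨k, by omega⟩, v ⟨k + 1, by omega⟩)) :=
      (measurable_pi_apply _).prodMk (measurable_pi_apply _)
    rw [hmap _ (by rw [e1]; exact m1), e1]
    have h1 := chain_pair m0 κ hκ k
    have m3 : Measurable (fun v : Fin (k + 2) → ℝ =>
        (v (Fin.last k).castSucc, v (Fin.last (k + 1)))) :=
      (measurable_pi_apply _).prodMk (measurable_pi_apply _)
    have m4 : Measurable (fun (v : Fin (q + 2) → ℝ) (j : Fin (k + 2)) =>
        v (Fin.castLE (by omega) j)) := measurable_pi_iff.2 fun j => measurable_pi_apply _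
    rw [hlast k (by omega), ← chain_res m0 κ hκ (q + 1) (k + 1) (by omega),
      Measure.map_map m3 m4] at h1
    have h2 : (chain m0 κ (q + 1)).map (fun v : Fin (q + 2) → ℝ =>
        (v ⟨k, by omega⟩, v ⟨k + 1, by omega⟩)) = (μ (t k) : Measure ℝ).compProd (κ k) := h1
    rw [h2]
    exact (hκ2 k hk).2

end Law23

end LimCurt
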