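import Pool.Agent.Lib.MP_b499b5_pr.Rows23

/-!
# The Markov chain with given couplings and its step path on the Skorokhod space
-/

set_option autoImplicit false

set_option linter.unusedSectionVars false

namespace LimCurt

namespace Law73

open MeasureTheory Filter Topology Set ProbabilityTheory

/-- Transport of a composition product. -/
theorem map_compProd_comap {α β γ : Type} [MeasurableSpace α] [MeasurableSpace β]
    [MeasurableSpace γ] (m : Measure α) [SFinite m] (κ : Kernel β γ) [IsMarkovKernel κ]
    {f : α → β} (hf : Measurable f) :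
    (m.compProd (κ.comap f hf)).map (Prod.map f id) = (m.map f).compProd κ := by
  ext s hs
  rw [Measure.map_apply (hf.prodMap measurable_id) hs,
    Measure.compProd_apply ((hf.prodMap measurable_id) hs), Measure.compProd_apply hs,
    lintegral_map (Kernel.measurable_kernel_prodMk_left hs) hf]
  rfl

/-- Add a coordinate. -/
def sn (k : ℕ) (p : (Fin (k + 1) → ℝ) × ℝ) : Fin (k + 2) → ℝ :=
  Fin.snoc (α := fun _ => ℝ) p.1 p.2

theorem sn_castSucc (k : ℕ) (p : (Fin (k + 1) → ℝ) × ℝ) (j : Fin (k + 1)) :
    sn k p j.castSucc = p.1 j := Fin.snoc_castSucc (α := fun _ => ℝ) _ _ _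

theorem sn_last (k : ℕ) (p : (Fin (k + 1) → ℝ) × ℝ) : sn k p (Fin.last (k + 1)) = p.2 :=
  Fin.snoc_last (α := fun _ => ℝ) _ _

theorem measurable_sn (k : ℕ) : Measurable (sn k) := by
  refine measurable_pi_lambda _ fun i => ?_
  refine Fin.lastCases ?_ (fun j => ?_) i
  · simp only [sn_last]
    exact measurable_snd
  · simp only [sn_castSucc]
    exact (measurable_pi_apply j).comp measurable_fst

/-- The law of the chain up to time `k`. -/
noncomputable def ch (m0 : Measure ℝ) (κ : ℕ → Kernel ℝ ℝ) : (k : ℕ) → Measure (Fin (k + 1) → ℝ)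
  | 0 => m0.map (fun x _ => x)
  | k + 1 => ((ch m0 κ k).compProd
      ((κ k).comap (fun v : Fin (k + 1) → ℝ => v (Fin.last k)) (measurable_pi_apply _))).map (sn k)

section chain

variable {m0 : Measure ℝ} [IsProbabilityMeasure m0] {κ : ℕ → Kernel ℝ ℝ}
  [∀ k, IsMarkovKernel (κ k)]

theorem ch_prob (k : ℕ) : IsProbabilityMeasure (ch m0 κ k) := by
  induction k with
  | zero =>
    exact Measure.isProbabilityMeasure_map (measurable_pi_lambda _ fun _ => measurable_id).aemeasurable
  | succ k ih =>
    have : IsMarkovKernel ((κ k).comap (fun v : Fin (k + 1) → ℝ => v (Fin.last k))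
      (measurable_pi_apply _)) := inferInstance
    exact Measure.isProbabilityMeasure_map (measurable_sn k).aemeasurable

theorem ch_pair (k : ℕ) :
    (ch m0 κ (k + 1)).map (fun v => ((fun j : Fin (k + 1) => v j.castSucc),
      v (Fin.last (k + 1)))) = (ch m0 κ k).compProd
      ((κ k).comap (fun v : Fin (k + 1) → ℝ => v (Fin.last k)) (measurable_pi_apply _)) := by
  have hm : Measurable (fun v : Fin (k + 2) → ℝ => ((fun j : Fin (k + 1) => v j.castSucc),
      v (Fin.last (k + 1)))) :=
    (measurable_pi_lambda _ fun _ => measurable_pi_apply _).prodMk (measurable_pi_apply _)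
  rw [ch, Measure.map_map hm (measurable_sn k)]
  have h1 : (fun v : Fin (k + 2) → ℝ => ((fun j : Fin (k + 1) => v j.castSucc),
      v (Fin.last (k + 1)))) ∘ sn k = id := by
    funext p
    simp only [Function.comp_apply, sn_castSucc, sn_last, id]
  rw [h1, Measure.map_id]

theorem ch_init (k : ℕ) :
    (ch m0 κ (k + 1)).map (fun v => (fun j : Fin (k + 1) => v j.castSucc)) = ch m0 κ k := by
  have := ch_prob (m0 := m0) (κ := κ) k
  have h1 := congrArg (Measure.map Prod.fst) (ch_pair (m0 := m0) (κ := κ) k)
  have hm : Measurable (fun v : Fin (k + 2) → ℝ => ((fun j : Fin (k + 1) => v j.castSucc),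
      v (Fin.last (k + 1)))) :=
    (measurable_pi_lambda _ fun _ => measurable_pi_apply _).prodMk (measurable_pi_apply _)
  rw [Measure.map_map measurable_fst hm] at h1
  have h2 := Measure.fst_compProd (ch m0 κ k)
    ((κ k).comap (fun v : Fin (k + 1) → ℝ => v (Fin.last k)) (measurable_pi_apply _))
  rw [Measure.fst] at h2
  rw [h2] at h1
  exact h1

theorem ch_proj (j k : ℕ) (h : j ≤ k) :
    (ch m0 κ k).map (fun v (i : Fin (j + 1)) => v (Fin.castLE (Nat.succ_le_succ h) i)) =
      ch m0 κ j := by
  induction k, h using Nat.le_induction with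
  | base =>
    have : (fun (v : Fin (j + 1) → ℝ) (i : Fin (j + 1)) =>
      v (Fin.castLE (Nat.succ_le_succ (le_refl j)) i)) = id := by
      funext v i
      rfl
    rw [this, Measure.map_id]
  | succ k h ih =>
    have m1 : Measurable (fun (v : Fin (k + 1) → ℝ) (i : Fin (j + 1)) =>
      v (Fin.castLE (Nat.succ_le_succ h) i)) :=
      measurable_pi_lambda _ fun _ => measurable_pi_apply _
    have m2 : Measurable (fun (v : Fin (k + 2) → ℝ) (i : Fin (k + 1)) => v i.castSucc) :=
      measurable_pi_lambda _ fun _ => measurable_pi_apply _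
    have h1 := congrArg (Measure.map (fun (v : Fin (k + 1) → ℝ) (i : Fin (j + 1)) =>
      v (Fin.castLE (Nat.succ_le_succ h) i))) (ch_init (m0 := m0) (κ := κ) k)
    rw [Measure.map_map m1 m2, ih] at h1
    exact h1

variable {m : ℕ → Measure ℝ} {Q : ℕ}

theorem ch_two (h0 : m0 = m 0) (hm : ∀ k < Q, ((m k).compProd (κ k)).map Prod.snd = m (k + 1))
    (k : ℕ) : (k ≤ Q → (ch m0 κ k).map (fun v => v (Fin.last k)) = m k) ∧
      (k < Q → (ch m0 κ (k + 1)).map
        (fun v => (v (Fin.last k).castSucc, v (Fin.last (k + 1)))) = (m k).compProd (κ k)) := by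
  have key : ∀ k, (ch m0 κ k).map (fun v => v (Fin.last k)) = m k →
      (ch m0 κ (k + 1)).map
        (fun v => (v (Fin.last k).castSucc, v (Fin.last (k + 1)))) = (m k).compProd (κ k) := by
    intro k hk
    have := ch_prob (m0 := m0) (κ := κ) k
    have h1 := congrArg (Measure.map (Prod.map (fun v : Fin (k + 1) → ℝ => v (Fin.last k)) id))
      (ch_pair (m0 := m0) (κ := κ) k)
    have m1 : Measurable (Prod.map (fun v : Fin (k + 1) → ℝ => v (Fin.last k)) (id : ℝ → ℝ)) :=
      (measurable_pi_apply _).prodMap measurable_id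
    have m2 : Measurable (fun v : Fin (k + 2) → ℝ => ((fun j : Fin (k + 1) => v j.castSucc),
      v (Fin.last (k + 1)))) :=
      (measurable_pi_lambda _ fun _ => measurable_pi_apply _).prodMk (measurable_pi_apply _)
    rw [map_compProd_comap, hk, Measure.map_map m1 m2] at h1
    exact h1
  have first : ∀ k, k ≤ Q → (ch m0 κ k).map (fun v => v (Fin.last k)) = m k := by
    intro k
    induction k with
    | zero =>
      intro _
      have m1 : Measurable (fun v : Fin 1 → ℝ => v (Fin.last 0)) := measurable_pi_apply _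
      have m2 : Measurable (fun (x : ℝ) (_ : Fin 1) => x) :=
        measurable_pi_lambda _ fun _ => measurable_id
      rw [ch, Measure.map_map m1 m2, ← h0]
      have : (fun v : Fin 1 → ℝ => v (Fin.last 0)) ∘ (fun (x : ℝ) (_ : Fin 1) => x) = id := rfl
      rw [this, Measure.map_id]
    | succ k ih =>
      intro hk
      have h1 := congrArg (Measure.map Prod.snd) (key k (ih (by omega)))
      have m2 : Measurable (fun v : Fin (k + 2) → ℝ =>
        (v (Fin.last k).castSucc, v (Fin.last (k + 1)))) :=
        (measurable_pi_apply _).prodMk (measurable_pi_apply _)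
      rw [hm k (by omega), Measure.map_map measurable_snd m2] at h1
      exact h1
  exact ⟨first k, fun hk => key k (first k hk.le)⟩

end chain

/-! ### the path -/

variable {Q : ℕ} {t : ℕ → I}

theorem part_lt (ht : IsPart Q t) {k l : ℕ} (hkl : k < l) (hl : l ≤ Q) : t k < t l := by
  induction l, hkl using Nat.le_induction with
  | base => exact ht.2.2 k (by omega)
  | succ l h ih => exact (ih (by omega)).trans (ht.2.2 l (by omega))

theorem part_pos (ht : IsPart Q t) : 0 < Q := by
  rcases Nat.eq_zero_or_pos Q with h | h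
  · have h1 := ht.1
    have h2 := ht.2.1
    rw [h, h1] at h2
    exact absurd h2 (by simp)
  · exact h

/-- The jump times. -/
def tms (ht : IsPart Q t) : Tn (Q - 1) :=
  ⟨fun i => t (i + 1), fun i j hij => by
    have h1 : i.val < j.val := hij
    have h2 := j.2
    exact_mod_cast part_lt ht (show i.val + 1 < j.val + 1 by omega) (by omega), fun i => by
    have h2 := i.2
    constructor
    · have := part_lt ht (show 0 < i.val + 1 by omega) (by omega)
      rw [ht.1] at this
      exact_mod_cast this
    · have := part_lt ht (show i.val + 1 < Q by omega) le_rfl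
      rw [ht.2.1] at this
      exact_mod_cast this⟩

/-- The parameters. -/
def zz (ht : IsPart Q t) (v : Fin (Q + 1) → ℝ) : Z :=
  ⟨Q - 1, tms ht, (fun i => v ⟨i, by have := i.2; omega⟩), v (Fin.last Q)⟩

theorem continuous_zz (ht : IsPart Q t) : Continuous (zz ht) := by
  have h1 : Continuous (fun v : Fin (Q + 1) → ℝ =>
      ((tms ht, (fun i : Fin (Q - 1 + 1) => v ⟨i, by have := i.2; omega⟩), v (Fin.last Q)) :
        Tn (Q - 1) × (Fin (Q - 1 + 1) → ℝ) × ℝ)) :=
    continuous_const.prodMk ((continuous_pi fun i => continuous_apply _).prodMk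
      (continuous_apply _))
  exact (continuous_sigmaMk (σ := fun n : ℕ => Tn n × (Fin (n + 1) → ℝ) × ℝ)).comp h1

theorem step_zz (ht : IsPart Q t) (v : Fin (Q + 1) → ℝ) (k : ℕ) (hk : k < Q) (s : I)
    (h1 : t k ≤ s) (h2 : s < t (k + 1)) : stepFn (zz ht v) s = v ⟨k, by omega⟩ := by
  have hs : s ≠ 1 := by
    intro h
    rw [h] at h2
    exact absurd (Subtype.coe_le_coe.1 (t (k + 1)).2.2 : t (k + 1) ≤ 1) (not_le.2 h2)
  unfold stepFn
  rw [if_neg hs]
  have hc : (Finset.univ.filter fun i : Fin (Q - 1) => ((t (i.val + 1) : I) : ℝ) ≤ (s : ℝ)).card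
      = k := by
    have e : (Finset.univ.filter fun i : Fin (Q - 1) => ((t (i.val + 1) : I) : ℝ) ≤ (s : ℝ)) =
        Finset.univ.filter fun i : Fin (Q - 1) => i.val < k := by
      ext i
      simp only [Finset.mem_filter, Finset.mem_univ, true_and]
      have hi := i.2
      constructor
      · intro h
        by_contra hcon
        have h3 : t (k + 1) ≤ t (i.val + 1) := by
          rcases (show k + 1 ≤ i.val + 1 by omega).eq_or_lt with h4 | h4
          · rw [h4]
          · exact (part_lt ht h4 (by omega)).le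
        have h4 : t (i.val + 1) ≤ s := by exact_mod_cast h
        exact absurd (h3.trans h4) (not_le.2 h2)
      · intro h
        have h3 : t (i.val + 1) ≤ t k := by
          rcases (show i.val + 1 ≤ k by omega).eq_or_lt with h4 | h4
          · rw [h4]
          · exact (part_lt ht h4 hk.le).le
        exact_mod_cast h3.trans h1
    rw [e]
    have h5 : (Finset.univ.filter fun i : Fin (Q - 1) => i.val < k).card = min k (Q - 1) := by
      rw [Fin.card_filter_val_lt]
      exact min_comm _ _
    rw [h5]
    omega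
  show v ⟨(Finset.univ.filter fun i : Fin (Q - 1) => ((t (i.val + 1) : I) : ℝ) ≤ (s : ℝ)).card,
    _⟩ = _
  congr 1
  exact Fin.ext hc

section main

variable (stp : Z → D) (hstp : ∀ z, (stp z).1 = stepFn z) (hst : Continuous stp)

/-- The path map. -/
def G (ht : IsPart Q t) (v : Fin (Q + 1) → ℝ) : D := stp (zz ht v)

include hstp in
theorem G_cell (ht : IsPart Q t) (v : Fin (Q + 1) → ℝ) (k : ℕ) (hk : k < Q) (s : I)
    (h1 : t k ≤ s) (h2 : s < t (k + 1)) : (G stp ht v).1 s = v ⟨k, by omega⟩ := by
  rw [G, hstp]
  exact step_zz ht v k hk s h1 h2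

include hstp in
theorem G_at (ht : IsPart Q t) (v : Fin (Q + 1) → ℝ) (k : ℕ) (hk : k ≤ Q) :
    (G stp ht v).1 (t k) = v ⟨k, by omega⟩ := by
  rcases hk.eq_or_lt with rfl | h
  · rw [G, hstp, ht.2.1]
    unfold stepFn
    rw [if_pos rfl]
    rfl
  · exact G_cell stp hstp ht v k h (t k) le_rfl (ht.2.2 k h)

include hst in
theorem measurableSet_image (ht : IsPart Q t) {B : Set (Fin (Q + 1) → ℝ)} (hB : IsClosed B) :
    MeasurableSet (G stp ht '' B) := by
  have hG : Continuous (G stp ht) := hst.comp (continuous_zz ht)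
  have e : B = ⋃ n : ℕ, (B ∩ Metric.closedBall 0 n) := by
    rw [← inter_iUnion, Metric.iUnion_closedBall_nat, inter_univ]
  rw [e, image_iUnion]
  exact MeasurableSet.iUnion fun n =>
    (((isCompact_closedBall 0 (n : ℝ)).inter_left hB).image hG).isClosed.measurableSet

include hstp hst in
theorem aem_eval (ht : IsPart Q t) (Λ : Measure (Fin (Q + 1) → ℝ)) (k : ℕ) (hk : k ≤ Q) :
    AEMeasurable (fun x : D => x.1 (t k)) (Λ.map (G stp ht)) := by
  classical
  have hG : Continuous (G stp ht) := hst.comp (continuous_zz ht)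
  have hR : MeasurableSet (range (G stp ht)) := by
    rw [← image_univ]
    exact measurableSet_image stp hst ht isClosed_univ
  refine ⟨fun x => if x ∈ range (G stp ht) then x.1 (t k) else 0, ?_, ?_⟩
  · refine measurable_of_isClosed fun C hC => ?_
    have h1 : MeasurableSet (G stp ht '' {v | v ⟨k, by omega⟩ ∈ C}) :=
      measurableSet_image stp hst ht (hC.preimage (continuous_apply _))
    by_cases h0 : (0 : ℝ) ∈ C
    · have e : (fun x : D => if x ∈ range (G stp ht) then x.1 (t k) else 0) ⁻¹' C =
          (G stp ht '' {v | v ⟨k, by omega⟩ ∈ C}) ∪ (range (G stp ht))ᶜ := by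
        ext x
        constructor
        · intro hx
          by_cases hr : x ∈ range (G stp ht)
          · left
            have hx' : (if x ∈ range (G stp ht) then x.1 (t k) else 0) ∈ C := hx
            rw [if_pos hr] at hx'
            obtain ⟨v, rfl⟩ := hr
            refine ⟨v, ?_, rfl⟩
            rw [G_at stp hstp ht v k hk] at hx'
            exact hx'
          · exact Or.inr hr
        · rintro (⟨v, hv, rfl⟩ | hr)
          · show (if G stp ht v ∈ range (G stp ht) then (G stp ht v).1 (t k) else 0) ∈ C
            rw [if_pos (mem_range_self v), G_at stp hstp ht v k hk]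
            exact hv
          · show (if x ∈ range (G stp ht) then x.1 (t k) else 0) ∈ C
            rw [if_neg hr]
            exact h0
      rw [e]
      exact h1.union hR.compl
    · have e : (fun x : D => if x ∈ range (G stp ht) then x.1 (t k) else 0) ⁻¹' C =
          (G stp ht '' {v | v ⟨k, by omega⟩ ∈ C}) := by
        ext x
        constructor
        · intro hx
          have hx' : (if x ∈ range (G stp ht) then x.1 (t k) else 0) ∈ C := hx
          by_cases hr : x ∈ range (G stp ht)
          · rw [if_pos hr] at hx'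
            obtain ⟨v, rfl⟩ := hr
            refine ⟨v, ?_, rfl⟩
            rw [G_at stp hstp ht v k hk] at hx'
            exact hx'
          · rw [if_neg hr] at hx'
            exact absurd hx' h0
        · rintro ⟨v, hv, rfl⟩
          show (if G stp ht v ∈ range (G stp ht) then (G stp ht v).1 (t k) else 0) ∈ C
          rw [if_pos (mem_range_self v), G_at stp hstp ht v k hk]
          exact hv
      rw [e]
      exact h1
  · have h1 : ∀ᵐ x ∂(Λ.map (G stp ht)), x ∈ range (G stp ht) :=
      (ae_map_iff hG.measurable.aemeasurable (p := fun x => x ∈ range (G stp ht)) hR).2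
        (Eventually.of_forall fun v => mem_range_self v)
    filter_upwards [h1] with x hx
    rw [if_pos hx]

include hstp hst in
/-- Row LAW. -/
theorem law_of (μ : I → ProbabilityMeasure ℝ) (Q : ℕ) (t : ℕ → I) (ht : IsPart Q t)
    (hπ : ∀ k < Q, ∃ π : Measure (ℝ × ℝ), IsCurt (μ (t k) : Measure ℝ)
      (μ (t (k + 1)) : Measure ℝ) π) :
    ∃ P : ProbabilityMeasure D, IsDisc μ Q t (P : Measure D) := by
  -- the kernels
  have hκ : ∀ k, ∃ κ : Kernel ℝ ℝ, IsMarkovKernel κ ∧ (k < Q →
      IsCurt (μ (t k) : Measure ℝ) (μ (t (k + 1)) : Measure ℝ)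
        ((μ (t k) : Measure ℝ).compProd κ)) := by
    intro k
    by_cases hk : k < Q
    · obtain ⟨π, h⟩ := hπ k hk
      have hfin : IsFiniteMeasure π := by
        refine ⟨?_⟩
        have h1 : (π.map Prod.fst) univ = π univ := by
          rw [Measure.map_apply measurable_fst MeasurableSet.univ, preimage_univ]
        rw [← h1, h.1]
        exact measure_lt_top _ _
      refine ⟨π.condKernel, inferInstance, fun _ => ?_⟩
      have h1 : (μ (t k) : Measure ℝ).compProd π.condKernel = π := by
        have h2 := π.disintegrate π.condKernel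
        rw [Measure.fst, h.1] at h2
        exact h2
      rw [h1]
      exact h
    · exact ⟨Kernel.id, inferInstance, fun h => absurd h hk⟩
  choose κ hκ1 hκ2 using hκ
  set Λ := ch (μ (t 0) : Measure ℝ) κ Q with hΛ
  have hΛp : IsProbabilityMeasure Λ := ch_prob Q
  have hG : Continuous (G stp ht) := hst.comp (continuous_zz ht)
  have hP : IsProbabilityMeasure (Λ.map (G stp ht)) :=
    Measure.isProbabilityMeasure_map hG.measurable.aemeasurable
  have hR : MeasurableSet (range (G stp ht)) := by
    rw [← image_univ]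
    exact measurableSet_image stp hst ht isClosed_univ
  have hev : ∀ k ≤ Q, AEMeasurable (fun x : D => x.1 (t k)) (Λ.map (G stp ht)) :=
    fun k hk => aem_eval stp hstp hst ht Λ k hk
  refine ⟨⟨Λ.map (G stp ht), hP⟩, ?_, ?_, ?_⟩
  · show ∀ᵐ x ∂(Λ.map (G stp ht)), _
    have h1 : ∀ᵐ x ∂(Λ.map (G stp ht)), x ∈ range (G stp ht) :=
      (ae_map_iff hG.measurable.aemeasurable (p := fun x => x ∈ range (G stp ht)) hR).2
        (Eventually.of_forall fun v => mem_range_self v)
    filter_upwards [h1] with x hx
    obtain ⟨v, rfl⟩ := hx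
    intro k hk s h2 h3
    rw [G_cell stp hstp ht v k hk s h2 h3, G_at stp hstp ht v k hk.le]
  · intro k hk
    refine ⟨κ k, hκ1 k, ?_⟩
    show (Λ.map (G stp ht)).map _ = ((Λ.map (G stp ht)).map _).compProd _
    have a1 : AEMeasurable (fun x : D => (fun j : Fin (k + 1) => x.1 (t j)))
        (Λ.map (G stp ht)) :=
      aemeasurable_pi_lambda _ fun j => hev j (by have := j.2; omega)
    have a2 : AEMeasurable (fun x : D => ((fun j : Fin (k + 1) => x.1 (t j)), x.1 (t (k + 1))))
        (Λ.map (G stp ht)) := a1.prodMk (hev (k + 1) (by omega))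
    rw [AEMeasurable.map_map_of_aemeasurable a2 hG.measurable.aemeasurable,
      AEMeasurable.map_map_of_aemeasurable a1 hG.measurable.aemeasurable]
    have e1 : (fun x : D => (fun j : Fin (k + 1) => x.1 (t j))) ∘ G stp ht =
        fun v (i : Fin (k + 1)) => v (Fin.castLE (Nat.succ_le_succ hk.le) i) := by
      funext v
      funext j
      exact G_at stp hstp ht v j (by have := j.2; omega)
    have e2 : (fun x : D => ((fun j : Fin (k + 1) => x.1 (t j)), x.1 (t (k + 1)))) ∘ G stp ht =
        (fun w : Fin (k + 2) → ℝ => ((fun j : Fin (k + 1) => w j.castSucc),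
          w (Fin.last (k + 1)))) ∘
        fun v (i : Fin (k + 2)) => v (Fin.castLE (Nat.succ_le_succ hk) i) := by
      funext v
      refine Prod.ext ?_ ?_
      · funext j
        exact G_at stp hstp ht v j (by have := j.2; omega)
      · exact G_at stp hstp ht v (k + 1) (by omega)
    have m1 : Measurable (fun w : Fin (k + 2) → ℝ => ((fun j : Fin (k + 1) => w j.castSucc),
        w (Fin.last (k + 1)))) :=
      (measurable_pi_lambda _ fun _ => measurable_pi_apply _).prodMk (measurable_pi_apply _)
    have m2 : Measurable (fun (v : Fin (Q + 1) → ℝ) (i : Fin (k + 2)) =>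
        v (Fin.castLE (Nat.succ_le_succ hk) i)) :=
      measurable_pi_lambda _ fun _ => measurable_pi_apply _
    rw [e1, e2, ← Measure.map_map m1 m2, ch_proj (m0 := (μ (t 0) : Measure ℝ)) (κ := κ) (k + 1) Q hk,
      ch_proj (m0 := (μ (t 0) : Measure ℝ)) (κ := κ) k Q hk.le]
    exact ch_pair k
  · intro k hk
    show IsCurt _ _ ((Λ.map (G stp ht)).map _)
    have a2 : AEMeasurable (fun x : D => (x.1 (t k), x.1 (t (k + 1))))
        (Λ.map (G stp ht)) := (hev k hk.le).prodMk (hev (k + 1) (by omega))
    rw [AEMeasurable.map_map_of_aemeasurable a2 hG.measurable.aemeasurable]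
    have e2 : (fun x : D => (x.1 (t k), x.1 (t (k + 1)))) ∘ G stp ht =
        (fun w : Fin (k + 2) → ℝ => (w (Fin.last k).castSucc, w (Fin.last (k + 1)))) ∘
        fun v (i : Fin (k + 2)) => v (Fin.castLE (Nat.succ_le_succ hk) i) := by
      funext v
      refine Prod.ext ?_ ?_
      · exact G_at stp hstp ht v k (by omega)
      · exact G_at stp hstp ht v (k + 1) (by omega)
    have m1 : Measurable (fun w : Fin (k + 2) → ℝ =>
        (w (Fin.last k).castSucc, w (Fin.last (k + 1)))) :=
      (measurable_pi_apply _).prodMk (measurable_pi_apply _)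
    have m2 : Measurable (fun (v : Fin (Q + 1) → ℝ) (i : Fin (k + 2)) =>
        v (Fin.castLE (Nat.succ_le_succ hk) i)) :=
      measurable_pi_lambda _ fun _ => measurable_pi_apply _
    rw [e2, ← Measure.map_map m1 m2, ch_proj (m0 := (μ (t 0) : Measure ℝ)) (κ := κ) (k + 1) Q hk]
    have h3 := (ch_two (m0 := (μ (t 0) : Measure ℝ)) (κ := κ)
      (m := fun k => (μ (t k) : Measure ℝ)) (Q := Q) rfl (fun k hk => (hκ2 k hk).2.1) k).2 hk
    rw [h3]
    exact hκ2 k hk

end main

end Law73

end LimCurt
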