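import Pool.Agent.Lib.MP_b499b5_pr.CAN23

/-!
# The marginals of a discretised curtain process, and the assembly
-/

set_option autoImplicit false

namespace LimCurt

open MeasureTheory Filter Topology Set

namespace Marg23

/-- The pair of values is almost everywhere measurable. -/
theorem pair_aem {μ : I → ProbabilityMeasure ℝ} {Q : ℕ} {t : ℕ → I} {P : ProbabilityMeasure D}
    (h : IsDisc μ Q t (P : Measure D)) {k : ℕ} (hk : k < Q) :
    AEMeasurable (fun x : D => (x.1 (t k), x.1 (t (k + 1)))) (P : Measure D) := by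
  by_contra hn
  have h1 := (h.2.2 k hk).1
  rw [Measure.map_of_not_aemeasurable hn, Measure.map_zero] at h1
  have h2 := congrArg (fun m : Measure ℝ => m univ) h1
  simp at h2

theorem marg_left {μ : I → ProbabilityMeasure ℝ} {Q : ℕ} {t : ℕ → I} {P : ProbabilityMeasure D}
    (h : IsDisc μ Q t (P : Measure D)) {k : ℕ} (hk : k < Q) :
    AEMeasurable (fun x : D => x.1 (t k)) (P : Measure D) ∧
      (P : Measure D).map (fun x : D => x.1 (t k)) = (μ (t k) : Measure ℝ) := by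
  have h0 := pair_aem h hk
  refine ⟨measurable_fst.comp_aemeasurable h0, ?_⟩
  rw [← (h.2.2 k hk).1, AEMeasurable.map_map_of_aemeasurable measurable_fst.aemeasurable h0]
  rfl

theorem marg_right {μ : I → ProbabilityMeasure ℝ} {Q : ℕ} {t : ℕ → I} {P : ProbabilityMeasure D}
    (h : IsDisc μ Q t (P : Measure D)) {k : ℕ} (hk : k < Q) :
    AEMeasurable (fun x : D => x.1 (t (k + 1))) (P : Measure D) ∧
      (P : Measure D).map (fun x : D => x.1 (t (k + 1))) = (μ (t (k + 1)) : Measure ℝ) := by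
  have h0 := pair_aem h hk
  refine ⟨measurable_snd.comp_aemeasurable h0, ?_⟩
  rw [← (h.2.2 k hk).2.1, AEMeasurable.map_map_of_aemeasurable measurable_snd.aemeasurable h0]
  rfl

theorem Q_pos {Q : ℕ} {t : ℕ → I} (ht : IsPart Q t) : 0 < Q := by
  rcases Nat.eq_zero_or_pos Q with h | h
  · exfalso
    have h1 := ht.1
    have h2 := ht.2.1
    rw [h] at h2
    rw [h1] at h2
    exact zero_ne_one h2
  · exact h

theorem marg {μ : I → ProbabilityMeasure ℝ} {Q : ℕ} {t : ℕ → I} (ht : IsPart Q t)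
    {P : ProbabilityMeasure D} (h : IsDisc μ Q t (P : Measure D)) {k : ℕ} (hk : k ≤ Q) :
    AEMeasurable (fun x : D => x.1 (t k)) (P : Measure D) ∧
      (P : Measure D).map (fun x : D => x.1 (t k)) = (μ (t k) : Measure ℝ) := by
  rcases Nat.lt_or_ge k Q with h1 | h1
  · exact marg_left h h1
  · have h2 : k = Q := le_antisymm hk h1
    have h3 := Q_pos ht
    obtain ⟨q, rfl⟩ : ∃ q, Q = q + 1 := ⟨Q - 1, by omega⟩
    rw [h2]
    exact marg_right h (Nat.lt_succ_self q)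

theorem ae_mem {μ : I → ProbabilityMeasure ℝ} {Q : ℕ} {t : ℕ → I} (ht : IsPart Q t)
    {P : ProbabilityMeasure D} (h : IsDisc μ Q t (P : Measure D)) {S : Set ℝ} (hS : S.Countable)
    (hμS : ∀ s, (μ s : Measure ℝ) Sᶜ = 0) {k : ℕ} (hk : k ≤ Q) :
    ∀ᵐ x ∂(P : Measure D), x.1 (t k) ∈ S := by
  obtain ⟨h1, h2⟩ := marg ht h hk
  have h3 : ∀ᵐ z ∂((P : Measure D).map (fun x : D => x.1 (t k))), z ∈ S := by
    rw [h2]
    exact hμS (t k)
  exact (ae_map_iff h1 hS.measurableSet).1 h3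

/-- The assembly. -/
theorem main (hcad : ∀ z, IsCadlag (stepFn z)) (hcont : Continuous (CAN23.toD hcad))
    (hKc : ∀ (n : ℕ) {δ : ℝ} (_ : 0 < δ) (r : ℝ), IsCompact (KK n δ r))
    (extract : ∀ (Pz : ℕ → ProbabilityMeasure Z)
      (_ : ∀ ε : ℝ, 0 < ε → ∃ (n : ℕ) (δ r : ℝ), 0 < δ ∧ ∀ᶠ p in atTop,
        (Pz p : Measure Z) (KK n δ r)ᶜ ≤ ENNReal.ofReal ε)
      (P : ℕ → ProbabilityMeasure D)
      (_ : ∀ p, (P p : Measure D) = (Pz p : Measure Z).map (CAN23.toD hcad)),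
      ∃ φ : ℕ → ℕ, StrictMono φ ∧ ∃ P' : ProbabilityMeasure D,
        Tendsto (fun p => P (φ p)) atTop (𝓝 P'))
    (fdlaw : ∀ (μ : I → ProbabilityMeasure ℝ) (_ : Peacock μ) (Q : ℕ) (t : ℕ → I)
      (_ : IsPart Q t) (P : ProbabilityMeasure D) (_ : IsDisc μ Q t (P : Measure D))
      (C : Set ℝ) (_ : C.Countable) (_ : ∀ s, (μ s : Measure ℝ) Cᶜ = 0),
      ∃ Pr : Measure (ℕ → ℝ), MChain Q (fun k => μ (t (min k Q))) Pr ∧
        ∀ (n : ℕ) (δ r : ℝ), (P : Measure D) {x | (fun k => x.1 (t k)) ∉ good Q t n δ r} ≤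
          Pr (good Q t n δ r)ᶜ)
    (est : ∀ (S : Set ℝ) (_ : ∀ r : ℝ, (S ∩ Icc (-r) r).Finite) (μ : I → ProbabilityMeasure ℝ)
      (_ : Peacock μ) (_ : ∀ s, (μ s : Measure ℝ) Sᶜ = 0) (ε : ℝ) (_ : 0 < ε),
      ∃ (n : ℕ) (δ r : ℝ), 0 < δ ∧ ∀ (Q : ℕ) (t : ℕ → I), IsPart Q t →
        (∀ k < Q, (t (k + 1) : ℝ) - t k ≤ δ) → ∀ Pr : Measure (ℕ → ℝ),
        MChain Q (fun k => μ (t (min k Q))) Pr → Pr (good Q t n δ r)ᶜ ≤ ENNReal.ofReal ε)
    (S : Set ℝ) (hSf : ∀ r : ℝ, (S ∩ Icc (-r) r).Finite) (μ : I → ProbabilityMeasure ℝ)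
    (hμ : Peacock μ) (hμS : ∀ s, (μ s : Measure ℝ) Sᶜ = 0) (Q : ℕ → ℕ) (t : ℕ → ℕ → I)
    (ht : ∀ p, IsPart (Q p) (t p))
    (mesh : ∀ δ : ℝ, 0 < δ → ∀ᶠ p in atTop, ∀ k < Q p, (t p (k + 1) : ℝ) - t p k ≤ δ)
    (P : ℕ → ProbabilityMeasure D) (hP : ∀ p, IsDisc μ (Q p) (t p) (P p : Measure D)) :
    ∃ φ : ℕ → ℕ, StrictMono φ ∧ ∃ P' : ProbabilityMeasure D,
      Tendsto (fun p => P (φ p)) atTop (𝓝 P') := by
  have hSc : S.Countable := by
    have : S ⊆ ⋃ r : ℕ, (S ∩ Icc (-(r : ℝ)) r) := fun s hs => by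
      obtain ⟨r, hr⟩ := exists_nat_ge |s|
      exact mem_iUnion.2 ⟨r, hs, abs_le.1 hr⟩
    exact (countable_iUnion fun r : ℕ => (hSf r).countable).mono this
  have hmarg : ∀ p, ∀ k ≤ Q p, ∀ᵐ x ∂(P p : Measure D), x.1 (t p k) ∈ S := fun p k hk =>
    ae_mem (ht p) (hP p) hSc hμS hk
  choose Pz hPz1 hPz2 using fun p =>
    CAN23.lift hcad hcont hKc (Q p) (t p) (ht p) (P p) (hP p).1 S hSc (hmarg p)
  refine extract Pz (fun ε hε => ?_) P hPz1
  obtain ⟨n, δ, r, hδ, h⟩ := est S hSf μ hμ hμS ε hε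
  refine ⟨n, δ, r, hδ, ?_⟩
  filter_upwards [mesh δ hδ] with p hp
  obtain ⟨Pr, hR1, hR2⟩ := fdlaw μ hμ (Q p) (t p) (ht p) (P p) (hP p) S hSc hμS
  exact (hPz2 p n δ r hδ).trans ((hR2 n δ r).trans (h (Q p) (t p) (ht p) hp Pr hR1))

end Marg23

end LimCurt
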