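import Pool.Agent.Lib.MP_b499b5_pr.Defs23

/-!
# Parameters of step paths, good sequences, chains
-/

set_option autoImplicit false

namespace LimCurt

open MeasureTheory Filter Topology Set

/-- Jump times. -/
def Tn (n : ℕ) : Type := {τ : Fin n → ℝ // StrictMono τ ∧ ∀ i, τ i ∈ Ioo (0 : ℝ) 1}

instance (n : ℕ) : MetricSpace (Tn n) := inferInstanceAs (MetricSpace (Subtype _))

instance (n : ℕ) : SecondCountableTopology (Tn n) :=
  inferInstanceAs (SecondCountableTopology (Subtype _))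

/-- The parameters of a step path: number of jumps in `(0,1)`, jump times, values before time 1,
value at time 1. -/
def Z : Type := Σ n : ℕ, Tn n × (Fin (n + 1) → ℝ) × ℝ

instance : TopologicalSpace Z :=
  inferInstanceAs (TopologicalSpace (Σ n : ℕ, Tn n × (Fin (n + 1) → ℝ) × ℝ))

instance : MeasurableSpace Z := borel Z

instance : BorelSpace Z := ⟨rfl⟩

/-- The step path. -/
noncomputable def stepFn (z : Z) : I → ℝ := fun t =>
  if t = 1 then z.2.2.2 else z.2.2.1 ⟨(Finset.univ.filter fun i => z.2.1.1 i ≤ (t : ℝ)).card,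
    Nat.lt_succ_of_le ((Finset.card_filter_le _ _).trans_eq (by
      rw [Finset.card_univ, Fintype.card_fin]))⟩

/-- The compact sets. -/
def KK (n : ℕ) (δ r : ℝ) : Set Z := {z | z.1 ≤ n ∧ (∀ i, z.2.1.1 i ∈ Icc δ (1 - δ)) ∧
  (∀ i j, i < j → δ ≤ z.2.1.1 j - z.2.1.1 i) ∧ (∀ i, |z.2.2.1 i| ≤ r) ∧ |z.2.2.2| ≤ r}

/-- The good value sequences `ω_k = x (t_k)`, `k ≤ Q`. -/
def good (Q : ℕ) (t : ℕ → I) (n : ℕ) (δ r : ℝ) : Set (ℕ → ℝ) := {ω | (∀ k ≤ Q, |ω k| ≤ r) ∧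
  ((Finset.range Q).filter fun k => ω (k + 1) ≠ ω k).card ≤ n ∧
  (∀ k < Q, ω (k + 1) ≠ ω k → δ ≤ (t (k + 1) : ℝ) ∧ ((t (k + 1) : ℝ) ≤ 1 - δ ∨ t (k + 1) = 1)) ∧
  ∀ k l, k < l → l < Q → ω (k + 1) ≠ ω k → ω (l + 1) ≠ ω l → t (l + 1) ≠ 1 →
    δ ≤ (t (l + 1) : ℝ) - t (k + 1)}

/-- A Markov chain with marginals `m k`, stopped at `Q`, every step a martingale coupling. -/
structure MChain (Q : ℕ) (m : ℕ → ProbabilityMeasure ℝ) (Pr : Measure (ℕ → ℝ)) : Prop where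
  prob : IsProbabilityMeasure Pr
  marg : ∀ k, Pr.map (fun ω => ω k) = (m k : Measure ℝ)
  stop : ∀ᵐ ω ∂Pr, ∀ k, Q ≤ k → ω k = ω Q
  markov : ∀ k (A : Set (Fin (k + 1) → ℝ)), MeasurableSet A → ∀ B : Set ℝ, MeasurableSet B →
    ∀ y : ℝ, Pr {ω | (fun j : Fin (k + 1) => ω j) ∈ A ∧ ω k = y ∧ ω (k + 1) ∈ B} *
        Pr {ω | ω k = y} =
      Pr {ω | (fun j : Fin (k + 1) => ω j) ∈ A ∧ ω k = y} * Pr {ω | ω k = y ∧ ω (k + 1) ∈ B}
  mart : ∀ k (a : ℝ), ∫ ω in {ω | ω k ≤ a}, (ω (k + 1) - ω k) ∂Pr = 0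

/-- The potential. -/
noncomputable def pot (μ : ProbabilityMeasure ℝ) (y : ℝ) : ℝ := ∫ z, |z - y| ∂(μ : Measure ℝ)

end LimCurt
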