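import Pool.Agent.Lib.MP_b499b5_pr.Defs23

/-!
# Existence of the discretised curtain laws on a closed discrete set: objects
-/

set_option autoImplicit false

namespace LimCurt

open MeasureTheory Filter Topology Set

/-- The change of slope at `s i` of the function with values `h i` at `s i`. -/
noncomputable def kink (s h : ℤ → ℝ) (i : ℤ) : ℝ :=
  (h (i + 1) - h i) / (s (i + 1) - s i) - (h i - h (i - 1)) / (s i - s (i - 1))

/-- Discrete convexity. -/
def DConv (s h : ℤ → ℝ) : Prop := ∀ i, 0 ≤ kink s h i

/-- An enumeration of a closed discrete set, unbounded on both sides. -/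
structure Enum (s : ℤ → ℝ) : Prop where
  mono : StrictMono s
  top : Tendsto s atTop atTop
  bot : Tendsto s atBot atBot

/-- A finite measure with finite first moment on the range of `s`. -/
structure Nice (s : ℤ → ℝ) (η : Measure ℝ) : Prop where
  fin : IsFiniteMeasure η
  int : Integrable (fun z : ℝ => z) η
  car : η (range s)ᶜ = 0

/-- The potential. -/
noncomputable def potM (η : Measure ℝ) (y : ℝ) : ℝ := ∫ z, |z - y| ∂η

end LimCurt
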