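import Pool.Agent.Lib.MP_b499b5_pr.RowsE23

set_option autoImplicit false

namespace LimCurt.SH47

open MeasureTheory Filter Topology Set

theorem kink_add (s f g : ℤ → ℝ) (i : ℤ) :
    kink s (fun i => f i + g i) i = kink s f i + kink s g i := by
  unfold kink
  ring

theorem kink_le {s : ℤ → ℝ} (hs : StrictMono s) {h f : ℤ → ℝ} (hf : ∀ i, h i ≤ f i) {i : ℤ}
    (hi : h i = f i) : kink s h i ≤ kink s f i := by
  unfold kink
  have h1 : 0 < s (i + 1) - s i := sub_pos.2 (hs (by omega))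
  have h2 : 0 < s i - s (i - 1) := sub_pos.2 (hs (by omega))
  have h3 : (h (i + 1) - h i) / (s (i + 1) - s i) ≤ (f (i + 1) - f i) / (s (i + 1) - s i) :=
    div_le_div_of_nonneg_right (by linarith [hf (i + 1)]) h1.le
  have h4 : (f i - f (i - 1)) / (s i - s (i - 1)) ≤ (h i - h (i - 1)) / (s i - s (i - 1)) :=
    div_le_div_of_nonneg_right (by linarith [hf (i - 1)]) h2.le
  linarith

theorem le_of_atoms {s : ℤ → ℝ} {a b : Measure ℝ} (ha : a (range s)ᶜ = 0)
    (h : ∀ i, a {s i} ≤ b {s i}) : a ≤ b := by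
  refine Measure.le_iff.2 fun A hA => ?_
  have hc : (A ∩ range s).Countable := (countable_range s).mono inter_subset_right
  have h1 : a A = a (A ∩ range s) := by
    rw [← measure_inter_add_sdiff A (countable_range s).measurableSet (μ := a)]
    have : a (A \ range s) = 0 := measure_mono_null (fun x hx => hx.2) ha
    rw [this, add_zero]
  have h2 : ∀ m : Measure ℝ, m (A ∩ range s) = ∑' p : ↥(A ∩ range s), m {(p : ℝ)} := fun m => by
    conv_lhs => rw [← biUnion_of_singleton (A ∩ range s)]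
    exact measure_biUnion hc (fun x _ y _ hxy => disjoint_singleton.2 hxy)
      fun x _ => measurableSet_singleton x
  rw [h1, h2 a]
  calc _ ≤ ∑' p : ↥(A ∩ range s), b {(p : ℝ)} := by
        refine ENNReal.tsum_le_tsum fun p => ?_
        obtain ⟨i, hi⟩ := p.2.2
        rw [← hi]
        exact h i
    _ = b (A ∩ range s) := (h2 b).symm
    _ ≤ b A := measure_mono inter_subset_left

theorem nice_of_le {s : ℤ → ℝ} {a b : Measure ℝ} (hb : Nice s b) (h : a ≤ b) : Nice s a := by
  have := hb.fin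
  refine ⟨isFiniteMeasure_of_le b h, hb.int.mono_measure h, ?_⟩
  exact le_antisymm ((h _).trans hb.car.le) bot_le

theorem int_abs {s : ℤ → ℝ} {a : Measure ℝ} (ha : Nice s a) (y : ℝ) :
    Integrable (fun z : ℝ => |z - y|) a := by
  have := ha.fin
  exact (ha.int.sub (integrable_const y)).abs

theorem pot_add {s : ℤ → ℝ} {a b : Measure ℝ} (ha : Nice s a) (hb : Nice s b) (y : ℝ) :
    potM (a + b) y = potM a y + potM b y := integral_add_measure (int_abs ha y) (int_abs hb y)

theorem mean_add {s : ℤ → ℝ} {a b : Measure ℝ} (ha : Nice s a) (hb : Nice s b) :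
    ∫ z, z ∂(a + b) = ∫ z, z ∂a + ∫ z, z ∂b := integral_add_measure ha.int hb.int

theorem exists_sub {s : ℤ → ℝ} {a b : Measure ℝ} (hb : Nice s b) (h : a ≤ b) :
    ∃ c : Measure ℝ, c + a = b ∧ Nice s c ∧ Nice s a := by
  have := hb.fin
  have ha := nice_of_le hb h
  have := ha.fin
  exact ⟨b - a, Measure.sub_add_cancel_of_le h, nice_of_le hb Measure.sub_le, ha⟩

/-- The measure with the masses `l i` at `s i`. -/
noncomputable def atoms (s l : ℤ → ℝ) : Measure ℝ :=
  Measure.sum fun i => ENNReal.ofReal (l i) • Measure.dirac (s i)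

theorem atoms_apply {s : ℤ → ℝ} (hs : StrictMono s) (l : ℤ → ℝ) (i : ℤ) :
    atoms s l {s i} = ENNReal.ofReal (l i) := by
  unfold atoms
  rw [Measure.sum_apply _ (measurableSet_singleton _)]
  rw [tsum_eq_single i]
  · rw [Measure.smul_apply, Measure.dirac_apply' _ (measurableSet_singleton _),
      indicator_of_mem (mem_singleton _)]
    simp
  · intro j hj
    rw [Measure.smul_apply, Measure.dirac_apply' _ (measurableSet_singleton _),
      indicator_of_notMem (fun h : s j ∈ ({s i} : Set ℝ) => hj (hs.injective h))]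
    simp

theorem atoms_car (s l : ℤ → ℝ) : atoms s l (range s)ᶜ = 0 := by
  unfold atoms
  rw [Measure.sum_apply _ (countable_range s).measurableSet.compl]
  refine ENNReal.tsum_eq_zero.2 fun j => ?_
  rw [Measure.smul_apply, Measure.dirac_apply' _ (countable_range s).measurableSet.compl,
    indicator_of_notMem (fun h : s j ∈ (range s)ᶜ => h (mem_range_self j))]
  simp


/-- The rows used here. -/
structure Rows (s : ℤ → ℝ) : Prop where
  hull : ∀ f g : ℤ → ℝ, DConv s g → (∀ i, g i ≤ f i) → ∃ h : ℤ → ℝ, DConv s h ∧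
    (∀ i, g i ≤ h i) ∧ (∀ i, h i ≤ f i) ∧ (∀ i, kink s h i = 0 ∨ h i = f i) ∧
      ∀ h' : ℤ → ℝ, DConv s h' → (∀ i, h' i ≤ f i) → ∀ i, h' i ≤ h i
  pot_kink : ∀ {η : Measure ℝ}, Nice s η → ∀ i : ℤ,
    kink s (fun j => potM η (s j)) i = 2 * η.real {s i}
  pot_top : ∀ {η : Measure ℝ}, Nice s η →
    Tendsto (fun y => potM η y - (η.real univ * y - ∫ z, z ∂η)) atTop (𝓝 0)
  pot_bot : ∀ {η : Measure ℝ}, Nice s η →
    Tendsto (fun y => potM η y - (-(η.real univ * y) + ∫ z, z ∂η)) atBot (𝓝 0)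
  pot_of_kink : ∀ {lam κ : Measure ℝ}, Nice s lam → Nice s κ → ∀ h : ℤ → ℝ,
    (∀ i, kink s h i = 2 * lam.real {s i}) →
    Tendsto (fun i => h i - potM κ (s i)) atTop (𝓝 0) →
    Tendsto (fun i => h i - potM κ (s i)) atBot (𝓝 0) →
    (∀ i, h i = potM lam (s i)) ∧ lam.real univ = κ.real univ ∧ ∫ z, z ∂lam = ∫ z, z ∂κ
  cx_of_pot : ∀ {η θ : Measure ℝ}, Nice s η → Nice s θ → η univ = θ univ →
    ∫ z, z ∂η = ∫ z, z ∂θ → (∀ i, potM η (s i) ≤ potM θ (s i)) → Cx η θ
  pot_of_cx : ∀ {η θ : Measure ℝ}, Nice s η → Nice s θ → Cx η θ →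
    η univ = θ univ ∧ ∫ z, z ∂η = ∫ z, z ∂θ ∧ ∀ y, potM η y ≤ potM θ y

/-- `h` is the hull for `η`. -/
structure Good (s : ℤ → ℝ) (μ ν η : Measure ℝ) (h : ℤ → ℝ) : Prop where
  conv : DConv s h
  low : ∀ i, potM μ (s i) - potM η (s i) ≤ h i
  up : ∀ i, h i ≤ potM ν (s i) - potM η (s i)
  touch : ∀ i, kink s h i = 0 ∨ h i = potM ν (s i) - potM η (s i)
  max : ∀ h' : ℤ → ℝ, DConv s h' → (∀ i, h' i ≤ potM ν (s i) - potM η (s i)) → ∀ i, h' i ≤ h i

theorem exists_good {s : ℤ → ℝ} (R : Rows s) {μ ν : Measure ℝ} (hμ : Nice s μ)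
    (hν : Nice s ν) (h : Cx μ ν) (η : Measure ℝ) (hη : η ≤ μ) : ∃ h, Good s μ ν η h := by
  obtain ⟨κ, hκ, hκn, hηn⟩ := exists_sub hμ hη
  have h1 : ∀ y, potM κ y = potM μ y - potM η y := fun y => by
    rw [← hκ, pot_add hκn hηn]
    ring
  obtain ⟨-, -, h2⟩ := R.pot_of_cx hμ hν h
  obtain ⟨h, c1, c2, c3, c4, c5⟩ := R.hull (fun i => potM ν (s i) - potM η (s i))
    (fun i => potM κ (s i)) (fun i => by
      rw [R.pot_kink hκn]
      positivity) (fun i => by
      rw [h1]
      linarith [h2 (s i)])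
  exact ⟨h, c1, fun i => by rw [← h1]; exact c2 i, c3, c4, c5⟩

theorem mono_kink {s : ℤ → ℝ} (hs : StrictMono s) (R : Rows s) {μ ν η₁ η₂ : Measure ℝ}
    (hμ : Nice s μ) (h12 : η₁ ≤ η₂) (h2μ : η₂ ≤ μ) {h₁ h₂ : ℤ → ℝ}
    (g1 : Good s μ ν η₁ h₁) (g2 : Good s μ ν η₂ h₂) (i : ℤ) : kink s h₂ i ≤ kink s h₁ i := by
  have hn2 := nice_of_le hμ h2μ
  obtain ⟨δ, hδ, hδn, hn1⟩ := exists_sub hn2 h12
  have h1 : ∀ y, potM η₂ y = potM δ y + potM η₁ y := fun y => by
    rw [← hδ, pot_add hδn hn1]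
  have hk : ∀ j, kink s (fun i => h₂ i + potM δ (s i)) j = kink s h₂ j + 2 * δ.real {s j} :=
    fun j => by
      rw [kink_add s h₂ (fun i => potM δ (s i)), R.pot_kink hδn]
  have h3 : ∀ j, h₂ j + potM δ (s j) ≤ h₁ j := by
    refine g1.max _ (fun j => ?_) fun j => ?_
    · rw [hk]
      have := g2.conv j
      positivity
    · have := g2.up j
      rw [h1] at this
      linarith
  rcases g2.touch i with h | h
  · rw [h]
    exact g1.conv i
  · have h4 : h₂ i + potM δ (s i) = h₁ i := by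
      refine le_antisymm (h3 i) ?_
      have := g1.up i
      rw [h1] at h
      linarith
    have h5 := kink_le hs h3 h4
    rw [hk] at h5
    have : 0 ≤ δ.real {s i} := measureReal_nonneg
    linarith

theorem lam_le {s : ℤ → ℝ} (hs : StrictMono s) (R : Rows s) {μ ν η : Measure ℝ}
    (hμ : Nice s μ) (hν : Nice s ν) (hη : η ≤ μ) {h : ℤ → ℝ} (g : Good s μ ν η h) :
    atoms s (fun i => kink s h i / 2) ≤ ν := by
  have := hν.fin
  have hηn := nice_of_le hμ hη
  refine le_of_atoms (atoms_car _ _) fun i => ?_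
  rw [atoms_apply hs]
  refine ENNReal.ofReal_le_of_le_toReal ?_
  show kink s h i / 2 ≤ ν.real {s i}
  rcases g.touch i with h0 | h0
  · rw [h0, zero_div]
    exact measureReal_nonneg
  · have h1 := kink_le hs g.up h0
    have h2 : kink s (fun i => potM ν (s i)) i =
        kink s (fun i => potM ν (s i) - potM η (s i)) i + kink s (fun i => potM η (s i)) i := by
      rw [← kink_add]
      congr 1
      funext j
      ring
    rw [R.pot_kink hν, R.pot_kink hηn] at h2
    have : 0 ≤ η.real {s i} := measureReal_nonneg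
    linarith

theorem shadow {s : ℤ → ℝ} (hs : Enum s) (R : Rows s) {μ ν η : Measure ℝ}
    (hμ : Nice s μ) (hν : Nice s ν) (hc : Cx μ ν) (hη : η ≤ μ) {h : ℤ → ℝ}
    (g : Good s μ ν η h) : IsShadow ν η (ν - atoms s fun i => kink s h i / 2) := by
  have := hν.fin
  have := hμ.fin
  set lam := atoms s fun i => kink s h i / 2 with hlam
  have hle : lam ≤ ν := lam_le hs.mono R hμ hν hη g
  have hln : Nice s lam := nice_of_le hν hle
  have := hln.fin
  have hθ : ν - lam + lam = ν := Measure.sub_add_cancel_of_le hle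
  set θ := ν - lam with hθd
  have hθn : Nice s θ := nice_of_le hν Measure.sub_le
  have := hθn.fin
  obtain ⟨κ, hκ, hκn, hηn⟩ := exists_sub hμ hη
  have := hκn.fin
  have := hηn.fin
  have pκ : ∀ y, potM μ y = potM κ y + potM η y := fun y => by
    rw [← hκ, pot_add hκn hηn]
  have pθ : ∀ y, potM ν y = potM θ y + potM lam y := fun y => by
    conv_lhs => rw [← hθ]
    rw [pot_add hθn hln]
  obtain ⟨m1, m2, m3⟩ := R.pot_of_cx hμ hν hc
  have hr : μ.real univ = ν.real univ := by
    unfold Measure.real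
    rw [m1]
  obtain ⟨e1, e2, e3⟩ := R.pot_of_kink hln hκn h (fun i => by
    show kink s h i = 2 * (lam {s i}).toReal
    rw [hlam, atoms_apply hs.mono, ENNReal.toReal_ofReal (by have := g.conv i; positivity)]
    ring) (by
    have t1 := ((R.pot_top hν).sub (R.pot_top hμ)).comp hs.top
    rw [sub_zero] at t1
    refine squeeze_zero (fun i => ?_) (fun i => ?_) t1
    · have := g.low i
      rw [pκ] at this
      linarith
    · have := g.up i
      have h1 := pκ (s i)
      simp only [Function.comp]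
      rw [hr, m2]
      linarith) (by
    have t1 := ((R.pot_bot hν).sub (R.pot_bot hμ)).comp hs.bot
    rw [sub_zero] at t1
    refine squeeze_zero (fun i => ?_) (fun i => ?_) t1
    · have := g.low i
      rw [pκ] at this
      linarith
    · have := g.up i
      have h1 := pκ (s i)
      simp only [Function.comp]
      rw [hr, m2]
      linarith)
  have mass : η univ = θ univ := by
    have h1 : κ univ + η univ = μ univ := by
      rw [← hκ, Measure.add_apply]
    have h2 : θ univ + lam univ = ν univ := by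
      conv_rhs => rw [← hθ]
      rw [Measure.add_apply]
    have h3 : lam univ = κ univ := (ENNReal.toReal_eq_toReal_iff' (measure_ne_top _ _)
      (measure_ne_top _ _)).1 e2
    rw [h3, ← m1, ← h1, add_comm (κ univ)] at h2
    exact ((ENNReal.add_left_inj (measure_ne_top κ univ)).1 h2).symm
  have mean : ∫ z, z ∂η = ∫ z, z ∂θ := by
    have h1 : ∫ z, z ∂κ + ∫ z, z ∂η = ∫ z, z ∂μ := by
      rw [← mean_add hκn hηn, hκ]
    have h2 : ∫ z, z ∂θ + ∫ z, z ∂lam = ∫ z, z ∂ν := by
      rw [← mean_add hθn hln, hθ]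
    linarith
  refine ⟨Measure.sub_le, R.cx_of_pot hηn hθn mass mean fun i => ?_, fun θ' hθ' hc' => ?_⟩
  · have h1 := g.up i
    have h2 := pθ (s i)
    rw [← e1 i] at h2
    linarith
  · obtain ⟨ρ, hρ, hρn, hθ'n⟩ := exists_sub hν hθ'
    obtain ⟨k1, k2, k3⟩ := R.pot_of_cx hηn hθ'n hc'
    have pρ : ∀ y, potM ν y = potM ρ y + potM θ' y := fun y => by
      rw [← hρ, pot_add hρn hθ'n]
    have h4 := g.max (fun i => potM ρ (s i)) (fun i => by
      rw [R.pot_kink hρn]
      positivity) (fun i => by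
      have h1 := pρ (s i)
      have h2 := k3 (s i)
      show potM ρ (s i) ≤ _
      linarith)
    refine R.cx_of_pot hθn hθ'n (mass.symm.trans k1) (mean.symm.trans k2) fun i => ?_
    have h1 := pρ (s i)
    have h2 := pθ (s i)
    have h5 : potM ρ (s i) ≤ h i := h4 i
    rw [e1 i] at h5
    linarith

theorem shadows {s : ℤ → ℝ} (hs : Enum s) (R : Rows s) {μ ν : Measure ℝ} (hμ : Nice s μ)
    (hν : Nice s ν) (h : Cx μ ν) :
    ∃ sh : Measure ℝ → Measure ℝ, (∀ η, η ≤ μ → IsShadow ν η (sh η)) ∧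
      ∀ η₁ η₂, η₁ ≤ η₂ → η₂ ≤ μ → sh η₁ ≤ sh η₂ := by
  have := hν.fin
  choose! H hH using exists_good R hμ hν h
  refine ⟨fun η => ν - atoms s fun i => kink s (H η) i / 2,
    fun η hη => shadow hs R hμ hν h hη (hH η hη), fun η₁ η₂ h12 h2 => ?_⟩
  have h1 : η₁ ≤ μ := h12.trans h2
  have l1 := lam_le hs.mono R hμ hν h1 (hH _ h1)
  have l2 := lam_le hs.mono R hμ hν h2 (hH _ h2)
  have := (nice_of_le hν l1).fin
  have := (nice_of_le hν l2).fin
  have hn : Nice s (ν - atoms s fun i => kink s (H η₁) i / 2) := nice_of_le hν Measure.sub_le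
  refine le_of_atoms hn.car fun i => ?_
  rw [Measure.sub_apply (measurableSet_singleton _) l1,
    Measure.sub_apply (measurableSet_singleton _) l2, atoms_apply hs.mono, atoms_apply hs.mono]
  refine tsub_le_tsub_left (ENNReal.ofReal_le_ofReal ?_) _
  have := mono_kink hs.mono R hμ h12 h2 (hH _ h1) (hH _ h2) i
  linarith

end LimCurt.SH47
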