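import Pool.Agent.Lib.MP_b499b5_pr.Hull46

/-!
# Shadows on a closed discrete set, from potentials
-/

set_option autoImplicit false

namespace LimCurt

open MeasureTheory Filter Topology Set

namespace Shad67

variable {s : ℤ → ℝ}

/-- The statement of `pot_kink`. -/
def StPK : Prop := ∀ {s : ℤ → ℝ} (_ : Enum s) {η : Measure ℝ} (_ : Nice s η) (i : ℤ),
    kink s (fun j => potM η (s j)) i = 2 * η.real {s i}

/-- The statement of `pot_top`. -/
def StPT : Prop := ∀ {s : ℤ → ℝ} {η : Measure ℝ} (_ : Nice s η),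
    Tendsto (fun y => potM η y - (η.real univ * y - ∫ z, z ∂η)) atTop (𝓝 0)

/-- The statement of `pot_bot`. -/
def StPB : Prop := ∀ {s : ℤ → ℝ} {η : Measure ℝ} (_ : Nice s η),
    Tendsto (fun y => potM η y - (-(η.real univ * y) + ∫ z, z ∂η)) atBot (𝓝 0)

/-- The statement of `pot_of_kink`. -/
def StPO : Prop := ∀ {s : ℤ → ℝ} (_ : Enum s) {lam κ : Measure ℝ} (_ : Nice s lam)
    (_ : Nice s κ) (h : ℤ → ℝ) (_ : ∀ i, kink s h i = 2 * lam.real {s i})
    (_ : Tendsto (fun i => h i - potM κ (s i)) atTop (𝓝 0))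
    (_ : Tendsto (fun i => h i - potM κ (s i)) atBot (𝓝 0)),
    (∀ i, h i = potM lam (s i)) ∧ lam.real univ = κ.real univ ∧
      ∫ z, z ∂lam = ∫ z, z ∂κ

/-- The statement of `cx_of_pot`. -/
def StCP : Prop := ∀ {s : ℤ → ℝ} (_ : Enum s) {η θ : Measure ℝ} (_ : Nice s η) (_ : Nice s θ)
    (_ : η univ = θ univ) (_ : ∫ z, z ∂η = ∫ z, z ∂θ)
    (_ : ∀ i, potM η (s i) ≤ potM θ (s i)), Cx η θ

/-- The statement of `pot_of_cx`. -/
def StPC : Prop := ∀ {s : ℤ → ℝ} {η θ : Measure ℝ} (_ : Nice s η) (_ : Nice s θ) (_ : Cx η θ),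
    η univ = θ univ ∧ ∫ z, z ∂η = ∫ z, z ∂θ ∧ ∀ y, potM η y ≤ potM θ y

/-! ## Measures on the range of `s` -/

theorem nice_le {η ν : Measure ℝ} (hν : Nice s ν) (h : η ≤ ν) : Nice s η := by
  have := hν.fin
  refine ⟨isFiniteMeasure_of_le ν h, hν.int.mono_measure h, ?_⟩
  exact le_antisymm ((h _).trans_eq hν.car) (zero_le)

theorem sub_add {η ν : Measure ℝ} (hν : Nice s ν) (h : η ≤ ν) : (ν - η) + η = ν := by
  have := (nice_le hν h).fin
  exact Measure.sub_add_cancel_of_le h

theorem sub_le {η ν : Measure ℝ} : ν - η ≤ ν := Measure.sub_le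

theorem nice_sub {η ν : Measure ℝ} (hν : Nice s ν) : Nice s (ν - η) := nice_le hν sub_le

theorem integrable_abs {η : Measure ℝ} (hη : Nice s η) (y : ℝ) :
    Integrable (fun z : ℝ => |z - y|) η := by
  have := hη.fin
  exact (hη.int.sub (integrable_const y)).abs

theorem int_sub {η ν : Measure ℝ} (hν : Nice s ν) (h : η ≤ ν) {F : ℝ → ℝ}
    (hF : Integrable F ν) : ∫ z, F z ∂(ν - η) = ∫ z, F z ∂ν - ∫ z, F z ∂η := by
  have h1 : ∫ z, F z ∂ν = ∫ z, F z ∂(ν - η) + ∫ z, F z ∂η := by
    rw [← integral_add_measure (hF.mono_measure sub_le) (hF.mono_measure h), sub_add hν h]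
  linarith

theorem pot_sub {η ν : Measure ℝ} (hν : Nice s ν) (h : η ≤ ν) (y : ℝ) :
    potM (ν - η) y = potM ν y - potM η y := int_sub hν h (integrable_abs hν y)

theorem real_sub {η ν : Measure ℝ} (hν : Nice s ν) (h : η ≤ ν) (A : Set ℝ)
    : (ν - η).real A = ν.real A - η.real A := by
  have h0 := hν.fin
  have h1 := (nice_le hν h).fin
  have h2 : ν.real A = (ν - η).real A + η.real A := by
    have h3 : IsFiniteMeasure (ν - η) := (nice_sub hν).fin
    rw [← measureReal_add_apply, sub_add hν h]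
  linarith

theorem le_of_points {η ν : Measure ℝ} (hη : η (range s)ᶜ = 0)
    (h : ∀ i, η {s i} ≤ ν {s i}) : η ≤ ν := by
  have hinj : ∀ A : Set ℝ, A ∩ range s ⊆ ⋃ y : range s, A ∩ {(y : ℝ)} := by
    rintro A x ⟨hx, hxs⟩
    exact mem_iUnion.2 ⟨⟨x, hxs⟩, hx, rfl⟩
  have hc : Countable (range s) := (countable_range s).to_subtype
  have hp : ∀ (A : Set ℝ) (y : range s), η (A ∩ {(y : ℝ)}) ≤ ν (A ∩ {(y : ℝ)}) := by
    rintro A ⟨y, i, rfl⟩
    by_cases hy : s i ∈ A
    · rw [inter_eq_right.2 (singleton_subset_iff.2 hy)]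
      exact h i
    · rw [inter_singleton_eq_empty.2 hy]
      simp
  refine Measure.le_iff.2 fun A hA => ?_
  calc η A ≤ η (A ∩ range s) + η (A ∩ (range s)ᶜ) := measure_le_inter_add_sdiff _ _ _
    _ ≤ η (A ∩ range s) + 0 := by
        gcongr
        exact (measure_mono inter_subset_right).trans_eq hη
    _ = η (A ∩ range s) := add_zero _
    _ ≤ η (⋃ y : range s, A ∩ {(y : ℝ)}) := measure_mono (hinj A)
    _ ≤ ∑' y : range s, η (A ∩ {(y : ℝ)}) := measure_iUnion_le _
    _ ≤ ∑' y : range s, ν (A ∩ {(y : ℝ)}) := ENNReal.tsum_le_tsum fun y => hp A y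
    _ = ν (⋃ y : range s, A ∩ {(y : ℝ)}) := by
        refine (measure_iUnion ?_ fun y => hA.inter (measurableSet_singleton _)).symm
        intro y y' hyy
        refine (disjoint_singleton.2 fun h => hyy (Subtype.ext h)).mono inter_subset_right
          inter_subset_right
    _ ≤ ν A := measure_mono (iUnion_subset fun y => inter_subset_left)

/-- The measure with masses `w i / 2` at `s i`. -/
noncomputable def pm (s w : ℤ → ℝ) : Measure ℝ :=
  Measure.sum fun i : ℤ => ENNReal.ofReal (w i / 2) • Measure.dirac (s i)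

theorem pm_point (hs : StrictMono s) (w : ℤ → ℝ) (i : ℤ) :
    pm s w {s i} = ENNReal.ofReal (w i / 2) := by
  rw [pm, Measure.sum_apply _ (measurableSet_singleton _), tsum_eq_single i]
  · simp
  · intro j hj
    have h1 : s j ∉ ({s i} : Set ℝ) := fun h => hj (hs.injective h)
    simp [Measure.dirac_apply' _ (measurableSet_singleton _), h1]

theorem pm_car (w : ℤ → ℝ) : pm s w (range s)ᶜ = 0 := by
  rw [pm, Measure.sum_apply _ (countable_range s).measurableSet.compl]
  refine ENNReal.tsum_eq_zero.2 fun i => ?_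
  have h1 : s i ∉ (range s)ᶜ := fun h => h (mem_range_self i)
  simp [Measure.dirac_apply' _ (countable_range s).measurableSet.compl, h1]

/-! ## Kinks -/

theorem kink_sub (f g : ℤ → ℝ) (i : ℤ) :
    kink s (fun j => f j - g j) i = kink s f i - kink s g i := by
  unfold kink
  ring

theorem kink_add (f g : ℤ → ℝ) (i : ℤ) :
    kink s (fun j => f j + g j) i = kink s f i + kink s g i := by
  unfold kink
  ring

theorem kink_le (hs : StrictMono s) {f g : ℤ → ℝ} (h : ∀ i, f i ≤ g i) {i : ℤ}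
    (hi : f i = g i) : kink s f i ≤ kink s g i := by
  have h1 : 0 < s (i + 1) - s i := sub_pos.2 (hs (by omega))
  have h2 : 0 < s i - s (i - 1) := sub_pos.2 (hs (by omega))
  unfold kink
  have h3 : (f (i + 1) - f i) / (s (i + 1) - s i) ≤ (g (i + 1) - g i) / (s (i + 1) - s i) :=
    div_le_div_of_nonneg_right (by have := h (i + 1); linarith) h1.le
  have h4 : (g i - g (i - 1)) / (s i - s (i - 1)) ≤ (f i - f (i - 1)) / (s i - s (i - 1)) :=
    div_le_div_of_nonneg_right (by have := h (i - 1); linarith) h2.le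
  linarith

/-! ## One shadow -/

/-- The properties of the hull. -/
structure IsHull (s f g h : ℤ → ℝ) : Prop where
  conv : DConv s h
  ge : ∀ i, g i ≤ h i
  le : ∀ i, h i ≤ f i
  alt : ∀ i, kink s h i = 0 ∨ h i = f i
  max : ∀ h' : ℤ → ℝ, DConv s h' → (∀ i, h' i ≤ f i) → ∀ i, h' i ≤ h i

section

variable (hs : Enum s) {μ ν : Measure ℝ} (hμ : Nice s μ) (hν : Nice s ν)

include hs hμ hν

theorem exists_hull (PK : StPK) (PC : StPC) (h : Cx μ ν) (η : Measure ℝ) (hη : η ≤ μ) :
    ∃ H : ℤ → ℝ, IsHull s (fun i => potM ν (s i) - potM η (s i))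
      (fun i => potM (μ - η) (s i)) H := by
  obtain ⟨H, h1, h2, h3, h4, h5⟩ := hull hs.mono (fun i => potM ν (s i) - potM η (s i))
    (fun i => potM (μ - η) (s i)) (fun i => by
      rw [PK hs (nice_sub hμ) i]
      positivity) (fun i => by
      rw [pot_sub hμ hη]
      have := (PC hμ hν h).2.2 (s i)
      linarith)
  exact ⟨H, h1, h2, h3, h4, h5⟩

variable {η : Measure ℝ} {H : ℤ → ℝ}

theorem kink_hull (PK : StPK) (hη : η ≤ μ)
    (hH : IsHull s (fun i => potM ν (s i) - potM η (s i)) (fun i => potM (μ - η) (s i)) H)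
    (i : ℤ) : kink s H i ≤ 2 * ν.real {s i} := by
  rcases hH.alt i with h0 | h0
  · rw [h0]
    positivity
  · refine (kink_le hs.mono hH.le h0).trans ?_
    rw [kink_sub, PK hs hν, PK hs (nice_le hμ hη)]
    have : 0 ≤ η.real {s i} := measureReal_nonneg
    linarith

theorem pm_le (PK : StPK) (hη : η ≤ μ)
    (hH : IsHull s (fun i => potM ν (s i) - potM η (s i)) (fun i => potM (μ - η) (s i)) H) :
    pm s (kink s H) ≤ ν := by
  have := hν.fin
  refine le_of_points (s := s) (pm_car _) fun i => ?_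
  rw [pm_point hs.mono, ENNReal.ofReal_le_iff_le_toReal (measure_ne_top _ _)]
  have h1 := kink_hull hs hμ hν PK hη hH i
  rw [Measure.real] at h1
  linarith

theorem pm_pot (PK : StPK) (PT : StPT) (PB : StPB) (PO : StPO) (PC : StPC) (h : Cx μ ν)
    (hη : η ≤ μ)
    (hH : IsHull s (fun i => potM ν (s i) - potM η (s i)) (fun i => potM (μ - η) (s i)) H) :
    (∀ i, H i = potM (pm s (kink s H)) (s i)) ∧
      (pm s (kink s H)).real univ = (μ - η).real univ ∧
      ∫ z, z ∂(pm s (kink s H)) = ∫ z, z ∂(μ - η) := by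
  have hle := pm_le hs hμ hν PK hη hH
  have hC := PC hμ hν h
  have hm : μ.real univ = ν.real univ := by rw [Measure.real, Measure.real, hC.1]
  have h0 : ∀ i, 0 ≤ H i - potM (μ - η) (s i) := fun i => sub_nonneg.2 (hH.ge i)
  have h1 : ∀ i, H i - potM (μ - η) (s i) ≤ potM ν (s i) - potM μ (s i) := fun i => by
    have := hH.le i
    rw [pot_sub hμ hη]
    linarith
  refine PO hs (nice_le hν hle) (nice_sub hμ) H (fun i => ?_) ?_ ?_
  · have h2 : (pm s (kink s H)).real {s i} = kink s H i / 2 := by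
      rw [Measure.real, pm_point hs.mono, ENNReal.toReal_ofReal]
      exact div_nonneg (hH.conv i) (by norm_num)
    rw [h2]
    ring
  · refine tendsto_of_tendsto_of_tendsto_of_le_of_le tendsto_const_nhds ?_ h0 h1
    have h2 := ((PT hν).sub (PT hμ)).comp hs.top
    rw [sub_zero] at h2
    refine h2.congr fun i => ?_
    simp only [Function.comp_apply]
    rw [hm, hC.2.1]
    ring
  · refine tendsto_of_tendsto_of_tendsto_of_le_of_le tendsto_const_nhds ?_ h0 h1
    have h2 := ((PB hν).sub (PB hμ)).comp hs.bot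
    rw [sub_zero] at h2
    refine h2.congr fun i => ?_
    simp only [Function.comp_apply]
    rw [hm, hC.2.1]
    ring

theorem isShadow (PK : StPK) (PT : StPT) (PB : StPB) (PO : StPO) (CP : StCP) (PC : StPC)
    (h : Cx μ ν) (hη : η ≤ μ)
    (hH : IsHull s (fun i => potM ν (s i) - potM η (s i)) (fun i => potM (μ - η) (s i)) H) :
    IsShadow ν η (ν - pm s (kink s H)) := by
  have hle := pm_le hs hμ hν PK hη hH
  obtain ⟨hp, hmass, hbar⟩ := pm_pot hs hμ hν PK PT PB PO PC h hη hH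
  have hC := PC hμ hν h
  have hm : μ.real univ = ν.real univ := by rw [Measure.real, Measure.real, hC.1]
  have hηn := nice_le hμ hη
  have hθn : Nice s (ν - pm s (kink s H)) := nice_sub hν
  have e1 : (ν - pm s (kink s H)).real univ = η.real univ := by
    rw [real_sub hν hle univ, hmass, real_sub hμ hη univ, hm]
    ring
  have f1 := hηn.fin
  have f2 := hθn.fin
  have e2 : η univ = (ν - pm s (kink s H)) univ :=
    ((measureReal_eq_measureReal_iff (measure_ne_top _ _) (measure_ne_top _ _)).1 e1).symm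
  have e3 : ∫ z, z ∂η = ∫ z, z ∂(ν - pm s (kink s H)) := by
    rw [int_sub hν hle hν.int, hbar, int_sub hμ hη hμ.int, hC.2.1]
    ring
  have e4 : ∀ i, potM (ν - pm s (kink s H)) (s i) = potM ν (s i) - H i := fun i => by
    rw [pot_sub hν hle, hp i]
  refine ⟨sub_le, CP hs hηn hθn e2 e3 fun i => ?_, fun θ' hθ' hc => ?_⟩
  · rw [e4]
    have := hH.le i
    linarith
  · have hn' := nice_le hν hθ'
    have hC' := PC hηn hn' hc
    refine CP hs hθn hn' (e2.symm.trans hC'.1) (e3.symm.trans hC'.2.1) fun i => ?_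
    rw [e4]
    have h1 := hH.max (fun i => potM (ν - θ') (s i)) (fun i => by
      rw [PK hs (nice_sub hν) i]
      positivity) (fun i => by
      rw [pot_sub hν hθ']
      have := hC'.2.2 (s i)
      linarith) i
    simp only [pot_sub hν hθ'] at h1
    linarith

theorem mono_shadow (PK : StPK) {η₁ η₂ : Measure ℝ} {H₁ H₂ : ℤ → ℝ} (h12 : η₁ ≤ η₂)
    (hη : η₂ ≤ μ)
    (hH₁ : IsHull s (fun i => potM ν (s i) - potM η₁ (s i)) (fun i => potM (μ - η₁) (s i)) H₁)
    (hH₂ : IsHull s (fun i => potM ν (s i) - potM η₂ (s i)) (fun i => potM (μ - η₂) (s i)) H₂) :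
    ν - pm s (kink s H₁) ≤ ν - pm s (kink s H₂) := by
  have hn2 := nice_le hμ hη
  have hd : ∀ i, potM (η₂ - η₁) (s i) = potM η₂ (s i) - potM η₁ (s i) := fun i =>
    pot_sub hn2 h12 _
  have hk : ∀ i, 0 ≤ kink s (fun j => potM (η₂ - η₁) (s j)) i := fun i => by
    rw [PK hs (nice_sub hn2) i]
    positivity
  have h1 : ∀ i, H₂ i + potM (η₂ - η₁) (s i) ≤ H₁ i := hH₁.max _ (fun i => by
    rw [kink_add]
    exact add_nonneg (hH₂.conv i) (hk i)) (fun i => by
    have := hH₂.le i
    rw [hd]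
    linarith)
  have h2 : ∀ i, kink s H₂ i ≤ kink s H₁ i := by
    intro i
    rcases hH₂.alt i with h0 | h0
    · rw [h0]
      exact hH₁.conv i
    · have h3 : H₂ i + potM (η₂ - η₁) (s i) = H₁ i := by
        refine le_antisymm (h1 i) ?_
        have := hH₁.le i
        rw [hd, h0]
        linarith
      have h4 := kink_le hs.mono h1 h3
      rw [kink_add] at h4
      have := hk i
      linarith
  have h3 : pm s (kink s H₂) ≤ pm s (kink s H₁) := by
    refine le_of_points (s := s) (pm_car _) fun i => ?_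
    rw [pm_point hs.mono, pm_point hs.mono]
    exact ENNReal.ofReal_le_ofReal (div_le_div_of_nonneg_right (h2 i) (by norm_num))
  have hl1 := pm_le hs hμ hν PK (h12.trans hη) hH₁
  have hl2 := pm_le hs hμ hν PK hη hH₂
  have f1 := (nice_le hν hl1).fin
  have f2 := (nice_le hν hl2).fin
  refine Measure.le_iff.2 fun A hA => ?_
  rw [Measure.sub_apply hA hl1, Measure.sub_apply hA hl2]
  exact tsub_le_tsub_left (h3 A) _

theorem shadows67 (PK : StPK) (PT : StPT) (PB : StPB) (PO : StPO) (CP : StCP) (PC : StPC)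
    (h : Cx μ ν) : ∃ sh : Measure ℝ → Measure ℝ, (∀ η, η ≤ μ → IsShadow ν η (sh η)) ∧
      ∀ η₁ η₂, η₁ ≤ η₂ → η₂ ≤ μ → sh η₁ ≤ sh η₂ := by
  have h0 : ∀ η : Measure ℝ, ∃ H : ℤ → ℝ, η ≤ μ →
      IsHull s (fun i => potM ν (s i) - potM η (s i)) (fun i => potM (μ - η) (s i)) H := by
    intro η
    by_cases hη : η ≤ μ
    · obtain ⟨H, hH⟩ := exists_hull hs hμ hν PK PC h η hη
      exact ⟨H, fun _ => hH⟩
    · exact ⟨fun _ => 0, fun h => absurd h hη⟩
  choose H hH using h0
  exact ⟨fun η => ν - pm s (kink s (H η)), fun η hη =>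
    isShadow hs hμ hν PK PT PB PO CP PC h hη (hH η hη), fun η₁ η₂ h12 h2 =>
    mono_shadow hs hμ hν PK h12 h2 (hH η₁ (h12.trans h2)) (hH η₂ h2)⟩

end

end Shad67

end LimCurt
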