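import Pool.Agent.Lib.MP_b499b5_pr.Rows23

/-!
# Row SHORT: short stays at a point (helper14)
-/

set_option autoImplicit false

namespace LimCurt

open MeasureTheory Filter Topology Set

namespace Short14

variable {Q : ℕ} {m : ℕ → ProbabilityMeasure ℝ} {Pr : Measure (ℕ → ℝ)}

/-- The paths that enter `y` at step `k + 1` and are there until step `l`. -/
def aa (y : ℝ) (k l : ℕ) : Set (ℕ → ℝ) := {ω | ω k ≠ y ∧ ∀ j, k + 1 ≤ j → j ≤ l → ω j = y}

theorem mk (h : MChain Q m Pr) (y : ℝ) {k l : ℕ} (hkl : k + 1 ≤ l) {B : Set ℝ}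
    (hB : MeasurableSet B) :
    Pr.real {ω | ω ∈ aa y k l ∧ ω (l + 1) ∈ B} * Pr.real {ω | ω l = y} =
      Pr.real (aa y k l) * Pr.real {ω | ω l = y ∧ ω (l + 1) ∈ B} := by
  let A : Set (Fin (l + 1) → ℝ) :=
    {v | v ⟨k, by omega⟩ ≠ y} ∩ ⋂ j : Fin (l + 1), {v | k + 1 ≤ (j : ℕ) → v j = y}
  have hA : MeasurableSet A := by
    refine MeasurableSet.inter ?_ (MeasurableSet.iInter fun j => ?_)
    · exact (measurableSet_singleton y).compl.preimage (measurable_pi_apply _)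
    · by_cases hj : k + 1 ≤ (j : ℕ)
      · have : {v : Fin (l + 1) → ℝ | k + 1 ≤ (j : ℕ) → v j = y} = (fun v => v j) ⁻¹' {y} := by
          ext v
          simp [hj]
        rw [this]
        exact (measurableSet_singleton y).preimage (measurable_pi_apply _)
      · have : {v : Fin (l + 1) → ℝ | k + 1 ≤ (j : ℕ) → v j = y} = univ := by
          ext v
          simp [hj]
        rw [this]
        exact MeasurableSet.univ
  have hAm : ∀ ω : ℕ → ℝ, (fun j : Fin (l + 1) => ω j) ∈ A ↔ ω ∈ aa y k l := by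
    intro ω
    simp only [A, aa, mem_inter_iff, mem_ofPred_eq, mem_iInter]
    constructor
    · rintro ⟨h1, h2⟩
      exact ⟨h1, fun j h3 h4 => h2 ⟨j, by omega⟩ h3⟩
    · rintro ⟨h1, h2⟩
      exact ⟨h1, fun j h3 => h2 j h3 (by have := j.2; omega)⟩
  have h1 := h.markov l A hA B hB y
  have h2 : {ω : ℕ → ℝ | (fun j : Fin (l + 1) => ω j) ∈ A ∧ ω l = y ∧ ω (l + 1) ∈ B} =
      {ω | ω ∈ aa y k l ∧ ω (l + 1) ∈ B} := by
    ext ω
    simp only [mem_ofPred_eq, hAm]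
    exact ⟨fun h => ⟨h.1, h.2.2⟩, fun h => ⟨h.1, h.1.2 l hkl le_rfl, h.2⟩⟩
  have h3 : {ω : ℕ → ℝ | (fun j : Fin (l + 1) => ω j) ∈ A ∧ ω l = y} = aa y k l := by
    ext ω
    simp only [mem_ofPred_eq, hAm]
    exact ⟨fun h => h.1, fun h => ⟨h, h.2 l hkl le_rfl⟩⟩
  rw [h2, h3] at h1
  have h4 := congrArg ENNReal.toReal h1
  rw [ENNReal.toReal_mul, ENNReal.toReal_mul] at h4
  exact h4

theorem aa_le (h : MChain Q m Pr) (y : ℝ) {k l : ℕ} (hkl : k + 1 ≤ l) :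
    Pr.real (aa y k l) ≤ Pr.real {ω | ω l = y} := by
  have := h.prob
  exact measureReal_mono fun ω hω => hω.2 l hkl le_rfl

/-- The chance to stay until `l` is at most the quotient of the masses. -/
theorem stay (h : MChain Q m Pr) (y : ℝ) (k : ℕ) : ∀ l, k + 1 ≤ l →
    Pr.real (aa y k l) * Pr.real {ω | ω (k + 1) = y} ≤
      Pr.real (aa y k (k + 1)) * Pr.real {ω | ω l = y} := by
  have := h.prob
  refine Nat.le_induction (by exact le_rfl) fun l hl ih => ?_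
  by_cases h0 : Pr.real {ω | ω l = y} = 0
  · have h1 : Pr.real (aa y k (l + 1)) ≤ 0 := by
      rw [← h0]
      exact measureReal_mono fun ω hω => hω.2 l hl (Nat.le_succ l)
    have h2 : Pr.real (aa y k (l + 1)) = 0 := le_antisymm h1 measureReal_nonneg
    rw [h2, zero_mul]
    exact mul_nonneg measureReal_nonneg measureReal_nonneg
  · have hpos : 0 < Pr.real {ω | ω l = y} := lt_of_le_of_ne measureReal_nonneg (Ne.symm h0)
    have h1 := mk h y hl (measurableSet_singleton y)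
    have h2 : {ω | ω ∈ aa y k l ∧ ω (l + 1) ∈ ({y} : Set ℝ)} = aa y k (l + 1) := by
      ext ω
      simp only [aa, mem_ofPred_eq, mem_singleton_iff]
      constructor
      · rintro ⟨⟨h3, h4⟩, h5⟩
        refine ⟨h3, fun j h6 h7 => ?_⟩
        rcases Nat.lt_or_ge l j with h8 | h8
        · have : j = l + 1 := by omega
          rw [this, h5]
        · exact h4 j h6 h8
      · rintro ⟨h3, h4⟩
        exact ⟨⟨h3, fun j h6 h7 => h4 j h6 (by omega)⟩, h4 (l + 1) (by omega) le_rfl⟩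
    rw [h2] at h1
    have h3 : Pr.real {ω | ω l = y ∧ ω (l + 1) ∈ ({y} : Set ℝ)} ≤ Pr.real {ω | ω (l + 1) = y} :=
      measureReal_mono fun ω hω => hω.2
    have h4 : 0 ≤ Pr.real (aa y k l) := measureReal_nonneg
    have h5 : 0 ≤ Pr.real (aa y k (k + 1)) := measureReal_nonneg
    have h6 : 0 ≤ Pr.real {ω | ω l = y ∧ ω (l + 1) ∈ ({y} : Set ℝ)} := measureReal_nonneg
    have h7 : 0 ≤ Pr.real {ω | ω (k + 1) = y} := measureReal_nonneg
    refine le_of_mul_le_mul_right ?_ hpos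
    calc Pr.real (aa y k (l + 1)) * Pr.real {ω | ω (k + 1) = y} * Pr.real {ω | ω l = y}
        = (Pr.real (aa y k (l + 1)) * Pr.real {ω | ω l = y}) * Pr.real {ω | ω (k + 1) = y} := by
          ring
      _ = Pr.real (aa y k l) * Pr.real {ω | ω (k + 1) = y} *
          Pr.real {ω | ω l = y ∧ ω (l + 1) ∈ ({y} : Set ℝ)} := by
          rw [h1]
          ring
      _ ≤ Pr.real (aa y k (k + 1)) * Pr.real {ω | ω l = y} *
          Pr.real {ω | ω l = y ∧ ω (l + 1) ∈ ({y} : Set ℝ)} :=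
          mul_le_mul_of_nonneg_right ih h6
      _ ≤ Pr.real (aa y k (k + 1)) * Pr.real {ω | ω l = y} * Pr.real {ω | ω (l + 1) = y} :=
          mul_le_mul_of_nonneg_left h3 (mul_nonneg h5 hpos.le)
      _ = Pr.real (aa y k (k + 1)) * Pr.real {ω | ω (l + 1) = y} * Pr.real {ω | ω l = y} := by
          ring

/-- The chance to leave after step `l`. -/
theorem leave (h : MChain Q m Pr) (y : ℝ) {k l : ℕ} (hkl : k + 1 ≤ l) :
    Pr.real {ω | ω ∈ aa y k l ∧ ω (l + 1) ≠ y} * Pr.real {ω | ω (k + 1) = y} ≤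
      Pr.real (aa y k (k + 1)) * Pr.real {ω | ω l = y ∧ ω (l + 1) ≠ y} := by
  have := h.prob
  by_cases h0 : Pr.real {ω | ω l = y} = 0
  · have h1 : Pr.real {ω | ω ∈ aa y k l ∧ ω (l + 1) ≠ y} ≤ 0 := by
      rw [← h0]
      exact measureReal_mono fun ω hω => hω.1.2 l hkl le_rfl
    have h2 : Pr.real {ω | ω ∈ aa y k l ∧ ω (l + 1) ≠ y} = 0 :=
      le_antisymm h1 measureReal_nonneg
    rw [h2, zero_mul]
    exact mul_nonneg measureReal_nonneg measureReal_nonneg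
  · have hpos : 0 < Pr.real {ω | ω l = y} := lt_of_le_of_ne measureReal_nonneg (Ne.symm h0)
    have h1 := mk h y hkl (measurableSet_singleton y).compl
    have h2 := stay h y k l hkl
    have h6 : 0 ≤ Pr.real {ω | ω l = y ∧ ω (l + 1) ∈ ({y}ᶜ : Set ℝ)} := measureReal_nonneg
    refine le_of_mul_le_mul_right ?_ hpos
    show Pr.real {ω | ω ∈ aa y k l ∧ ω (l + 1) ∈ ({y}ᶜ : Set ℝ)} *
        Pr.real {ω | ω (k + 1) = y} * Pr.real {ω | ω l = y} ≤
      Pr.real (aa y k (k + 1)) * Pr.real {ω | ω l = y ∧ ω (l + 1) ∈ ({y}ᶜ : Set ℝ)} *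
        Pr.real {ω | ω l = y}
    calc Pr.real {ω | ω ∈ aa y k l ∧ ω (l + 1) ∈ ({y}ᶜ : Set ℝ)} *
        Pr.real {ω | ω (k + 1) = y} * Pr.real {ω | ω l = y}
        = (Pr.real {ω | ω ∈ aa y k l ∧ ω (l + 1) ∈ ({y}ᶜ : Set ℝ)} * Pr.real {ω | ω l = y}) *
          Pr.real {ω | ω (k + 1) = y} := by ring
      _ = Pr.real (aa y k l) * Pr.real {ω | ω (k + 1) = y} *
          Pr.real {ω | ω l = y ∧ ω (l + 1) ∈ ({y}ᶜ : Set ℝ)} := by
          rw [h1]
          ring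
      _ ≤ Pr.real (aa y k (k + 1)) * Pr.real {ω | ω l = y} *
          Pr.real {ω | ω l = y ∧ ω (l + 1) ∈ ({y}ᶜ : Set ℝ)} :=
          mul_le_mul_of_nonneg_right h2 h6
      _ = _ := by ring

end Short14

/-- Row SHORT. -/
theorem short {Q : ℕ} {m : ℕ → ProbabilityMeasure ℝ} {Pr : Measure (ℕ → ℝ)} (h : MChain Q m Pr)
    (y : ℝ) (k L : ℕ) :
    Pr.real {ω | ω k ≠ y ∧ ω (k + 1) = y ∧ ∃ l, k + 1 ≤ l ∧ l < L ∧
        (∀ j, k + 1 ≤ j → j ≤ l → ω j = y) ∧ ω (l + 1) ≠ y} ≤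
      Pr.real {ω | ω k ≠ y ∧ ω (k + 1) = y} *
        min 1 ((∑ l ∈ Finset.Ico (k + 1) L, Pr.real {ω | ω l = y ∧ ω (l + 1) ≠ y}) /
          Pr.real {ω | ω (k + 1) = y}) := by
  have := h.prob
  set E : Set (ℕ → ℝ) := {ω | ω k ≠ y ∧ ω (k + 1) = y ∧ ∃ l, k + 1 ≤ l ∧ l < L ∧
        (∀ j, k + 1 ≤ j → j ≤ l → ω j = y) ∧ ω (l + 1) ≠ y} with hE
  have haa : Short14.aa y k (k + 1) = {ω | ω k ≠ y ∧ ω (k + 1) = y} := by
    ext ω
    simp only [Short14.aa, mem_ofPred_eq]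
    constructor
    · rintro ⟨h1, h2⟩
      exact ⟨h1, h2 (k + 1) le_rfl le_rfl⟩
    · rintro ⟨h1, h2⟩
      refine ⟨h1, fun j h3 h4 => ?_⟩
      have : j = k + 1 := by omega
      rw [this, h2]
  have h1 : Pr.real E ≤ Pr.real {ω | ω k ≠ y ∧ ω (k + 1) = y} :=
    measureReal_mono fun ω hω => ⟨hω.1, hω.2.1⟩
  have h2 : Pr.real E ≤ ∑ l ∈ Finset.Ico (k + 1) L,
      Pr.real {ω | ω ∈ Short14.aa y k l ∧ ω (l + 1) ≠ y} := by
    refine le_trans (measureReal_mono (?_ : E ⊆ ⋃ l ∈ Finset.Ico (k + 1) L,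
      {ω | ω ∈ Short14.aa y k l ∧ ω (l + 1) ≠ y}) (measure_ne_top _ _))
      (measureReal_biUnion_finset_le _ _)
    rintro ω ⟨h3, _, l, h4, h5, h6, h7⟩
    exact mem_biUnion (Finset.mem_Ico.2 ⟨h4, h5⟩) ⟨⟨h3, h6⟩, h7⟩
  have h3 : Pr.real E * Pr.real {ω | ω (k + 1) = y} ≤
      Pr.real {ω | ω k ≠ y ∧ ω (k + 1) = y} *
        ∑ l ∈ Finset.Ico (k + 1) L, Pr.real {ω | ω l = y ∧ ω (l + 1) ≠ y} := by
    refine (mul_le_mul_of_nonneg_right h2 measureReal_nonneg).trans ?_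
    rw [Finset.sum_mul, Finset.mul_sum]
    refine Finset.sum_le_sum fun l hl => ?_
    rw [← haa]
    exact Short14.leave h y (Finset.mem_Ico.1 hl).1
  by_cases h0 : Pr.real {ω | ω (k + 1) = y} = 0
  · have h4 : Pr.real E ≤ 0 := by
      rw [← h0]
      exact measureReal_mono fun ω hω => hω.2.1
    refine h4.trans ?_
    rw [h0, div_zero, min_eq_right zero_le_one, mul_zero]
  · have hpos : 0 < Pr.real {ω | ω (k + 1) = y} := lt_of_le_of_ne measureReal_nonneg (Ne.symm h0)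
    rw [mul_min_of_nonneg _ _ measureReal_nonneg, mul_one]
    refine le_min h1 ?_
    rw [← mul_div_assoc, le_div_iff₀ hpos]
    exact h3

end LimCurt
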