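import Pool.Agent.Lib.MP_b499b5_pr.Rows23

/-!
Step paths: they are cadlag and depend continuously on the parameters.
-/

set_option autoImplicit false

namespace LimCurt

open MeasureTheory Filter Topology Set

namespace Step37

/-- the number of jumps until `t` -/
noncomputable def cnt {n : ℕ} (τ : Fin n → ℝ) (t : ℝ) : ℕ :=
  (Finset.univ.filter fun i => τ i ≤ t).card

theorem cnt_lt {n : ℕ} (τ : Fin n → ℝ) (t : ℝ) : cnt τ t < n + 1 :=
  Nat.lt_succ_of_le ((Finset.card_filter_le _ _).trans_eq (by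
      rw [Finset.card_univ, Fintype.card_fin]))

theorem stepFn_ne (z : Z) {t : I} (ht : t ≠ 1) :
    stepFn z t = z.2.2.1 ⟨cnt z.2.1.1 t, cnt_lt _ _⟩ := if_neg ht

theorem stepFn_one (z : Z) : stepFn z 1 = z.2.2.2 := if_pos rfl

theorem cnt_congr {n : ℕ} {τ τ' : Fin n → ℝ} {t t' : ℝ} (h : ∀ i, τ i ≤ t ↔ τ' i ≤ t') :
    cnt τ t = cnt τ' t' := by
  unfold cnt
  congr 1
  exact Finset.filter_congr fun i _ => h i

/-- the tent -/
noncomputable def tent (w a t : ℝ) : ℝ := max (1 - |t - a| / w) 0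

theorem tent_lip {w : ℝ} (hw : 0 < w) (a s t : ℝ) : |tent w a t - tent w a s| ≤ |t - s| / w := by
  unfold tent
  refine (abs_max_sub_max_le_abs _ _ _).trans ?_
  have h1 : 1 - |t - a| / w - (1 - |s - a| / w) = (|s - a| - |t - a|) / w := by ring
  rw [h1, abs_div, abs_of_pos hw]
  refine div_le_div_of_nonneg_right ?_ hw.le
  refine (abs_abs_sub_abs_le (s - a) (t - a)).trans_eq ?_
  rw [abs_sub_comm t s]
  congr 1
  ring

theorem tent_self (w a : ℝ) : tent w a a = 1 := by
  unfold tent
  rw [sub_self, abs_zero, zero_div, sub_zero]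
  exact max_eq_left zero_le_one

theorem tent_zero {w a t : ℝ} (hw : 0 < w) (h : w ≤ |t - a|) : tent w a t = 0 := by
  unfold tent
  refine max_eq_right ?_
  rw [sub_nonpos, le_div_iff₀ hw, one_mul]
  exact h

theorem tent_nonneg (w a t : ℝ) : 0 ≤ tent w a t := le_max_right _ _

theorem tent_le {w : ℝ} (hw : 0 < w) (a t : ℝ) : tent w a t ≤ 1 := by
  unfold tent
  refine max_le ?_ zero_le_one
  have : 0 ≤ |t - a| / w := div_nonneg (abs_nonneg _) hw.le
  linarith

/-- the change of time -/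
theorem time_change {n : ℕ} (a b : Fin n → ℝ) {w : ℝ} (hw : 0 < w)
    (hw0 : ∀ i, w ≤ a i) (hw1 : ∀ i, w ≤ 1 - a i) (hw2 : ∀ i j, i ≠ j → w ≤ |a i - a j|)
    (hab : ∑ i, |b i - a i| < w) :
    ∃ l : I ≃o I, (∀ t, |((l t : I) : ℝ) - t| ≤ ∑ i, |b i - a i|) ∧
      ∀ i (t : I), b i ≤ ((l t : I) : ℝ) ↔ a i ≤ (t : ℝ) := by
  set L : ℝ → ℝ := fun t => t + ∑ i, (b i - a i) * tent w (a i) t with hL
  have hdiff : ∀ s t, L t - L s = (t - s) + ∑ i, (b i - a i) * (tent w (a i) t - tent w (a i) s) := by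
    intro s t
    simp only [hL, mul_sub, Finset.sum_sub_distrib]
    ring
  have hmono : StrictMono L := by
    intro s t hst
    rw [← sub_pos, hdiff]
    have h1 : |∑ i, (b i - a i) * (tent w (a i) t - tent w (a i) s)| ≤
        (∑ i, |b i - a i|) * ((t - s) / w) := by
      refine (Finset.abs_sum_le_sum_abs _ _).trans ?_
      rw [Finset.sum_mul]
      refine Finset.sum_le_sum fun i _ => ?_
      rw [abs_mul]
      refine mul_le_mul_of_nonneg_left ?_ (abs_nonneg _)
      refine (tent_lip hw _ _ _).trans_eq ?_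
      rw [abs_of_pos (sub_pos.2 hst)]
    have h2 : (∑ i, |b i - a i|) * ((t - s) / w) < w * ((t - s) / w) :=
      mul_lt_mul_of_pos_right hab (div_pos (sub_pos.2 hst) hw)
    have h3 : w * ((t - s) / w) = t - s := by
      field_simp
    have h4 := neg_abs_le (∑ i, (b i - a i) * (tent w (a i) t - tent w (a i) s))
    linarith
  have hcont : Continuous L := by
    refine continuous_id.add (continuous_finsetSum _ fun i _ => continuous_const.mul ?_)
    unfold tent
    exact (continuous_const.sub (((continuous_id.sub continuous_const).abs).div_const _)).max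
      continuous_const
  have h0 : L 0 = 0 := by
    simp only [hL]
    rw [zero_add]
    refine Finset.sum_eq_zero fun i _ => ?_
    rw [tent_zero hw, mul_zero]
    rw [zero_sub, abs_neg]
    exact (hw0 i).trans (le_abs_self _)
  have h1 : L 1 = 1 := by
    simp only [hL]
    rw [add_eq_left]
    refine Finset.sum_eq_zero fun i _ => ?_
    rw [tent_zero hw, mul_zero]
    exact (hw1 i).trans (le_abs_self _)
  have hLa : ∀ i, L (a i) = b i := by
    intro i
    simp only [hL]
    rw [Finset.sum_eq_single i, tent_self, mul_one]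
    · ring
    · intro j _ hj
      rw [tent_zero hw (hw2 i j hj.symm), mul_zero]
    · intro h
      exact absurd (Finset.mem_univ _) h
  let l0 : I → I := fun t => ⟨L t, by
    have := hmono.monotone t.2.1
    rw [h0] at this
    exact this, by
    have := hmono.monotone t.2.2
    rw [h1] at this
    exact this⟩
  have hl0 : StrictMono l0 := fun s t hst => hmono hst
  have hsurj : Function.Surjective l0 := by
    intro y
    have h2 := intermediate_value_Icc (zero_le_one : (0 : ℝ) ≤ 1) hcont.continuousOn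
    rw [h0, h1] at h2
    obtain ⟨t, ht, hty⟩ := h2 y.2
    exact ⟨⟨t, ht⟩, Subtype.ext hty⟩
  refine ⟨hl0.orderIsoOfSurjective l0 hsurj, fun t => ?_, fun i t => ?_⟩
  · change |L t - t| ≤ _
    have h2 : L t - t = ∑ i, (b i - a i) * tent w (a i) t := by
      simp only [hL]
      ring
    rw [h2]
    refine (Finset.abs_sum_le_sum_abs _ _).trans (Finset.sum_le_sum fun i _ => ?_)
    rw [abs_mul, abs_of_nonneg (tent_nonneg _ _ _)]
    exact mul_le_of_le_one_right (abs_nonneg _) (tent_le hw _ _)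
  · change b i ≤ L t ↔ _
    rw [← hLa i]
    exact hmono.le_iff_le

theorem exists_w {n : ℕ} (a : Fin n → ℝ) (ha : StrictMono a) (h01 : ∀ i, a i ∈ Ioo (0 : ℝ) 1) :
    ∃ w : ℝ, 0 < w ∧ (∀ i, w ≤ a i) ∧ (∀ i, w ≤ 1 - a i) ∧ ∀ i j, i ≠ j → w ≤ |a i - a j| := by
  have h1 : ∀ᶠ w in 𝓝[>] (0 : ℝ), ∀ i, w ≤ a i := eventually_all.2 fun i => by
    filter_upwards [Ioo_mem_nhdsGT (h01 i).1] with w hw
    exact hw.2.le
  have h2 : ∀ᶠ w in 𝓝[>] (0 : ℝ), ∀ i, w ≤ 1 - a i := eventually_all.2 fun i => by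
    filter_upwards [Ioo_mem_nhdsGT (sub_pos.2 (h01 i).2)] with w hw
    exact hw.2.le
  have h3 : ∀ᶠ w in 𝓝[>] (0 : ℝ), ∀ i j, i ≠ j → w ≤ |a i - a j| :=
    eventually_all.2 fun i => eventually_all.2 fun j => by
      by_cases hij : i = j
      · exact Eventually.of_forall fun w h => absurd hij h
      · filter_upwards [Ioo_mem_nhdsGT
          (abs_pos.2 (sub_ne_zero.2 fun h => hij (ha.injective h)))] with w hw _
        exact hw.2.le
  obtain ⟨w, ⟨⟨h4, h5⟩, h6⟩, h7⟩ := (((h1.and h2).and h3).and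
    (self_mem_nhdsWithin : Ioi (0 : ℝ) ∈ 𝓝[>] (0 : ℝ))).exists
  exact ⟨w, h7, h4, h5, h6⟩

end Step37

open Step37

theorem stepFn_cadlag (z : Z) : IsCadlag (stepFn z) := by
  constructor
  · intro t
    by_cases ht : t = 1
    · subst ht
      have h1 : Ici (1 : I) = {1} := by
        ext s
        constructor
        · intro h
          exact le_antisymm s.2.2 h
        · rintro rfl
          exact (le_rfl : (1 : I) ≤ 1)
      rw [h1]
      exact continuousWithinAt_singleton
    · have ht1 : (t : ℝ) < 1 := lt_of_le_of_ne t.2.2 fun h => ht (Subtype.ext h)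
      have h1 : ∀ᶠ s : I in 𝓝[≥] t, ∀ i, z.2.1.1 i ≤ (s : ℝ) ↔ z.2.1.1 i ≤ (t : ℝ) := by
        refine eventually_all.2 fun i => ?_
        by_cases h : z.2.1.1 i ≤ (t : ℝ)
        · filter_upwards [self_mem_nhdsWithin] with s hs
          exact ⟨fun _ => h, fun _ => h.trans hs⟩
        · have h2 : ∀ᶠ s : I in 𝓝 t, (s : ℝ) < z.2.1.1 i :=
            (continuous_subtype_val.tendsto t).eventually (gt_mem_nhds (not_le.1 h))
          filter_upwards [nhdsWithin_le_nhds h2] with s hs
          exact ⟨fun h3 => absurd hs (not_lt.2 h3), fun h3 => absurd h3 h⟩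
      have h2 : ∀ᶠ s : I in 𝓝[≥] t, s ≠ 1 := by
        have h3 : ∀ᶠ s : I in 𝓝 t, (s : ℝ) < 1 :=
          (continuous_subtype_val.tendsto t).eventually (gt_mem_nhds ht1)
        filter_upwards [nhdsWithin_le_nhds h3] with s hs
        rintro rfl
        exact lt_irrefl _ hs
      have h3 : ∀ᶠ s : I in 𝓝[≥] t, stepFn z s = stepFn z t := by
        filter_upwards [h1, h2] with s hs hs1
        rw [stepFn_ne z hs1, stepFn_ne z ht]
        exact congrArg z.2.2.1 (Fin.ext (cnt_congr hs))
      exact tendsto_const_nhds.congr' (h3.mono fun s hs => hs.symm)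
  · intro t
    have h1 : ∀ᶠ s : I in 𝓝[<] t, ∀ i, z.2.1.1 i ≤ (s : ℝ) ↔ z.2.1.1 i < (t : ℝ) := by
      refine eventually_all.2 fun i => ?_
      by_cases h : z.2.1.1 i < (t : ℝ)
      · have h2 : ∀ᶠ s : I in 𝓝 t, z.2.1.1 i < (s : ℝ) :=
          (continuous_subtype_val.tendsto t).eventually (lt_mem_nhds h)
        filter_upwards [nhdsWithin_le_nhds h2] with s hs
        exact ⟨fun _ => h, fun _ => hs.le⟩
      · filter_upwards [self_mem_nhdsWithin] with s hs
        refine ⟨fun h3 => absurd (lt_of_le_of_lt h3 ?_) h, fun h3 => absurd h3 h⟩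
        exact hs
    refine ⟨z.2.2.1 ⟨(Finset.univ.filter fun i => z.2.1.1 i < (t : ℝ)).card,
      Nat.lt_succ_of_le ((Finset.card_filter_le _ _).trans_eq (by
        rw [Finset.card_univ, Fintype.card_fin]))⟩, ?_⟩
    have h3 : ∀ᶠ s : I in 𝓝[<] t, z.2.2.1 ⟨(Finset.univ.filter fun i => z.2.1.1 i < (t : ℝ)).card,
      Nat.lt_succ_of_le ((Finset.card_filter_le _ _).trans_eq (by
        rw [Finset.card_univ, Fintype.card_fin]))⟩ = stepFn z s := by
      filter_upwards [h1, self_mem_nhdsWithin] with s hs hst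
      have hs1 : s ≠ 1 := by
        rintro rfl
        exact absurd (lt_of_lt_of_le hst t.2.2) (lt_irrefl (1 : I))
      rw [stepFn_ne z hs1]
      refine congrArg z.2.2.1 (Fin.ext ?_)
      change (Finset.univ.filter fun i => z.2.1.1 i < (t : ℝ)).card =
        (Finset.univ.filter fun i => z.2.1.1 i ≤ (s : ℝ)).card
      rw [Finset.filter_congr fun i _ => (hs i).symm]
    exact tendsto_const_nhds.congr' h3

/-- The map from the parameters to the Skorokhod space. -/
noncomputable def stp (z : Z) : D := ⟨stepFn z, stepFn_cadlag z⟩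

theorem continuous_stp : Continuous stp := by
  change Continuous (fun z : (Σ n : ℕ, Tn n × (Fin (n + 1) → ℝ) × ℝ) => stp z)
  rw [continuous_sigma_iff]
  intro n
  rw [continuous_iff_continuousAt]
  intro z0
  rw [ContinuousAt, (nhds_basis_uniformity uniformity_basis).tendsto_right_iff]
  intro ε hε
  obtain ⟨w, hw, hw0, hw1, hw2⟩ := exists_w z0.1.1 z0.1.2.1 z0.1.2.2
  have c1 : Continuous fun z : Tn n × (Fin (n + 1) → ℝ) × ℝ => ∑ i, |z.1.1 i - z0.1.1 i| := by
    refine continuous_finsetSum _ fun i _ => ?_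
    have h1 : Continuous fun z : Tn n × (Fin (n + 1) → ℝ) × ℝ => z.1.1 i :=
      (continuous_apply i).comp ((continuous_subtype_val : Continuous
        (Subtype.val : Tn n → (Fin n → ℝ))).comp continuous_fst)
    exact (h1.sub continuous_const).abs
  have e1 : ∀ᶠ z in 𝓝 z0, ∑ i, |z.1.1 i - z0.1.1 i| < min w ε := by
    refine c1.continuousAt.eventually_lt continuousAt_const ?_
    simp only [sub_self, abs_zero, Finset.sum_const_zero]
    exact lt_min hw hε
  have e2 : ∀ᶠ z in 𝓝 z0, ∀ j, |z.2.1 j - z0.2.1 j| < ε := by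
    refine eventually_all.2 fun j => ?_
    have h1 : Continuous fun z : Tn n × (Fin (n + 1) → ℝ) × ℝ => |z.2.1 j - z0.2.1 j| :=
      ((((continuous_apply j).comp (continuous_fst.comp continuous_snd))).sub
        continuous_const).abs
    refine h1.continuousAt.eventually_lt continuousAt_const ?_
    simp only [sub_self, abs_zero]
    exact hε
  have e3 : ∀ᶠ z in 𝓝 z0, |z.2.2 - z0.2.2| < ε := by
    have h1 : Continuous fun z : Tn n × (Fin (n + 1) → ℝ) × ℝ => |z.2.2 - z0.2.2| :=
      ((continuous_snd.comp continuous_snd).sub continuous_const).abs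
    refine h1.continuousAt.eventually_lt continuousAt_const ?_
    simp only [sub_self, abs_zero]
    exact hε
  filter_upwards [e1, e2, e3] with z h1 h2 h3
  obtain ⟨l, hl1, hl2⟩ := time_change z0.1.1 z.1.1 hw hw0 hw1 hw2 (h1.trans_le (min_le_left _ _))
  refine ⟨l, fun t => ⟨(hl1 t).trans_lt (h1.trans_le (min_le_right _ _)), ?_⟩⟩
  change |stepFn ⟨n, z⟩ (l t) - stepFn ⟨n, z0⟩ t| < ε
  by_cases ht : t = 1
  · subst ht
    have h4 : l 1 = 1 := l.map_top
    rw [h4, stepFn_one, stepFn_one]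
    exact h3
  · have h4 : l t ≠ 1 := by
      intro h5
      apply ht
      apply l.injective
      rw [h5]
      exact l.map_top.symm
    rw [stepFn_ne _ h4, stepFn_ne _ ht]
    have h5 : (⟨cnt z.1.1 (l t), cnt_lt _ _⟩ : Fin (n + 1)) = ⟨cnt z0.1.1 t, cnt_lt _ _⟩ :=
      Fin.ext (cnt_congr fun i => hl2 i t)
    have h6 := h2 ⟨cnt z0.1.1 t, cnt_lt _ _⟩
    rw [← h5] at h6
    rw [← h5]
    exact h6

end LimCurt
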